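import Pool.Agent.Lib.MP_431574_lc.Code

/-!
# A1b: limits of roots
-/

open Filter Topology

namespace Pool.Agent.SegDraw

namespace A1b

lemma root_bound {I : Finset ℕ} {c : ℕ → ℤ} (hc : ∃ i ∈ I, c i ≠ 0) {H : ℕ}
    (hH : ∑ i ∈ I, (c i).natAbs ≤ H) {y : ℝ} (hy : ∑ i ∈ I, (c i : ℝ) * y ^ i = 0) :
    |y| ≤ H + 1 ∧ (y ≠ 0 → 1 / ((H : ℝ) + 1) ≤ |y|) := by
  classical
  set J := I.filter fun i => c i ≠ 0 with hJ
  have hJne : J.Nonempty := by
    obtain ⟨i, hi, hci⟩ := hc
    exact ⟨i, Finset.mem_filter.2 ⟨hi, hci⟩⟩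
  have hsum : ∑ i ∈ J, (c i : ℝ) * y ^ i = 0 := by
    rw [hJ, Finset.sum_filter_of_ne]
    · exact hy
    · intro i _ hne h0
      exact hne (by rw [h0]; simp)
  have hHR : ∑ i ∈ J, |(c i : ℝ)| ≤ H := by
    have h1 : ∑ i ∈ J, (c i).natAbs ≤ H :=
      (Finset.sum_le_sum_of_subset (Finset.filter_subset _ _)).trans hH
    have h2 : ((∑ i ∈ J, (c i).natAbs : ℕ) : ℝ) ≤ H := by exact_mod_cast h1
    rw [Nat.cast_sum] at h2
    refine le_trans (Finset.sum_le_sum fun i _ => ?_) h2
    rw [Nat.cast_natAbs]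
    simp
  have hone : ∀ i ∈ J, (1 : ℝ) ≤ |(c i : ℝ)| := by
    intro i hi
    have h1 : c i ≠ 0 := (Finset.mem_filter.1 hi).2
    have h2 := Int.one_le_abs h1
    exact_mod_cast h2
  -- isolating one term
  have key : ∀ n ∈ J, ∀ r : ℝ, 0 ≤ r → (∀ i ∈ J, i ≠ n → |y| ^ i ≤ r) → |y| ^ n ≤ H * r := by
    intro n hn r hr h
    have h1 : (c n : ℝ) * y ^ n = - ∑ i ∈ J.erase n, (c i : ℝ) * y ^ i := by
      rw [← Finset.add_sum_erase _ _ hn] at hsum
      linarith
    have h2 : |(c n : ℝ)| * |y| ^ n ≤ ∑ i ∈ J.erase n, |(c i : ℝ)| * r := by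
      calc |(c n : ℝ)| * |y| ^ n = |(c n : ℝ) * y ^ n| := by rw [abs_mul, abs_pow]
        _ = |∑ i ∈ J.erase n, (c i : ℝ) * y ^ i| := by rw [h1, abs_neg]
        _ ≤ ∑ i ∈ J.erase n, |(c i : ℝ) * y ^ i| := Finset.abs_sum_le_sum_abs _ _
        _ ≤ ∑ i ∈ J.erase n, |(c i : ℝ)| * r := by
            refine Finset.sum_le_sum fun i hi => ?_
            rw [abs_mul, abs_pow]
            exact mul_le_mul_of_nonneg_left
              (h i (Finset.mem_of_mem_erase hi) (Finset.ne_of_mem_erase hi)) (abs_nonneg _)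
    rw [← Finset.sum_mul] at h2
    have h3 : ∑ i ∈ J.erase n, |(c i : ℝ)| ≤ H :=
      (Finset.sum_le_sum_of_subset_of_nonneg (Finset.erase_subset _ _)
        fun i _ _ => abs_nonneg _).trans hHR
    calc |y| ^ n ≤ |(c n : ℝ)| * |y| ^ n :=
          le_mul_of_one_le_left (by positivity) (hone n hn)
      _ ≤ (∑ i ∈ J.erase n, |(c i : ℝ)|) * r := h2
      _ ≤ H * r := mul_le_mul_of_nonneg_right h3 hr
  constructor
  · by_contra hcon
    push Not at hcon
    have h1 : 1 < |y| := by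
      have : (0 : ℝ) ≤ H := Nat.cast_nonneg _
      linarith
    set n := J.max' hJne with hn
    have hnJ : n ∈ J := Finset.max'_mem _ _
    rcases Nat.eq_zero_or_pos n with h0 | h0
    · have h2 := key n hnJ 0 le_rfl (fun i hi hin => by
        have := Finset.le_max' J i hi
        exact absurd (by omega) hin)
      rw [h0] at h2
      norm_num at h2
    · have h2 := key n hnJ (|y| ^ (n - 1)) (by positivity) (fun i hi hin => by
        have := Finset.le_max' J i hi
        exact pow_le_pow_right₀ h1.le (by omega))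
      have h3 : |y| ^ n = |y| * |y| ^ (n - 1) := by
        rw [← pow_succ']
        congr 1
        omega
      rw [h3] at h2
      have h4 : |y| ≤ H := le_of_mul_le_mul_right h2 (by positivity)
      linarith
  · intro hy0
    have hyp : 0 < |y| := abs_pos.2 hy0
    have hHp : (0 : ℝ) < (H : ℝ) + 1 := by positivity
    rcases le_or_gt |y| 1 with h1 | h1
    · set n := J.min' hJne with hn
      have hnJ : n ∈ J := Finset.min'_mem _ _
      have h2 := key n hnJ (|y| ^ (n + 1)) (by positivity) (fun i hi hin => by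
        have := Finset.min'_le J i hi
        exact pow_le_pow_of_le_one hyp.le h1 (by omega))
      rw [pow_succ, ← mul_assoc, mul_comm (H : ℝ), mul_assoc] at h2
      have h3 : 1 ≤ (H : ℝ) * |y| := by
        have h4 : |y| ^ n * 1 ≤ |y| ^ n * (H * |y|) := by rw [mul_one]; exact h2
        exact le_of_mul_le_mul_left h4 (by positivity)
      rw [div_le_iff₀ hHp]
      nlinarith
    · refine le_trans ?_ h1.le
      rw [div_le_one hHp]
      linarith [(Nat.cast_nonneg H : (0 : ℝ) ≤ H)]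

lemma coeff_limit {p : Polynomial ℤ} {d : ℕ} (hp : p.natDegree ≤ d) :
    Tendsto (fun s : ℝ => p.eval₂ (Int.castRingHom ℝ) s / s ^ d) atTop (𝓝 ((p.coeff d : ℤ) : ℝ)) := by
  have h1 : ∀ s : ℝ, p.eval₂ (Int.castRingHom ℝ) s / s ^ d =
      ∑ j ∈ Finset.range (d + 1), ((p.coeff j : ℤ) : ℝ) * (s ^ j / s ^ d) := by
    intro s
    rw [Polynomial.eval₂_eq_sum_range' _ (Nat.lt_succ_of_le hp), Finset.sum_div]
    refine Finset.sum_congr rfl fun j _ => ?_
    rw [mul_div_assoc]
    rfl
  simp only [h1]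
  have h2 : ((p.coeff d : ℤ) : ℝ) =
      ∑ j ∈ Finset.range (d + 1), ((p.coeff j : ℤ) : ℝ) * (if j = d then 1 else 0) := by
    simp
  rw [h2]
  refine tendsto_finsetSum _ fun j hj => ?_
  refine Tendsto.const_mul _ ?_
  by_cases hjd : j = d
  · rw [if_pos hjd, hjd]
    refine tendsto_const_nhds.congr' ?_
    filter_upwards [eventually_gt_atTop 0] with s hs
    rw [div_self (by positivity)]
  · rw [if_neg hjd]
    exact tendsto_pow_div_pow_atTop_zero (by
      have := Finset.mem_range.1 hj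
      omega)

end A1b

/-- A1b -/
theorem limit_root {F : Polynomial (Polynomial ℤ)} (hF : F.Monic) {H : ℕ} (hH : nrm F ≤ H)
    {s y : ℕ → ℝ} (hs : Filter.Tendsto s Filter.atTop Filter.atTop) {y₀ : ℝ}
    (hy : Filter.Tendsto y Filter.atTop (nhds y₀)) (h : ∀ k, aev2 F (s k) (y k) = 0) :
    |y₀| ≤ H + 1 ∧ (y₀ ≠ 0 → 1 / ((H : ℝ) + 1) ≤ |y₀|) := by
  classical
  have hne : F.support.Nonempty := by
    rw [Polynomial.support_nonempty]
    exact hF.ne_zero
  obtain ⟨i0, hi0, hd0⟩ := Finset.exists_mem_eq_sup F.support hne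
    (fun i => (F.coeff i).natDegree)
  set d := F.support.sup (fun i => (F.coeff i).natDegree) with hd
  have hdeg : ∀ i ∈ F.support, (F.coeff i).natDegree ≤ d := fun i hi =>
    Finset.le_sup (f := fun i => (F.coeff i).natDegree) hi
  refine A1b.root_bound (I := F.support) (c := fun i => (F.coeff i).coeff d) ⟨i0, hi0, ?_⟩ ?_ ?_
  · rw [hd0, Polynomial.coeff_natDegree]
    exact Polynomial.leadingCoeff_ne_zero.2 (Polynomial.mem_support_iff.1 hi0)
  · refine le_trans (Finset.sum_le_sum fun i _ => ?_) hH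
    by_cases hmem : d ∈ (F.coeff i).support
    · exact Finset.single_le_sum (f := fun j => ((F.coeff i).coeff j).natAbs)
        (fun _ _ => Nat.zero_le _) hmem
    · rw [Polynomial.notMem_support_iff.1 hmem]
      exact Nat.zero_le _
  · have h1 : Tendsto (fun k => ∑ i ∈ F.support,
        ((F.coeff i).eval₂ (Int.castRingHom ℝ) (s k) / (s k) ^ d) * (y k) ^ i) atTop
        (𝓝 (∑ i ∈ F.support, (((F.coeff i).coeff d : ℤ) : ℝ) * y₀ ^ i)) := by
      refine tendsto_finsetSum _ fun i hi => ?_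
      exact ((A1b.coeff_limit (hdeg i hi)).comp hs).mul (hy.pow i)
    have h2 : ∀ k, ∑ i ∈ F.support,
        ((F.coeff i).eval₂ (Int.castRingHom ℝ) (s k) / (s k) ^ d) * (y k) ^ i = 0 := by
      intro k
      have h3 : ∑ i ∈ F.support, (F.coeff i).eval₂ (Int.castRingHom ℝ) (s k) * (y k) ^ i = 0 := by
        have := h k
        unfold aev2 at this
        rw [Polynomial.eval₂_eq_sum, Polynomial.sum_def] at this
        exact this
      calc ∑ i ∈ F.support,
          ((F.coeff i).eval₂ (Int.castRingHom ℝ) (s k) / (s k) ^ d) * (y k) ^ i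
          = (∑ i ∈ F.support, (F.coeff i).eval₂ (Int.castRingHom ℝ) (s k) * (y k) ^ i) /
            (s k) ^ d := by
            rw [Finset.sum_div]
            refine Finset.sum_congr rfl fun i _ => ?_
            ring
        _ = 0 := by rw [h3, zero_div]
    simp only [h2] at h1
    exact (tendsto_nhds_unique h1 tendsto_const_nhds)

end Pool.Agent.SegDraw
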