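import Pool.Agent.Lib.MP_431574_lc.A1a
import Pool.Agent.Lib.MP_431574_lc.A1b

/-!
# A1: lower bound for positive polynomials, bound for zeros
-/

open Filter Topology

namespace Pool.Agent.SegDraw

namespace A1

open MvPolynomial

variable {N : ℕ}

lemma exists_min {f : (Fin N → ℝ) → ℝ} (hf : Continuous f) {B : ℝ}
    (hB : ∀ x, (∃ i, B < |x i|) → f 0 < f x) : ∃ x, ∀ y, f x ≤ f y := by
  obtain ⟨x, -, hx⟩ := (isCompact_closedBall (0 : Fin N → ℝ) (max B 0)).exists_isMinOn
    ⟨0, Metric.mem_closedBall_self (le_max_right _ _)⟩ hf.continuousOn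
  have h0 : f x ≤ f 0 := hx (Metric.mem_closedBall_self (le_max_right _ _))
  refine ⟨x, fun y => ?_⟩
  by_cases hy : y ∈ Metric.closedBall (0 : Fin N → ℝ) (max B 0)
  · exact hx hy
  · rw [mem_closedBall_zero_iff, pi_norm_le_iff_of_nonneg (le_max_right _ _)] at hy
    push Not at hy
    obtain ⟨i, hi⟩ := hy
    exact h0.trans (hB y ⟨i, (le_max_left B 0).trans_lt hi⟩).le

lemma continuous_aeval (p : MvPolynomial (Fin N) ℤ) :
    Continuous fun x : Fin N → ℝ => aeval x p := by
  induction p using MvPolynomial.induction_on with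
  | C a => simpa using continuous_const
  | add p q hp hq =>
    simp only [map_add]
    exact hp.add hq
  | mul_X p i hp =>
    simp only [map_mul, aeval_X]
    exact hp.mul (continuous_apply i)

lemma hasDerivAt_aeval (p : MvPolynomial (Fin N) ℤ) (x : Fin N → ℝ) (i : Fin N) (u : ℝ) :
    HasDerivAt (fun v => aeval (Function.update x i v) p)
      (aeval (Function.update x i u) (pderiv i p)) u := by
  induction p using MvPolynomial.induction_on with
  | C a => simpa using hasDerivAt_const u _
  | add p q hp hq =>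
    simp only [map_add]
    exact hp.add hq
  | mul_X p j hp =>
    have h1 : HasDerivAt (fun v => Function.update x i v j) (if j = i then 1 else 0) u := by
      by_cases hj : j = i
      · subst hj
        simp only [Function.update_self, if_true]
        exact hasDerivAt_id u
      · simpa [hj] using hasDerivAt_const u _
    simp only [map_mul, aeval_X]
    refine (hp.mul h1).congr_deriv ?_
    rw [Derivation.leibniz, pderiv_X]
    simp only [smul_eq_mul, map_add, map_mul, aeval_X]
    by_cases hj : j = i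
    · subst hj
      simp
      ring
    · simp [hj]
      ring

/-- the sum of the sixth powers -/
noncomputable def six (N : ℕ) : MvPolynomial (Fin N) ℤ := ∑ i, X i ^ 6

lemma aeval_six (x : Fin N → ℝ) : aeval x (six N) = ∑ i, x i ^ 6 := by
  unfold six
  simp

lemma six_nonneg (x : Fin N → ℝ) : 0 ≤ aeval x (six N) := by
  rw [aeval_six]
  exact Finset.sum_nonneg fun i _ => by positivity

lemma le_six (x : Fin N → ℝ) (i : Fin N) : x i ^ 6 ≤ aeval x (six N) := by
  rw [aeval_six]
  exact Finset.single_le_sum (f := fun i => x i ^ 6) (fun i _ => by positivity)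
    (Finset.mem_univ i)

lemma abs_le_pow_six {a b : ℝ} (h : 1 ≤ a) (hb : a < |b|) : a < b ^ 6 := by
  have h1 : b ^ 6 = |b| ^ 6 := by
    rw [← abs_pow, abs_of_nonneg (by positivity)]
  rw [h1]
  exact hb.trans_le (le_self_pow₀ (h.trans hb.le) (by norm_num))

/-- minimisers of the penalised polynomial -/
lemma exists_crit (g : MvPolynomial (Fin N) ℤ) (hnn : ∀ x : Fin N → ℝ, 0 ≤ aeval x g) {t : ℝ}
    (ht : 0 < t) : ∃ x : Fin N → ℝ,
      (∀ y : Fin N → ℝ, aeval x g + t * aeval x (six N) ≤ aeval y g + t * aeval y (six N)) ∧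
      ∀ i, x i ^ 5 = - (1 / (6 * t)) * aeval x (pderiv i g) := by
  have hcont : Continuous fun x : Fin N → ℝ => aeval x g + t * aeval x (six N) :=
    (continuous_aeval g).add (continuous_const.mul (continuous_aeval _))
  obtain ⟨x, hx⟩ := exists_min hcont
    (B := 1 + (aeval (0 : Fin N → ℝ) g + t * aeval (0 : Fin N → ℝ) (six N)) / t)
    (by
      rintro y ⟨i, hi⟩
      have hG : 0 ≤ aeval (0 : Fin N → ℝ) g + t * aeval (0 : Fin N → ℝ) (six N) :=
        add_nonneg (hnn 0) (mul_nonneg ht.le (six_nonneg 0))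
      have h1 := abs_le_pow_six (by
        have := div_nonneg hG ht.le
        linarith) hi
      have h2 := h1.trans_le (le_six y i)
      have h3 : (aeval (0 : Fin N → ℝ) g + t * aeval (0 : Fin N → ℝ) (six N)) / t <
          aeval y (six N) := by linarith
      rw [div_lt_iff₀ ht] at h3
      have h4 := hnn y
      linarith [mul_comm (aeval y (six N)) t])
  refine ⟨x, hx, fun i => ?_⟩
  have hd : HasDerivAt (fun v => aeval (Function.update x i v) g +
      t * aeval (Function.update x i v) (six N))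
      (aeval (Function.update x i (x i)) (pderiv i g) +
        t * aeval (Function.update x i (x i)) (pderiv i (six N))) (x i) :=
    (hasDerivAt_aeval g x i (x i)).add ((hasDerivAt_aeval (six N) x i (x i)).const_mul t)
  have hmin : IsLocalMin (fun v => aeval (Function.update x i v) g +
      t * aeval (Function.update x i v) (six N)) (x i) := by
    refine Filter.Eventually.of_forall fun v => ?_
    have := hx (Function.update x i v)
    simpa [Function.update_eq_self] using this
  have h0 := hmin.hasDerivAt_eq_zero hd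
  rw [Function.update_eq_self] at h0
  have h6 : aeval x (pderiv i (six N)) = 6 * x i ^ 5 := by
    unfold six
    rw [map_sum, map_sum, Finset.sum_eq_single i]
    · simp
    · intro j _ hj
      rw [Derivation.leibniz_pow, pderiv_X_of_ne hj]
      simp
    · intro h
      exact absurd (Finset.mem_univ i) h
  rw [h6] at h0
  field_simp
  linarith

lemma l1_add (p q : MvPolynomial (Fin N) ℤ) : l1 (p + q) ≤ l1 p + l1 q := by
  classical
  have h : ∀ (r : MvPolynomial (Fin N) ℤ) (s : Finset (Fin N →₀ ℕ)), r.support ⊆ s →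
      l1 r = ∑ m ∈ s, (r.coeff m).natAbs := by
    intro r s hs
    refine Finset.sum_subset hs fun m _ hm => ?_
    rw [notMem_support_iff.1 hm]
    rfl
  rw [h p (p.support ∪ q.support) Finset.subset_union_left,
    h q (p.support ∪ q.support) Finset.subset_union_right,
    h (p + q) (p.support ∪ q.support) support_add, ← Finset.sum_add_distrib]
  refine Finset.sum_le_sum fun m _ => ?_
  rw [coeff_add]
  exact Int.natAbs_add_le _ _

lemma l1_six : l1 (six N) ≤ N := by
  classical
  have h : ∀ s : Finset (Fin N), l1 (∑ i ∈ s, (X i ^ 6 : MvPolynomial (Fin N) ℤ)) ≤ s.card := by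
    intro s
    induction s using Finset.induction_on with
    | empty => simp [l1]
    | insert a s ha ih =>
      rw [Finset.sum_insert ha, Finset.card_insert_of_notMem ha, add_comm]
      refine (l1_add _ _).trans (Nat.add_le_add ih ?_)
      rw [X_pow_eq_monomial]
      unfold l1
      rw [support_monomial]
      simp
  have := h Finset.univ
  rwa [Finset.card_univ, Fintype.card_fin] at this

lemma deg_six : (six N).totalDegree ≤ 6 := by
  refine totalDegree_finsetSum_le fun i _ => ?_
  rw [totalDegree_X_pow]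

lemma tendsto_s : Tendsto (fun k : ℕ => 1 / (6 * (1 / ((k : ℝ) + 1)))) atTop atTop := by
  have h : (fun k : ℕ => 1 / (6 * (1 / ((k : ℝ) + 1)))) = fun k : ℕ => ((k : ℝ) + 1) * (1 / 6) := by
    funext k
    have : (0 : ℝ) < (k : ℝ) + 1 := by positivity
    field_simp
  rw [h]
  exact (tendsto_atTop_add_const_right _ _ tendsto_natCast_atTop_atTop).atTop_mul_const
    (by norm_num)

lemma H_le (B : ℕ) (hB : 1 ≤ B) : ((2 ^ (B - 1) : ℕ) : ℝ) + 1 ≤ 2 ^ B := by
  have h1 : 2 ^ B = 2 ^ (B - 1) * 2 := by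
    rw [← pow_succ]
    congr 1
    omega
  have h2 : 1 ≤ 2 ^ (B - 1) := Nat.one_le_two_pow
  have h3 : 2 ^ (B - 1) + 1 ≤ 2 ^ B := by omega
  exact_mod_cast h3

end A1

open MvPolynomial in
/-- A1 -/
theorem gap {N l : ℕ} (g : MvPolynomial (Fin N) ℤ) (hd : g.totalDegree ≤ 4) (hl : l1 g ≤ 2 ^ l)
    (hpos : ∀ x : Fin N → ℝ, 0 < aeval x g)
    (hco : ∀ R : ℝ, ∃ B : ℝ, ∀ x : Fin N → ℝ, (∃ i, B < |x i|) → R < aeval x g)
    (x : Fin N → ℝ) : (1 / 2 : ℝ) ^ 2 ^ bnd N l ≤ aeval x g := by
  obtain ⟨F, hF, hn, hz⟩ := annihilate g g hd hl (hd.trans (by norm_num))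
    (hl.trans (Nat.pow_le_pow_right (by norm_num) (by omega)))
  obtain ⟨B, hB⟩ := hco (aeval (0 : Fin N → ℝ) g)
  obtain ⟨m, hm⟩ := A1.exists_min (A1.continuous_aeval g) hB
  have ht : ∀ k : ℕ, (0 : ℝ) < 1 / ((k : ℝ) + 1) := fun k => by positivity
  choose z hz1 hz2 using fun k : ℕ => A1.exists_crit g (fun y => (hpos y).le) (ht k)
  have hlim : Tendsto (fun k => aeval (z k) g) atTop (𝓝 (aeval m g)) := by
    have h1 : Tendsto (fun k : ℕ => aeval m g + 1 / ((k : ℝ) + 1) * aeval m (A1.six N)) atTop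
        (𝓝 (aeval m g)) := by
      have := (tendsto_one_div_add_atTop_nhds_zero_nat (𝕜 := ℝ)).mul_const (aeval m (A1.six N))
      simpa using this.const_add (aeval m g)
    refine tendsto_of_tendsto_of_tendsto_of_le_of_le tendsto_const_nhds h1
      (fun k => hm (z k)) (fun k => ?_)
    have h2 := hz1 k m
    have h3 := mul_nonneg (ht k).le (A1.six_nonneg (z k))
    linarith
  have hroot := limit_root hF hn A1.tendsto_s hlim fun k => hz _ _ (hz2 k)
  have h1 := hroot.2 (hpos m).ne'
  rw [abs_of_pos (hpos m)] at h1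
  refine le_trans ?_ (h1.trans (hm x))
  rw [one_div, inv_pow, ← one_div]
  refine one_div_le_one_div_of_le (by positivity) ?_
  exact A1.H_le _ Nat.one_le_two_pow

open MvPolynomial in
/-- A1' -/
theorem small_zero {N l : ℕ} (g : MvPolynomial (Fin N) ℤ) (hd : g.totalDegree ≤ 4)
    (hl : l1 g ≤ 2 ^ l) (hnn : ∀ x : Fin N → ℝ, 0 ≤ aeval x g)
    (hz : ∃ x : Fin N → ℝ, aeval x g = 0) :
    ∃ x : Fin N → ℝ, aeval x g = 0 ∧ ∀ i, |x i| ≤ 2 ^ 2 ^ bnd N l := by
  have hN : N ≤ 2 ^ (l + N) := (Nat.lt_two_pow_self).le.trans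
    (Nat.pow_le_pow_right (by norm_num) (by omega))
  obtain ⟨F, hF, hn, hzF⟩ := annihilate g (A1.six N) hd hl A1.deg_six (A1.l1_six.trans hN)
  obtain ⟨m, hm⟩ := hz
  have ht : ∀ k : ℕ, (0 : ℝ) < 1 / ((k : ℝ) + 1) := fun k => by positivity
  choose z hz1 hz2 using fun k : ℕ => A1.exists_crit g hnn (ht k)
  have hg : ∀ k, aeval (z k) g ≤ 1 / ((k : ℝ) + 1) * aeval m (A1.six N) := by
    intro k
    have h2 := hz1 k m
    have h3 := mul_nonneg (ht k).le (A1.six_nonneg (z k))
    rw [hm] at h2
    linarith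
  have hsix : ∀ k, aeval (z k) (A1.six N) ≤ aeval m (A1.six N) := by
    intro k
    have h2 := hz1 k m
    rw [hm] at h2
    have h3 := hnn (z k)
    have h4 : 1 / ((k : ℝ) + 1) * aeval (z k) (A1.six N) ≤
        1 / ((k : ℝ) + 1) * aeval m (A1.six N) := by linarith
    exact le_of_mul_le_mul_left h4 (ht k)
  have hball : ∀ k, z k ∈ Metric.closedBall (0 : Fin N → ℝ) (1 + aeval m (A1.six N)) := by
    intro k
    have h0 : (0 : ℝ) ≤ 1 + aeval m (A1.six N) := by
      have := A1.six_nonneg m
      linarith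
    rw [mem_closedBall_zero_iff, pi_norm_le_iff_of_nonneg h0]
    intro i
    by_contra hcon
    have h1 := A1.abs_le_pow_six (by have := A1.six_nonneg m; linarith) (not_le.1 hcon)
    have h2 := A1.le_six (z k) i
    have h3 := hsix k
    linarith
  obtain ⟨w, -, φ, hφ, hw⟩ := (isCompact_closedBall (0 : Fin N → ℝ)
    (1 + aeval m (A1.six N))).tendsto_subseq hball
  have hgw : aeval w g = 0 := by
    have h1 : Tendsto (fun k => aeval (z (φ k)) g) atTop (𝓝 (aeval w g)) :=
      ((A1.continuous_aeval g).tendsto w).comp hw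
    have h2 : Tendsto (fun k : ℕ => 1 / (((φ k : ℕ) : ℝ) + 1) * aeval m (A1.six N)) atTop
        (𝓝 0) := by
      have := ((tendsto_one_div_add_atTop_nhds_zero_nat (𝕜 := ℝ)).comp hφ.tendsto_atTop).mul_const
        (aeval m (A1.six N))
      simpa using this
    exact le_antisymm (le_of_tendsto_of_tendsto h1 h2 (Eventually.of_forall fun k => hg (φ k)))
      (hnn w)
  have hlim : Tendsto (fun k => aeval (z (φ k)) (A1.six N)) atTop (𝓝 (aeval w (A1.six N))) :=
    ((A1.continuous_aeval _).tendsto w).comp hw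
  have hroot := limit_root hF hn (A1.tendsto_s.comp hφ.tendsto_atTop) hlim
    fun k => hzF _ _ (hz2 (φ k))
  refine ⟨w, hgw, fun i => ?_⟩
  by_contra hcon
  have h1 := A1.abs_le_pow_six (one_le_pow₀ (by norm_num)) (not_le.1 hcon)
  have h2 := A1.le_six w i
  have h3 := hroot.1
  rw [abs_of_nonneg (A1.six_nonneg w)] at h3
  have h4 := A1.H_le (2 ^ bnd N l) Nat.one_le_two_pow
  linarith

end Pool.Agent.SegDraw
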