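import Pool.Agent.Lib.MP_431574_lc.Code

/-!
# A1a: the annihilating polynomial
-/

namespace Pool.Agent.SegDraw
namespace A1a

/-! ### Sizes -/

/-- a size function on a ring -/
structure Size {R : Type*} [CommRing R] (ν : R → ℕ) : Prop where
  zero : ν 0 = 0
  add : ∀ a b, ν (a + b) ≤ ν a + ν b
  mul : ∀ a b, ν (a * b) ≤ ν a * ν b
  neg : ∀ a, ν (-a) = ν a
  one : ν 1 ≤ 1

section
variable {R : Type*} [CommRing R] {ν : R → ℕ}

lemma Size.sum (h : Size ν) {ι : Type*} (s : Finset ι) (f : ι → R) :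
    ν (∑ i ∈ s, f i) ≤ ∑ i ∈ s, ν (f i) := by
  classical
  induction s using Finset.induction_on with
  | empty => simp [h.zero]
  | insert a s ha ih =>
    rw [Finset.sum_insert ha, Finset.sum_insert ha]
    exact (h.add _ _).trans (Nat.add_le_add_left ih _)

lemma Size.prod (h : Size ν) {ι : Type*} (s : Finset ι) (f : ι → R) :
    ν (∏ i ∈ s, f i) ≤ ∏ i ∈ s, ν (f i) := by
  classical
  induction s using Finset.induction_on with
  | empty => simpa using h.one
  | insert a s ha ih =>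
    rw [Finset.prod_insert ha, Finset.prod_insert ha]
    exact (h.mul _ _).trans (Nat.mul_le_mul_left _ ih)

lemma Size.det (h : Size ν) {n : Type*} [Fintype n] [DecidableEq n] (M : Matrix n n R) {B : ℕ}
    (hB : ∀ i j, ν (M i j) ≤ B) : ν M.det ≤ (Fintype.card n * B) ^ Fintype.card n := by
  rw [Matrix.det_apply]
  refine (h.sum _ _).trans ?_
  have h1 : ∀ σ ∈ (Finset.univ : Finset (Equiv.Perm n)),
      ν (Equiv.Perm.sign σ • ∏ i, M (σ i) i) ≤ B ^ Fintype.card n := by
    intro σ _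
    have h2 : ν (Equiv.Perm.sign σ • ∏ i, M (σ i) i) = ν (∏ i, M (σ i) i) := by
      rcases Int.units_eq_one_or (Equiv.Perm.sign σ) with h3 | h3
      · rw [h3, one_smul]
      · rw [h3, Units.neg_smul, one_smul, h.neg]
    rw [h2]
    refine (h.prod _ _).trans ?_
    calc ∏ i, ν (M (σ i) i) ≤ ∏ _i : n, B := Finset.prod_le_prod' fun i _ => hB _ _
      _ = B ^ Fintype.card n := by rw [Finset.prod_const, Finset.card_univ]
  refine (Finset.sum_le_card_nsmul _ _ _ h1).trans ?_
  rw [Finset.card_univ, Fintype.card_perm, smul_eq_mul, Nat.mul_pow]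
  exact Nat.mul_le_mul_right _ (Nat.factorial_le_pow _)

end

open Polynomial

section
variable {R : Type*} [CommRing R] {ν : R → ℕ}

/-- sum of the sizes of the coefficients -/
noncomputable def P1 (ν : R → ℕ) (F : R[X]) : ℕ := F.support.sum fun i => ν (F.coeff i)

lemma P1_eq (h : Size ν) (F : R[X]) {s : Finset ℕ} (hs : F.support ⊆ s) :
    P1 ν F = ∑ i ∈ s, ν (F.coeff i) := by
  refine Finset.sum_subset hs fun i _ hi => ?_
  rw [notMem_support_iff.1 hi, h.zero]

lemma P1_zero (h : Size ν) : P1 ν (0 : R[X]) = 0 := by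
  rw [P1_eq h 0 (s := ∅) (by simp)]
  simp

lemma P1_add (h : Size ν) (F G : R[X]) : P1 ν (F + G) ≤ P1 ν F + P1 ν G := by
  classical
  rw [P1_eq h F (s := F.support ∪ G.support) Finset.subset_union_left,
    P1_eq h G (s := F.support ∪ G.support) Finset.subset_union_right,
    P1_eq h (F + G) (s := F.support ∪ G.support) support_add, ← Finset.sum_add_distrib]
  refine Finset.sum_le_sum fun i _ => ?_
  rw [coeff_add]
  exact h.add _ _

lemma P1_monomial (h : Size ν) (n : ℕ) (a : R) : P1 ν (monomial n a) = ν a := by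
  rw [P1_eq h _ (support_monomial_subset n a)]
  simp

lemma P1_sum (h : Size ν) {ι : Type*} (s : Finset ι) (f : ι → R[X]) :
    P1 ν (∑ i ∈ s, f i) ≤ ∑ i ∈ s, P1 ν (f i) := by
  classical
  induction s using Finset.induction_on with
  | empty => simp [P1_zero h]
  | insert a s ha ih =>
    rw [Finset.sum_insert ha, Finset.sum_insert ha]
    exact (P1_add h _ _).trans (Nat.add_le_add_left ih _)

lemma P1_mul (h : Size ν) (F G : R[X]) : P1 ν (F * G) ≤ P1 ν F * P1 ν G := by
  rw [mul_eq_sum_sum]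
  refine (P1_sum h _ _).trans ?_
  unfold P1 at *
  rw [Finset.sum_mul]
  refine Finset.sum_le_sum fun i _ => ?_
  rw [Finset.mul_sum, Polynomial.sum_def]
  refine (P1_sum h _ _).trans ?_
  refine Finset.sum_le_sum fun j _ => ?_
  rw [P1_monomial h]
  exact h.mul _ _

lemma P1_neg (h : Size ν) (F : R[X]) : P1 ν (-F) = P1 ν F := by
  unfold P1
  rw [support_neg]
  refine Finset.sum_congr rfl fun i _ => ?_
  rw [coeff_neg, h.neg]

lemma P1_one (h : Size ν) : P1 ν (1 : R[X]) ≤ 1 := by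
  rw [← monomial_zero_one, P1_monomial h]
  exact h.one

lemma P1_size (h : Size ν) : Size (P1 ν) :=
  ⟨P1_zero h, P1_add h, P1_mul h, P1_neg h, P1_one h⟩

end

lemma size_int : Size Int.natAbs :=
  ⟨rfl, Int.natAbs_add_le, fun a b => (Int.natAbs_mul a b).le, Int.natAbs_neg, le_rfl⟩

/-- size of a polynomial -/
noncomputable def n1 (F : ℤ[X]) : ℕ := P1 Int.natAbs F

lemma size_n1 : Size n1 := P1_size size_int

lemma nrm_eq (F : ℤ[X][X]) : nrm F = P1 n1 F := rfl

lemma size_nrm : Size nrm := P1_size size_n1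

/-- evaluation of the coefficients -/
noncomputable def ev (s : ℝ) : ℤ[X] →+* ℝ := eval₂RingHom (Int.castRingHom ℝ) s

/-! ### Representations -/

section
variable {N : ℕ}

/-- monomials -/
noncomputable def mon (x : Fin N → ℝ) (β : Fin N → ℕ) : ℝ := ∏ i, x i ^ β i

lemma mon_add (x : Fin N → ℝ) (β γ : Fin N → ℕ) : mon x β * mon x γ = mon x (β + γ) := by
  unfold mon
  rw [← Finset.prod_mul_distrib]
  refine Finset.prod_congr rfl fun i _ => ?_
  rw [Pi.add_apply, pow_add]

/-- the equations -/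
def Rel (g : MvPolynomial (Fin N) ℤ) (s : ℝ) (x : Fin N → ℝ) : Prop :=
  ∀ i, x i ^ 5 = - s * MvPolynomial.aeval x (MvPolynomial.pderiv i g)

/-- `f` is a combination of reduced monomials with coefficients of total size `≤ b` -/
def Rep (g : MvPolynomial (Fin N) ℤ) (f : ℝ → (Fin N → ℝ) → ℝ) (b : ℕ) : Prop :=
  ∃ R : (Fin N → Fin 5) → ℤ[X], (∑ α, n1 (R α) ≤ b) ∧
    ∀ s x, Rel g s x → f s x = ∑ α, ev s (R α) * mon x (fun i => (α i : ℕ))

variable {g : MvPolynomial (Fin N) ℤ} {f f' : ℝ → (Fin N → ℝ) → ℝ} {b b' : ℕ}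

lemma Rep.congr (h : Rep g f b) (hf : ∀ s x, Rel g s x → f' s x = f s x) (hb : b ≤ b') :
    Rep g f' b' := by
  obtain ⟨R, h1, h2⟩ := h
  exact ⟨R, h1.trans hb, fun s x hx => (hf s x hx).trans (h2 s x hx)⟩

lemma Rep.zero : Rep g (fun _ _ => 0) 0 :=
  ⟨fun _ => 0, by simp [size_n1.zero], fun s x _ => by simp⟩

lemma Rep.add (h : Rep g f b) (h' : Rep g f' b') : Rep g (fun s x => f s x + f' s x) (b + b') := by
  obtain ⟨R, h1, h2⟩ := h
  obtain ⟨R', h1', h2'⟩ := h'
  refine ⟨fun α => R α + R' α, ?_, fun s x hx => ?_⟩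
  · refine (Finset.sum_le_sum fun α _ => size_n1.add (R α) (R' α)).trans ?_
    rw [Finset.sum_add_distrib]
    exact Nat.add_le_add h1 h1'
  · beta_reduce
    rw [h2 s x hx, h2' s x hx, ← Finset.sum_add_distrib]
    refine Finset.sum_congr rfl fun α _ => ?_
    rw [map_add, add_mul]

lemma Rep.cmul (c : ℤ) (h : c ≠ 0 → Rep g f b) : Rep g (fun s x => c * f s x) (c.natAbs * b) := by
  by_cases hc : c = 0
  · subst hc
    exact Rep.zero.congr (fun s x _ => by simp) (Nat.zero_le _)
  obtain ⟨R, h1, h2⟩ := h hc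
  refine ⟨fun α => C c * R α, ?_, fun s x hx => ?_⟩
  · calc ∑ α, n1 (C c * R α) ≤ ∑ α, c.natAbs * n1 (R α) := by
          refine Finset.sum_le_sum fun α _ => (size_n1.mul _ _).trans ?_
          refine Nat.mul_le_mul_right _ (le_of_eq ?_)
          unfold n1
          rw [← monomial_zero_left, P1_monomial size_int]
      _ = c.natAbs * ∑ α, n1 (R α) := by rw [Finset.mul_sum]
      _ ≤ c.natAbs * b := Nat.mul_le_mul_left _ h1
  · beta_reduce
    rw [h2 s x hx, Finset.mul_sum]
    refine Finset.sum_congr rfl fun α _ => ?_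
    rw [map_mul, mul_assoc]
    congr 1
    unfold ev
    simp

lemma Rep.smul (h : Rep g f b) : Rep g (fun s x => s * f s x) b := by
  obtain ⟨R, h1, h2⟩ := h
  refine ⟨fun α => X * R α, ?_, fun s x hx => ?_⟩
  · refine (Finset.sum_le_sum fun α _ => ?_).trans h1
    refine (size_n1.mul _ _).trans ?_
    have : n1 (X : ℤ[X]) = 1 := by
      unfold n1
      rw [← monomial_one_one_eq_X, P1_monomial size_int]
      rfl
    rw [this, one_mul]
  · beta_reduce
    rw [h2 s x hx, Finset.mul_sum]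
    refine Finset.sum_congr rfl fun α _ => ?_
    rw [map_mul, mul_assoc]
    congr 1
    unfold ev
    simp

lemma Rep.sum {ι : Type*} (t : Finset ι) {F : ι → ℝ → (Fin N → ℝ) → ℝ} {B : ι → ℕ}
    (h : ∀ i ∈ t, Rep g (F i) (B i)) : Rep g (fun s x => ∑ i ∈ t, F i s x) (∑ i ∈ t, B i) := by
  classical
  induction t using Finset.induction_on with
  | empty => simpa using Rep.zero (g := g)
  | insert a t ha ih =>
    have h1 := (h a (Finset.mem_insert_self _ _)).add
      (ih fun i hi => h i (Finset.mem_insert_of_mem hi))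
    rw [Finset.sum_insert ha]
    exact h1.congr (fun s x _ => by rw [Finset.sum_insert ha]) le_rfl

lemma aeval_eq (x : Fin N → ℝ) (p : MvPolynomial (Fin N) ℤ) :
    MvPolynomial.aeval x p = ∑ m ∈ p.support, ((p.coeff m : ℤ) : ℝ) * mon x m := by
  rw [MvPolynomial.aeval_def, MvPolynomial.eval₂_eq']
  rfl

lemma aeval_pderiv (x : Fin N → ℝ) (i : Fin N) :
    MvPolynomial.aeval x (MvPolynomial.pderiv i g) =
      ∑ m ∈ g.support, ((g.coeff m * (m i : ℤ) : ℤ) : ℝ) * mon x (fun j => (m - Finsupp.single i 1 : Fin N →₀ ℕ) j)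
    := by
  conv_lhs => rw [g.as_sum]
  rw [map_sum, map_sum]
  refine Finset.sum_congr rfl fun m _ => ?_
  rw [MvPolynomial.pderiv_monomial, MvPolynomial.aeval_monomial, Finsupp.prod_fintype _ _ (by simp)]
  rfl

lemma sum_le_of_mem {p : MvPolynomial (Fin N) ℤ} {d : ℕ} (hp : p.totalDegree ≤ d)
    {m : Fin N →₀ ℕ} (hm : m ∈ p.support) : ∑ i, m i ≤ d := by
  have h1 := MvPolynomial.le_totalDegree hm
  rw [Finsupp.sum_fintype _ _ (by simp)] at h1
  exact h1.trans hp

lemma rep_mon {l : ℕ} (hg : g.totalDegree ≤ 4) (hl : l1 g ≤ 2 ^ l) :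
    ∀ n, ∀ β : Fin N → ℕ, ∑ i, β i ≤ n →
      Rep g (fun _ x => mon x β) ((2 ^ (l + 2)) ^ (n / 2)) := by
  intro n
  induction n using Nat.strong_induction_on with
  | _ n ih =>
  intro β hβ
  classical
  by_cases hsm : ∀ i, β i < 5
  · refine ⟨fun α => if α = (fun i => (⟨β i, hsm i⟩ : Fin 5)) then 1 else 0, ?_, fun s x _ => ?_⟩
    · rw [Finset.sum_eq_single (fun i => (⟨β i, hsm i⟩ : Fin 5))]
      · beta_reduce
        rw [if_pos rfl]
        exact size_n1.one.trans (Nat.one_le_pow _ _ (by positivity))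
      · intro α _ hα
        beta_reduce
        rw [if_neg hα, size_n1.zero]
      · intro h
        exact absurd (Finset.mem_univ _) h
    · rw [Finset.sum_eq_single (fun i => (⟨β i, hsm i⟩ : Fin 5))]
      · beta_reduce
        rw [if_pos rfl, map_one, one_mul]
      · intro α _ hα
        beta_reduce
        rw [if_neg hα, map_zero, zero_mul]
      · intro h
        exact absurd (Finset.mem_univ _) h
  push Not at hsm
  obtain ⟨i, hi⟩ := hsm
  set β' : Fin N → ℕ := Function.update β i (β i - 5) with hβ'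
  have hdeg : ∑ j, β' j + 5 = ∑ j, β j := by
    rw [← Finset.add_sum_erase _ _ (Finset.mem_univ i),
      ← Finset.add_sum_erase _ β (Finset.mem_univ i)]
    have h1 : ∑ j ∈ Finset.univ.erase i, β' j = ∑ j ∈ Finset.univ.erase i, β j := by
      refine Finset.sum_congr rfl fun j hj => ?_
      rw [hβ', Function.update_of_ne (Finset.ne_of_mem_erase hj)]
    rw [h1, hβ', Function.update_self]
    omega
  have hmon : ∀ x : Fin N → ℝ, mon x β = x i ^ 5 * mon x β' := by
    intro x
    unfold mon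
    rw [← Finset.mul_prod_erase _ _ (Finset.mem_univ i),
      ← Finset.mul_prod_erase _ (fun j => x j ^ β' j) (Finset.mem_univ i)]
    have h1 : ∏ j ∈ Finset.univ.erase i, x j ^ β' j = ∏ j ∈ Finset.univ.erase i, x j ^ β j := by
      refine Finset.prod_congr rfl fun j hj => ?_
      rw [hβ', Function.update_of_ne (Finset.ne_of_mem_erase hj)]
    rw [h1, hβ', Function.update_self, ← mul_assoc, ← pow_add]
    congr 2
    omega
  have hrep : ∀ m ∈ g.support, Rep g
      (fun _ x => ((g.coeff m * (m i : ℤ) : ℤ) : ℝ) *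
        mon x ((fun j => (m - Finsupp.single i 1 : Fin N →₀ ℕ) j) + β'))
      ((g.coeff m * (m i : ℤ) : ℤ).natAbs * (2 ^ (l + 2)) ^ ((n - 2) / 2)) := by
    intro m hm
    refine Rep.cmul _ fun hc => ?_
    have hmi : m i ≠ 0 := by
      intro h0
      exact hc (by rw [h0]; simp)
    have hms := sum_le_of_mem hg hm
    have hms' : ∑ j, (m - Finsupp.single i 1 : Fin N →₀ ℕ) j + 1 = ∑ j, m j := by
      rw [← Finset.add_sum_erase _ _ (Finset.mem_univ i),
        ← Finset.add_sum_erase _ (fun j => m j) (Finset.mem_univ i)]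
      have h1 : ∑ j ∈ Finset.univ.erase i, (m - Finsupp.single i 1 : Fin N →₀ ℕ) j =
          ∑ j ∈ Finset.univ.erase i, m j := by
        refine Finset.sum_congr rfl fun j hj => ?_
        rw [Finsupp.tsub_apply, Finsupp.single_eq_of_ne (Finset.ne_of_mem_erase hj)]
        rfl
      rw [h1, Finsupp.tsub_apply, Finsupp.single_eq_same]
      omega
    refine ih (n - 2) (by omega) _ ?_
    simp only [Pi.add_apply]
    rw [Finset.sum_add_distrib]
    omega
  have hsum := (Rep.sum g.support hrep).smul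
  have hfin : Rep g (fun s x => ((-1 : ℤ) : ℝ) * (s * ∑ m ∈ g.support,
      ((g.coeff m * (m i : ℤ) : ℤ) : ℝ) * mon x ((fun j => (m - Finsupp.single i 1 : Fin N →₀ ℕ) j) + β')))
      ((-1 : ℤ).natAbs * ∑ m ∈ g.support,
        ((g.coeff m * (m i : ℤ) : ℤ).natAbs * (2 ^ (l + 2)) ^ ((n - 2) / 2))) :=
    Rep.cmul (-1) fun _ => hsum
  refine hfin.congr (fun s x hx => ?_) ?_
  · rw [hmon, hx i, aeval_pderiv]
    simp only [← mon_add]
    rw [mul_assoc, Finset.sum_mul]
    push_cast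
    simp only [mul_assoc]
    ring
  · have h1 : ∑ m ∈ g.support,
        ((g.coeff m * (m i : ℤ) : ℤ).natAbs * (2 ^ (l + 2)) ^ ((n - 2) / 2)) ≤
        2 ^ (l + 2) * (2 ^ (l + 2)) ^ ((n - 2) / 2) := by
      rw [← Finset.sum_mul]
      refine Nat.mul_le_mul_right _ ?_
      calc ∑ m ∈ g.support, (g.coeff m * (m i : ℤ) : ℤ).natAbs
          ≤ ∑ m ∈ g.support, (g.coeff m).natAbs * 4 := by
            refine Finset.sum_le_sum fun m hm => ?_
            rw [Int.natAbs_mul, Int.natAbs_natCast]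
            refine Nat.mul_le_mul_left _ ?_
            have := sum_le_of_mem hg hm
            exact (Finset.single_le_sum (f := fun j => m j) (fun j _ => Nat.zero_le _)
              (Finset.mem_univ i)).trans this
        _ = l1 g * 4 := by rw [← Finset.sum_mul]; rfl
        _ ≤ 2 ^ l * 4 := Nat.mul_le_mul_right _ hl
        _ = 2 ^ (l + 2) := by rw [pow_add]; norm_num
    rw [Int.natAbs_neg, Int.natAbs_one, one_mul]
    refine h1.trans ?_
    rw [← pow_succ']
    refine Nat.pow_le_pow_right (by positivity) ?_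
    have : 5 ≤ n := by
      have := Finset.single_le_sum (f := β) (fun j _ => Nat.zero_le _) (Finset.mem_univ i)
      omega
    omega

lemma rep_row {p : MvPolynomial (Fin N) ℤ} {l : ℕ} (hg : g.totalDegree ≤ 4) (hl : l1 g ≤ 2 ^ l)
    (hp : p.totalDegree ≤ 6) (hlp : l1 p ≤ 2 ^ (l + N)) (α : Fin N → Fin 5) :
    Rep g (fun _ x => MvPolynomial.aeval x p * mon x (fun i => (α i : ℕ)))
      (2 ^ (l + N) * (2 ^ (l + 2)) ^ (2 * N + 3)) := by
  have h1 : ∀ m ∈ p.support, Rep g
      (fun _ x => ((p.coeff m : ℤ) : ℝ) * mon x ((fun i => m i) + fun i => (α i : ℕ)))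
      ((p.coeff m).natAbs * (2 ^ (l + 2)) ^ (2 * N + 3)) := by
    intro m hm
    refine Rep.cmul _ fun _ => ?_
    have h2 : ∑ i, ((fun i => m i) + fun i => (α i : ℕ)) i ≤ 4 * N + 6 := by
      simp only [Pi.add_apply]
      rw [Finset.sum_add_distrib]
      have h3 := sum_le_of_mem hp hm
      have h4 : ∑ i, (α i : ℕ) ≤ ∑ _i : Fin N, 4 :=
        Finset.sum_le_sum fun i _ => by have := (α i).isLt; omega
      rw [Finset.sum_const, Finset.card_univ, Fintype.card_fin, smul_eq_mul] at h4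
      omega
    have h3 := rep_mon hg hl (4 * N + 6) _ h2
    have h4 : (4 * N + 6) / 2 = 2 * N + 3 := by omega
    rwa [h4] at h3
  refine (Rep.sum p.support h1).congr (fun s x _ => ?_) ?_
  · rw [aeval_eq, Finset.sum_mul]
    refine Finset.sum_congr rfl fun m _ => ?_
    rw [← mon_add, mul_assoc]
  · rw [← Finset.sum_mul]
    exact Nat.mul_le_mul_right _ hlp

end

lemma numeric (N l : ℕ) : (5 ^ N * (2 ^ (l + N) * (2 ^ (l + 2)) ^ (2 * N + 3) + 1)) ^ (5 ^ N) ≤
    2 ^ (2 ^ bnd N l - 1) := by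
  have hQ : 5 ^ N ≤ 2 ^ (3 * N) := by
    rw [pow_mul]
    exact Nat.pow_le_pow_left (by norm_num) _
  have hB : 2 ^ (l + N) * (2 ^ (l + 2)) ^ (2 * N + 3) + 1 ≤
      2 ^ (l + N + (l + 2) * (2 * N + 3) + 1) := by
    rw [← pow_mul, ← pow_add, pow_succ 2 (l + N + (l + 2) * (2 * N + 3))]
    have : 1 ≤ 2 ^ (l + N + (l + 2) * (2 * N + 3)) := Nat.one_le_two_pow
    omega
  have h1 : 5 ^ N * (2 ^ (l + N) * (2 ^ (l + 2)) ^ (2 * N + 3) + 1) ≤
      2 ^ (3 * N + (l + N + (l + 2) * (2 * N + 3) + 1)) := by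
    rw [pow_add 2 (3 * N)]
    exact Nat.mul_le_mul hQ hB
  have h2 : (5 ^ N * (2 ^ (l + N) * (2 ^ (l + 2)) ^ (2 * N + 3) + 1)) ^ (5 ^ N) ≤
      2 ^ ((3 * N + (l + N + (l + 2) * (2 * N + 3) + 1)) * 5 ^ N) := by
    rw [pow_mul]
    exact Nat.pow_le_pow_left h1 _
  refine h2.trans (Nat.pow_le_pow_right (by norm_num) ?_)
  have h10 : bnd N l = 10 * (N + l + 1) := rfl
  obtain ⟨T, hT⟩ : ∃ T, T = N + l + 1 := ⟨_, rfl⟩
  rw [← hT] at h10
  have h3 : 3 * N + (l + N + (l + 2) * (2 * N + 3) + 1) ≤ 10 * T ^ 2 := by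
    have e1 : (l + 2) * (2 * N + 3) ≤ (2 * T) * (3 * T) :=
      Nat.mul_le_mul (by omega) (by omega)
    have e2 : T ≤ T ^ 2 := Nat.le_self_pow (by norm_num) T
    nlinarith
  have h4 : T ≤ 2 ^ T := Nat.lt_two_pow_self.le
  have h5 : 10 * T ^ 2 ≤ 2 ^ (2 * T + 4) := by
    calc 10 * T ^ 2 ≤ 16 * (2 ^ T) ^ 2 :=
          Nat.mul_le_mul (by norm_num) (Nat.pow_le_pow_left h4 2)
      _ = 2 ^ (2 * T + 4) := by
          rw [← pow_mul, mul_comm T 2, pow_add]
          norm_num
          ring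
  have h6 : (3 * N + (l + N + (l + 2) * (2 * N + 3) + 1)) * 5 ^ N ≤ 2 ^ (2 * T + 4 + 3 * N) := by
    rw [pow_add 2 (2 * T + 4)]
    exact Nat.mul_le_mul (h3.trans h5) hQ
  have h7 : 2 ^ (2 * T + 4 + 3 * N) ≤ 2 ^ (10 * T - 1) :=
    Nat.pow_le_pow_right (by norm_num) (by omega)
  have h8 : 2 ^ (10 * T) = 2 ^ (10 * T - 1) * 2 := by
    rw [← pow_succ]
    congr 1
    omega
  have h9 : 1 ≤ 2 ^ (10 * T - 1) := Nat.one_le_two_pow
  rw [h10]
  omega

end A1a

open MvPolynomial in
/-- A1a. `aev2 F s y` is the value at `(s, y)` of a polynomial in `y` over `ℤ[s]`, `nrm F` the sum of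
the absolute values of all its coefficients. -/
theorem annihilate {N l : ℕ} (g p : MvPolynomial (Fin N) ℤ) (hg : g.totalDegree ≤ 4)
    (hl : l1 g ≤ 2 ^ l) (hp : p.totalDegree ≤ 6) (hlp : l1 p ≤ 2 ^ (l + N)) :
    ∃ F : Polynomial (Polynomial ℤ), F.Monic ∧ nrm F ≤ 2 ^ (2 ^ bnd N l - 1) ∧
      ∀ (s : ℝ) (x : Fin N → ℝ), (∀ i, x i ^ 5 = - s * aeval x (pderiv i g)) →
        aev2 F s (aeval x p) = 0 := by
  classical
  choose R hR1 hR2 using A1a.rep_row hg hl hp hlp
  set M : Matrix (Fin N → Fin 5) (Fin N → Fin 5) (Polynomial ℤ) := Matrix.of R with hM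
  refine ⟨M.charpoly, M.charpoly_monic, ?_, fun s x hx => ?_⟩
  · have h1 : ∀ i j, nrm (M.charmatrix i j) ≤
        2 ^ (l + N) * (2 ^ (l + 2)) ^ (2 * N + 3) + 1 := by
      intro i j
      rw [Matrix.charmatrix_apply, sub_eq_add_neg, add_comm]
      refine (A1a.size_nrm.add _ _).trans (Nat.add_le_add ?_ ?_)
      · rw [A1a.size_nrm.neg, A1a.nrm_eq, ← Polynomial.monomial_zero_left,
          A1a.P1_monomial A1a.size_n1]
        exact (Finset.single_le_sum (f := fun α => A1a.n1 (R i α)) (fun _ _ => Nat.zero_le _)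
          (Finset.mem_univ j)).trans (hR1 i)
      · by_cases hij : i = j
        · rw [hij, Matrix.diagonal_apply_eq, A1a.nrm_eq, ← Polynomial.monomial_one_one_eq_X,
            A1a.P1_monomial A1a.size_n1]
          exact A1a.size_n1.one
        · rw [Matrix.diagonal_apply_ne _ hij, A1a.size_nrm.zero]
          exact Nat.zero_le _
    have h2 := A1a.size_nrm.det M.charmatrix h1
    have h3 : Fintype.card (Fin N → Fin 5) = 5 ^ N := by simp
    rw [h3] at h2
    exact h2.trans (A1a.numeric N l)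
  · set y : ℝ := aeval x p with hy
    set ψ : Polynomial (Polynomial ℤ) →+* ℝ := Polynomial.eval₂RingHom (A1a.ev s) y with hψ
    have h1 : aev2 M.charpoly s y = ψ M.charpoly := rfl
    rw [h1, Matrix.charpoly, RingHom.map_det]
    refine Matrix.exists_mulVec_eq_zero_iff.1
      ⟨fun α => A1a.mon x (fun i => (α i : ℕ)), fun h0 => ?_, ?_⟩
    · have := congrFun h0 (fun _ => 0)
      unfold A1a.mon at this
      simp at this
    · funext α
      have h2 := hR2 α s x hx
      beta_reduce at h2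
      rw [Matrix.mulVec, dotProduct, Pi.zero_apply]
      have h3 : ∀ α', (ψ.mapMatrix M.charmatrix) α α' =
          (if α = α' then y else 0) - A1a.ev s (R α α') := by
        intro α'
        rw [RingHom.mapMatrix_apply, Matrix.map_apply, Matrix.charmatrix_apply, map_sub]
        congr 1
        · by_cases h : α = α'
          · rw [if_pos h, h, Matrix.diagonal_apply_eq, hψ]
            simp
          · rw [if_neg h, Matrix.diagonal_apply_ne _ h, map_zero]
        · rw [hψ]
          simp [hM]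
      simp only [h3, sub_mul, ite_mul, zero_mul]
      rw [Finset.sum_sub_distrib, Finset.sum_ite_eq, if_pos (Finset.mem_univ _), ← h2, sub_self]

end Pool.Agent.SegDraw
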