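import Pool.Agent.Lib.MP_431574_lc.Code

/-!
# MP_431574_lc: A3 (soundness of the compact system), A7, A8 (ranges of the indices)
-/

namespace Pool.Agent.SegDraw

namespace A3

theorem cRes0 (x : ℕ → ℝ) (i j k : ℕ) : cRes x (0, i, j, k) = 32 * x i - 1 := by
  simp [cRes]

theorem cRes1 (x : ℕ → ℝ) (i j k : ℕ) : cRes x (1, i, j, k) = x i + x j - x k := by
  simp [cRes]

theorem cRes2 (x : ℕ → ℝ) (i j k : ℕ) : cRes x (2, i, j, k) = x i * x j - x k := by
  simp [cRes]

/-- the constraints of the compact system which belong to the constraint `e` with index `q` -/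
def cPart (N M : ℕ) (e : ECon) (q : ℕ) : List CCon :=
  if e.1 = 0 then [(1, e.2.1, N, N + 1 + M)]
  else if e.1 = 1 then [(1, e.2.1, e.2.2.1, e.2.2.2)]
  else [(2, e.2.1, e.2.2.1, N + M + 2 + q), (2, N + 1 + M, e.2.2.2, N + M + 2 + q)]

theorem forall_cSys (L : List ECon) (P : CCon → Prop) : (∀ c ∈ cSys L, P c) ↔
    (P (0, idxBound L + 1, 0, 0) ∧ P (1, idxBound L, idxBound L, idxBound L)) ∧
    (∀ t < sq1 L, P (2, idxBound L + 1 + t, idxBound L + 1 + t, idxBound L + 2 + t)) ∧
    ∀ q ∈ L.zipIdx, ∀ c ∈ cPart (idxBound L) (sq1 L) q.1 q.2, P c := by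
  unfold cSys
  simp only [List.mem_append, List.mem_flatMap, List.mem_map, List.mem_range, or_imp,
    forall_and, forall_exists_index, and_imp, forall_apply_eq_imp_iff₂, List.mem_cons,
    List.not_mem_nil, or_false, forall_eq, and_assoc]
  constructor
  · rintro ⟨h1, h2, h3, h4⟩
    exact ⟨h1, h2, h3, fun q hq c hc => h4 c q hq hc⟩
  · rintro ⟨h1, h2, h3, h4⟩
    exact ⟨h1, h2, h3, fun c q hq hc => h4 q hq c hc⟩

theorem idx_lt {L : List ECon} {e : ECon} (he : e ∈ L) :
    e.2.1 < idxBound L ∧ e.2.2.1 < idxBound L ∧ e.2.2.2 < idxBound L := by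
  unfold idxBound
  have h : e.2.1 + e.2.2.1 + e.2.2.2 ≤
      (List.map (fun (e : ℕ × ℕ × ℕ × ℕ) => e.2.1 + e.2.2.1 + e.2.2.2) L).sum :=
    List.single_le_sum (by simp) _ (List.mem_map.2 ⟨e, he, rfl⟩)
  omega

theorem mem_zipIdx' {L : List ECon} {q : ECon × ℕ} (hq : q ∈ L.zipIdx) :
    q.1 ∈ L ∧ q.2 < L.length := by
  obtain ⟨e, i⟩ := q
  have hmem := List.mem_zipIdx hq
  have hql : i < L.length := by
    have := hmem.2.1
    omega
  have he : L[i] = e := by
    have := hmem.2.2
    simpa using this.symm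
  exact ⟨by rw [← he]; exact List.getElem_mem hql, hql⟩

theorem exists_zipIdx {L : List ECon} {e : ECon} (he : e ∈ L) : ∃ q, (e, q) ∈ L.zipIdx := by
  obtain ⟨q, hq, hqe⟩ := List.getElem_of_mem he
  refine ⟨q, ?_⟩
  rw [List.mem_zipIdx_iff_getElem?]
  simp only
  rw [List.getElem?_eq_getElem hq, hqe]

end A3

open A3 in
/-- A3 -/
theorem cSys_sound (L : List ECon) (h : ∃ x, CSat (cSys L) x) : ∃ V, ESat L V := by
  obtain ⟨x, hx⟩ := h
  unfold CSat at hx
  rw [forall_cSys] at hx
  obtain ⟨⟨h1, h2⟩, h3, h4⟩ := hx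
  rw [cRes0] at h1
  rw [cRes1] at h2
  have hc : ∀ t ≤ sq1 L, x (idxBound L + 1 + t) ≠ 0 := by
    intro t
    induction t with
    | zero =>
      intro _ h0
      rw [add_zero] at h0
      rw [h0] at h1
      norm_num at h1
    | succ t ih =>
      intro ht
      have i1 := ih (by omega)
      have i2 := h3 t (by omega)
      rw [cRes2] at i2
      have i3 : idxBound L + 1 + (t + 1) = idxBound L + 2 + t := by omega
      rw [i3]
      intro h0
      rw [h0] at i2
      exact i1 (by nlinarith)
  have hM := hc (sq1 L) le_rfl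
  refine ⟨fun i => x i / x (idxBound L + 1 + sq1 L), ?_⟩
  intro e he
  obtain ⟨q, hq⟩ := exists_zipIdx he
  have h5 := h4 (e, q) hq
  unfold cPart at h5
  simp only at h5
  unfold eRes
  by_cases e0 : e.1 = 0
  · rw [if_pos e0] at h5 ⊢
    have h6 := h5 _ (List.mem_singleton_self _)
    rw [cRes1] at h6
    have h7 : x e.2.1 = x (idxBound L + 1 + sq1 L) := by linarith
    simp only
    rw [h7, div_self hM, sub_self]
  · rw [if_neg e0] at h5 ⊢
    by_cases e1 : e.1 = 1
    · rw [if_pos e1] at h5 ⊢
      have h6 := h5 _ (List.mem_singleton_self _)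
      rw [cRes1] at h6
      simp only
      rw [← add_div, ← sub_div, h6, zero_div]
    · rw [if_neg e1] at h5 ⊢
      have h6 := h5 (2, e.2.1, e.2.2.1, idxBound L + sq1 L + 2 + q) (by simp)
      have h7 := h5 (2, idxBound L + 1 + sq1 L, e.2.2.2, idxBound L + sq1 L + 2 + q) (by simp)
      rw [cRes2] at h6 h7
      simp only
      field_simp
      nlinarith

open A3 in
/-- A7 -/
theorem cSys_inRange (L : List ECon) : InRange (cNum L) (cSys L) := by
  unfold InRange
  rw [forall_cSys L (fun e => e.2.1 < cNum L ∧ e.2.2.1 < cNum L ∧ e.2.2.2 < cNum L)]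
  unfold cNum
  refine ⟨⟨?_, ?_⟩, ?_, ?_⟩
  · simp only
    omega
  · simp only
    omega
  · intro t ht
    simp only
    omega
  · intro q hq c hc
    obtain ⟨h1, h2⟩ := mem_zipIdx' hq
    obtain ⟨h3, h4, h5⟩ := idx_lt h1
    unfold cPart at hc
    split_ifs at hc
    · rw [List.mem_singleton] at hc
      subst hc
      simp only
      omega
    · rw [List.mem_singleton] at hc
      subst hc
      simp only
      omega
    · simp only [List.mem_cons, List.not_mem_nil, or_false] at hc
      rcases hc with hc | hc <;> subst hc <;> simp only <;> omega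

open A3 in
/-- A8 -/
theorem gatesOf_inRange (n m : ℕ) (L : List CCon) (hL : InRange n L) :
    InRange (2 * gNum n m L) (gatesOf n m L) := by
  intro g hg
  unfold gatesOf at hg
  unfold gNum
  rcases List.mem_append.1 hg with hg | hg
  · rcases List.mem_append.1 hg with hg | hg
    · obtain ⟨q, hq, hg⟩ := List.mem_flatMap.1 hg
      obtain ⟨h1, h2⟩ := mem_zipIdx' hq
      obtain ⟨h3, h4, h5⟩ := hL q.1 h1
      unfold conGates at hg
      split_ifs at hg
      · simp only [List.mem_cons, List.not_mem_nil, or_false] at hg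
        rcases hg with hg | hg <;> subst hg <;> simp only [pl, ng] <;> omega
      · simp only [List.mem_cons, List.not_mem_nil, or_false] at hg
        rcases hg with hg | hg | hg | hg <;> subst hg <;> simp only [pl, ng] <;> omega
      · simp only [List.mem_cons, List.not_mem_nil, or_false] at hg
        rcases hg with hg | hg | hg | hg | hg | hg | hg | hg <;> subst hg <;>
          simp only [pl, ng] <;> omega
    · obtain ⟨k, hk, hg⟩ := List.mem_flatMap.1 hg
      rw [List.mem_range] at hk
      unfold chainGates at hg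
      simp only [List.mem_cons, List.not_mem_nil, or_false] at hg
      rcases hg with hg | hg | hg | hg <;> subst hg <;> simp only [pl, ng] <;> omega
  · rw [List.mem_singleton] at hg
    subst hg
    simp only [ng]
    omega

end Pool.Agent.SegDraw
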