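import Pool.Agent.Lib.MP_431574_lc.A1
import Pool.Agent.Lib.MP_431574_lc.A3

/-!
# MP_431574_lc: A2 (completeness of the compact system)
-/

namespace Pool.Agent.SegDraw

namespace A2

open MvPolynomial

variable {N : ℕ}

theorem l1_eq {g : MvPolynomial (Fin N) ℤ} {S : Finset (Fin N →₀ ℕ)} (h : g.support ⊆ S) :
    l1 g = S.sum (fun m => (g.coeff m).natAbs) := by
  unfold l1
  refine Finset.sum_subset h fun m _ hm => ?_
  rw [notMem_support_iff.1 hm, Int.natAbs_zero]

theorem l1_zero : l1 (0 : MvPolynomial (Fin N) ℤ) = 0 := by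
  unfold l1
  rw [support_zero, Finset.sum_empty]

theorem l1_add (p q : MvPolynomial (Fin N) ℤ) : l1 (p + q) ≤ l1 p + l1 q := by
  classical
  rw [l1_eq (support_add (p := p) (q := q)), l1_eq (Finset.subset_union_left (s₂ := q.support)),
    l1_eq (Finset.subset_union_right (s₁ := p.support)), ← Finset.sum_add_distrib]
  refine Finset.sum_le_sum fun m _ => ?_
  rw [coeff_add]
  exact Int.natAbs_add_le _ _

theorem l1_neg (p : MvPolynomial (Fin N) ℤ) : l1 (-p) = l1 p := by
  unfold l1
  rw [support_neg]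
  refine Finset.sum_congr rfl fun m _ => ?_
  rw [coeff_neg, Int.natAbs_neg]

theorem l1_sub (p q : MvPolynomial (Fin N) ℤ) : l1 (p - q) ≤ l1 p + l1 q := by
  rw [sub_eq_add_neg]
  refine (l1_add _ _).trans ?_
  rw [l1_neg]

theorem l1_sum {ι : Type*} (s : Finset ι) (f : ι → MvPolynomial (Fin N) ℤ) :
    l1 (∑ i ∈ s, f i) ≤ ∑ i ∈ s, l1 (f i) := by
  classical
  induction s using Finset.induction_on with
  | empty => simp [l1_zero]
  | insert a s ha ih =>
    rw [Finset.sum_insert ha, Finset.sum_insert ha]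
    exact (l1_add _ _).trans (by omega)

theorem l1_monomial (m : Fin N →₀ ℕ) (c : ℤ) : l1 (monomial m c) ≤ c.natAbs := by
  rw [l1_eq (support_monomial_subset (s := m) (a := c)), Finset.sum_singleton, coeff_monomial,
    if_pos rfl]

theorem l1_mul (p q : MvPolynomial (Fin N) ℤ) : l1 (p * q) ≤ l1 p * l1 q := by
  have h : p * q = ∑ a ∈ p.support, ∑ b ∈ q.support, monomial (a + b) (p.coeff a * q.coeff b) := by
    conv_lhs => rw [p.as_sum, q.as_sum, Finset.sum_mul_sum]
    refine Finset.sum_congr rfl fun a _ => Finset.sum_congr rfl fun b _ => ?_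
    rw [monomial_mul]
  rw [h]
  refine (l1_sum _ _).trans ?_
  unfold l1
  rw [Finset.sum_mul_sum]
  refine Finset.sum_le_sum fun a _ => ?_
  refine (l1_sum _ _).trans ?_
  refine Finset.sum_le_sum fun b _ => ?_
  refine (l1_monomial _ _).trans ?_
  rw [Int.natAbs_mul]

/-- the variable `i` (zero if `i` is out of range) -/
noncomputable def var (N i : ℕ) : MvPolynomial (Fin N) ℤ := if h : i < N then X ⟨i, h⟩ else 0

theorem l1_one : l1 (1 : MvPolynomial (Fin N) ℤ) ≤ 1 :=
  l1_monomial (0 : Fin N →₀ ℕ) 1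

theorem l1_var (i : ℕ) : l1 (var N i) ≤ 1 := by
  unfold var
  split_ifs with h
  · exact l1_monomial (Finsupp.single ⟨i, h⟩ 1) 1
  · rw [l1_zero]
    omega

theorem deg_var (i : ℕ) : (var N i).totalDegree ≤ 1 := by
  unfold var
  split_ifs with h
  · rw [totalDegree_X]
  · rw [totalDegree_zero]
    omega

theorem aeval_var {i : ℕ} (h : i < N) (x : Fin N → ℝ) : aeval x (var N i) = x ⟨i, h⟩ := by
  unfold var
  rw [dif_pos h, aeval_X]

/-- the residual as a polynomial -/
noncomputable def resP (N : ℕ) (e : ECon) : MvPolynomial (Fin N) ℤ :=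
  if e.1 = 0 then var N e.2.1 - 1
  else if e.1 = 1 then var N e.2.1 + var N e.2.2.1 - var N e.2.2.2
  else var N e.2.1 * var N e.2.2.1 - var N e.2.2.2

theorem l1_resP (e : ECon) : l1 (resP N e) ≤ 3 := by
  have h1 := l1_var (N := N) e.2.1
  have h2 := l1_var (N := N) e.2.2.1
  have h3 := l1_var (N := N) e.2.2.2
  have h0 := l1_one (N := N)
  unfold resP
  split_ifs
  · exact (l1_sub _ _).trans (by omega)
  · refine (l1_sub _ _).trans ?_
    have := l1_add (var N e.2.1) (var N e.2.2.1)
    omega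
  · refine (l1_sub _ _).trans ?_
    have h4 := l1_mul (var N e.2.1) (var N e.2.2.1)
    have h5 := Nat.mul_le_mul h1 h2
    omega

theorem deg_sub_le {p q : MvPolynomial (Fin N) ℤ} {d : ℕ} (hp : p.totalDegree ≤ d)
    (hq : q.totalDegree ≤ d) : (p - q).totalDegree ≤ d :=
  (totalDegree_sub _ _).trans (max_le hp hq)

theorem deg_add_le {p q : MvPolynomial (Fin N) ℤ} {d : ℕ} (hp : p.totalDegree ≤ d)
    (hq : q.totalDegree ≤ d) : (p + q).totalDegree ≤ d :=
  (totalDegree_add _ _).trans (max_le hp hq)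

theorem deg_resP (e : ECon) : (resP N e).totalDegree ≤ 2 := by
  have h1 := deg_var (N := N) e.2.1
  have h2 := deg_var (N := N) e.2.2.1
  have h3 := deg_var (N := N) e.2.2.2
  unfold resP
  split_ifs
  · refine deg_sub_le (by omega) ?_
    rw [totalDegree_one]
    omega
  · exact deg_sub_le (deg_add_le (by omega) (by omega)) (by omega)
  · refine deg_sub_le ?_ (by omega)
    exact (totalDegree_mul _ _).trans (by omega)

/-- the sum of the squares of the residuals -/
noncomputable def gP (N : ℕ) : List ECon → MvPolynomial (Fin N) ℤ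
  | [] => 0
  | e :: L => resP N e * resP N e + gP N L

theorem deg_gP (L : List ECon) : (gP N L).totalDegree ≤ 4 := by
  induction L with
  | nil => simp [gP]
  | cons e L ih =>
    refine deg_add_le ?_ ih
    have := deg_resP (N := N) e
    exact (totalDegree_mul _ _).trans (by omega)

theorem l1_gP (L : List ECon) : l1 (gP N L) ≤ 9 * L.length := by
  induction L with
  | nil => simp [gP, l1_zero]
  | cons e L ih =>
    simp only [gP, List.length_cons]
    refine (l1_add _ _).trans ?_
    have h1 := l1_resP (N := N) e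
    have h2 := l1_mul (resP N e) (resP N e)
    have h3 := Nat.mul_le_mul h1 h1
    omega

theorem nine_mul_le (n : ℕ) : 9 * n ≤ 2 ^ (n + 4) := by
  induction n with
  | zero => norm_num
  | succ n ih =>
    have h1 : 2 ^ (n + 1 + 4) = 2 * 2 ^ (n + 4) := by ring
    have h2 : 2 ^ 4 ≤ 2 ^ (n + 4) := Nat.pow_le_pow_right (by norm_num) (by omega)
    rw [h1]
    omega

/-- extension of a vector by zero -/
noncomputable def ext (x : Fin N → ℝ) (i : ℕ) : ℝ := if h : i < N then x ⟨i, h⟩ else 0

theorem aeval_var' (i : ℕ) (x : Fin N → ℝ) : aeval x (var N i) = ext x i := by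
  unfold var ext
  split_ifs with h
  · rw [aeval_X]
  · rw [map_zero]

theorem aeval_resP (e : ECon) (x : Fin N → ℝ) : aeval x (resP N e) = eRes (ext x) e := by
  unfold resP eRes
  split_ifs <;> simp only [map_sub, map_add, map_mul, map_one, aeval_var']

theorem aeval_gP_nonneg (L : List ECon) (x : Fin N → ℝ) : 0 ≤ aeval x (gP N L) := by
  induction L with
  | nil => simp [gP]
  | cons e L ih =>
    simp only [gP, map_add, map_mul]
    have := mul_self_nonneg (aeval x (resP N e))
    linarith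

theorem aeval_gP_eq_zero (L : List ECon) (x : Fin N → ℝ) :
    aeval x (gP N L) = 0 ↔ ESat L (ext x) := by
  unfold ESat
  induction L with
  | nil => simp [gP]
  | cons e L ih =>
    simp only [gP, map_add, map_mul, List.forall_mem_cons]
    rw [← ih, ← aeval_resP]
    have h1 := mul_self_nonneg (aeval x (resP N e))
    have h2 := aeval_gP_nonneg L x
    constructor
    · intro h
      have h3 : aeval x (resP N e) * aeval x (resP N e) = 0 := by linarith
      exact ⟨mul_self_eq_zero.1 h3, by linarith⟩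
    · rintro ⟨h3, h4⟩
      rw [h3, h4]
      ring

/-- solutions only depend on the variables in range -/
theorem ESat_ext {L : List ECon} {V : ℕ → ℝ} (h : ESat L V) :
    ESat L (ext (N := idxBound L) fun i => V i.1) := by
  intro e he
  obtain ⟨h1, h2, h3⟩ := A3.idx_lt he
  have h4 := h e he
  unfold eRes ext at *
  rw [dif_pos h1, dif_pos h2, dif_pos h3]
  exact h4

/-- a small solution -/
theorem exists_small (L : List ECon) (h : ∃ V, ESat L V) :
    ∃ V : ℕ → ℝ, ESat L V ∧ ∀ i, |V i| ≤ 2 ^ 2 ^ sq1 L := by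
  obtain ⟨V, hV⟩ := h
  obtain ⟨x, h1, h2⟩ := small_zero (l := L.length + 4) (gP (idxBound L) L) (deg_gP L)
    ((l1_gP L).trans (nine_mul_le _)) (aeval_gP_nonneg L)
    ⟨fun i => V i.1, (aeval_gP_eq_zero L _).2 (ESat_ext hV)⟩
  refine ⟨ext x, (aeval_gP_eq_zero L x).1 h1, fun i => ?_⟩
  unfold ext
  split_ifs with hi
  · exact h2 _
  · rw [abs_zero]
    positivity

/-- the scales -/
noncomputable def sc (t : ℕ) : ℝ := (1 / 32) ^ 2 ^ t

theorem sc_zero : sc 0 = 1 / 32 := by simp [sc]

theorem sc_succ (t : ℕ) : sc t * sc t = sc (t + 1) := by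
  unfold sc
  rw [← pow_add, pow_succ 2 t, mul_two]

theorem sc_pos (t : ℕ) : 0 < sc t := by unfold sc; positivity

theorem sc_le (t : ℕ) : sc t ≤ 1 / 32 := by
  unfold sc
  have h : 1 ≤ 2 ^ t := Nat.one_le_two_pow
  calc ((1 : ℝ) / 32) ^ 2 ^ t ≤ (1 / 32) ^ 1 :=
        pow_le_pow_of_le_one (by norm_num) (by norm_num) h
    _ = 1 / 32 := pow_one _

/-- the solution of the compact system -/
noncomputable def sol (L : List ECon) (V : ℕ → ℝ) (i : ℕ) : ℝ :=
  if i < idxBound L then sc (sq1 L) * V i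
  else if i = idxBound L then 0
  else if i ≤ idxBound L + 1 + sq1 L then sc (i - (idxBound L + 1))
  else if i - (idxBound L + sq1 L + 2) < L.length then
    (sc (sq1 L) * V (L.getD (i - (idxBound L + sq1 L + 2)) (0, 0, 0, 0)).2.1) *
      (sc (sq1 L) * V (L.getD (i - (idxBound L + sq1 L + 2)) (0, 0, 0, 0)).2.2.1)
  else 0

section

variable {L : List ECon} {V : ℕ → ℝ}

theorem sol_lt {i : ℕ} (h : i < idxBound L) : sol L V i = sc (sq1 L) * V i := if_pos h

theorem sol_zero : sol L V (idxBound L) = 0 := by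
  unfold sol
  rw [if_neg (by omega), if_pos rfl]

theorem sol_sc {t : ℕ} (h : t ≤ sq1 L) : sol L V (idxBound L + 1 + t) = sc t := by
  unfold sol
  rw [if_neg (by omega), if_neg (by omega), if_pos (by omega)]
  congr 1
  omega

theorem sol_aux {q : ℕ} (hq : q < L.length) : sol L V (idxBound L + sq1 L + 2 + q) =
    (sc (sq1 L) * V (L[q]).2.1) * (sc (sq1 L) * V (L[q]).2.2.1) := by
  unfold sol
  rw [if_neg (by omega), if_neg (by omega), if_neg (by omega), Nat.add_sub_cancel_left,
    if_pos hq, List.getD_eq_getElem _ _ hq]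

theorem sc_mul_le (hV : ∀ i, |V i| ≤ 2 ^ 2 ^ sq1 L) (i : ℕ) : |sc (sq1 L) * V i| ≤ 1 / 32 := by
  have hM : 10 ≤ sq1 L := by
    unfold sq1 bnd
    omega
  rw [abs_mul, abs_of_pos (sc_pos _)]
  have h1 : sc (sq1 L) * |V i| ≤ sc (sq1 L) * 2 ^ 2 ^ sq1 L :=
    mul_le_mul_of_nonneg_left (hV i) (sc_pos _).le
  have h2 : sc (sq1 L) * 2 ^ 2 ^ sq1 L = (1 / 16) ^ 2 ^ sq1 L := by
    unfold sc
    rw [← mul_pow]
    norm_num
  have h3 : 2 ≤ 2 ^ sq1 L := by
    calc 2 = 2 ^ 1 := by norm_num
      _ ≤ 2 ^ sq1 L := Nat.pow_le_pow_right (by norm_num) (by omega)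
  have h4 : ((1 : ℝ) / 16) ^ 2 ^ sq1 L ≤ (1 / 16) ^ 2 :=
    pow_le_pow_of_le_one (by norm_num) (by norm_num) h3
  have h5 : ((1 : ℝ) / 16) ^ 2 ≤ 1 / 32 := by norm_num
  linarith

theorem sol_le (hV : ∀ i, |V i| ≤ 2 ^ 2 ^ sq1 L) (i : ℕ) : |sol L V i| ≤ 1 / 32 := by
  unfold sol
  split_ifs
  · exact sc_mul_le hV i
  · rw [abs_zero]
    norm_num
  · rw [abs_of_pos (sc_pos _)]
    exact sc_le _
  · rw [abs_mul]
    have h1 := sc_mul_le hV (L.getD (i - (idxBound L + sq1 L + 2)) (0, 0, 0, 0)).2.1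
    have h2 := sc_mul_le hV (L.getD (i - (idxBound L + sq1 L + 2)) (0, 0, 0, 0)).2.2.1
    calc _ ≤ (1 / 32 : ℝ) * (1 / 32) :=
          mul_le_mul h1 h2 (abs_nonneg _) (by norm_num)
      _ ≤ 1 / 32 := by norm_num
  · rw [abs_zero]
    norm_num

end

end A2

open A2 A3 in
/-- A2 -/
theorem cSys_complete (L : List ECon) (h : ∃ V, ESat L V) :
    ∃ x, CSat (cSys L) x ∧ ∀ i, |x i| ≤ 1 / 32 := by
  obtain ⟨V, hV, hb⟩ := exists_small L h
  refine ⟨sol L V, ?_, sol_le hb⟩
  unfold CSat
  rw [forall_cSys L (fun e => cRes (sol L V) e = 0)]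
  have hc := sc_pos (sq1 L)
  refine ⟨⟨?_, ?_⟩, ?_, ?_⟩
  · rw [cRes0]
    have := sol_sc (L := L) (V := V) (Nat.zero_le _)
    rw [add_zero] at this
    rw [this, sc_zero]
    norm_num
  · rw [cRes1, sol_zero]
    norm_num
  · intro t ht
    rw [cRes2, sol_sc ht.le, show idxBound L + 2 + t = idxBound L + 1 + (t + 1) by omega,
      sol_sc (show t + 1 ≤ sq1 L by omega), sc_succ, sub_self]
  · rintro ⟨e, q⟩ hq c hc'
    have hmem := List.mem_zipIdx hq
    have hql : q < L.length := by
      have := hmem.2.1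
      omega
    have he : L[q] = e := by
      have := hmem.2.2
      simpa using this.symm
    have heL : e ∈ L := by rw [← he]; exact List.getElem_mem hql
    obtain ⟨r1, r2, r3⟩ := idx_lt heL
    have haux := sol_aux (V := V) hql
    rw [he] at haux
    have hres := hV e heL
    unfold eRes at hres
    unfold cPart at hc'
    simp only at hc'
    by_cases e0 : e.1 = 0
    · rw [if_pos e0] at hc' hres
      rw [List.mem_singleton] at hc'
      subst hc'
      rw [cRes1, sol_lt r1, sol_zero, sol_sc le_rfl]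
      have h1 : V e.2.1 = 1 := by linarith
      rw [h1]
      ring
    · rw [if_neg e0] at hc' hres
      by_cases e1 : e.1 = 1
      · rw [if_pos e1] at hc' hres
        rw [List.mem_singleton] at hc'
        subst hc'
        rw [cRes1, sol_lt r1, sol_lt r2, sol_lt r3, ← mul_add, ← mul_sub, hres, mul_zero]
      · rw [if_neg e1] at hc' hres
        simp only [List.mem_cons, List.not_mem_nil, or_false] at hc'
        rcases hc' with hc' | hc'
        · subst hc'
          rw [cRes2, sol_lt r1, sol_lt r2, haux, sub_self]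
        · subst hc'
          rw [cRes2, sol_sc le_rfl, sol_lt r3, haux]
          have h1 : V e.2.2.2 = V e.2.1 * V e.2.2.1 := by linarith
          rw [h1]
          ring

end Pool.Agent.SegDraw
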