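import Pool.Agent.Lib.MP_431574_lc.Code
import Pool.Agent.Lib.MP_431574_lc.A1

/-!
# A4: a system of equations with sufficiently small residuals has an exact solution
-/

namespace Pool.Agent.SegDraw

namespace A4

open MvPolynomial

variable {N : ℕ}

theorem l1_eq {g : MvPolynomial (Fin N) ℤ} {S : Finset (Fin N →₀ ℕ)} (hS : g.support ⊆ S) :
    l1 g = ∑ m ∈ S, (g.coeff m).natAbs := by
  unfold l1
  apply Finset.sum_subset hS
  intro m _ hm
  rw [MvPolynomial.notMem_support_iff.1 hm]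
  rfl

theorem l1_add (p q : MvPolynomial (Fin N) ℤ) : l1 (p + q) ≤ l1 p + l1 q := by
  classical
  rw [l1_eq (MvPolynomial.support_add (p := p) (q := q)),
    l1_eq (Finset.subset_union_left (s₁ := p.support) (s₂ := q.support)),
    l1_eq (Finset.subset_union_right (s₁ := p.support) (s₂ := q.support)),
    ← Finset.sum_add_distrib]
  apply Finset.sum_le_sum
  intro m _
  rw [coeff_add]
  exact Int.natAbs_add_le _ _

theorem l1_neg (p : MvPolynomial (Fin N) ℤ) : l1 (-p) = l1 p := by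
  unfold l1
  rw [support_neg]
  apply Finset.sum_congr rfl
  intro m _
  rw [coeff_neg, Int.natAbs_neg]

theorem l1_sub (p q : MvPolynomial (Fin N) ℤ) : l1 (p - q) ≤ l1 p + l1 q := by
  rw [sub_eq_add_neg]
  refine (l1_add _ _).trans ?_
  rw [l1_neg]

theorem l1_zero : l1 (0 : MvPolynomial (Fin N) ℤ) = 0 := by
  unfold l1
  simp

theorem l1_sum {ι : Type*} (s : Finset ι) (f : ι → MvPolynomial (Fin N) ℤ) :
    l1 (∑ i ∈ s, f i) ≤ ∑ i ∈ s, l1 (f i) := by
  classical
  induction s using Finset.induction_on with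
  | empty => simp [l1_zero]
  | insert a s ha ih =>
    rw [Finset.sum_insert ha, Finset.sum_insert ha]
    exact (l1_add _ _).trans (Nat.add_le_add_left ih _)

theorem l1_listSum {ι : Type*} (L : List ι) (f : ι → MvPolynomial (Fin N) ℤ) (B : ℕ)
    (h : ∀ i, l1 (f i) ≤ B) : l1 (L.map f).sum ≤ B * L.length := by
  induction L with
  | nil => simp [l1_zero]
  | cons a L ih =>
    rw [List.map_cons, List.sum_cons, List.length_cons, Nat.mul_succ, Nat.add_comm _ B]
    exact (l1_add _ _).trans (Nat.add_le_add (h a) ih)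

theorem l1_monomial (m : Fin N →₀ ℕ) (a : ℤ) : l1 (monomial m a) ≤ a.natAbs := by
  classical
  rw [l1_eq (S := {m}) MvPolynomial.support_monomial_subset]
  simp

theorem l1_C (a : ℤ) : l1 (C a : MvPolynomial (Fin N) ℤ) ≤ a.natAbs := l1_monomial 0 a

theorem l1_X (i : Fin N) : l1 (X i : MvPolynomial (Fin N) ℤ) ≤ 1 := l1_monomial _ 1

theorem l1_monomial_mul (m : Fin N →₀ ℕ) (a : ℤ) (q : MvPolynomial (Fin N) ℤ) :
    l1 (monomial m a * q) ≤ a.natAbs * l1 q := by
  classical
  have hS : (monomial m a * q).support ⊆ q.support.image (fun m' => m + m') := by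
    refine (MvPolynomial.support_mul _ _).trans ?_
    intro x hx
    rw [Finset.mem_add] at hx
    obtain ⟨y, hy, z, hz, rfl⟩ := hx
    have hy' := MvPolynomial.support_monomial_subset hy
    rw [Finset.mem_singleton] at hy'
    rw [hy']
    exact Finset.mem_image_of_mem _ hz
  rw [l1_eq hS, Finset.sum_image (fun x _ y _ h => add_left_cancel h)]
  unfold l1
  rw [Finset.mul_sum]
  apply Finset.sum_le_sum
  intro m' _
  rw [coeff_monomial_mul, Int.natAbs_mul]

theorem l1_mul (p q : MvPolynomial (Fin N) ℤ) : l1 (p * q) ≤ l1 p * l1 q := by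
  classical
  have h1 : p * q = ∑ m ∈ p.support, monomial m (coeff m p) * q := by
    rw [← Finset.sum_mul]
    congr 1
    exact p.as_sum
  rw [h1]
  refine (l1_sum _ _).trans ?_
  have h2 : l1 p * l1 q = ∑ m ∈ p.support, (coeff m p).natAbs * l1 q := by
    have h3 : l1 p = ∑ m ∈ p.support, (coeff m p).natAbs := rfl
    rw [h3, Finset.sum_mul]
  rw [h2]
  exact Finset.sum_le_sum fun m _ => l1_monomial_mul _ _ _

theorem l1_sq {p : MvPolynomial (Fin N) ℤ} {b : ℕ} (h : l1 p ≤ b) : l1 (p ^ 2) ≤ b ^ 2 := by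
  rw [sq, sq]
  exact (l1_mul p p).trans (Nat.mul_le_mul h h)

/-- the variable with index `i` -/
noncomputable def vr4 (N i : ℕ) : MvPolynomial (Fin N) ℤ := if h : i < N then X ⟨i, h⟩ else 0

/-- the value of the variable with index `i` -/
noncomputable def vl4 {N : ℕ} (z : Fin N → ℝ) (i : ℕ) : ℝ := if h : i < N then z ⟨i, h⟩ else 0

theorem aeval_var (z : Fin N → ℝ) (i : ℕ) : aeval z (vr4 N i) = vl4 z i := by
  unfold vr4 vl4
  split_ifs with h
  · simp
  · simp

theorem l1_var (i : ℕ) : l1 (vr4 N i) ≤ 1 := by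
  unfold vr4
  split_ifs with h
  · exact l1_X _
  · rw [l1_zero]; exact Nat.zero_le _

theorem deg_var (i : ℕ) : (vr4 N i).totalDegree ≤ 1 := by
  unfold vr4
  split_ifs with h
  · exact (totalDegree_X _).le
  · simp

/-- the polynomial of a constraint -/
noncomputable def cPoly (N : ℕ) (e : CCon) : MvPolynomial (Fin N) ℤ :=
  if e.1 = 0 then C 32 * vr4 N e.2.1 - C 1
  else if e.1 = 1 then vr4 N e.2.1 + vr4 N e.2.2.1 - vr4 N e.2.2.2
  else vr4 N e.2.1 * vr4 N e.2.2.1 - vr4 N e.2.2.2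

theorem aeval_cPoly (z : Fin N → ℝ) (e : CCon) : aeval z (cPoly N e) = cRes (vl4 z) e := by
  unfold cPoly cRes
  split_ifs with h h'
  · simp [aeval_var]
  · simp [aeval_var]
  · simp [aeval_var]

theorem l1_cPoly (e : CCon) : l1 (cPoly N e) ≤ 33 := by
  unfold cPoly
  have h1 := fun i => l1_var (N := N) i
  split_ifs with h h'
  · refine (l1_sub _ _).trans ?_
    have h2 : l1 (C 32 * vr4 N e.2.1) ≤ 32 * 1 :=
      (l1_mul _ _).trans (Nat.mul_le_mul (l1_C 32) (h1 _))
    have h3 : l1 (C 1 : MvPolynomial (Fin N) ℤ) ≤ 1 := l1_C 1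
    omega
  · refine (l1_sub _ _).trans ?_
    have h2 := l1_add (vr4 N e.2.1) (vr4 N e.2.2.1)
    have h3 := h1 e.2.1
    have h4 := h1 e.2.2.1
    have h5 := h1 e.2.2.2
    omega
  · refine (l1_sub _ _).trans ?_
    have h2 : l1 (vr4 N e.2.1 * vr4 N e.2.2.1) ≤ 1 * 1 :=
      (l1_mul _ _).trans (Nat.mul_le_mul (h1 _) (h1 _))
    have h5 := h1 e.2.2.2
    omega

theorem deg_cPoly (e : CCon) : (cPoly N e).totalDegree ≤ 2 := by
  unfold cPoly
  have h1 := fun i => deg_var (N := N) i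
  split_ifs with h h'
  · refine (totalDegree_sub _ _).trans (max_le ?_ ?_)
    · refine (totalDegree_mul _ _).trans ?_
      rw [totalDegree_C]
      have := h1 e.2.1
      omega
    · rw [totalDegree_C]; omega
  · refine (totalDegree_sub _ _).trans (max_le ?_ ?_)
    · refine (totalDegree_add _ _).trans (max_le ?_ ?_)
      · exact (h1 _).trans (by norm_num)
      · exact (h1 _).trans (by norm_num)
    · exact (h1 _).trans (by norm_num)
  · refine (totalDegree_sub _ _).trans (max_le ?_ ?_)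
    · refine (totalDegree_mul _ _).trans ?_
      have := h1 e.2.1
      have := h1 e.2.2.1
      omega
    · exact (h1 _).trans (by norm_num)

/-- the circle polynomial -/
noncomputable def circ (n i : ℕ) : MvPolynomial (Fin (2 * n)) ℤ :=
  C 4 * vr4 (2 * n) i ^ 2 + C 4 * vr4 (2 * n) (n + i) ^ 2 - C 1

theorem aeval_circ (n : ℕ) (z : Fin (2 * n) → ℝ) (i : ℕ) :
    aeval z (circ n i) = 4 * vl4 z i ^ 2 + 4 * vl4 z (n + i) ^ 2 - 1 := by
  unfold circ
  simp [aeval_var]

theorem l1_circ (n i : ℕ) : l1 (circ n i) ≤ 9 := by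
  unfold circ
  refine (l1_sub _ _).trans ?_
  have h2 : ∀ j, l1 (C 4 * vr4 (2 * n) j ^ 2) ≤ 4 * 1 ^ 2 := fun j =>
    (l1_mul _ _).trans (Nat.mul_le_mul (l1_C 4) (l1_sq (l1_var j)))
  have h3 : l1 (C 1 : MvPolynomial (Fin (2 * n)) ℤ) ≤ 1 := l1_C 1
  have h4 := l1_add (C 4 * vr4 (2 * n) i ^ 2) (C 4 * vr4 (2 * n) (n + i) ^ 2)
  have h5 := h2 i
  have h6 := h2 (n + i)
  omega

theorem deg_circ (n i : ℕ) : (circ n i).totalDegree ≤ 2 := by
  unfold circ
  have h1 : ∀ j, (C 4 * vr4 (2 * n) j ^ 2).totalDegree ≤ 2 := by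
    intro j
    refine (totalDegree_mul _ _).trans ?_
    rw [totalDegree_C]
    have h2 := totalDegree_pow (vr4 (2 * n) j) 2
    have h3 := deg_var (N := 2 * n) j
    omega
  refine (totalDegree_sub _ _).trans (max_le ?_ ?_)
  · exact (totalDegree_add _ _).trans (max_le (h1 _) (h1 _))
  · rw [totalDegree_C]; omega

/-- the polynomial to which the gap theorem is applied -/
noncomputable def gP (n : ℕ) (L : List CCon) : MvPolynomial (Fin (2 * n)) ℤ :=
  (L.map fun e => cPoly (2 * n) e ^ 2).sum + ∑ i ∈ Finset.range n, circ n i ^ 2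

theorem aeval_gP (n : ℕ) (L : List CCon) (z : Fin (2 * n) → ℝ) :
    aeval z (gP n L) = (L.map fun e => cRes (vl4 z) e ^ 2).sum +
      ∑ i ∈ Finset.range n, (4 * vl4 z i ^ 2 + 4 * vl4 z (n + i) ^ 2 - 1) ^ 2 := by
  unfold gP
  rw [map_add, map_sum]
  congr 1
  · rw [map_list_sum, List.map_map]
    congr 1
    apply List.map_congr_left
    intro e _
    simp [aeval_cPoly]
  · apply Finset.sum_congr rfl
    intro i _
    rw [map_pow, aeval_circ]

theorem deg_gP (n : ℕ) (L : List CCon) : (gP n L).totalDegree ≤ 4 := by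
  unfold gP
  refine (totalDegree_add _ _).trans (max_le ?_ ?_)
  · induction L with
    | nil => simp
    | cons e L ih =>
      rw [List.map_cons, List.sum_cons]
      refine (totalDegree_add _ _).trans (max_le ?_ ih)
      have h2 := totalDegree_pow (cPoly (2 * n) e) 2
      have h3 := deg_cPoly (N := 2 * n) e
      omega
  · apply totalDegree_finsetSum_le
    intro i _
    have h2 := totalDegree_pow (circ n i) 2
    have h3 := deg_circ n i
    omega

theorem l1_gP (n : ℕ) (L : List CCon) : l1 (gP n L) ≤ 2 ^ (11 + L.length + n) := by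
  have h1 : l1 (L.map fun e => cPoly (2 * n) e ^ 2).sum ≤ 33 ^ 2 * L.length :=
    l1_listSum _ _ _ fun e => l1_sq (l1_cPoly e)
  have h2 : l1 (∑ i ∈ Finset.range n, circ n i ^ 2) ≤ 9 ^ 2 * n := by
    refine (l1_sum _ _).trans ?_
    calc ∑ i ∈ Finset.range n, l1 (circ n i ^ 2) ≤ ∑ _i ∈ Finset.range n, 9 ^ 2 :=
          Finset.sum_le_sum fun i _ => l1_sq (l1_circ n i)
      _ = 9 ^ 2 * n := by simp [mul_comm]
  have h3 : L.length + n < 2 ^ (L.length + n) := Nat.lt_two_pow_self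
  have h4 : 2 ^ (11 + L.length + n) = 2048 * 2 ^ (L.length + n) := by
    rw [add_assoc, pow_add]; norm_num
  rw [h4]
  unfold gP
  have h5 := l1_add (L.map fun e => cPoly (2 * n) e ^ 2).sum
    (∑ i ∈ Finset.range n, circ n i ^ 2)
  omega

theorem sq_le_list {L : List CCon} {f : CCon → ℝ} {e : CCon} (he : e ∈ L) :
    f e ^ 2 ≤ (L.map fun e => f e ^ 2).sum := by
  apply List.single_le_sum
  · intro x hx
    rw [List.mem_map] at hx
    obtain ⟨e', -, rfl⟩ := hx
    positivity
  · exact List.mem_map_of_mem he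

theorem list_nonneg (L : List CCon) (f : CCon → ℝ) : 0 ≤ (L.map fun e => f e ^ 2).sum := by
  apply List.sum_nonneg
  intro x hx
  rw [List.mem_map] at hx
  obtain ⟨e', -, rfl⟩ := hx
  positivity

theorem list_le {L : List CCon} {f : CCon → ℝ} {b : ℝ} (h : ∀ e ∈ L, f e ^ 2 ≤ b) :
    (L.map fun e => f e ^ 2).sum ≤ L.length * b := by
  induction L with
  | nil => simp
  | cons a L ih =>
    rw [List.map_cons, List.sum_cons, List.length_cons]
    have h1 := h a List.mem_cons_self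
    have h2 := ih fun e he => h e (List.mem_cons_of_mem _ he)
    push_cast
    linarith

end A4

open A4 MvPolynomial in
/-- A4 -/
theorem exact_of_approx (n : ℕ) (L : List CCon) (hL : InRange n L) {x : ℕ → ℝ}
    (hx : ∀ i, |x i| ≤ 1 / 2)
    (h : ∀ e ∈ L, |cRes x e| ≤ (1 / 2) ^ 2 ^ (bnd (2 * n) (11 + L.length + n) + L.length + 9)) :
    ∃ y, CSat L y := by
  by_contra hcon
  push Not at hcon
  have hpos : ∀ z : Fin (2 * n) → ℝ, 0 < aeval z (gP n L) := by
    intro z
    by_contra hle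
    push Not at hle
    apply hcon (vl4 z)
    intro e he
    rw [aeval_gP] at hle
    have h1 : cRes (vl4 z) e ^ 2 ≤ (L.map fun e => cRes (vl4 z) e ^ 2).sum := sq_le_list he
    have h2 : 0 ≤ ∑ i ∈ Finset.range n, (4 * vl4 z i ^ 2 + 4 * vl4 z (n + i) ^ 2 - 1) ^ 2 :=
      Finset.sum_nonneg fun i _ => by positivity
    have h3 : cRes (vl4 z) e ^ 2 ≤ 0 := by linarith
    exact pow_eq_zero_iff two_ne_zero |>.1 (le_antisymm h3 (by positivity))
  have hco : ∀ R : ℝ, ∃ B : ℝ, ∀ z : Fin (2 * n) → ℝ, (∃ i, B < |z i|) →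
      R < aeval z (gP n L) := by
    intro R
    refine ⟨|R| + 1, fun z hz => ?_⟩
    obtain ⟨i, hi⟩ := hz
    rw [aeval_gP]
    have h1 : 0 ≤ (L.map fun e => cRes (vl4 z) e ^ 2).sum := list_nonneg L _
    have hval : vl4 z i.1 = z i := by
      unfold vl4
      rw [dif_pos i.2]
    obtain ⟨k, hk, hki⟩ : ∃ k < n, i.1 = k ∨ i.1 = n + k := by
      by_cases hin : i.1 < n
      · exact ⟨i.1, hin, Or.inl rfl⟩
      · exact ⟨i.1 - n, by omega, Or.inr (by omega)⟩
    have h2 : (4 * vl4 z k ^ 2 + 4 * vl4 z (n + k) ^ 2 - 1) ^ 2 ≤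
        ∑ i ∈ Finset.range n, (4 * vl4 z i ^ 2 + 4 * vl4 z (n + i) ^ 2 - 1) ^ 2 :=
      Finset.single_le_sum (f := fun i => (4 * vl4 z i ^ 2 + 4 * vl4 z (n + i) ^ 2 - 1) ^ 2)
        (fun i _ => by positivity) (Finset.mem_range.2 hk)
    have h3 : (|R| + 1) ^ 2 ≤ z i ^ 2 := by
      rw [← sq_abs (z i)]
      have := abs_nonneg R
      gcongr
    have h4 : z i ^ 2 ≤ vl4 z k ^ 2 + vl4 z (n + k) ^ 2 := by
      rcases hki with h | h
      · rw [← hval, h]
        have := sq_nonneg (vl4 z (n + k))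
        linarith
      · rw [← hval, h]
        have := sq_nonneg (vl4 z k)
        linarith
    have h5 : |R| + 1 ≤ 4 * vl4 z k ^ 2 + 4 * vl4 z (n + k) ^ 2 - 1 := by
      have := abs_nonneg R
      nlinarith
    have h6 : R < (4 * vl4 z k ^ 2 + 4 * vl4 z (n + k) ^ 2 - 1) ^ 2 := by
      have h7 := le_abs_self R
      have h8 := abs_nonneg R
      nlinarith
    linarith
  have hz := gap (gP n L) (deg_gP n L) (l1_gP n L) hpos hco
    (fun i => if i.1 < n then x i.1 else Real.sqrt (1 / 4 - x (i.1 - n) ^ 2))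
  set z0 : Fin (2 * n) → ℝ :=
    fun i => if i.1 < n then x i.1 else Real.sqrt (1 / 4 - x (i.1 - n) ^ 2) with hz0
  have hv1 : ∀ i < n, vl4 z0 i = x i := by
    intro i hi
    unfold vl4
    rw [dif_pos (by omega : i < 2 * n), hz0]
    simp only [hi, if_true]
  have hv2 : ∀ i < n, vl4 z0 (n + i) = Real.sqrt (1 / 4 - x i ^ 2) := by
    intro i hi
    unfold vl4
    rw [dif_pos (by omega : n + i < 2 * n), hz0]
    simp only [show ¬ (n + i < n) by omega, if_false, Nat.add_sub_cancel_left]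
  set b := bnd (2 * n) (11 + L.length + n) with hb
  set ε : ℝ := (1 / 2) ^ 2 ^ (b + L.length + 9) with hε
  rw [aeval_gP] at hz
  have hS2 : ∑ i ∈ Finset.range n, (4 * vl4 z0 i ^ 2 + 4 * vl4 z0 (n + i) ^ 2 - 1) ^ 2 = 0 := by
    apply Finset.sum_eq_zero
    intro i hi
    rw [Finset.mem_range] at hi
    rw [hv1 i hi, hv2 i hi]
    have h1 : x i ^ 2 ≤ 1 / 4 := by
      have h2 := hx i
      rw [← sq_abs]
      have := abs_nonneg (x i)
      nlinarith
    rw [Real.sq_sqrt (by linarith)]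
    ring
  rw [hS2, add_zero] at hz
  have hS1 : (L.map fun e => cRes (vl4 z0) e ^ 2).sum ≤ L.length * ε ^ 2 := by
    apply list_le
    intro e he
    have h1 : cRes (vl4 z0) e = cRes x e := by
      obtain ⟨r1, r2, r3⟩ := hL e he
      unfold cRes
      rw [hv1 _ r1, hv1 _ r2, hv1 _ r3]
    rw [h1, ← sq_abs]
    have h2 := h e he
    have h3 := abs_nonneg (cRes x e)
    gcongr
  have hfin : (L.length : ℝ) * ε ^ 2 < (1 / 2) ^ 2 ^ b := by
    have h1 : (L.length : ℝ) < 2 ^ L.length := by exact_mod_cast Nat.lt_two_pow_self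
    have hexp : 2 ^ b + L.length ≤ 2 ^ (b + L.length + 9) * 2 := by
      have h2 : L.length + 1 ≤ 2 ^ L.length := Nat.lt_two_pow_self
      have h3 : 1 ≤ 2 ^ b := Nat.one_le_two_pow
      have h4 : 2 ^ b + L.length ≤ 2 ^ b * 2 ^ L.length := by nlinarith
      have h5 : 2 ^ (b + L.length + 9) * 2 = 2 ^ b * 2 ^ L.length * 1024 := by
        rw [pow_add, pow_add]; ring
      rw [h5]
      omega
    have h6 : ε ^ 2 ≤ (1 / 2) ^ (2 ^ b + L.length) := by
      rw [hε, ← pow_mul]
      exact pow_le_pow_of_le_one (by norm_num) (by norm_num) hexp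
    have hεpos : 0 < ε ^ 2 := by positivity
    calc (L.length : ℝ) * ε ^ 2 < 2 ^ L.length * ε ^ 2 := by gcongr
      _ ≤ 2 ^ L.length * (1 / 2) ^ (2 ^ b + L.length) := by gcongr
      _ = (1 / 2) ^ 2 ^ b := by
        rw [pow_add, mul_comm, mul_assoc, ← mul_pow]
        norm_num
  linarith

end Pool.Agent.SegDraw
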