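import Pool.Agent.Lib.MP_431574_lc.Code

/-!
# MP_431574_lc: A5, A6 (completeness and soundness of the gate system of a `CCon` system)
-/

namespace Pool.Agent.SegDraw

namespace A5

theorem litVal_pl (y : ℕ → ℝ) (i : ℕ) : litVal y (pl i) = y i := by
  unfold litVal pl
  rw [if_pos (by omega), Nat.mul_div_cancel_left i (by norm_num)]

theorem litVal_ng (y : ℕ → ℝ) (i : ℕ) : litVal y (ng i) = - y i := by
  unfold litVal ng
  rw [if_neg (by omega)]
  congr 2
  omega

theorem ok0 (y : ℕ → ℝ) (a b c : ℕ) :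
    gateOK y (0, a, b, c) ↔ litVal y a + litVal y b + litVal y c < 0 := by
  simp [gateOK, gateRel]

theorem ok1 (y : ℕ → ℝ) (a b c : ℕ) :
    gateOK y (1, a, b, c) ↔ litVal y a + litVal y b + litVal y c < 1 / 16 := by
  simp [gateOK, gateRel]

theorem ok2 (y : ℕ → ℝ) (a b c : ℕ) :
    gateOK y (2, a, b, c) ↔ litVal y a + litVal y b + litVal y c < -(1 / 16) := by
  simp [gateOK, gateRel]

theorem ok3 (y : ℕ → ℝ) (a b c : ℕ) :
    gateOK y (3, a, b, c) ↔ 1 + litVal y b < (1 - litVal y a) * (1 - litVal y c) := by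
  simp [gateOK, gateRel]

/-- the gates of a constraint, as inequalities -/
theorem con_iff (y : ℕ → ℝ) (τ a : ℕ) (e : CCon) : (∀ g ∈ conGates τ a e, gateOK y g) ↔
    (e.1 = 0 → y e.2.1 + y e.2.1 - y τ < 1 / 16 ∧ - y e.2.1 - y e.2.1 - y τ < -(1 / 16)) ∧
    (e.1 = 1 → y e.2.1 + y e.2.2.1 - y a < 0 ∧ y a - y e.2.2.2 - y τ < 0 ∧
      - y e.2.1 - y e.2.2.1 - y (a + 1) < 0 ∧ y (a + 1) + y e.2.2.2 - y τ < 0) ∧
    (e.1 ≠ 0 → e.1 ≠ 1 → (y e.2.1 + y e.2.2.1 - y a < 0 ∧ y e.2.2.2 - y τ - y (a + 1) < 0 ∧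
      y a + y (a + 1) - y (a + 2) < 0 ∧
      1 + y (a + 2) < (1 + y e.2.1) * (1 + y e.2.2.1)) ∧
      - y e.2.1 + y e.2.2.1 - y (a + 3) < 0 ∧ - y e.2.2.2 - y τ - y (a + 4) < 0 ∧
      y (a + 3) + y (a + 4) - y (a + 5) < 0 ∧
      1 + y (a + 5) < (1 - y e.2.1) * (1 + y e.2.2.1)) := by
  unfold conGates
  by_cases h0 : e.1 = 0
  · rw [if_pos h0]
    simp only [List.forall_mem_cons, List.not_mem_nil, false_imp_iff, implies_true, and_true,
      ok1, ok2, litVal_pl, litVal_ng, h0, true_imp_iff, zero_ne_one, ne_eq, not_true_eq_false,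
      sub_eq_add_neg]
  · rw [if_neg h0]
    by_cases h1 : e.1 = 1
    · rw [if_pos h1]
      simp only [List.forall_mem_cons, List.not_mem_nil, false_imp_iff, implies_true, and_true,
        ok0, litVal_pl, litVal_ng, h1, true_imp_iff, one_ne_zero, ne_eq, not_true_eq_false,
        sub_eq_add_neg, true_and, not_false_eq_true]
    · rw [if_neg h1]
      simp only [List.forall_mem_cons, List.not_mem_nil, false_imp_iff, implies_true, and_true,
        ok0, ok3, litVal_pl, litVal_ng, h0, h1, true_imp_iff, ne_eq, not_false_eq_true,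
        sub_eq_add_neg, true_and, neg_neg, and_assoc]

/-- the gates of the chain, as inequalities -/
theorem chain_iff (y : ℕ → ℝ) (t a : ℕ) : (∀ g ∈ chainGates t a, gateOK y g) ↔
    - y t - y t - y t < 0 ∧ y t + y t - y a < 0 ∧ y a + y (t + 1) - y (a + 1) < 0 ∧
      1 + y (a + 1) < (1 + y t) * (1 + y t) := by
  unfold chainGates
  simp only [List.forall_mem_cons, List.not_mem_nil, false_imp_iff, implies_true, and_true,
    ok0, ok3, litVal_pl, litVal_ng, sub_eq_add_neg, neg_neg]

/-- the gate system, in terms of inequalities -/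
theorem gates_iff (y : ℕ → ℝ) (n m : ℕ) (L : List CCon) :
    (∀ g ∈ gatesOf n m L, gateOK y g) ↔
      (∀ q ∈ L.zipIdx, ∀ g ∈ conGates (n + m) (n + m + 1 + 6 * q.2) q.1, gateOK y g) ∧
      (∀ k < m, ∀ g ∈ chainGates (n + k) (n + m + 1 + 6 * (L.length + k)), gateOK y g) ∧
      - y (n + m) - y (n + m) - y (n + m) < 0 := by
  have h3 : (∀ g ∈ [((0 : ℕ), ng (n + m), ng (n + m), ng (n + m))], gateOK y g) ↔
      - y (n + m) - y (n + m) - y (n + m) < 0 := by
    simp only [List.forall_mem_cons, List.not_mem_nil, false_imp_iff, implies_true, and_true,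
      ok0, litVal_ng, sub_eq_add_neg]
  rw [← h3]
  unfold gatesOf
  constructor
  · intro h
    refine ⟨fun q hq g hg => h g ?_, fun k hk g hg => h g ?_, fun g hg => h g ?_⟩
    · exact List.mem_append_left _ (List.mem_append_left _ (List.mem_flatMap.2 ⟨q, hq, hg⟩))
    · exact List.mem_append_left _ (List.mem_append_right _
        (List.mem_flatMap.2 ⟨k, List.mem_range.2 hk, hg⟩))
    · exact List.mem_append_right _ hg
  · rintro ⟨h1, h2, h4⟩ g hg
    rcases List.mem_append.1 hg with hg | hg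
    · rcases List.mem_append.1 hg with hg | hg
      · obtain ⟨q, hq, hg⟩ := List.mem_flatMap.1 hg
        exact h1 q hq g hg
      · obtain ⟨k, hk, hg⟩ := List.mem_flatMap.1 hg
        exact h2 k (List.mem_range.1 hk) g hg
    · exact h4 g hg

/-- the tolerances -/
noncomputable def tol : ℕ → ℝ
  | 0 => 1 / 32
  | k + 1 => tol k ^ 2 / 2

theorem tol_pos (k : ℕ) : 0 < tol k := by
  induction k with
  | zero => norm_num [tol]
  | succ k ih =>
    simp only [tol]
    positivity

theorem tol_le (k : ℕ) : tol k ≤ 1 / 32 := by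
  induction k with
  | zero => norm_num [tol]
  | succ k ih =>
    have := tol_pos k
    simp only [tol]
    nlinarith

/-- values of the auxiliary variables of a constraint -/
noncomputable def conAux (τ : ℝ) (x : ℕ → ℝ) (e : CCon) (r : ℕ) : ℝ :=
  if e.1 = 1 then
    if r = 0 then x e.2.1 + x e.2.2.1 + τ / 2
    else if r = 1 then - x e.2.1 - x e.2.2.1 + τ / 2 else 0
  else
    if r = 0 then x e.2.1 + x e.2.2.1 + τ / 4
    else if r = 1 then x e.2.2.2 - τ / 2
    else if r = 2 then x e.2.1 + x e.2.2.1 + x e.2.2.2 - τ / 8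
    else if r = 3 then - x e.2.1 + x e.2.2.1 + τ / 4
    else if r = 4 then - x e.2.2.2 - τ / 2
    else - x e.2.1 + x e.2.2.1 - x e.2.2.2 - τ / 8

/-- values of the auxiliary variables of the chain -/
noncomputable def chAux (t : ℝ) (r : ℕ) : ℝ :=
  if r = 0 then 2 * t + t ^ 2 / 8 else if r = 1 then 2 * t + 3 * t ^ 2 / 4 else 0

theorem conAux_le {τ : ℝ} (h0 : 0 < τ) (h1 : τ ≤ 1 / 32) {x : ℕ → ℝ} (hx : ∀ i, |x i| ≤ 1 / 32)
    (e : CCon) (r : ℕ) : |conAux τ x e r| ≤ 7 / 64 := by
  have a1 := abs_le.1 (hx e.2.1)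
  have a2 := abs_le.1 (hx e.2.2.1)
  have a3 := abs_le.1 (hx e.2.2.2)
  rw [abs_le]
  unfold conAux
  split_ifs <;> constructor <;> linarith [a1.1, a1.2, a2.1, a2.2, a3.1, a3.2]

theorem chAux_le {t : ℝ} (h0 : 0 < t) (h1 : t ≤ 1 / 32) (r : ℕ) : |chAux t r| ≤ 7 / 64 := by
  have h2 : 0 ≤ t ^ 2 := by positivity
  have h3 : t ^ 2 ≤ 1 / 1024 := by nlinarith
  rw [abs_le]
  unfold chAux
  split_ifs <;> constructor <;> linarith

/-- the solution of the gate system -/
noncomputable def sol (n m : ℕ) (L : List CCon) (x : ℕ → ℝ) (i : ℕ) : ℝ :=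
  if i < n then x i
  else if i ≤ n + m then tol (i - n)
  else if (i - (n + m + 1)) / 6 < L.length then
    conAux (tol m) x (L.getD ((i - (n + m + 1)) / 6) (0, 0, 0, 0)) ((i - (n + m + 1)) % 6)
  else chAux (tol ((i - (n + m + 1)) / 6 - L.length)) ((i - (n + m + 1)) % 6)

section

variable {n m : ℕ} {L : List CCon} {x : ℕ → ℝ}

theorem sol_lt {i : ℕ} (h : i < n) : sol n m L x i = x i := if_pos h

theorem sol_tol {k : ℕ} (h : k ≤ m) : sol n m L x (n + k) = tol k := by
  unfold sol
  rw [if_neg (by omega), if_pos (by omega)]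
  congr 1
  omega

theorem sol_con {q r : ℕ} (hq : q < L.length) (hr : r < 6) :
    sol n m L x (n + m + 1 + 6 * q + r) = conAux (tol m) x (L[q]) r := by
  have h1 : (n + m + 1 + 6 * q + r - (n + m + 1)) / 6 = q := by omega
  have h2 : (n + m + 1 + 6 * q + r - (n + m + 1)) % 6 = r := by omega
  unfold sol
  rw [if_neg (by omega), if_neg (by omega), h1, h2, if_pos hq]
  congr 1
  exact List.getD_eq_getElem _ _ hq

theorem sol_ch {k r : ℕ} (hr : r < 6) :
    sol n m L x (n + m + 1 + 6 * (L.length + k) + r) = chAux (tol k) r := by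
  have h1 : (n + m + 1 + 6 * (L.length + k) + r - (n + m + 1)) / 6 = L.length + k := by omega
  have h2 : (n + m + 1 + 6 * (L.length + k) + r - (n + m + 1)) % 6 = r := by omega
  unfold sol
  rw [if_neg (by omega), if_neg (by omega), h1, h2, if_neg (by omega),
    Nat.add_sub_cancel_left]

theorem sol_le (hx : ∀ i, |x i| ≤ 1 / 32) (i : ℕ) : |sol n m L x i| ≤ 7 / 64 := by
  unfold sol
  split_ifs
  · exact (hx i).trans (by norm_num)
  · rw [abs_of_pos (tol_pos _)]
    exact (tol_le _).trans (by norm_num)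
  · exact conAux_le (tol_pos m) (tol_le m) hx _ _
  · exact chAux_le (tol_pos _) (tol_le _) _

end

end A5

open A5 in
/-- A5 -/
theorem gates_complete (n m : ℕ) (L : List CCon) (hL : InRange n L) {x : ℕ → ℝ}
    (hx : ∀ i, |x i| ≤ 1 / 32) (h : CSat L x) :
    ∃ y : ℕ → ℝ, (∀ i, |y i| ≤ 7 / 64) ∧ ∀ g ∈ gatesOf n m L, gateOK y g := by
  refine ⟨sol n m L x, sol_le hx, ?_⟩
  rw [gates_iff]
  have hτ := tol_pos m
  refine ⟨?_, ?_, ?_⟩
  · rintro ⟨e, q⟩ hq
    have hmem := List.mem_zipIdx hq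
    have hql : q < L.length := by
      have := hmem.2.1
      omega
    have he : L[q] = e := by
      have := hmem.2.2
      simpa using this.symm
    have heL : e ∈ L := by rw [← he]; exact List.getElem_mem hql
    obtain ⟨r1, r2, r3⟩ := hL e heL
    have hc : cRes x e = 0 := h e heL
    have c0 := sol_con (n := n) (m := m) (x := x) (r := 0) hql (by norm_num)
    have c1 := sol_con (n := n) (m := m) (x := x) (r := 1) hql (by norm_num)
    have c2 := sol_con (n := n) (m := m) (x := x) (r := 2) hql (by norm_num)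
    have c3 := sol_con (n := n) (m := m) (x := x) (r := 3) hql (by norm_num)
    have c4 := sol_con (n := n) (m := m) (x := x) (r := 4) hql (by norm_num)
    have c5 := sol_con (n := n) (m := m) (x := x) (r := 5) hql (by norm_num)
    rw [he] at c0 c1 c2 c3 c4 c5
    rw [add_zero] at c0
    rw [con_iff]
    simp only
    rw [c0, c1, c2, c3, c4, c5, sol_lt r1, sol_lt r2, sol_lt r3, sol_tol le_rfl]
    refine ⟨fun h0 => ?_, fun h1 => ?_, fun h0 h1 => ?_⟩
    · have hv : 32 * x e.2.1 - 1 = 0 := by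
        have := hc
        unfold cRes at this
        rwa [if_pos h0] at this
      constructor <;> linarith
    · have hv : x e.2.1 + x e.2.2.1 - x e.2.2.2 = 0 := by
        have := hc
        unfold cRes at this
        rwa [if_neg (by omega), if_pos h1] at this
      simp only [conAux, if_pos h1, if_true, one_ne_zero, if_false]
      refine ⟨?_, ?_, ?_, ?_⟩ <;> linarith
    · have hv : x e.2.1 * x e.2.2.1 - x e.2.2.2 = 0 := by
        have := hc
        unfold cRes at this
        rwa [if_neg h0, if_neg h1] at this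
      have hv' : x e.2.2.2 = x e.2.1 * x e.2.2.1 := by linarith
      simp only [conAux, if_neg h1]
      rw [hv']
      simp only [if_true, one_ne_zero, if_false, OfNat.ofNat_ne_zero, OfNat.ofNat_ne_one,
        Nat.reduceEqDiff]
      refine ⟨⟨?_, ?_, ?_, ?_⟩, ?_, ?_, ?_, ?_⟩ <;> nlinarith
  · intro k hk
    rw [chain_iff]
    have d0 := sol_ch (n := n) (m := m) (L := L) (x := x) (k := k) (r := 0) (by norm_num)
    have d1 := sol_ch (n := n) (m := m) (L := L) (x := x) (k := k) (r := 1) (by norm_num)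
    have d2 : sol n m L x (n + k + 1) = tol k ^ 2 / 2 := by
      rw [add_assoc, sol_tol (show k + 1 ≤ m by omega)]
      rfl
    rw [add_zero] at d0
    rw [d0, d1, d2, sol_tol hk.le]
    have ht := tol_pos k
    have ht2 : 0 < tol k ^ 2 := by positivity
    simp only [chAux, if_true, one_ne_zero, if_false]
    refine ⟨?_, ?_, ?_, ?_⟩ <;> nlinarith
  · rw [sol_tol le_rfl]
    linarith

open A5 in
/-- A6 -/
theorem gates_sound (n m : ℕ) (L : List CCon) {y : ℕ → ℝ}
    (hy : ∀ i, |y i| < 1 / 2) (h : ∀ g ∈ gatesOf n m L, gateOK y g) :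
    ∀ e ∈ L, |cRes y e| ≤ 16 * (1 / 2) ^ 2 ^ m := by
  rw [gates_iff] at h
  obtain ⟨h1, h2, h3⟩ := h
  have hch : ∀ k < m, 0 < y (n + k) ∧ y (n + k + 1) < y (n + k) ^ 2 := by
    intro k hk
    have := (chain_iff y _ _).1 (h2 k hk)
    obtain ⟨e1, e2, e3, e4⟩ := this
    constructor
    · linarith
    · nlinarith
  have hpos : ∀ k ≤ m, 0 < y (n + k) := by
    intro k hk
    rcases Nat.lt_or_ge k m with h | h
    · exact (hch k h).1
    · obtain rfl : k = m := le_antisymm hk h
      linarith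
  have hlt : ∀ k ≤ m, y (n + k) < (1 / 2) ^ 2 ^ k := by
    intro k
    induction k with
    | zero =>
      intro _
      have := (abs_lt.1 (hy (n + 0))).2
      simpa using this
    | succ k ih =>
      intro hk
      have i1 := ih (by omega)
      have i2 := hpos k (by omega)
      have i3 := (hch k (by omega)).2
      have i4 : y (n + k) ^ 2 ≤ ((1 / 2 : ℝ) ^ 2 ^ k) ^ 2 :=
        pow_le_pow_left₀ i2.le i1.le 2
      have i5 : ((1 / 2 : ℝ) ^ 2 ^ k) ^ 2 = (1 / 2) ^ 2 ^ (k + 1) := by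
        rw [← pow_mul, pow_succ 2 k]
      rw [i5] at i4
      rw [← add_assoc]
      linarith
  have hτ0 := hpos m le_rfl
  have hτ1 := hlt m le_rfl
  intro e he
  obtain ⟨q, hq, hqe⟩ := List.getElem_of_mem he
  have hz : (e, q) ∈ L.zipIdx := by
    rw [List.mem_zipIdx_iff_getElem?]
    simp only
    rw [List.getElem?_eq_getElem hq, hqe]
  have hc := (con_iff y _ _ e).1 (h1 (e, q) hz)
  obtain ⟨k0, k1, k2⟩ := hc
  rw [abs_le]
  unfold cRes
  by_cases e0 : e.1 = 0
  · rw [if_pos e0]
    obtain ⟨u1, u2⟩ := k0 e0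
    constructor <;> linarith
  · rw [if_neg e0]
    by_cases e1 : e.1 = 1
    · rw [if_pos e1]
      obtain ⟨u1, u2, u3, u4⟩ := k1 e1
      constructor <;> linarith
    · rw [if_neg e1]
      obtain ⟨⟨u1, u2, u3, u4⟩, u5, u6, u7, u8⟩ := k2 e0 e1
      constructor <;> nlinarith

end Pool.Agent.SegDraw
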