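import Pool.Agent.Lib.MP_431574_lc.Rooms

/-!
# Gates, programs and their layout by rooms

A *gate system* has variables `x_0, ..., x_{n-1}`; literals are numbers `l < 2 n`, the literal `2 i`
is `x_i` and the literal `2 i + 1` is `- x_i`.  A bus of `W = 2 n + 3` wires carries the literals on
the wires `0, ..., 2 n - 1`; the three upper wires are used to feed the gates.  The wire `i` runs in
the lane `2 i`.  A program is a list of operations, the `k`-th operation takes place in the columns
`8 k, ..., 8 k + 8` (the block `0` creates the wires).
-/

namespace Pool.Agent.SegDraw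

/-- A gate `(kind, l₁, l₂, l₃)` with three literals. -/
abbrev Gate := ℕ × ℕ × ℕ × ℕ

/-- value of a literal -/
noncomputable def litVal (x : ℕ → ℝ) (l : ℕ) : ℝ := if l % 2 = 0 then x (l / 2) else - x (l / 2)

/-- the condition of a gate on the values of its three literals -/
def gateRel (kind : ℕ) (a b c : ℝ) : Prop :=
  if kind = 0 then a + b + c < 0
  else if kind = 1 then a + b + c < 1 / 16
  else if kind = 2 then a + b + c < -(1 / 16)
  else 1 + b < (1 - a) * (1 - c)

/-- the condition of a gate -/
def gateOK (x : ℕ → ℝ) (g : Gate) : Prop :=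
  gateRel g.1 (litVal x g.2.1) (litVal x g.2.2.1) (litVal x g.2.2.2)

/-- operations on the bus -/
inductive Op where
  /-- exchange the wires `i` and `i + 1` -/
  | swap (i : ℕ)
  /-- replace the wire `i + 1` by a copy of the wire `i` -/
  | copy (i : ℕ)
  /-- apply a gate to the three upper wires and replace them by new ones -/
  | gate (kind : ℕ)

/-- pins in the lane `j`, in the columns `8 k + t` for `t₀ ≤ t < 8` -/
def pins (k t₀ j : ℕ) : List Room :=
  (List.range (8 - t₀)).map (fun t => Room.pin (8 * k + t₀ + t) j (decide ((t₀ + t) % 2 = 0)))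

/-- the wires with numbers in `l`, in the block `k` -/
def wires (k : ℕ) (l : List ℕ) : List Room := l.flatMap (fun i => pins k 0 (2 * i))

/-- the rooms which exchange the wires in the lanes `b` and `b + 2`, starting in the column `c` -/
def swapRooms (c b : ℕ) : List Room :=
  [.fork c b false true, .fork c (b + 2) true false,
   .pin (c + 1) b true, .pin (c + 2) b false, .pin (c + 3) b true,
   .pin (c + 1) (b + 3) true, .pin (c + 2) (b + 3) false, .pin (c + 3) (b + 3) true,
   .tee (c + 1) (b + 1) 280, .fork (c + 3) (b + 1) true true,
   .tee (c + 4) b 280, .tee (c + 4) (b + 2) 280,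
   .pin (c + 6) b true, .pin (c + 7) b false, .pin (c + 6) (b + 2) true, .pin (c + 7) (b + 2) false]

/-- the rooms which copy the wire in the lane `b` to the lane `b + 2` (first two columns) -/
def copyRooms (c b : ℕ) : List Room :=
  [.fork c b true true, .pin (c + 1) b false, .fork (c + 1) (b + 1) false false]

/-- linear gate on the wires in the lanes `b`, `b + 2`, `b + 4` -/
def linRooms (c b P : ℕ) : List Room :=
  [.fork c b true true, .pin c (b + 2) true, .tee (c + 1) (b + 1) 280,
   .lpin c (b + 4) true, .pin (c + 2) (b + 4) false,
   .fork (c + 3) (b + 1) true true, .pin (c + 3) (b + 4) true,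
   .fork (c + 4) (b + 2) false false, .pin (c + 4) (b + 4) false,
   .pin (c + 5) (b + 3) true, .pin (c + 5) (b + 4) true, .tee (c + 6) (b + 3) P]

/-- multiplication gate on the wires in the lanes `b`, `b + 2`, `b + 4` -/
def mulRooms (c b : ℕ) : List Room :=
  [.fork c b true true, .fork c (b + 2) true true, .pin c (b + 4) true,
   .fork (c + 1) (b + 1) false false, .pin (c + 1) (b + 3) false, .pin (c + 1) (b + 4) false,
   .mul (c + 2) (b + 2)]

/-- the rooms of a gate -/
def gateRooms (kind c b : ℕ) : List Room :=
  if kind = 0 then linRooms c b 320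
  else if kind = 1 then linRooms c b 315
  else if kind = 2 then linRooms c b 325
  else mulRooms c b

/-- the rooms of the operation `o` in the block `k`, for a bus of `2 n + 3` wires -/
def blockRooms (n k : ℕ) : Op → List Room
  | .swap i => swapRooms (8 * k) (2 * i) ++ wires k (List.range i) ++
      wires k ((List.range (2 * n + 3 - (i + 2))).map (fun t => i + 2 + t))
  | .copy i => copyRooms (8 * k) (2 * i) ++ pins k 2 (2 * i) ++ pins k 2 (2 * i + 2) ++
      wires k (List.range i) ++ wires k ((List.range (2 * n + 3 - (i + 2))).map (fun t => i + 2 + t))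
  | .gate kind => gateRooms kind (8 * k) (4 * n) ++ wires k (List.range (2 * n))

/-- the rooms which create the two wires of the variable `i` (block `0`) -/
def srcRooms (i : ℕ) : List Room :=
  [.fork 0 (4 * i) true false, .pin 1 (4 * i) false, .fork 1 (4 * i + 1) true true,
   .lpin 2 (4 * i + 2) false] ++ pins 0 2 (4 * i) ++ pins 0 4 (4 * i + 2)

/-- bring a copy of the wire `b` to the wire `T > b`, all wires in between keep their content -/
def fetch (b T : ℕ) : List Op :=
  (List.range (T - 1 - b)).map (fun d => Op.swap (T - 1 - d)) ++ [Op.copy b] ++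
    (List.range (T - 1 - b)).map (fun d => Op.swap (b + 1 + d))

/-- the program of a gate -/
def gateProg (n : ℕ) (g : Gate) : List Op :=
  fetch g.2.2.2 (2 * n + 2) ++ fetch g.2.2.1 (2 * n + 1) ++ fetch g.2.1 (2 * n) ++ [Op.gate g.1]

/-- the program of a list of gates -/
def prog (n : ℕ) (gs : List Gate) : List Op := gs.flatMap (gateProg n)

/-- the layout of a program -/
def progRooms (n : ℕ) (ops : List Op) : List Room :=
  (List.range n).flatMap srcRooms ++ ops.zipIdx.flatMap (fun q => blockRooms n (q.2 + 1) q.1)

/-- the layout of a gate system with `n` variables -/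
def layout (n : ℕ) (gs : List Gate) : List Room := progRooms n (prog n gs)

end Pool.Agent.SegDraw
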