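import Pool.Agent.Lib.MP_431574_lc.Front

/-!
# The instance of a list of rooms

The vertices are numbered `(c * B + j) * 5 + k` for `c, j < B`, `k < 5`; labels that are not used
become isolated vertices which are placed on small segments far to the right.
-/

open N68a2faeb N793a5b8e N487b59b3

namespace Pool.Agent.SegDraw

/-- a bound for the columns and lanes of the labels -/
def boxOf (L : List Room) : ℕ := (L.map (fun r => r.col + r.lane + 4)).sum + 1

/-- the number of a label -/
def idx (B : ℕ) (u : Label) : ℕ := (u.1 * B + u.2.1) * 5 + u.2.2

/-- is the label used? -/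
def usedB (L : List Room) (u : Label) : Bool :=
  (allEdges L).any (fun e => decide (u = e.1) || decide (u = e.2))

/-- natural coordinates as rational ones -/
def qpt (a : ℕ × ℕ) : ℚ × ℚ := ((a.1 : ℚ), (a.2 : ℚ))

/-- the segment of a label in the instance -/
def segOf (L : List Room) (u : Label) : SegData :=
  bif usedB L u then (false, qpt (segA u), qpt (segB u))
  else (false, qpt (30 * boxOf L + 100 + idx (boxOf L) u, 0),
    qpt (30 * boxOf L + 100 + idx (boxOf L) u, 1))

/-- the segments of all vertices, in the order of their numbers -/
def placeList (L : List Room) : List SegData :=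
  (List.range (boxOf L)).flatMap (fun c => (List.range (boxOf L)).flatMap (fun j =>
    (List.range 5).map (fun k => segOf L (c, j, k))))

/-- the number of vertices -/
def vnum (L : List Room) : ℕ := boxOf L * boxOf L * 5

/-- the list of edges -/
def edgeList (L : List Room) : List (ℕ × ℕ) :=
  (allEdges L).map (fun e => (idx (boxOf L) e.1, idx (boxOf L) e.2))

/-- the list of obstacles -/
def obsList (L : List Room) : List ((ℚ × ℚ) × (ℚ × ℚ)) :=
  (allObst L).map (fun o => (qpt (o.1, o.2.1), qpt (o.1, o.2.2)))

/-- the code of the instance -/
def codeOf (L : List Room) : List Bool := bitEncode (vnum L, edgeList L, placeList L, obsList L)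

end Pool.Agent.SegDraw
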