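import Mathlib
import Pool.Prelude.Def_F_458e953d

/-!
# Segment drawing with obstacles, embedding not fixed: definitions

* arithmetic terms and quantifier-free formulas over the reals, their codes by bit strings, the
  existential theory of the reals `ETR`, the class `ER` and `ER`-hardness;
* straight-line drawings, crossing notions, and the decision problem `segDraw C`.

`DecisionProblem`, `ManyOneReducible` (polynomial time many-one reducibility in Mathlib's `TM2`
model) and the encodings `bitEncode` are those of the given prelude.
-/

open N68a2faeb N793a5b8e N487b59b3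

namespace Pool.Agent.SegDraw

/-! ## The existential theory of the reals -/

/-- Arithmetic terms: integer constants, variables `x_0, x_1, ...`, sums and products. -/
inductive Term where
  | const (c : ℤ)
  | var (i : ℕ)
  | add (s t : Term)
  | mul (s t : Term)

/-- The value of a term. -/
def Term.eval (x : ℕ → ℝ) : Term → ℝ
  | .const c => c
  | .var i => x i
  | .add s t => s.eval x + t.eval x
  | .mul s t => s.eval x * t.eval x

/-- Quantifier-free formulas: Boolean combinations of polynomial equations and inequalities. -/
inductive Fml where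
  | eq (s t : Term)
  | le (s t : Term)
  | lt (s t : Term)
  | not (φ : Fml)
  | and (φ ψ : Fml)
  | or (φ ψ : Fml)

/-- Truth of a quantifier-free formula in the reals. -/
def Fml.Holds (x : ℕ → ℝ) : Fml → Prop
  | .eq s t => s.eval x = t.eval x
  | .le s t => s.eval x ≤ t.eval x
  | .lt s t => s.eval x < t.eval x
  | .not φ => ¬ φ.Holds x
  | .and φ ψ => φ.Holds x ∧ ψ.Holds x
  | .or φ ψ => φ.Holds x ∨ ψ.Holds x

/-- Polish (prefix) notation of a term as a list of tokens `(tag, datum)`. -/
def Term.code : Term → List (ℕ × ℤ)
  | .const c => [(0, c)]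
  | .var i => [(1, (i : ℤ))]
  | .add s t => (2, 0) :: (s.code ++ t.code)
  | .mul s t => (3, 0) :: (s.code ++ t.code)

/-- Polish (prefix) notation of a formula as a list of tokens `(tag, datum)`. -/
def Fml.code : Fml → List (ℕ × ℤ)
  | .eq s t => (4, 0) :: (s.code ++ t.code)
  | .le s t => (5, 0) :: (s.code ++ t.code)
  | .lt s t => (6, 0) :: (s.code ++ t.code)
  | .not φ => (7, 0) :: φ.code
  | .and φ ψ => (8, 0) :: (φ.code ++ ψ.code)
  | .or φ ψ => (9, 0) :: (φ.code ++ ψ.code)

open Classical in
/-- The existential theory of the reals: the codes of the quantifier-free formulas `φ` such that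
`∃ x_0 x_1 ..., φ` is true in the reals. -/
noncomputable def ETR : DecisionProblem :=
  fun s => decide (∃ φ : Fml, s = bitEncode φ.code ∧ ∃ x : ℕ → ℝ, φ.Holds x)

/-- The class `∃ℝ`: the decision problems that reduce in polynomial time (many-one) to `ETR`. -/
def ER : Set DecisionProblem := {L | ManyOneReducible L ETR}

/-- `∃ℝ`-hardness: every problem in `∃ℝ` reduces to `H` in polynomial time. -/
def ERHard (H : DecisionProblem) : Prop := ∀ L ∈ ER, ManyOneReducible L H

/-! ## Segments and drawings -/

/-- A line segment given by a flag (`true` for closed, `false` for open) and its two rational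
endpoints. -/
abbrev SegData := Bool × (ℚ × ℚ) × (ℚ × ℚ)

/-- The point of the plane with the given rational coordinates. -/
def pt (a : ℚ × ℚ) : ℝ × ℝ := ((a.1 : ℝ), (a.2 : ℝ))

open Classical in
/-- The set of points of a segment (with its endpoints if it is closed, without them if it is
open). -/
noncomputable def carrier (s : SegData) : Set (ℝ × ℝ) :=
  if s.1 = true then segment ℝ (pt s.2.1) (pt s.2.2) else openSegment ℝ (pt s.2.1) (pt s.2.2)

/-- A straight-line drawing of the graph `G` that places the vertex `v` at `p v`: distinct
vertices are placed at distinct points and no edge contains the image of a vertex that is not one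
of its ends. It is planar: two distinct edges meet at most in a common end. -/
structure IsPlanarDrawing {n : ℕ} (G : SimpleGraph (Fin n)) (p : Fin n → ℝ × ℝ) : Prop where
  inj : Function.Injective p
  vertex : ∀ u v w : Fin n, G.Adj u v → w ≠ u → w ≠ v → p w ∉ segment ℝ (p u) (p v)
  edge : ∀ u v u' v' : Fin n, G.Adj u v → G.Adj u' v' → s(u, v) ≠ s(u', v') →
    ∀ x ∈ segment ℝ (p u) (p v), x ∈ segment ℝ (p u') (p v') →
      ∃ w, (w = u ∨ w = v) ∧ (w = u' ∨ w = v') ∧ x = p w

/-- The graph `G` is planar (stated through straight-line drawings, see Fáry's theorem). -/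
def IsPlanar {n : ℕ} (G : SimpleGraph (Fin n)) : Prop := ∃ p, IsPlanarDrawing G p

/-- The segments `uv` and `ab` cross properly: they have a common point that is an end of neither,
and they are not contained in a common line. -/
def ProperlyCross (u v a b : ℝ × ℝ) : Prop :=
  (openSegment ℝ u v ∩ openSegment ℝ a b).Nonempty ∧ ¬ Collinear ℝ {u, v, a, b}

/-- The closed segments `uv` and `ab` have a common point. -/
def Meet (u v a b : ℝ × ℝ) : Prop := (segment ℝ u v ∩ segment ℝ a b).Nonempty

/-- A reading of `the edge uv crosses the segment ab`: segments that cross properly do cross,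
and segments that cross have a common point. -/
def IsCrossingNotion (C : ℝ × ℝ → ℝ × ℝ → ℝ × ℝ → ℝ × ℝ → Prop) : Prop :=
  (∀ u v a b, ProperlyCross u v a b → C u v a b) ∧ (∀ u v a b, C u v a b → Meet u v a b)

/-- An instance of the drawing problem on the vertices `0, ..., n - 1`: the segments of the
vertices and the finite list of obstacles. All segments are nondegenerate. -/
structure Inst (n : ℕ) where
  /-- the graph -/
  G : SimpleGraph (Fin n)
  /-- the segments on which the vertices have to be placed -/
  place : Fin n → SegData
  /-- the endpoints of the (closed) obstacle segments -/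
  obs : List ((ℚ × ℚ) × (ℚ × ℚ))
  /-- the segments of the vertices are nondegenerate -/
  place_ne : ∀ v, (place v).2.1 ≠ (place v).2.2
  /-- the obstacles are nondegenerate -/
  obs_ne : ∀ o ∈ obs, o.1 ≠ o.2

/-- `G` has a planar straight-line drawing in which every vertex lies on its segment and no edge
crosses an obstacle, for the crossing notion `C`. -/
def Inst.Drawable (C : ℝ × ℝ → ℝ × ℝ → ℝ × ℝ → ℝ × ℝ → Prop) {n : ℕ} (I : Inst n) : Prop :=
  ∃ p : Fin n → ℝ × ℝ, IsPlanarDrawing I.G p ∧ (∀ v, p v ∈ carrier (I.place v)) ∧
    ∀ u v, I.G.Adj u v → ∀ o ∈ I.obs, ¬ C (p u) (p v) (pt o.1) (pt o.2)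

/-- `E` lists the edges of `G`: the vertices `i`, `j` are adjacent if and only if `(i, j)` or
`(j, i)` is in `E`, and all entries are pairs of vertices. -/
def IsEdgeList {n : ℕ} (G : SimpleGraph (Fin n)) (E : List (ℕ × ℕ)) : Prop :=
  (∀ e ∈ E, e.1 < n ∧ e.2 < n) ∧
    ∀ i j : Fin n, G.Adj i j ↔ ((i : ℕ), (j : ℕ)) ∈ E ∨ ((j : ℕ), (i : ℕ)) ∈ E

/-- The bit string `s` is a code of the instance `I`: it is the code of the number of vertices, a
list of the edges, the list of the segments of the vertices and the list of obstacles (numbers in
binary). -/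
def Inst.IsCode {n : ℕ} (I : Inst n) (s : List Bool) : Prop :=
  ∃ E : List (ℕ × ℕ), IsEdgeList I.G E ∧ s = bitEncode (n, E, List.ofFn I.place, I.obs)

open Classical in
/-- The segment drawing problem with obstacles, embedding not fixed, for the crossing notion `C`:
the codes of the instances with a planar graph that are drawable. -/
noncomputable def segDraw (C : ℝ × ℝ → ℝ × ℝ → ℝ × ℝ → ℝ × ℝ → Prop) : DecisionProblem :=
  fun s => decide (∃ (n : ℕ) (I : Inst n), I.IsCode s ∧ IsPlanar I.G ∧ I.Drawable C)

end Pool.Agent.SegDraw
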