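import Pool.Agent.Lib.MP_431574_lc.Code

/-!
# F1: the stack machine recognises the codes of formulas
-/

open Computability

namespace Pool.Agent.SegDraw

namespace F1

lemma encodeNat_inj {a b : ℕ} (h : encodeNat a = encodeNat b) : a = b := by
  rw [← decode_encodeNat a, h, decode_encodeNat]

lemma encodeNat_zero : encodeNat 0 = [] := rfl

lemma encodeNat_isEmpty {a : ℕ} : (encodeNat a).isEmpty = true ↔ a = 0 := by
  rw [List.isEmpty_iff]
  constructor
  · intro h
    exact encodeNat_inj (by rw [h, encodeNat_zero])
  · rintro rfl
    rfl

lemma canon_posNum (n : PosNum) : (encodePosNum n).getLast? = some true := by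
  induction n with
  | one => rfl
  | bit1 m ih =>
    unfold encodePosNum
    rw [List.getLast?_cons, ih]
    rfl
  | bit0 m ih =>
    unfold encodePosNum
    rw [List.getLast?_cons, ih]
    rfl

lemma canon_encodeNat (n : ℕ) : canon (encodeNat n) = true := by
  unfold canon encodeNat
  cases h : (n : Num) with
  | zero => rfl
  | pos m =>
    have : encodeNum (Num.pos m) = encodePosNum m := rfl
    rw [this, canon_posNum]
    simp

lemma rtag_rawOf {k : ℕ} (hk : k < 10) (z : ℤ) : rtag (rawOf (k, z)) = k := by
  have h : rtag (rawOf (k, z)) = rtag (rawOf (k, 0)) := by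
    unfold rtag rawOf
    rfl
  rw [h]
  interval_cases k <;> rfl

lemma mstep_leaf {a : ℕ} {t : RTok} {s : MState} (h : rtag t < 2) :
    mstep a t s = (s.1, (false, a) :: s.2.1, (a, rtag t, 0, 0, t.2.1, t.2.2) :: s.2.2) := by
  unfold mstep
  simp only [h, if_true]

lemma mstep_not {a : ℕ} {t : RTok} {s : MState} (h : rtag t = 7) :
    mstep a t s = (s.1 && decide (1 ≤ s.2.1.length) && (s.2.1.headD (false, 0)).1,
      (true, a) :: s.2.1.tail,
      (a, rtag t, (s.2.1.headD (false, 0)).2, 0, t.2.1, t.2.2) :: s.2.2) := by
  unfold mstep
  simp only [h]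
  simp

lemma mstep_bin {a : ℕ} {t : RTok} {s : MState} (h2 : 2 ≤ rtag t) (h7 : rtag t ≠ 7) :
    mstep a t s = (s.1 && decide (2 ≤ s.2.1.length) && decide (rtag t < 10) &&
        ((s.2.1.headD (false, 0)).1 == decide (8 ≤ rtag t)) &&
        ((s.2.1.tail.headD (false, 0)).1 == decide (8 ≤ rtag t)),
      (decide (4 ≤ rtag t), a) :: s.2.1.tail.tail,
      (a, rtag t, (s.2.1.headD (false, 0)).2, (s.2.1.tail.headD (false, 0)).2, t.2.1, t.2.2) ::
        s.2.2) := by
  unfold mstep
  simp only [not_lt.2 h2, h7, if_false]

lemma mrun_term (t : Term) : ∀ (a : ℕ) (T : List RTok), mrun a (t.code.map rawOf ++ T) =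
    ((mrun (a + t.code.length) T).1, (false, a) :: (mrun (a + t.code.length) T).2.1,
      t.recs a ++ (mrun (a + t.code.length) T).2.2) := by
  induction t with
  | const c =>
    intro a T
    have h : rtag (rawOf (0, c)) = 0 := rtag_rawOf (by norm_num) c
    simp only [Term.code, List.map_cons, List.map_nil, List.cons_append, List.nil_append, mrun,
      List.length_cons, List.length_nil, zero_add]
    rw [mstep_leaf (by rw [h]; norm_num), h]
    rfl
  | var i =>
    intro a T
    have h : rtag (rawOf (1, (i : ℤ))) = 1 := rtag_rawOf (by norm_num) _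
    simp only [Term.code, List.map_cons, List.map_nil, List.cons_append, List.nil_append, mrun,
      List.length_cons, List.length_nil, zero_add]
    rw [mstep_leaf (by rw [h]; norm_num), h]
    have h1 : (rawOf (1, (i : ℤ))).2.1 = encodeNat i := rfl
    have h2 : (rawOf (1, (i : ℤ))).2.2 = [] := by
      unfold rawOf
      rw [← encodeNat_zero]
      simp
    rw [h1, h2]
    rfl
  | add s t ihs iht =>
    intro a T
    have h : rtag (rawOf (2, 0)) = 2 := rtag_rawOf (by norm_num) _
    have e : a + (Term.add s t).code.length = a + 1 + s.code.length + t.code.length := by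
      simp only [Term.code, List.length_cons, List.length_append]
      omega
    rw [e]
    simp only [Term.code, List.map_cons, List.map_append, List.cons_append, List.append_assoc,
      mrun]
    rw [ihs, iht, mstep_bin (by rw [h]) (by rw [h]; norm_num), h]
    simp only [Term.recs, List.append_assoc, List.cons_append]
    simp
    rfl
  | mul s t ihs iht =>
    intro a T
    have h : rtag (rawOf (3, 0)) = 3 := rtag_rawOf (by norm_num) _
    have e : a + (Term.mul s t).code.length = a + 1 + s.code.length + t.code.length := by
      simp only [Term.code, List.length_cons, List.length_append]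
      omega
    rw [e]
    simp only [Term.code, List.map_cons, List.map_append, List.cons_append, List.append_assoc,
      mrun]
    rw [ihs, iht, mstep_bin (by rw [h]; norm_num) (by rw [h]; norm_num), h]
    simp only [Term.recs, List.append_assoc, List.cons_append]
    simp
    rfl

lemma mrun_fml (φ : Fml) : ∀ (a : ℕ) (T : List RTok), mrun a (φ.code.map rawOf ++ T) =
    ((mrun (a + φ.code.length) T).1, (true, a) :: (mrun (a + φ.code.length) T).2.1,
      φ.recs a ++ (mrun (a + φ.code.length) T).2.2) := by
  induction φ with
  | eq s t =>
    intro a T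
    have h : rtag (rawOf (4, 0)) = 4 := rtag_rawOf (by norm_num) _
    have e : a + (Fml.eq s t).code.length = a + 1 + s.code.length + t.code.length := by
      simp only [Fml.code, List.length_cons, List.length_append]
      omega
    rw [e]
    simp only [Fml.code, List.map_cons, List.map_append, List.cons_append, List.append_assoc,
      mrun]
    rw [mrun_term, mrun_term, mstep_bin (by rw [h]; norm_num) (by rw [h]; norm_num), h]
    simp only [Fml.recs, List.append_assoc, List.cons_append]
    simp
    rfl
  | le s t =>
    intro a T
    have h : rtag (rawOf (5, 0)) = 5 := rtag_rawOf (by norm_num) _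
    have e : a + (Fml.le s t).code.length = a + 1 + s.code.length + t.code.length := by
      simp only [Fml.code, List.length_cons, List.length_append]
      omega
    rw [e]
    simp only [Fml.code, List.map_cons, List.map_append, List.cons_append, List.append_assoc,
      mrun]
    rw [mrun_term, mrun_term, mstep_bin (by rw [h]; norm_num) (by rw [h]; norm_num), h]
    simp only [Fml.recs, List.append_assoc, List.cons_append]
    simp
    rfl
  | lt s t =>
    intro a T
    have h : rtag (rawOf (6, 0)) = 6 := rtag_rawOf (by norm_num) _
    have e : a + (Fml.lt s t).code.length = a + 1 + s.code.length + t.code.length := by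
      simp only [Fml.code, List.length_cons, List.length_append]
      omega
    rw [e]
    simp only [Fml.code, List.map_cons, List.map_append, List.cons_append, List.append_assoc,
      mrun]
    rw [mrun_term, mrun_term, mstep_bin (by rw [h]; norm_num) (by rw [h]; norm_num), h]
    simp only [Fml.recs, List.append_assoc, List.cons_append]
    simp
    rfl
  | not φ ih =>
    intro a T
    have h : rtag (rawOf (7, 0)) = 7 := rtag_rawOf (by norm_num) _
    have e : a + (Fml.not φ).code.length = a + 1 + φ.code.length := by
      simp only [Fml.code, List.length_cons]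
      omega
    rw [e]
    simp only [Fml.code, List.map_cons, List.cons_append, mrun]
    rw [ih, mstep_not h, h]
    simp only [Fml.recs, List.cons_append]
    simp
    rfl
  | and φ ψ ihφ ihψ =>
    intro a T
    have h : rtag (rawOf (8, 0)) = 8 := rtag_rawOf (by norm_num) _
    have e : a + (Fml.and φ ψ).code.length = a + 1 + φ.code.length + ψ.code.length := by
      simp only [Fml.code, List.length_cons, List.length_append]
      omega
    rw [e]
    simp only [Fml.code, List.map_cons, List.map_append, List.cons_append, List.append_assoc,
      mrun]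
    rw [ihφ, ihψ, mstep_bin (by rw [h]; norm_num) (by rw [h]; norm_num), h]
    simp only [Fml.recs, List.append_assoc, List.cons_append]
    simp
    rfl
  | or φ ψ ihφ ihψ =>
    intro a T
    have h : rtag (rawOf (9, 0)) = 9 := rtag_rawOf (by norm_num) _
    have e : a + (Fml.or φ ψ).code.length = a + 1 + φ.code.length + ψ.code.length := by
      simp only [Fml.code, List.length_cons, List.length_append]
      omega
    rw [e]
    simp only [Fml.code, List.map_cons, List.map_append, List.cons_append, List.append_assoc,
      mrun]
    rw [ihφ, ihψ, mstep_bin (by rw [h]; norm_num) (by rw [h]; norm_num), h]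
    simp only [Fml.recs, List.append_assoc, List.cons_append]
    simp
    rfl

lemma mrun_code (φ : Fml) : mrun 0 (φ.code.map rawOf) = (true, [(true, 0)], φ.recs 0) := by
  have h := mrun_fml φ 0 []
  rw [List.append_nil] at h
  rw [h]
  simp [mrun]

/-! ### Validity of the tokens -/

/-- the valid tokens -/
def VT (t : ℕ × ℤ) : Prop :=
  t.1 = 0 ∨ (t.1 = 1 ∧ 0 ≤ t.2) ∨ (2 ≤ t.1 ∧ t.1 < 10 ∧ t.2 = 0)

lemma rvalid_iff (t : ℕ × ℤ) : rvalid (rawOf t) = true ↔ VT t := by
  obtain ⟨k, z⟩ := t
  have e1 : (rawOf (k, z)).1 = encodeNat k := rfl
  have e2 : (rawOf (k, z)).2.1 = encodeNat z.toNat := rfl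
  have e3 : (rawOf (k, z)).2.2 = encodeNat (-z).toNat := rfl
  unfold rvalid VT
  rw [e1, e2, e3, canon_encodeNat, canon_encodeNat]
  simp only [Bool.or_eq_true, Bool.and_eq_true, beq_iff_eq, encodeNat_isEmpty, List.any_eq_true,
    List.mem_range]
  constructor
  · rintro ((h | h) | h)
    · exact Or.inl (encodeNat_inj h.1.1.1)
    · refine Or.inr (Or.inl ⟨encodeNat_inj h.1.1, ?_⟩)
      have := h.2
      omega
    · obtain ⟨⟨⟨j, hj, hj'⟩, h1⟩, h2⟩ := h
      have := encodeNat_inj hj'
      refine Or.inr (Or.inr ⟨by omega, by omega, ?_⟩)
      omega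
  · rintro (h | ⟨h, h'⟩ | ⟨h, h', h''⟩)
    · refine Or.inl (Or.inl ⟨⟨⟨by rw [h], trivial⟩, trivial⟩, ?_⟩)
      omega
    · refine Or.inl (Or.inr ⟨⟨by rw [h], trivial⟩, ?_⟩)
      omega
    · refine Or.inr ⟨⟨⟨k - 2, by omega, ?_⟩, by omega⟩, by omega⟩
      rw [Nat.sub_add_cancel h]

lemma vt_term (t : Term) : ∀ u ∈ t.code, VT u := by
  induction t with
  | const c =>
    intro u hu
    simp only [Term.code, List.mem_singleton] at hu
    subst hu
    exact Or.inl rfl
  | var i =>
    intro u hu
    simp only [Term.code, List.mem_singleton] at hu
    subst hu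
    exact Or.inr (Or.inl ⟨rfl, Int.natCast_nonneg i⟩)
  | add s t ihs iht =>
    intro u hu
    simp only [Term.code, List.mem_cons, List.mem_append] at hu
    rcases hu with rfl | hu | hu
    · exact Or.inr (Or.inr ⟨by norm_num, by norm_num, rfl⟩)
    · exact ihs u hu
    · exact iht u hu
  | mul s t ihs iht =>
    intro u hu
    simp only [Term.code, List.mem_cons, List.mem_append] at hu
    rcases hu with rfl | hu | hu
    · exact Or.inr (Or.inr ⟨by norm_num, by norm_num, rfl⟩)
    · exact ihs u hu
    · exact iht u hu

lemma vt_fml (φ : Fml) : ∀ u ∈ φ.code, VT u := by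
  induction φ with
  | eq s t =>
    intro u hu
    simp only [Fml.code, List.mem_cons, List.mem_append] at hu
    rcases hu with rfl | hu | hu
    · exact Or.inr (Or.inr ⟨by norm_num, by norm_num, rfl⟩)
    · exact vt_term s u hu
    · exact vt_term t u hu
  | le s t =>
    intro u hu
    simp only [Fml.code, List.mem_cons, List.mem_append] at hu
    rcases hu with rfl | hu | hu
    · exact Or.inr (Or.inr ⟨by norm_num, by norm_num, rfl⟩)
    · exact vt_term s u hu
    · exact vt_term t u hu
  | lt s t =>
    intro u hu
    simp only [Fml.code, List.mem_cons, List.mem_append] at hu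
    rcases hu with rfl | hu | hu
    · exact Or.inr (Or.inr ⟨by norm_num, by norm_num, rfl⟩)
    · exact vt_term s u hu
    · exact vt_term t u hu
  | not φ ih =>
    intro u hu
    simp only [Fml.code, List.mem_cons] at hu
    rcases hu with rfl | hu
    · exact Or.inr (Or.inr ⟨by norm_num, by norm_num, rfl⟩)
    · exact ih u hu
  | and φ ψ ihφ ihψ =>
    intro u hu
    simp only [Fml.code, List.mem_cons, List.mem_append] at hu
    rcases hu with rfl | hu | hu
    · exact Or.inr (Or.inr ⟨by norm_num, by norm_num, rfl⟩)
    · exact ihφ u hu
    · exact ihψ u hu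
  | or φ ψ ihφ ihψ =>
    intro u hu
    simp only [Fml.code, List.mem_cons, List.mem_append] at hu
    rcases hu with rfl | hu | hu
    · exact Or.inr (Or.inr ⟨by norm_num, by norm_num, rfl⟩)
    · exact ihφ u hu
    · exact ihψ u hu

/-- code of a term or a formula -/
def icode : Term ⊕ Fml → List (ℕ × ℤ)
  | .inl t => t.code
  | .inr φ => φ.code

lemma parse (T : List (ℕ × ℤ)) : ∀ a, (∀ t ∈ T, VT t) → (mrun a (T.map rawOf)).1 = true →
    ∃ L : List (Term ⊕ Fml), T = (L.map icode).flatten ∧
      (mrun a (T.map rawOf)).2.1.map Prod.fst = L.map Sum.isRight := by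
  induction T with
  | nil =>
    intro a _ _
    exact ⟨[], rfl, rfl⟩
  | cons t T ih =>
    intro a hv hf
    have hvt := hv t List.mem_cons_self
    obtain ⟨k, z⟩ := t
    have hk : k < 10 := by
      rcases hvt with h | h | h
      · simp only at h; omega
      · simp only at h; omega
      · simp only at h; omega
    have htag : rtag (rawOf (k, z)) = k := rtag_rawOf hk z
    rw [List.map_cons, mrun] at hf ⊢
    set s := mrun (a + 1) (T.map rawOf) with hs
    have hs1 : s.1 = true := by
      rcases lt_or_ge k 2 with h | h
      · rw [mstep_leaf (by rw [htag]; exact h)] at hf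
        exact hf
      · rcases eq_or_ne k 7 with h7 | h7
        · rw [mstep_not (by rw [htag]; exact h7)] at hf
          simp only [Bool.and_eq_true] at hf
          exact hf.1.1
        · rw [mstep_bin (by rw [htag]; exact h) (by rw [htag]; exact h7)] at hf
          simp only [Bool.and_eq_true] at hf
          exact hf.1.1.1.1
    obtain ⟨L, hL, hst⟩ := ih (a + 1) (fun u hu => hv u (List.mem_cons_of_mem _ hu)) hs1
    rw [← hs] at hst
    rcases hvt with h | ⟨h, hz⟩ | ⟨h2, -, hz⟩
    · -- constant
      simp only at h
      subst h
      rw [mstep_leaf (by rw [htag]; norm_num)]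
      refine ⟨Sum.inl (Term.const z) :: L, ?_, ?_⟩
      · rw [List.map_cons, List.flatten_cons, ← hL]
        rfl
      · rw [List.map_cons, List.map_cons, hst]
        rfl
    · -- variable
      simp only at h hz
      subst h
      rw [mstep_leaf (by rw [htag]; norm_num)]
      refine ⟨Sum.inl (Term.var z.toNat) :: L, ?_, ?_⟩
      · rw [List.map_cons, List.flatten_cons, ← hL]
        simp [icode, Term.code, Int.toNat_of_nonneg hz]
      · rw [List.map_cons, List.map_cons, hst]
        rfl
    · simp only at h2 hz
      subst hz
      rcases eq_or_ne k 7 with h7 | h7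
      · -- negation
        subst h7
        rw [mstep_not htag] at hf ⊢
        simp only [Bool.and_eq_true] at hf
        match hst' : s.2.1, L, hst, hL with
        | [], _, _, _ =>
          rw [hst'] at hf
          simp at hf
        | x :: st, [], hst, _ => simp at hst
        | x :: st, Sum.inl t :: L', hst, _ =>
          rw [hst'] at hf
          simp only [List.map_cons, List.cons.injEq] at hst
          have := hf.2
          simp only [List.headD_cons] at this
          rw [this] at hst
          simp at hst
        | x :: st, Sum.inr φ :: L', hst, hL =>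
          refine ⟨Sum.inr (Fml.not φ) :: L', ?_, ?_⟩
          · rw [hL]
            simp [icode, Fml.code]
          · simp only [List.map_cons, List.cons.injEq] at hst ⊢
            exact ⟨rfl, hst.2⟩
      · rw [mstep_bin (by rw [htag]; exact h2) (by rw [htag]; exact h7)] at hf ⊢
        simp only [Bool.and_eq_true, beq_iff_eq, htag] at hf ⊢
        match hst' : s.2.1, L, hst, hL with
        | [], _, _, _ =>
          rw [hst'] at hf
          simp at hf
        | [x], _, _, _ =>
          rw [hst'] at hf
          simp at hf
        | x :: y :: st, [], hst, _ => simp at hst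
        | x :: y :: st, [i], hst, _ => simp at hst
        | x :: y :: st, i :: j :: L', hst, hL =>
          rw [hst'] at hf
          simp only [List.map_cons, List.cons.injEq] at hst
          obtain ⟨⟨⟨⟨-, -⟩, -⟩, hx⟩, hy⟩ := hf
          simp only [List.headD_cons, List.tail_cons] at hx hy
          rw [hst.1] at hx
          rw [hst.2.1] at hy
          have hcases : (k = 2 ∨ k = 3 ∨ k = 4 ∨ k = 5 ∨ k = 6) ∨ (k = 8 ∨ k = 9) := by omega
          rcases hcases with hk' | hk'
          · have h8 : decide (8 ≤ k) = false := by
              simp only [decide_eq_false_iff_not]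
              omega
            rw [h8] at hx hy
            obtain ⟨u, rfl⟩ : ∃ u, i = Sum.inl u := by
              cases i with
              | inl u => exact ⟨u, rfl⟩
              | inr u => simp at hx
            obtain ⟨v, rfl⟩ : ∃ v, j = Sum.inl v := by
              cases j with
              | inl u => exact ⟨u, rfl⟩
              | inr u => simp at hy
            rcases hk' with rfl | rfl | rfl | rfl | rfl
            · refine ⟨Sum.inl (Term.add u v) :: L', ?_, ?_⟩
              · rw [hL]
                simp [icode, Term.code]
              · simp [hst.2.2]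
            · refine ⟨Sum.inl (Term.mul u v) :: L', ?_, ?_⟩
              · rw [hL]
                simp [icode, Term.code]
              · simp [hst.2.2]
            · refine ⟨Sum.inr (Fml.eq u v) :: L', ?_, ?_⟩
              · rw [hL]
                simp [icode, Fml.code]
              · simp [hst.2.2]
            · refine ⟨Sum.inr (Fml.le u v) :: L', ?_, ?_⟩
              · rw [hL]
                simp [icode, Fml.code]
              · simp [hst.2.2]
            · refine ⟨Sum.inr (Fml.lt u v) :: L', ?_, ?_⟩
              · rw [hL]
                simp [icode, Fml.code]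
              · simp [hst.2.2]
          · have h8 : decide (8 ≤ k) = true := by
              simp only [decide_eq_true_eq]
              omega
            rw [h8] at hx hy
            obtain ⟨u, rfl⟩ : ∃ u, i = Sum.inr u := by
              cases i with
              | inl u => simp at hx
              | inr u => exact ⟨u, rfl⟩
            obtain ⟨v, rfl⟩ : ∃ v, j = Sum.inr v := by
              cases j with
              | inl u => simp at hy
              | inr u => exact ⟨u, rfl⟩
            rcases hk' with rfl | rfl
            · refine ⟨Sum.inr (Fml.and u v) :: L', ?_, ?_⟩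
              · rw [hL]
                simp [icode, Fml.code]
              · simp [hst.2.2]
            · refine ⟨Sum.inr (Fml.or u v) :: L', ?_, ?_⟩
              · rw [hL]
                simp [icode, Fml.code]
              · simp [hst.2.2]

end F1

/-- F1b -/
theorem mrun_recs (φ : Fml) : (mrun 0 (φ.code.map rawOf)).2.2 = φ.recs 0 := by
  rw [F1.mrun_code]

/-- F1 -/
theorem accepts_iff (T : List (ℕ × ℤ)) : accepts (T.map rawOf) = true ↔ ∃ φ : Fml, φ.code = T := by
  unfold accepts
  simp only [Bool.and_eq_true, beq_iff_eq, List.all_eq_true]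
  constructor
  · rintro ⟨⟨h1, h2⟩, h3⟩
    have hv : ∀ t ∈ T, F1.VT t := fun t ht =>
      (F1.rvalid_iff t).1 (h1 _ (List.mem_map_of_mem ht))
    obtain ⟨L, hL, hst⟩ := F1.parse T 0 hv h2
    rw [h3] at hst
    match L, hst, hL with
    | [], hst, _ => simp at hst
    | [Sum.inl t], hst, _ => simp at hst
    | [Sum.inr φ], _, hL =>
      refine ⟨φ, ?_⟩
      rw [hL]
      simp [F1.icode]
    | _ :: _ :: _, hst, _ => simp at hst
  · rintro ⟨φ, rfl⟩
    rw [F1.mrun_code]
    refine ⟨⟨fun t ht => ?_, rfl⟩, rfl⟩
    obtain ⟨u, hu, rfl⟩ := List.mem_map.1 ht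
    exact (F1.rvalid_iff u).2 (F1.vt_fml φ u hu)

end Pool.Agent.SegDraw
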