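import Pool.Agent.Lib.MP_431574_lc.F1

/-!
# Semantics of the system of equations of a formula
-/

open N68a2faeb N793a5b8e N487b59b3

namespace Pool.Agent.SegDraw

namespace F2

/-! ### Values of bit strings -/

/-- the value of a list of bits, least significant bit first -/
def bval : List Bool → ℝ
  | [] => 0
  | b :: l => (bif b then 1 else 0) + 2 * bval l

theorem bval_encodePosNum (p : PosNum) : bval (Computability.encodePosNum p) = (p : ℝ) := by
  induction p with
  | one => simp [Computability.encodePosNum, bval]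
  | bit0 p ih => simp [Computability.encodePosNum, bval, ih, PosNum.cast_bit0]; ring
  | bit1 p ih => simp [Computability.encodePosNum, bval, ih, PosNum.cast_bit1]; ring

theorem bval_encodeNat (n : ℕ) : bval (Computability.encodeNat n) = (n : ℝ) := by
  unfold Computability.encodeNat Computability.encodeNum
  have h : (((n : Num) : ℕ) : ℝ) = (n : ℝ) := by simp
  rw [← h]
  cases (n : Num) with
  | zero => simp [bval]
  | pos p => simp [bval_encodePosNum]

theorem encodeNat_inj {m n : ℕ} (h : Computability.encodeNat m = Computability.encodeNat n) : m = n := by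
  have := congrArg Computability.decodeNat h
  simpa [Computability.decode_encodeNat] using this

theorem bval_drop {l : List Bool} {i : ℕ} (h : i < l.length) :
    bval (l.drop i) = (bif l[i] then 1 else 0) + 2 * bval (l.drop (i + 1)) := by
  rw [List.drop_eq_getElem_cons h, bval]

/-! ### Systems -/

theorem ESat_append {L L' : List ECon} {V : ℕ → ℝ} : ESat (L ++ L') V ↔ ESat L V ∧ ESat L' V := by
  unfold ESat
  constructor
  · intro h
    exact ⟨fun e he => h e (List.mem_append_left _ he), fun e he => h e (List.mem_append_right _ he)⟩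
  · rintro ⟨h1, h2⟩ e he
    rcases List.mem_append.1 he with h | h
    · exact h1 e h
    · exact h2 e h

theorem ESat_cons {e : ECon} {L : List ECon} {V : ℕ → ℝ} :
    ESat (e :: L) V ↔ eRes V e = 0 ∧ ESat L V := by
  unfold ESat; simp

theorem ESat_nil {V : ℕ → ℝ} : ESat [] V := by unfold ESat; simp

/-- The variables of the Horner scheme have the right values. -/
theorem horner_sound {M a o : ℕ} {l : List Bool} {V : ℕ → ℝ} (h0 : V 0 = 0) (h1 : V 1 = 1)
    (h : ESat (hornerCons M a o l) V) : V (nv M a o) = bval l := by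
  unfold hornerCons at h
  rw [ESat_append] at h
  obtain ⟨ha, hb⟩ := h
  have hlast : V (nv M a (o + 4 * l.length)) = 0 := by
    have := ha _ (List.mem_singleton.2 rfl)
    simp [eRes, h0] at this
    exact this
  have key : ∀ n i : ℕ, i + n = l.length → V (nv M a (o + 4 * i)) = bval (l.drop i) := by
    intro n
    induction n with
    | zero =>
      intro i hi
      have : i = l.length := by omega
      subst this
      rw [hlast, List.drop_length, bval]
    | succ n ih =>
      intro i hi
      have hi' : i < l.length := by omega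
      have hmem : (l[i], i) ∈ l.zipIdx := by
        rw [List.mk_mem_zipIdx_iff_getElem?]
        exact List.getElem?_eq_getElem hi'
      have e1 := hb (1, nv M a (o + 4 * (i + 1)), nv M a (o + 4 * (i + 1)), nv M a (o + 4 * i + 1))
        (List.mem_flatMap.2 ⟨_, hmem, by simp⟩)
      have e2 := hb (1, nv M a (o + 4 * i + 1), bif l[i] then 1 else 0, nv M a (o + 4 * i))
        (List.mem_flatMap.2 ⟨_, hmem, by simp⟩)
      have ih' := ih (i + 1) (by omega)
      rw [bval_drop hi', ← ih']
      simp only [eRes] at e1 e2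
      norm_num at e1 e2
      cases hb' : l[i]
      · rw [hb'] at e2
        simp only [cond_false, h0] at e2 ⊢
        linarith
      · rw [hb'] at e2
        simp only [cond_true, h1] at e2 ⊢
        linarith
  have := key l.length 0 (by omega)
  simpa using this

theorem horner_complete {M a o : ℕ} {l : List Bool} {V : ℕ → ℝ} (h0 : V 0 = 0) (h1 : V 1 = 1)
    (hv : ∀ i ≤ l.length, V (nv M a (o + 4 * i)) = bval (l.drop i))
    (hd : ∀ i < l.length, V (nv M a (o + 4 * i + 1)) = 2 * bval (l.drop (i + 1))) :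
    ESat (hornerCons M a o l) V := by
  unfold hornerCons
  rw [ESat_append]
  constructor
  · rw [ESat_cons]
    refine ⟨?_, ESat_nil⟩
    have := hv l.length le_rfl
    simp [eRes, this, h0, bval]
  · intro e he
    obtain ⟨q, hq, hqe⟩ := List.mem_flatMap.1 he
    obtain ⟨b, i⟩ := q
    rw [List.mk_mem_zipIdx_iff_getElem?] at hq
    obtain ⟨hi, hb⟩ := List.getElem?_eq_some_iff.1 hq
    have h2 := hv i hi.le
    have h3 := hv (i + 1) hi
    have h4 := hd i hi
    rw [bval_drop hi, hb] at h2
    simp only [List.mem_cons, List.not_mem_nil, or_false] at hqe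
    rcases hqe with rfl | rfl
    · simp only [eRes]
      norm_num
      rw [h3, h4]; ring
    · simp only [eRes]
      norm_num
      rw [h2, h4]
      cases b
      · simp only [cond_false, h0]; ring
      · simp only [cond_true, h1]; ring

/-! ### Soundness -/

theorem term_sound {M : ℕ} {V x : ℕ → ℝ} (h0 : V 0 = 0) (h1 : V 1 = 1) (t : Term) : ∀ a : ℕ,
    (∀ r ∈ t.recs a, ESat (recCons M r) V) →
    (∀ b i, ((b, 1, 0, 0, Computability.encodeNat i, []) : Rec) ∈ t.recs a → V (nv M b 0) = x i) →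
    V (nv M a 0) = t.eval x := by
  induction t with
  | const c =>
    intro a hs _
    have h := hs _ (List.mem_singleton.2 rfl)
    simp only [recCons, if_true] at h
    rw [ESat_append, ESat_append] at h
    obtain ⟨⟨ha, hb⟩, hc⟩ := h
    have e1 := horner_sound h0 h1 ha
    have e2 := horner_sound h0 h1 hb
    have e3 := hc _ (List.mem_singleton.2 rfl)
    simp only [eRes] at e3
    norm_num at e3
    rw [bval_encodeNat] at e1 e2
    rw [e1, e2] at e3
    have e4 : ((c.toNat : ℝ)) - ((-c).toNat : ℝ) = (c : ℝ) := by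
      have := Int.toNat_sub_toNat_neg c
      exact_mod_cast this
    rw [Term.eval]
    linarith
  | var i =>
    intro a _ hv
    exact hv a i (by simp [Term.recs])
  | add s t ihs iht =>
    intro a hs hv
    simp only [Term.recs, List.forall_mem_cons, List.forall_mem_append] at hs
    obtain ⟨hr, hs1, hs2⟩ := hs
    have e1 := ihs (a + 1) hs1 (fun b i hb => hv b i (by simp [Term.recs, hb]))
    have e2 := iht (a + 1 + s.code.length) hs2 (fun b i hb => hv b i (by simp [Term.recs, hb]))
    simp only [recCons] at hr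
    norm_num at hr
    have e3 := hr _ (List.mem_singleton.2 rfl)
    simp only [eRes] at e3
    norm_num at e3
    rw [Term.eval, ← e1, ← e2]
    linarith
  | mul s t ihs iht =>
    intro a hs hv
    simp only [Term.recs, List.forall_mem_cons, List.forall_mem_append] at hs
    obtain ⟨hr, hs1, hs2⟩ := hs
    have e1 := ihs (a + 1) hs1 (fun b i hb => hv b i (by simp [Term.recs, hb]))
    have e2 := iht (a + 1 + s.code.length) hs2 (fun b i hb => hv b i (by simp [Term.recs, hb]))
    simp only [recCons] at hr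
    norm_num at hr
    have e3 := hr _ (List.mem_singleton.2 rfl)
    simp only [eRes] at e3
    norm_num at e3
    rw [Term.eval, ← e1, ← e2]
    linarith

/-! ### The equations of the records -/

theorem rec_add {M a p q : ℕ} {l m : List Bool} {V : ℕ → ℝ} : ESat (recCons M (a, 2, p, q, l, m)) V ↔
    V (nv M p 0) + V (nv M q 0) = V (nv M a 0) := by
  simp only [recCons]
  norm_num
  simp only [ESat_cons, eRes, ESat_nil]
  norm_num [sub_eq_zero]

theorem rec_mul {M a p q : ℕ} {l m : List Bool} {V : ℕ → ℝ} : ESat (recCons M (a, 3, p, q, l, m)) V ↔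
    V (nv M p 0) * V (nv M q 0) = V (nv M a 0) := by
  simp only [recCons]
  norm_num
  simp only [ESat_cons, eRes, ESat_nil]
  norm_num [sub_eq_zero]

theorem rec_eq {M a p q : ℕ} {l m : List Bool} {V : ℕ → ℝ} : ESat (recCons M (a, 4, p, q, l, m)) V ↔
    V (nv M a 0) + V (nv M q 0) = V (nv M p 0) ∧ V (nv M a 0) * V (nv M a 2) = V (nv M a 3) ∧
    V (nv M a 1) + V 1 = V (nv M a 3) := by
  simp only [recCons]
  norm_num
  simp only [ESat_cons, eRes, ESat_nil]
  norm_num [sub_eq_zero]

theorem rec_le {M a p q : ℕ} {l m : List Bool} {V : ℕ → ℝ} : ESat (recCons M (a, 5, p, q, l, m)) V ↔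
    V (nv M a 2) + V (nv M p 0) = V (nv M q 0) ∧ V (nv M a 3) * V (nv M a 3) = V (nv M a 4) ∧
    V (nv M a 0) + V (nv M a 4) = V (nv M a 2) ∧ V (nv M a 5) * V (nv M a 5) = V (nv M a 6) ∧
    V (nv M a 2) * V (nv M a 6) = V (nv M a 7) ∧ V (nv M a 7) + V 1 = V (nv M a 8) ∧
    V (nv M a 1) + V (nv M a 8) = V 0 := by
  simp only [recCons]
  norm_num
  simp only [ESat_cons, eRes, ESat_nil]
  norm_num [sub_eq_zero]

theorem rec_lt {M a p q : ℕ} {l m : List Bool} {V : ℕ → ℝ} : ESat (recCons M (a, 6, p, q, l, m)) V ↔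
    V (nv M a 2) + V (nv M p 0) = V (nv M q 0) ∧ V (nv M a 3) * V (nv M a 3) = V (nv M a 4) ∧
    V (nv M a 2) * V (nv M a 4) = V (nv M a 7) ∧ V (nv M a 0) + V 1 = V (nv M a 7) ∧
    V (nv M a 5) * V (nv M a 5) = V (nv M a 6) ∧ V (nv M a 2) + V (nv M a 6) = V (nv M a 8) ∧
    V (nv M a 1) + V (nv M a 8) = V 0 := by
  simp only [recCons]
  norm_num
  simp only [ESat_cons, eRes, ESat_nil]
  norm_num [sub_eq_zero]

theorem rec_not {M a p q : ℕ} {l m : List Bool} {V : ℕ → ℝ} : ESat (recCons M (a, 7, p, q, l, m)) V ↔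
    V (nv M p 1) + V 0 = V (nv M a 0) ∧ V (nv M p 0) + V 0 = V (nv M a 1) := by
  simp only [recCons]
  norm_num
  simp only [ESat_cons, eRes, ESat_nil]
  norm_num [sub_eq_zero]

theorem rec_and {M a p q : ℕ} {l m : List Bool} {V : ℕ → ℝ} : ESat (recCons M (a, 8, p, q, l, m)) V ↔
    V (nv M p 0) * V (nv M p 0) = V (nv M a 2) ∧ V (nv M q 0) * V (nv M q 0) = V (nv M a 3) ∧
    V (nv M a 2) + V (nv M a 3) = V (nv M a 0) ∧ V (nv M p 1) * V (nv M q 1) = V (nv M a 1) := by
  simp only [recCons]
  norm_num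
  simp only [ESat_cons, eRes, ESat_nil]
  norm_num [sub_eq_zero]

theorem rec_or {M a p q : ℕ} {l m : List Bool} {V : ℕ → ℝ} : ESat (recCons M (a, 9, p, q, l, m)) V ↔
    V (nv M p 1) * V (nv M p 1) = V (nv M a 2) ∧ V (nv M q 1) * V (nv M q 1) = V (nv M a 3) ∧
    V (nv M a 2) + V (nv M a 3) = V (nv M a 1) ∧ V (nv M p 0) * V (nv M q 0) = V (nv M a 0) := by
  simp only [recCons]
  norm_num
  simp only [ESat_cons, eRes, ESat_nil]
  norm_num [sub_eq_zero]

theorem fml_sound {M : ℕ} {V x : ℕ → ℝ} (h0 : V 0 = 0) (h1 : V 1 = 1) (φ : Fml) : ∀ a : ℕ,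
    (∀ r ∈ φ.recs a, ESat (recCons M r) V) →
    (∀ b i, ((b, 1, 0, 0, Computability.encodeNat i, []) : Rec) ∈ φ.recs a → V (nv M b 0) = x i) →
    (V (nv M a 0) = 0 → φ.Holds x) ∧ (V (nv M a 1) = 0 → ¬ φ.Holds x) := by
  induction φ with
  | eq s t =>
    intro a hs hv
    simp only [Fml.recs, List.forall_mem_cons, List.forall_mem_append] at hs
    obtain ⟨hr, hs1, hs2⟩ := hs
    have e1 := term_sound h0 h1 s (a + 1) hs1 (fun b i hb => hv b i (by simp [Fml.recs, hb]))
    have e2 := term_sound h0 h1 t (a + 1 + s.code.length) hs2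
      (fun b i hb => hv b i (by simp [Fml.recs, hb]))
    rw [rec_eq, e1, e2, h1] at hr
    obtain ⟨r1, r2, r3⟩ := hr
    simp only [Fml.Holds]
    constructor
    · intro h; linarith
    · intro h h'
      have : V (nv M a 0) = 0 := by linarith
      rw [this, zero_mul] at r2
      linarith
  | le s t =>
    intro a hs hv
    simp only [Fml.recs, List.forall_mem_cons, List.forall_mem_append] at hs
    obtain ⟨hr, hs1, hs2⟩ := hs
    have e1 := term_sound h0 h1 s (a + 1) hs1 (fun b i hb => hv b i (by simp [Fml.recs, hb]))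
    have e2 := term_sound h0 h1 t (a + 1 + s.code.length) hs2
      (fun b i hb => hv b i (by simp [Fml.recs, hb]))
    rw [rec_le, e1, e2, h1, h0] at hr
    obtain ⟨r1, r2, r3, r4, r5, r6, r7⟩ := hr
    simp only [Fml.Holds]
    constructor
    · intro h
      have := mul_self_nonneg (V (nv M a 3))
      linarith
    · intro h h'
      have h6 : 0 ≤ V (nv M a 6) := by rw [← r4]; exact mul_self_nonneg _
      have h2 : 0 ≤ V (nv M a 2) := by linarith
      have h7 : 0 ≤ V (nv M a 7) := by rw [← r5]; exact mul_nonneg h2 h6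
      linarith
  | lt s t =>
    intro a hs hv
    simp only [Fml.recs, List.forall_mem_cons, List.forall_mem_append] at hs
    obtain ⟨hr, hs1, hs2⟩ := hs
    have e1 := term_sound h0 h1 s (a + 1) hs1 (fun b i hb => hv b i (by simp [Fml.recs, hb]))
    have e2 := term_sound h0 h1 t (a + 1 + s.code.length) hs2
      (fun b i hb => hv b i (by simp [Fml.recs, hb]))
    rw [rec_lt, e1, e2, h1, h0] at hr
    obtain ⟨r1, r2, r3, r4, r5, r6, r7⟩ := hr
    simp only [Fml.Holds]
    constructor
    · intro h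
      have h4 : 0 ≤ V (nv M a 4) := by rw [← r2]; exact mul_self_nonneg _
      by_contra hle
      have h2 : V (nv M a 2) ≤ 0 := by linarith
      have h7 : V (nv M a 7) ≤ 0 := by rw [← r3]; exact mul_nonpos_of_nonpos_of_nonneg h2 h4
      linarith
    · intro h h'
      have h6 : 0 ≤ V (nv M a 6) := by rw [← r5]; exact mul_self_nonneg _
      linarith
  | not φ ih =>
    intro a hs hv
    simp only [Fml.recs, List.forall_mem_cons] at hs
    obtain ⟨hr, hs1⟩ := hs
    obtain ⟨i1, i2⟩ := ih (a + 1) hs1 (fun b i hb => hv b i (by simp [Fml.recs, hb]))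
    rw [rec_not, h0] at hr
    obtain ⟨r1, r2⟩ := hr
    simp only [Fml.Holds]
    constructor
    · intro h; exact i2 (by linarith)
    · intro h h'; exact h' (i1 (by linarith))
  | and φ ψ ih1 ih2 =>
    intro a hs hv
    simp only [Fml.recs, List.forall_mem_cons, List.forall_mem_append] at hs
    obtain ⟨hr, hs1, hs2⟩ := hs
    obtain ⟨i1, i2⟩ := ih1 (a + 1) hs1 (fun b i hb => hv b i (by simp [Fml.recs, hb]))
    obtain ⟨j1, j2⟩ := ih2 (a + 1 + φ.code.length) hs2 (fun b i hb => hv b i (by simp [Fml.recs, hb]))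
    rw [rec_and] at hr
    obtain ⟨r1, r2, r3, r4⟩ := hr
    simp only [Fml.Holds]
    constructor
    · intro h
      have q1 := mul_self_nonneg (V (nv M (a + 1) 0))
      have q2 := mul_self_nonneg (V (nv M (a + 1 + φ.code.length) 0))
      refine ⟨i1 (mul_self_eq_zero.1 (by linarith)), j1 (mul_self_eq_zero.1 (by linarith))⟩
    · rintro h ⟨h', h''⟩
      rw [h] at r4
      rcases mul_eq_zero.1 r4 with h3 | h3
      · exact i2 h3 h'
      · exact j2 h3 h''
  | or φ ψ ih1 ih2 =>
    intro a hs hv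
    simp only [Fml.recs, List.forall_mem_cons, List.forall_mem_append] at hs
    obtain ⟨hr, hs1, hs2⟩ := hs
    obtain ⟨i1, i2⟩ := ih1 (a + 1) hs1 (fun b i hb => hv b i (by simp [Fml.recs, hb]))
    obtain ⟨j1, j2⟩ := ih2 (a + 1 + φ.code.length) hs2 (fun b i hb => hv b i (by simp [Fml.recs, hb]))
    rw [rec_or] at hr
    obtain ⟨r1, r2, r3, r4⟩ := hr
    simp only [Fml.Holds]
    constructor
    · intro h
      rw [h] at r4
      rcases mul_eq_zero.1 r4 with h3 | h3
      · exact Or.inl (i1 h3)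
      · exact Or.inr (j1 h3)
    · intro h h'
      have q1 := mul_self_nonneg (V (nv M (a + 1) 1))
      have q2 := mul_self_nonneg (V (nv M (a + 1 + φ.code.length) 1))
      rcases h' with h' | h'
      · exact i2 (mul_self_eq_zero.1 (by linarith)) h'
      · exact j2 (mul_self_eq_zero.1 (by linarith)) h'

/-! ### Completeness -/

/-- the block of a constant -/
noncomputable def constBlk (c : ℤ) (l m : List Bool) (k : ℕ) : ℝ :=
  if k = 0 then c
  else if k % 4 = 0 then bval (l.drop ((k - 4) / 4))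
  else if k % 4 = 1 then 2 * bval (l.drop ((k - 5) / 4 + 1))
  else if k % 4 = 2 then bval (m.drop ((k - 6) / 4))
  else 2 * bval (m.drop ((k - 7) / 4 + 1))

/-- the blocks of the nodes of a term -/
noncomputable def tblocks (x : ℕ → ℝ) : Term → List (ℕ → ℝ)
  | .const c => [constBlk c (Computability.encodeNat c.toNat) (Computability.encodeNat (-c).toNat)]
  | .var i => [fun k => if k = 0 then x i else 0]
  | .add s t => (fun k => if k = 0 then s.eval x + t.eval x else 0) :: (tblocks x s ++ tblocks x t)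
  | .mul s t => (fun k => if k = 0 then s.eval x * t.eval x else 0) :: (tblocks x s ++ tblocks x t)

theorem tblocks_length (x : ℕ → ℝ) (t : Term) : (tblocks x t).length = t.code.length := by
  induction t with
  | const c => simp [tblocks, Term.code]
  | var i => simp [tblocks, Term.code]
  | add s t ihs iht => simp [tblocks, Term.code, ihs, iht]
  | mul s t ihs iht => simp [tblocks, Term.code, ihs, iht]

/-- the block of `s = t`, with `d = s - t` -/
noncomputable def eqBlk (d : ℝ) (k : ℕ) : ℝ := [d, d * d⁻¹ - 1, d⁻¹, d * d⁻¹].getD k 0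

/-- the block of `s ≤ t`, with `d = t - s` -/
noncomputable def leBlk (d : ℝ) (k : ℕ) : ℝ :=
  let z := √d
  let z' := (√(-d))⁻¹
  [d - z * z, -(d * (z' * z') + 1), d, z, z * z, z', z' * z', d * (z' * z'), d * (z' * z') + 1].getD k 0

/-- the block of `s < t`, with `d = t - s` -/
noncomputable def ltBlk (d : ℝ) (k : ℕ) : ℝ :=
  let z := (√d)⁻¹
  let z' := √(-d)
  [d * (z * z) - 1, -(d + z' * z'), d, z, z * z, z', z' * z', d * (z * z), d + z' * z'].getD k 0

/-- the block of a formula -/
noncomputable def fblk (x : ℕ → ℝ) : Fml → ℕ → ℝ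
  | .eq s t => eqBlk (s.eval x - t.eval x)
  | .le s t => leBlk (t.eval x - s.eval x)
  | .lt s t => ltBlk (t.eval x - s.eval x)
  | .not φ => fun k => [fblk x φ 1, fblk x φ 0].getD k 0
  | .and φ ψ => fun k => [fblk x φ 0 * fblk x φ 0 + fblk x ψ 0 * fblk x ψ 0, fblk x φ 1 * fblk x ψ 1,
      fblk x φ 0 * fblk x φ 0, fblk x ψ 0 * fblk x ψ 0].getD k 0
  | .or φ ψ => fun k => [fblk x φ 0 * fblk x ψ 0, fblk x φ 1 * fblk x φ 1 + fblk x ψ 1 * fblk x ψ 1,
      fblk x φ 1 * fblk x φ 1, fblk x ψ 1 * fblk x ψ 1].getD k 0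

theorem fblk_zero (x : ℕ → ℝ) (φ : Fml) :
    (φ.Holds x → fblk x φ 0 = 0) ∧ (¬ φ.Holds x → fblk x φ 1 = 0) := by
  induction φ with
  | eq s t =>
    simp only [Fml.Holds, fblk, eqBlk, List.getD_cons_zero, List.getD_cons_succ]
    constructor
    · intro h; rw [h, sub_self]
    · intro h
      rw [mul_inv_cancel₀ (sub_ne_zero.2 h), sub_self]
  | le s t =>
    simp only [Fml.Holds, fblk, leBlk, List.getD_cons_zero, List.getD_cons_succ]
    constructor
    · intro h
      rw [Real.mul_self_sqrt (by linarith), sub_self]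
    · intro h
      rw [← mul_inv, Real.mul_self_sqrt (by linarith)]
      have : t.eval x - s.eval x ≠ 0 := by intro h'; apply h; linarith
      field_simp
      ring
  | lt s t =>
    simp only [Fml.Holds, fblk, ltBlk, List.getD_cons_zero, List.getD_cons_succ]
    constructor
    · intro h
      rw [← mul_inv, Real.mul_self_sqrt (by linarith), mul_inv_cancel₀ (by linarith), sub_self]
    · intro h
      rw [Real.mul_self_sqrt (by linarith)]
      ring
  | not φ ih =>
    simp only [Fml.Holds, fblk, List.getD_cons_zero, List.getD_cons_succ]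
    exact ⟨ih.2, fun h => ih.1 (not_not.1 h)⟩
  | and φ ψ ih1 ih2 =>
    simp only [Fml.Holds, fblk, List.getD_cons_zero, List.getD_cons_succ]
    constructor
    · rintro ⟨h, h'⟩
      rw [ih1.1 h, ih2.1 h']; ring
    · intro h
      rcases not_and_or.1 h with h | h
      · rw [ih1.2 h, zero_mul]
      · rw [ih2.2 h, mul_zero]
  | or φ ψ ih1 ih2 =>
    simp only [Fml.Holds, fblk, List.getD_cons_zero, List.getD_cons_succ]
    constructor
    · rintro (h | h)
      · rw [ih1.1 h, zero_mul]
      · rw [ih2.1 h, mul_zero]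
    · intro h
      obtain ⟨h, h'⟩ := not_or.1 h
      rw [ih1.2 h, ih2.2 h']; ring

/-- the blocks of the nodes of a formula -/
noncomputable def fblocks (x : ℕ → ℝ) : Fml → List (ℕ → ℝ)
  | .eq s t => fblk x (.eq s t) :: (tblocks x s ++ tblocks x t)
  | .le s t => fblk x (.le s t) :: (tblocks x s ++ tblocks x t)
  | .lt s t => fblk x (.lt s t) :: (tblocks x s ++ tblocks x t)
  | .not φ => fblk x (.not φ) :: fblocks x φ
  | .and φ ψ => fblk x (.and φ ψ) :: (fblocks x φ ++ fblocks x ψ)
  | .or φ ψ => fblk x (.or φ ψ) :: (fblocks x φ ++ fblocks x ψ)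

theorem fblocks_length (x : ℕ → ℝ) (φ : Fml) : (fblocks x φ).length = φ.code.length := by
  induction φ with
  | eq s t => simp [fblocks, Fml.code, tblocks_length]
  | le s t => simp [fblocks, Fml.code, tblocks_length]
  | lt s t => simp [fblocks, Fml.code, tblocks_length]
  | not φ ih => simp [fblocks, Fml.code, ih]
  | and φ ψ ih1 ih2 => simp [fblocks, Fml.code, ih1, ih2]
  | or φ ψ ih1 ih2 => simp [fblocks, Fml.code, ih1, ih2]

/-- the blocks `a, a + 1, ...` of `W` are those of the list -/
def Agree (W : ℕ → ℕ → ℝ) : ℕ → List (ℕ → ℝ) → Prop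
  | _, [] => True
  | a, b :: B => W a = b ∧ Agree W (a + 1) B

theorem agree_append {W : ℕ → ℕ → ℝ} (B B' : List (ℕ → ℝ)) : ∀ a : ℕ,
    Agree W a (B ++ B') ↔ Agree W a B ∧ Agree W (a + B.length) B' := by
  induction B with
  | nil => intro a; simp [Agree]
  | cons b B ih =>
    intro a
    have e : a + (b :: B).length = a + 1 + B.length := by simp only [List.length_cons]; omega
    rw [List.cons_append, Agree, Agree, ih (a + 1), e, and_assoc]

theorem exists_agree (B : List (ℕ → ℝ)) : ∃ W, Agree W 0 B := by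
  refine ⟨fun a => B.getD a (fun _ => 0), ?_⟩
  have key : ∀ B₂ B₁ : List (ℕ → ℝ), Agree (fun a => (B₁ ++ B₂).getD a (fun _ => 0)) B₁.length B₂ := by
    intro B₂
    induction B₂ with
    | nil => intro B₁; trivial
    | cons b B₂ ih =>
      intro B₁
      refine ⟨by simp, ?_⟩
      have := ih (B₁ ++ [b])
      simpa using this
  exact key B []

theorem const_complete {M a : ℕ} {c : ℤ} {l m : List Bool} {V : ℕ → ℝ} (h0 : V 0 = 0) (h1 : V 1 = 1)
    (hl : bval l = c.toNat) (hm : bval m = (-c).toNat) (hM : 4 * (l.length + m.length) + 20 ≤ M)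
    (hV : ∀ k < M, V (nv M a k) = constBlk c l m k) : ESat (recCons M (a, 0, 0, 0, l, m)) V := by
  simp only [recCons, if_true]
  rw [ESat_append, ESat_append]
  refine ⟨⟨horner_complete h0 h1 ?_ ?_, horner_complete h0 h1 ?_ ?_⟩, ?_⟩
  · intro i hi
    rw [hV _ (by omega), constBlk, if_neg (by omega), if_pos (by omega)]
    have : (4 + 4 * i - 4) / 4 = i := by omega
    rw [this]
  · intro i hi
    rw [hV _ (by omega), constBlk, if_neg (by omega), if_neg (by omega), if_pos (by omega)]
    have : (4 + 4 * i + 1 - 5) / 4 + 1 = i + 1 := by omega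
    rw [this]
  · intro i hi
    rw [hV _ (by omega), constBlk, if_neg (by omega), if_neg (by omega), if_neg (by omega),
      if_pos (by omega)]
    have : (6 + 4 * i - 6) / 4 = i := by omega
    rw [this]
  · intro i hi
    rw [hV _ (by omega), constBlk, if_neg (by omega), if_neg (by omega), if_neg (by omega),
      if_neg (by omega)]
    have : (6 + 4 * i + 1 - 7) / 4 + 1 = i + 1 := by omega
    rw [this]
  · rw [ESat_cons]
    refine ⟨?_, ESat_nil⟩
    simp only [eRes]
    norm_num
    rw [hV 0 (by omega), hV 4 (by omega), hV 6 (by omega)]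
    simp [constBlk]
    rw [hl, hm]
    have := Int.toNat_sub_toNat_neg c
    have e4 : ((c.toNat : ℝ)) - ((-c).toNat : ℝ) = (c : ℝ) := by exact_mod_cast this
    linarith

/-- the size condition -/
def Big (M : ℕ) (L : List (ℕ × ℤ)) : Prop :=
  ∀ t ∈ L.map rawOf, 4 * (t.2.1.length + t.2.2.length) + 20 ≤ M

theorem Big.cons {M : ℕ} {t : ℕ × ℤ} {L : List (ℕ × ℤ)} (h : Big M (t :: L)) : Big M L :=
  fun s hs => h s (by rw [List.map_cons]; exact List.mem_cons_of_mem _ hs)

theorem Big.left {M : ℕ} {L L' : List (ℕ × ℤ)} (h : Big M (L ++ L')) : Big M L :=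
  fun s hs => h s (by rw [List.map_append]; exact List.mem_append_left _ hs)

theorem Big.right {M : ℕ} {L L' : List (ℕ × ℤ)} (h : Big M (L ++ L')) : Big M L' :=
  fun s hs => h s (by rw [List.map_append]; exact List.mem_append_right _ hs)

theorem Big.ge {M : ℕ} {t : ℕ × ℤ} {L : List (ℕ × ℤ)} (h : Big M (t :: L)) : 20 ≤ M := by
  have := h (rawOf t) (by simp)
  omega

/-- the conclusion for a list of records -/
def Fine (M : ℕ) (V x : ℕ → ℝ) (W : ℕ → ℕ → ℝ) (R : List Rec) : Prop :=
  (∀ r ∈ R, ESat (recCons M r) V) ∧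
    ∀ r ∈ R, r.2.1 = 1 → ∃ i, r.2.2.2.2.1 = Computability.encodeNat i ∧ W r.1 0 = x i

theorem Fine.append {M : ℕ} {V x : ℕ → ℝ} {W : ℕ → ℕ → ℝ} {R R' : List Rec} (h : Fine M V x W R)
    (h' : Fine M V x W R') : Fine M V x W (R ++ R') := by
  constructor
  · intro r hr
    rcases List.mem_append.1 hr with hr | hr
    exacts [h.1 r hr, h'.1 r hr]
  · intro r hr
    rcases List.mem_append.1 hr with hr | hr
    exacts [h.2 r hr, h'.2 r hr]

theorem Fine.cons {M : ℕ} {V x : ℕ → ℝ} {W : ℕ → ℕ → ℝ} {r : Rec} {R : List Rec}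
    (h1 : ESat (recCons M r) V) (h2 : r.2.1 ≠ 1) (h : Fine M V x W R) : Fine M V x W (r :: R) := by
  constructor
  · intro s hs
    rcases List.mem_cons.1 hs with rfl | hs
    exacts [h1, h.1 s hs]
  · intro s hs
    rcases List.mem_cons.1 hs with rfl | hs
    exacts [fun h3 => absurd h3 h2, h.2 s hs]

theorem term_complete {M : ℕ} {V x : ℕ → ℝ} {W : ℕ → ℕ → ℝ} (h0 : V 0 = 0) (h1 : V 1 = 1)
    (hV : ∀ a k, k < M → V (nv M a k) = W a k) (t : Term) : ∀ a : ℕ, Big M t.code →
    Agree W a (tblocks x t) → W a 0 = t.eval x ∧ Fine M V x W (t.recs a) := by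
  induction t with
  | const c =>
    intro a hB hA
    have hW : W a = constBlk c (Computability.encodeNat c.toNat) (Computability.encodeNat (-c).toNat) :=
      hA.1
    have hB' := hB (rawOf (0, c)) (by simp [Term.code])
    constructor
    · rw [hW]; simp [constBlk, Term.eval]
    · refine Fine.cons ?_ (by norm_num) ⟨by simp, by simp⟩
      apply const_complete h0 h1 (bval_encodeNat _) (bval_encodeNat _) hB'
      intro k hk
      rw [hV a k hk, hW]
  | var i =>
    intro a hB hA
    have hW : W a = fun k => if k = 0 then x i else 0 := hA.1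
    have hW' : W a 0 = x i := by rw [hW]; simp
    refine ⟨hW', ?_, ?_⟩
    · intro r hr
      rw [List.mem_singleton.1 hr]
      simp only [recCons]
      norm_num
      exact ESat_nil
    · intro r hr _
      rw [List.mem_singleton.1 hr]
      exact ⟨i, rfl, hW'⟩
  | add s t ihs iht =>
    intro a hB hA
    obtain ⟨hW, hA'⟩ := hA
    rw [agree_append, tblocks_length] at hA'
    have hge := Big.ge (show Big M ((2, 0) :: (s.code ++ t.code)) from hB)
    obtain ⟨i1, i2⟩ := ihs (a + 1) (Big.cons hB).left hA'.1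
    obtain ⟨j1, j2⟩ := iht (a + 1 + s.code.length) (Big.cons hB).right hA'.2
    have hW' : W a 0 = s.eval x + t.eval x := by rw [hW]; simp
    refine ⟨hW', Fine.cons ?_ (by norm_num) (i2.append j2)⟩
    rw [rec_add, hV _ _ (by omega), hV _ _ (by omega), hV _ _ (by omega), i1, j1, hW']
  | mul s t ihs iht =>
    intro a hB hA
    obtain ⟨hW, hA'⟩ := hA
    rw [agree_append, tblocks_length] at hA'
    have hge := Big.ge (show Big M ((3, 0) :: (s.code ++ t.code)) from hB)
    obtain ⟨i1, i2⟩ := ihs (a + 1) (Big.cons hB).left hA'.1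
    obtain ⟨j1, j2⟩ := iht (a + 1 + s.code.length) (Big.cons hB).right hA'.2
    have hW' : W a 0 = s.eval x * t.eval x := by rw [hW]; simp
    refine ⟨hW', Fine.cons ?_ (by norm_num) (i2.append j2)⟩
    rw [rec_mul, hV _ _ (by omega), hV _ _ (by omega), hV _ _ (by omega), i1, j1, hW']

theorem fml_complete {M : ℕ} {V x : ℕ → ℝ} {W : ℕ → ℕ → ℝ} (h0 : V 0 = 0) (h1 : V 1 = 1)
    (hV : ∀ a k, k < M → V (nv M a k) = W a k) (φ : Fml) : ∀ a : ℕ, Big M φ.code →
    Agree W a (fblocks x φ) → W a = fblk x φ ∧ Fine M V x W (φ.recs a) := by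
  induction φ with
  | eq s t =>
    intro a hB hA
    obtain ⟨hW, hA'⟩ := hA
    rw [agree_append, tblocks_length] at hA'
    have hge := Big.ge (show Big M ((4, 0) :: (s.code ++ t.code)) from hB)
    obtain ⟨i1, i2⟩ := term_complete h0 h1 hV s (a + 1) (Big.cons hB).left hA'.1
    obtain ⟨j1, j2⟩ := term_complete h0 h1 hV t (a + 1 + s.code.length) (Big.cons hB).right hA'.2
    refine ⟨hW, Fine.cons ?_ (by norm_num) (i2.append j2)⟩
    rw [rec_eq, h1]
    repeat rw [hV _ _ (by omega)]
    rw [i1, j1, hW]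
    simp only [fblk, eqBlk, List.getD_cons_zero, List.getD_cons_succ]
    refine ⟨by ring, trivial, by ring⟩
  | le s t =>
    intro a hB hA
    obtain ⟨hW, hA'⟩ := hA
    rw [agree_append, tblocks_length] at hA'
    have hge := Big.ge (show Big M ((5, 0) :: (s.code ++ t.code)) from hB)
    obtain ⟨i1, i2⟩ := term_complete h0 h1 hV s (a + 1) (Big.cons hB).left hA'.1
    obtain ⟨j1, j2⟩ := term_complete h0 h1 hV t (a + 1 + s.code.length) (Big.cons hB).right hA'.2
    refine ⟨hW, Fine.cons ?_ (by norm_num) (i2.append j2)⟩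
    rw [rec_le, h1, h0]
    repeat rw [hV _ _ (by omega)]
    rw [i1, j1, hW]
    simp only [fblk, leBlk, List.getD_cons_zero, List.getD_cons_succ]
    refine ⟨by ring, trivial, by ring, trivial, trivial, trivial, by ring⟩
  | lt s t =>
    intro a hB hA
    obtain ⟨hW, hA'⟩ := hA
    rw [agree_append, tblocks_length] at hA'
    have hge := Big.ge (show Big M ((6, 0) :: (s.code ++ t.code)) from hB)
    obtain ⟨i1, i2⟩ := term_complete h0 h1 hV s (a + 1) (Big.cons hB).left hA'.1
    obtain ⟨j1, j2⟩ := term_complete h0 h1 hV t (a + 1 + s.code.length) (Big.cons hB).right hA'.2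
    refine ⟨hW, Fine.cons ?_ (by norm_num) (i2.append j2)⟩
    rw [rec_lt, h1, h0]
    repeat rw [hV _ _ (by omega)]
    rw [i1, j1, hW]
    simp only [fblk, ltBlk, List.getD_cons_zero, List.getD_cons_succ]
    refine ⟨by ring, trivial, trivial, by ring, trivial, trivial, by ring⟩
  | not φ ih =>
    intro a hB hA
    obtain ⟨hW, hA'⟩ := hA
    have hge := Big.ge (show Big M ((7, 0) :: φ.code) from hB)
    obtain ⟨i1, i2⟩ := ih (a + 1) (Big.cons hB) hA'
    refine ⟨hW, Fine.cons ?_ (by norm_num) i2⟩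
    rw [rec_not, h0]
    repeat rw [hV _ _ (by omega)]
    rw [i1, hW]
    simp only [fblk, List.getD_cons_zero, List.getD_cons_succ, add_zero, and_self]
  | and φ ψ ih1 ih2 =>
    intro a hB hA
    obtain ⟨hW, hA'⟩ := hA
    rw [agree_append, fblocks_length] at hA'
    have hge := Big.ge (show Big M ((8, 0) :: (φ.code ++ ψ.code)) from hB)
    obtain ⟨i1, i2⟩ := ih1 (a + 1) (Big.cons hB).left hA'.1
    obtain ⟨j1, j2⟩ := ih2 (a + 1 + φ.code.length) (Big.cons hB).right hA'.2
    refine ⟨hW, Fine.cons ?_ (by norm_num) (i2.append j2)⟩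
    rw [rec_and]
    repeat rw [hV _ _ (by omega)]
    rw [i1, j1, hW]
    simp only [fblk, List.getD_cons_zero, List.getD_cons_succ, and_self]
  | or φ ψ ih1 ih2 =>
    intro a hB hA
    obtain ⟨hW, hA'⟩ := hA
    rw [agree_append, fblocks_length] at hA'
    have hge := Big.ge (show Big M ((9, 0) :: (φ.code ++ ψ.code)) from hB)
    obtain ⟨i1, i2⟩ := ih1 (a + 1) (Big.cons hB).left hA'.1
    obtain ⟨j1, j2⟩ := ih2 (a + 1 + φ.code.length) (Big.cons hB).right hA'.2
    refine ⟨hW, Fine.cons ?_ (by norm_num) (i2.append j2)⟩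
    rw [rec_or]
    repeat rw [hV _ _ (by omega)]
    rw [i1, j1, hW]
    simp only [fblk, List.getD_cons_zero, List.getD_cons_succ, and_self]

/-- the assignment given by the blocks -/
noncomputable def ofBlocks (M : ℕ) (W : ℕ → ℕ → ℝ) (n : ℕ) : ℝ :=
  if n = 0 then 0 else if n = 1 then 1 else W ((n - 2) / M) ((n - 2) % M)

theorem ofBlocks_nv {M : ℕ} (W : ℕ → ℕ → ℝ) {a k : ℕ} (hk : k < M) :
    ofBlocks M W (nv M a k) = W a k := by
  unfold ofBlocks nv
  rw [if_neg (by omega), if_neg (by omega)]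
  have e : 2 + a * M + k - 2 = k + M * a := by rw [mul_comm M a]; omega
  rw [e, Nat.add_mul_mod_self_left, Nat.mod_eq_of_lt hk, Nat.add_mul_div_left _ _ (by omega),
    Nat.div_eq_of_lt hk, zero_add]

theorem code_cons (φ : Fml) : ∃ t L, φ.code = t :: L := by
  cases φ <;> exact ⟨_, _, rfl⟩

/-- The statement, free of the machine. -/
theorem core (φ : Fml) (M : ℕ) (hM : Big M φ.code) :
    (∃ V, ESat ([(0, 1, 0, 0), (1, 0, 0, 0), (1, nv M 0 0, 0, 0)] ++
      (φ.recs 0).flatMap (recCons M) ++ varCons M (φ.recs 0)) V) ↔ ∃ x : ℕ → ℝ, φ.Holds x := by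
  classical
  constructor
  · rintro ⟨V, hV⟩
    rw [ESat_append, ESat_append] at hV
    obtain ⟨⟨ha, hb⟩, hc⟩ := hV
    have e0 : V 0 = 0 := by
      have := ha (1, 0, 0, 0) (by simp)
      simp only [eRes] at this
      norm_num at this
      exact this
    have e1 : V 1 = 1 := by
      have := ha (0, 1, 0, 0) (by simp)
      simp only [eRes] at this
      norm_num at this
      linarith
    have e2 : V (nv M 0 0) = 0 := by
      have := ha (1, nv M 0 0, 0, 0) (by simp)
      simp only [eRes] at this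
      norm_num at this
      linarith
    have hs : ∀ r ∈ φ.recs 0, ESat (recCons M r) V :=
      fun r hr e he => hb e (List.mem_flatMap.2 ⟨r, hr, he⟩)
    let x : ℕ → ℝ := fun i =>
      if h : ∃ b, ((b, 1, 0, 0, Computability.encodeNat i, []) : Rec) ∈ φ.recs 0 then
        V (nv M h.choose 0) else 0
    refine ⟨x, (fml_sound e0 e1 φ 0 hs ?_).1 e2⟩
    intro b i hbi
    have hex : ∃ b, ((b, 1, 0, 0, Computability.encodeNat i, []) : Rec) ∈ φ.recs 0 := ⟨b, hbi⟩
    have hx : x i = V (nv M hex.choose 0) := dif_pos hex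
    have := hc (1, nv M b 0, 0, nv M hex.choose 0)
      (List.mem_flatMap.2 ⟨_, hbi, List.mem_flatMap.2 ⟨_, hex.choose_spec, by simp⟩⟩)
    simp only [eRes] at this
    norm_num at this
    rw [hx]
    linarith
  · rintro ⟨x, hx⟩
    obtain ⟨W, hW⟩ := exists_agree (fblocks x φ)
    obtain ⟨t, L, hL⟩ := code_cons φ
    have hge : 20 ≤ M := by rw [hL] at hM; exact hM.ge
    refine ⟨ofBlocks M W, ?_⟩
    have h0 : ofBlocks M W 0 = 0 := by simp [ofBlocks]
    have h1 : ofBlocks M W 1 = 1 := by simp [ofBlocks]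
    obtain ⟨i1, i2, i3⟩ := fml_complete h0 h1 (fun a k hk => ofBlocks_nv W hk) φ 0 hM hW
    have h2 : ofBlocks M W (nv M 0 0) = 0 := by
      rw [ofBlocks_nv W (by omega), i1, (fblk_zero x φ).1 hx]
    rw [ESat_append, ESat_append]
    refine ⟨⟨?_, ?_⟩, ?_⟩
    · simp only [ESat_cons, eRes]
      norm_num
      rw [h0, h1, h2]
      exact ⟨by ring, by ring, by ring, ESat_nil⟩
    · intro e he
      obtain ⟨r, hr, he'⟩ := List.mem_flatMap.1 he
      exact i2 r hr e he'
    · intro e he
      obtain ⟨r, hr, he⟩ := List.mem_flatMap.1 he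
      obtain ⟨r', hr', he⟩ := List.mem_flatMap.1 he
      by_cases hc : (r.2.1 == 1 && r'.2.1 == 1 && (r.2.2.2.2.1 == r'.2.2.2.2.1)) = true
      · rw [hc, cond_true, List.mem_singleton] at he
        simp only [Bool.and_eq_true, beq_iff_eq] at hc
        obtain ⟨⟨c1, c2⟩, c3⟩ := hc
        obtain ⟨i, hi, hi'⟩ := i3 r hr c1
        obtain ⟨j, hj, hj'⟩ := i3 r' hr' c2
        have hij : i = j := encodeNat_inj (by rw [← hi, ← hj, c3])
        rw [he]
        simp only [eRes]
        norm_num
        rw [ofBlocks_nv W (by omega), ofBlocks_nv W (by omega), hi', hj', h0, hij]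
        ring
      · rw [Bool.not_eq_true] at hc
        rw [hc, cond_false] at he
        simp at he

end F2

/-- F2 (uses F1 `accepts_iff` and F1b) -/
theorem rawSys_iff (φ : Fml) (M : ℕ)
    (hM : ∀ t ∈ φ.code.map rawOf, 4 * (t.2.1.length + t.2.2.length) + 20 ≤ M) :
    (∃ V, ESat (rawSys M (φ.code.map rawOf)) V) ↔ ∃ x : ℕ → ℝ, φ.Holds x := by
  unfold rawSys
  rw [(accepts_iff φ.code).2 ⟨φ, rfl⟩, cond_true, mrun_recs]
  exact F2.core φ M hM

end Pool.Agent.SegDraw
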