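import Pool.Agent.Lib.MP_431574_lc.Code
import Pool.Agent.Lib.MP_1ce42f_lc.OfTM2

/-!
# F3: the parser
-/

open N68a2faeb N793a5b8e N487b59b3

namespace Pool.Agent.SegDraw

open Pool.Agent.MSR Pool.Agent.MSR.En

namespace F3

/-! ### canonical binary expansions -/

theorem exists_posNum (l : List Bool) (h : l.getLast? = some true) :
    ∃ p : PosNum, Computability.encodePosNum p = l := by
  induction l with
  | nil => simp at h
  | cons b l ih =>
    cases l with
    | nil =>
      simp only [List.getLast?_singleton, Option.some.injEq] at h
      subst h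
      exact ⟨PosNum.one, rfl⟩
    | cons c l =>
      rw [List.getLast?_cons_cons] at h
      obtain ⟨p, hp⟩ := ih h
      cases b with
      | false => exact ⟨PosNum.bit0 p, by rw [Computability.encodePosNum, hp]⟩
      | true => exact ⟨PosNum.bit1 p, by rw [Computability.encodePosNum, hp]⟩

theorem exists_nat (l : List Bool) (h : canon l = true) : ∃ n : ℕ, Computability.encodeNat n = l := by
  unfold canon at h
  rw [Bool.or_eq_true] at h
  rcases h with h | h
  · exact ⟨0, by rw [List.isEmpty_iff.1 h]; rfl⟩
  · obtain ⟨p, hp⟩ := exists_posNum l (by simpa using h)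
    refine ⟨(p : ℕ), ?_⟩
    unfold Computability.encodeNat
    rw [← hp]
    have : (((p : ℕ) : ℕ) : Num) = Num.pos p := by
      rw [PosNum.of_to_nat]
    rw [this]
    rfl

theorem encodeNat_zero : Computability.encodeNat 0 = [] := rfl

theorem exists_tok (t : RTok) (h : rvalid t = true) : ∃ t' : ℕ × ℤ, rawOf t' = t := by
  obtain ⟨a, b, c⟩ := t
  unfold rvalid at h
  simp only [Bool.or_eq_true, Bool.and_eq_true, beq_iff_eq, List.any_eq_true, List.mem_range,
    List.isEmpty_iff] at h
  rcases h with (h | h) | h
  · obtain ⟨⟨⟨h1, h2⟩, h3⟩, h4⟩ := h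
    obtain ⟨n, hn⟩ := exists_nat _ h2
    obtain ⟨m, hm⟩ := exists_nat _ h3
    rcases h4 with h4 | h4
    · refine ⟨(0, -(m : ℤ)), ?_⟩
      unfold rawOf
      simp only [neg_neg, Int.toNat_natCast]
      rw [h1, h4, hm]
      have : (-(m : ℤ)).toNat = 0 := by omega
      rw [this]; rfl
    · refine ⟨(0, (n : ℤ)), ?_⟩
      unfold rawOf
      simp only [Int.toNat_natCast]
      rw [h1, h4, hn]
      have : (-(n : ℤ)).toNat = 0 := by omega
      rw [this]; rfl
  · obtain ⟨⟨h1, h2⟩, h3⟩ := h
    obtain ⟨n, hn⟩ := exists_nat _ h2
    refine ⟨(1, (n : ℤ)), ?_⟩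
    unfold rawOf
    simp only [Int.toNat_natCast]
    rw [h1, h3, hn]
    have : (-(n : ℤ)).toNat = 0 := by omega
    rw [this]; rfl
  · obtain ⟨⟨⟨k, hk, h1⟩, h2⟩, h3⟩ := h
    refine ⟨(k + 2, 0), ?_⟩
    unfold rawOf
    rw [h1, h2, h3]
    rfl

/-! ### encoding of raw tokens -/

/-- encoding of a raw token -/
def encTok (t : RTok) : List Bool := delimit t.1 ++ (delimit t.2.1 ++ t.2.2)

/-- encoding of a list of raw tokens -/
def encToks (T : List RTok) : List Bool := T.flatMap (fun t => delimit (encTok t))

theorem encToks_rawOf (T : List (ℕ × ℤ)) : encToks (T.map rawOf) = bitEncode T := by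
  show _ = ((T.map bitEncode).map delimit).flatten
  unfold encToks
  rw [List.flatMap_map, List.map_map, ← List.flatMap_def]
  rfl

theorem delimit_eq (l : List Bool) : delimit l = l.flatMap (fun b => [true, b]) ++ [false] := by
  induction l with
  | nil => rfl
  | cons b l ih => simp [delimit, ih]

theorem length_encTok (t : RTok) : t.2.1.length + t.2.2.length ≤ (encTok t).length := by
  unfold encTok
  simp only [List.length_append, length_delimit]
  omega

theorem length_encToks (T : List RTok) (t : RTok) (ht : t ∈ T) :
    t.2.1.length + t.2.2.length ≤ (encToks T).length := by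
  induction T with
  | nil => simp at ht
  | cons u T ih =>
    unfold encToks at ih ⊢
    rw [List.flatMap_cons, List.length_append, length_delimit]
    rcases List.mem_cons.1 ht with rfl | h
    · have := length_encTok t; omega
    · have := ih h; omega

/-! ### decoding -/

/-- state of the block decoder: awaiting a bit; current block (reversed); blocks (reversed) -/
abbrev BSt := Bool × List Bool × List (List Bool)

/-- one step of the block decoder -/
def bstep (s : BSt) (b : Bool) : BSt :=
  bif s.1 then (false, b :: s.2.1, s.2.2)
  else bif b then (true, s.2.1, s.2.2) else (false, [], s.2.1 :: s.2.2)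

/-- decoding of a list of blocks -/
def blocks (s : List Bool) : List (List Bool) :=
  ((s.foldl bstep (false, [], [])).2.2.map List.reverse).reverse

theorem bstep_delimit (l : List Bool) (c : List Bool) (d : List (List Bool)) :
    (delimit l).foldl bstep (false, c, d) = (false, [], (l.reverse ++ c) :: d) := by
  induction l generalizing c with
  | nil => rfl
  | cons b l ih =>
    show (delimit l).foldl bstep (bstep (bstep (false, c, d) true) b) = _
    have : bstep (bstep (false, c, d) true) b = (false, b :: c, d) := rfl
    rw [this, ih]
    simp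

theorem blocks_encode (L : List (List Bool)) : blocks (L.flatMap delimit) = L := by
  have key : ∀ (L : List (List Bool)) (d : List (List Bool)),
      (L.flatMap delimit).foldl bstep (false, [], d) = (false, [], (L.map List.reverse).reverse ++ d) := by
    intro L
    induction L with
    | nil => intro d; rfl
    | cons l L ih =>
      intro d
      rw [List.flatMap_cons, List.foldl_append, bstep_delimit, ih]
      simp
  unfold blocks
  rw [key]
  simp

/-- state of `und`: awaiting a bit; finished; block (reversed); rest (reversed) -/
abbrev USt := Bool × Bool × List Bool × List Bool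

/-- one step -/
def ustep (s : USt) (b : Bool) : USt :=
  bif s.2.1 then (s.1, s.2.1, s.2.2.1, b :: s.2.2.2)
  else bif s.1 then (false, false, b :: s.2.2.1, s.2.2.2)
  else bif b then (true, false, s.2.2.1, s.2.2.2) else (false, true, s.2.2.1, s.2.2.2)

/-- split off the first block -/
def und (s : List Bool) : List Bool × List Bool :=
  let r := s.foldl ustep (false, false, [], [])
  (r.2.2.1.reverse, r.2.2.2.reverse)

theorem und_delimit (l m : List Bool) : und (delimit l ++ m) = (l, m) := by
  have k1 : ∀ (l c : List Bool), (delimit l).foldl ustep (false, false, c, []) =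
      (false, true, l.reverse ++ c, []) := by
    intro l
    induction l with
    | nil => intro c; rfl
    | cons b l ih =>
      intro c
      show (delimit l).foldl ustep (ustep (ustep (false, false, c, []) true) b) = _
      have : ustep (ustep (false, false, c, []) true) b = (false, false, b :: c, []) := rfl
      rw [this, ih]
      simp
  have k2 : ∀ (m c d : List Bool), m.foldl ustep (false, true, c, d) =
      (false, true, c, m.reverse ++ d) := by
    intro m
    induction m with
    | nil => intro c d; rfl
    | cons b m ih =>
      intro c d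
      show m.foldl ustep (ustep (false, true, c, d) b) = _
      have : ustep (false, true, c, d) b = (false, true, c, b :: d) := rfl
      rw [this, ih]
      simp
  unfold und
  rw [List.foldl_append, k1, k2]
  simp

/-- decoding of a token -/
def decTok (s : List Bool) : RTok := ((und s).1, (und (und s).2).1, (und (und s).2).2)

theorem decTok_encTok (t : RTok) : decTok (encTok t) = t := by
  unfold decTok encTok
  rw [und_delimit]
  simp only
  rw [und_delimit]

/-- decoding of a list of tokens -/
def decToks (s : List Bool) : List RTok := (blocks s).map decTok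

theorem decToks_encToks (T : List RTok) : decToks (encToks T) = T := by
  unfold decToks encToks
  have : T.flatMap (fun t => delimit (encTok t)) = (T.map encTok).flatMap delimit := by
    rw [List.flatMap_map]
  rw [this, blocks_encode, List.map_map]
  have : decTok ∘ encTok = id := by funext t; exact decTok_encTok t
  rw [this, List.map_id]

/-- the parser -/
def parse (s : List Bool) : List RTok :=
  bif decide (encToks (decToks s) = s) then decToks s else []

/-! ### polynomial time -/

section PTs

variable {α : Type} [En α]

theorem PT_delimit {l : α → List Bool} (hl : PT l) : PT (fun a => delimit (l a)) := by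
  have h1 : PT (fun p : α × Bool => [true, p.2]) := by fun_prop
  have : PT (fun a => (l a).flatMap (fun b => [true, b]) ++ [false]) :=
    PT.append (PT.flatMap hl h1) (PT.const _)
  exact this.of_eq (fun a => delimit_eq _)

theorem PT_encTok {t : α → RTok} (ht : PT t) : PT (fun a => encTok (t a)) :=
  PT.append (PT_delimit (PT.fst ht)) (PT.append (PT_delimit (PT.fst (PT.snd ht))) (PT.snd (PT.snd ht)))

theorem PT_encToks {T : α → List RTok} (hT : PT T) : PT (fun a => encToks (T a)) := by
  have h1 : PT (fun p : α × RTok => delimit (encTok p.2)) := PT_delimit (PT_encTok (PT.snd PT.id'))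
  exact PT.flatMap hT h1

theorem PT_blocks {s : α → List Bool} (hs : PT s) : PT (fun a => blocks (s a)) := by
  have h1 : PT (fun a => (s a).foldl bstep (false, [], [])) := by
    apply PT.foldl_add (g := fun _ => bstep) hs (PT.const _)
    · have : PT (fun p : α × BSt × Bool =>
          (bif p.2.1.1 then (false, p.2.2 :: p.2.1.2.1, p.2.1.2.2)
            else bif p.2.2 then (true, p.2.1.2.1, p.2.1.2.2)
              else (false, [], p.2.1.2.1 :: p.2.1.2.2) : BSt)) := by fun_prop
      exact this
    · refine ⟨fun _ => 10, PB.const 10, ?_⟩
      rintro a ⟨c, cur, done⟩ b _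
      cases c <;> cases b <;>
        simp only [bstep, cond_true, cond_false, sz_pair, sz_bool, sz_cons, sz_nil] <;> omega
  have h2 : PT (fun p : α × List Bool => p.2.reverse) := PT.reverse (PT.snd PT.id')
  exact PT.reverse (PT.map (PT.snd (PT.snd h1)) h2)

theorem PT_und {s : α → List Bool} (hs : PT s) : PT (fun a => und (s a)) := by
  have h1 : PT (fun a => (s a).foldl ustep (false, false, [], [])) := by
    apply PT.foldl_add (g := fun _ => ustep) hs (PT.const _)
    · have : PT (fun p : α × USt × Bool =>
          (bif p.2.1.2.1 then (p.2.1.1, p.2.1.2.1, p.2.1.2.2.1, p.2.2 :: p.2.1.2.2.2)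
            else bif p.2.1.1 then (false, false, p.2.2 :: p.2.1.2.2.1, p.2.1.2.2.2)
              else bif p.2.2 then (true, false, p.2.1.2.2.1, p.2.1.2.2.2)
                else (false, true, p.2.1.2.2.1, p.2.1.2.2.2) : USt)) := by fun_prop
      exact this
    · refine ⟨fun _ => 10, PB.const 10, ?_⟩
      rintro a ⟨c, e, cur, rest⟩ b _
      cases c <;> cases e <;> cases b <;>
        simp only [ustep, cond_true, cond_false, sz_pair, sz_bool, sz_cons, sz_nil] <;> omega
  exact PT.pair (PT.reverse (PT.fst (PT.snd (PT.snd h1)))) (PT.reverse (PT.snd (PT.snd (PT.snd h1))))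

theorem PT_decTok {s : α → List Bool} (hs : PT s) : PT (fun a => decTok (s a)) := by
  have h1 := PT_und hs
  have h2 := PT_und (PT.snd h1)
  exact PT.pair (PT.fst h1) (PT.pair (PT.fst h2) (PT.snd h2))

theorem PT_decToks {s : α → List Bool} (hs : PT s) : PT (fun a => decToks (s a)) := by
  have h1 : PT (fun p : α × List Bool => decTok p.2) := PT_decTok (PT.snd PT.id')
  exact PT.map (PT_blocks hs) h1

/-- state of the comparison: all equal so far; rest of the second string -/
def cstep (s : Bool × List Bool) (b : Bool) : Bool × List Bool :=
  MSR.lcase s.2 (false, []) (fun c t => (s.1 && ((b && c) || (!b && !c)), t))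

theorem cstep_foldl (l m : List Bool) (c : Bool) :
    ((l.foldl cstep (c, m)).1 && (l.foldl cstep (c, m)).2.isEmpty) = (c && decide (l = m)) := by
  induction l generalizing m c with
  | nil =>
    cases m with
    | nil => simp
    | cons b m => simp
  | cons a l ih =>
    cases m with
    | nil =>
      have : cstep (c, []) a = (false, []) := rfl
      rw [List.foldl_cons, this, ih]
      simp
    | cons b m =>
      have : cstep (c, b :: m) a = (c && ((a && b) || (!a && !b)), m) := rfl
      rw [List.foldl_cons, this, ih]
      cases a <;> cases b <;> simp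

theorem PT_eqs {s t : α → List Bool} (hs : PT s) (ht : PT t) : PT (fun a => decide (s a = t a)) := by
  have h1 : PT (fun a => (s a).foldl cstep (true, t a)) := by
    apply PT.foldl_add (g := fun _ => cstep) hs (PT.pair (PT.const true) ht)
    · show PT (fun p : α × (Bool × List Bool) × Bool => MSR.lcase p.2.1.2 (false, [])
        (fun c t => (p.2.1.1 && ((p.2.2 && c) || (!p.2.2 && !c)), t)))
      apply PT.lcase (PT.snd (PT.fst (PT.snd PT.id'))) (PT.const _)
      have : PT (fun p : (α × (Bool × List Bool) × Bool) × Bool × List Bool =>
        (p.1.2.1.1 && ((p.1.2.2 && p.2.1) || (!p.1.2.2 && !p.2.1)), p.2.2)) := by fun_prop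
      exact this
    · refine ⟨fun _ => 10, PB.const 10, ?_⟩
      rintro a ⟨c, m⟩ b _
      cases m with
      | nil =>
        have : cstep (c, []) b = (false, []) := rfl
        rw [this]
        simp only [sz_pair, sz_bool, sz_nil]
        omega
      | cons d m =>
        have : cstep (c, d :: m) b = (c && ((b && d) || (!b && !d)), m) := rfl
        rw [this]
        simp only [sz_pair, sz_bool, sz_cons]
        omega
  have h2 : PT (fun a => ((s a).foldl cstep (true, t a)).1 &&
      ((s a).foldl cstep (true, t a)).2.isEmpty) :=
    PT.and (PT.fst h1) (PT.isEmpty (PT.snd h1))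
  exact h2.of_eq (fun a => by rw [cstep_foldl]; simp)

theorem PT_parse : PT parse := by
  have h1 : PT (fun s : List Bool => decToks s) := PT_decToks PT.id'
  have h2 : PT (fun s : List Bool => encToks (decToks s)) := PT_encToks h1
  exact PT.cond (PT_eqs h2 PT.id') h1 (PT.const [])

end PTs

end F3

/-- F3 -/
theorem exists_parse : ∃ parse : List Bool → List RTok, PT parse ∧
    (∀ T : List (ℕ × ℤ), parse (bitEncode T) = T.map rawOf) ∧
    (∀ s, accepts (parse s) = true → ∃ T : List (ℕ × ℤ), s = bitEncode T) ∧
    (∀ s, ∀ t ∈ parse s, t.2.1.length + t.2.2.length ≤ s.length) := by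
  refine ⟨F3.parse, F3.PT_parse, ?_, ?_, ?_⟩
  · intro T
    unfold F3.parse
    rw [← F3.encToks_rawOf, F3.decToks_encToks]
    simp
  · intro s hs
    unfold F3.parse at hs
    by_cases h : F3.encToks (F3.decToks s) = s
    · rw [decide_eq_true h, cond_true] at hs
      unfold accepts at hs
      rw [Bool.and_eq_true, Bool.and_eq_true, List.all_eq_true] at hs
      have h1 : ∀ t ∈ F3.decToks s, ∃ t' : ℕ × ℤ, rawOf t' = t :=
        fun t ht => F3.exists_tok t (hs.1.1 t ht)
      have h2 : ∀ U : List RTok, (∀ t ∈ U, ∃ t' : ℕ × ℤ, rawOf t' = t) →
          ∃ T : List (ℕ × ℤ), T.map rawOf = U := by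
        intro U
        induction U with
        | nil => intro _; exact ⟨[], rfl⟩
        | cons u U ih =>
          intro hU
          obtain ⟨t, ht⟩ := hU u List.mem_cons_self
          obtain ⟨T, hT⟩ := ih (fun v hv => hU v (List.mem_cons_of_mem _ hv))
          exact ⟨t :: T, by rw [List.map_cons, ht, hT]⟩
      obtain ⟨T, hT⟩ := h2 _ h1
      exact ⟨T, by rw [← F3.encToks_rawOf, hT, h]⟩
    · rw [decide_eq_false h, cond_false] at hs
      exact absurd hs (by decide)
  · intro s t ht
    unfold F3.parse at ht
    by_cases h : F3.encToks (F3.decToks s) = s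
    · rw [decide_eq_true h, cond_true] at ht
      have := F3.length_encToks _ t ht
      rwa [h] at this
    · rw [decide_eq_false h, cond_false] at ht
      simp at ht

end Pool.Agent.SegDraw
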