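import Pool.Agent.Lib.MP_431574_lc.Systems

/-!
# The system of equations of a formula

A code is first split into raw tokens `(tag, positive part, negative part)` (three bit strings).
The raw tokens are scanned from right to left by a stack machine which finds the arguments of every
operation; then a system of equations is written down.
-/

open N68a2faeb N793a5b8e N487b59b3

namespace Pool.Agent.SegDraw

/-- raw tokens: the binary expansions (least significant bit first) of the tag, of the positive
part and of the negative part of the datum -/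
abbrev RTok := List Bool × List Bool × List Bool

/-- the raw token of a token -/
def rawOf (t : ℕ × ℤ) : RTok :=
  (Computability.encodeNat t.1, Computability.encodeNat t.2.toNat,
    Computability.encodeNat (-t.2).toNat)

/-- the canonical binary expansions: empty or with last bit `true` -/
def canon (l : List Bool) : Bool := l.isEmpty || (l.getLast? == some true)

/-- validity of a raw token: canonical, tag `< 10`, datum `≥ 0` for variables, `0` for operations -/
def rvalid (t : RTok) : Bool :=
  (t.1 == Computability.encodeNat 0 && canon t.2.1 && canon t.2.2 &&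
    (t.2.1.isEmpty || t.2.2.isEmpty)) ||
  (t.1 == Computability.encodeNat 1 && canon t.2.1 && t.2.2.isEmpty) ||
  (((List.range 8).any (fun k => t.1 == Computability.encodeNat (k + 2))) &&
    t.2.1.isEmpty && t.2.2.isEmpty)

/-- the tag of a raw token (`10` if there is none) -/
def rtag (t : RTok) : ℕ := ((List.range 10).filter (fun k => t.1 == Computability.encodeNat k)).headD 10

/-- A record `(a, tag, p₁, p₂, pos, neg)`: the node at position `a` with its tag, the positions of
its arguments (`0` if missing) and its datum. -/
abbrev Rec := ℕ × ℕ × ℕ × ℕ × List Bool × List Bool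

/-- State of the stack machine: flag (`true` = no failure), stack of positions of nodes (with flag
`true` for formulas, `false` for terms), records. -/
abbrev MState := Bool × List (Bool × ℕ) × List Rec

/-- One step of the stack machine, reading the raw token `t` at position `a`. -/
def mstep (a : ℕ) (t : RTok) (s : MState) : MState :=
  let k := rtag t
  let s1 := s.2.1.headD (false, 0)
  let s2 := s.2.1.tail.headD (false, 0)
  if k < 2 then (s.1, (false, a) :: s.2.1, (a, k, 0, 0, t.2.1, t.2.2) :: s.2.2)
  else if k = 7 then
    (s.1 && decide (1 ≤ s.2.1.length) && s1.1, (true, a) :: s.2.1.tail,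
      (a, k, s1.2, 0, t.2.1, t.2.2) :: s.2.2)
  else
    (s.1 && decide (2 ≤ s.2.1.length) && decide (k < 10) &&
        (s1.1 == decide (8 ≤ k)) && (s2.1 == decide (8 ≤ k)),
      (decide (4 ≤ k), a) :: s.2.1.tail.tail, (a, k, s1.2, s2.2, t.2.1, t.2.2) :: s.2.2)

/-- Run of the stack machine, from right to left, the first token having position `a`. -/
def mrun : ℕ → List RTok → MState
  | _, [] => (true, [], [])
  | a, t :: T => mstep a t (mrun (a + 1) T)

/-- the records of a term whose code starts at position `a` -/
def Term.recs : Term → ℕ → List Rec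
  | .const c, a => [(a, 0, 0, 0, Computability.encodeNat c.toNat, Computability.encodeNat (-c).toNat)]
  | .var i, a => [(a, 1, 0, 0, Computability.encodeNat i, [])]
  | .add s t, a => (a, 2, a + 1, a + 1 + s.code.length, [], []) ::
      (s.recs (a + 1) ++ t.recs (a + 1 + s.code.length))
  | .mul s t, a => (a, 3, a + 1, a + 1 + s.code.length, [], []) ::
      (s.recs (a + 1) ++ t.recs (a + 1 + s.code.length))

/-- the records of a formula whose code starts at position `a` -/
def Fml.recs : Fml → ℕ → List Rec
  | .eq s t, a => (a, 4, a + 1, a + 1 + s.code.length, [], []) ::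
      (s.recs (a + 1) ++ t.recs (a + 1 + s.code.length))
  | .le s t, a => (a, 5, a + 1, a + 1 + s.code.length, [], []) ::
      (s.recs (a + 1) ++ t.recs (a + 1 + s.code.length))
  | .lt s t, a => (a, 6, a + 1, a + 1 + s.code.length, [], []) ::
      (s.recs (a + 1) ++ t.recs (a + 1 + s.code.length))
  | .not φ, a => (a, 7, a + 1, 0, [], []) :: φ.recs (a + 1)
  | .and φ ψ, a => (a, 8, a + 1, a + 1 + φ.code.length, [], []) ::
      (φ.recs (a + 1) ++ ψ.recs (a + 1 + φ.code.length))
  | .or φ ψ, a => (a, 9, a + 1, a + 1 + φ.code.length, [], []) ::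
      (φ.recs (a + 1) ++ ψ.recs (a + 1 + φ.code.length))

/-- the list of raw tokens is the code of a formula -/
def accepts (T : List RTok) : Bool :=
  T.all rvalid && (mrun 0 T).1 && ((mrun 0 T).2.1 == [(true, 0)])

/-- index of the variable `k` of the node `a`, when every node has a block of `M` variables; the
variable `0` is zero, the variable `1` is one -/
def nv (M a k : ℕ) : ℕ := 2 + a * M + k

/-- Equations which give the variable `h` (in the block of the node `a`, at the places `o + 4 i`)
the value of the binary expansion `l`: `h_i = l_i + 2 h_{i+1}`, the variable `d_i = 2 h_{i+1}` is at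
the place `o + 4 i + 1`. -/
def hornerCons (M a o : ℕ) (l : List Bool) : List ECon :=
  [(1, nv M a (o + 4 * l.length), 0, 0)] ++
  l.zipIdx.flatMap (fun q =>
    [(1, nv M a (o + 4 * (q.2 + 1)), nv M a (o + 4 * (q.2 + 1)), nv M a (o + 4 * q.2 + 1)),
     (1, nv M a (o + 4 * q.2 + 1), bif q.1 then 1 else 0, nv M a (o + 4 * q.2))])

/-- The equations of a record. For terms the variable `0` of the node is its value; for formulas the
variable `0` can be made zero iff the formula is true, the variable `1` iff it is false. -/
def recCons (M : ℕ) (r : Rec) : List ECon :=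
  let a := r.1
  let k := r.2.1
  let p := r.2.2.1
  let q := r.2.2.2.1
  let v := nv M a
  if k = 0 then
    hornerCons M a 4 r.2.2.2.2.1 ++ hornerCons M a 6 r.2.2.2.2.2 ++ [(1, v 0, v 6, v 4)]
  else if k = 1 then []
  else if k = 2 then [(1, nv M p 0, nv M q 0, v 0)]
  else if k = 3 then [(2, nv M p 0, nv M q 0, v 0)]
  else if k = 4 then -- `s = t`: `w = s - t`; `w' = (s - t) z - 1`
    [(1, v 0, nv M q 0, nv M p 0), (2, v 0, v 2, v 3), (1, v 1, 1, v 3)]
  else if k = 5 then -- `s ≤ t`: `d = t - s`, `w = d - z²`, `w' = - d z'² - 1`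
    [(1, v 2, nv M p 0, nv M q 0), (2, v 3, v 3, v 4), (1, v 0, v 4, v 2),
     (2, v 5, v 5, v 6), (2, v 2, v 6, v 7), (1, v 7, 1, v 8), (1, v 1, v 8, 0)]
  else if k = 6 then -- `s < t`: `d = t - s`, `w = d z² - 1`, `w' = - d - z'²`
    [(1, v 2, nv M p 0, nv M q 0), (2, v 3, v 3, v 4), (2, v 2, v 4, v 7), (1, v 0, 1, v 7),
     (2, v 5, v 5, v 6), (1, v 2, v 6, v 8), (1, v 1, v 8, 0)]
  else if k = 7 then [(1, nv M p 1, 0, v 0), (1, nv M p 0, 0, v 1)]
  else if k = 8 then
    [(2, nv M p 0, nv M p 0, v 2), (2, nv M q 0, nv M q 0, v 3), (1, v 2, v 3, v 0),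
     (2, nv M p 1, nv M q 1, v 1)]
  else
    [(2, nv M p 1, nv M p 1, v 2), (2, nv M q 1, nv M q 1, v 3), (1, v 2, v 3, v 1),
     (2, nv M p 0, nv M q 0, v 0)]

/-- equations which identify the values of equal variables -/
def varCons (M : ℕ) (R : List Rec) : List ECon :=
  R.flatMap (fun r => R.flatMap (fun r' =>
    bif (r.2.1 == 1 && r'.2.1 == 1 && (r.2.2.2.2.1 == r'.2.2.2.2.1)) then
      [(1, nv M r.1 0, 0, nv M r'.1 0)] else []))

/-- the system of a list of raw tokens, with blocks of size `M` -/
def rawSys (M : ℕ) (T : List RTok) : List ECon :=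
  bif accepts T then
    [(0, 1, 0, 0), (1, 0, 0, 0), (1, nv M 0 0, 0, 0)] ++
      (mrun 0 T).2.2.flatMap (recCons M) ++ varCons M (mrun 0 T).2.2
  else [(0, 0, 0, 0), (1, 0, 0, 0)]

end Pool.Agent.SegDraw
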