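import Pool.Agent.Lib.MP_431574_lc.Code

/-!
# G1: every drawing of a list of rooms satisfies the weak conditions
-/

namespace Pool.Agent.SegDraw

namespace G1

/-- points of an open vertical segment -/
theorem mem_openSegment_vert {x a b : ℝ} (hab : a < b) {z : ℝ × ℝ}
    (hz : z ∈ openSegment ℝ (x, a) (x, b)) : z.1 = x ∧ a < z.2 ∧ z.2 < b := by
  obtain ⟨s, t, hs, ht, hst, rfl⟩ := hz
  refine ⟨?_, ?_, ?_⟩
  · simp only [Prod.smul_mk, smul_eq_mul, Prod.mk_add_mk]
    rw [← add_mul, hst, one_mul]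
  · simp only [Prod.smul_mk, smul_eq_mul, Prod.mk_add_mk]
    have : s = 1 - t := by linarith
    subst this
    nlinarith
  · simp only [Prod.smul_mk, smul_eq_mul, Prod.mk_add_mk]
    have : t = 1 - s := by linarith
    subst this
    nlinarith

/-- points of an open horizontal segment -/
theorem mem_openSegment_horiz {y a b : ℝ} (hab : a < b) {z : ℝ × ℝ}
    (hz : z ∈ openSegment ℝ (a, y) (b, y)) : z.2 = y ∧ a < z.1 ∧ z.1 < b := by
  obtain ⟨s, t, hs, ht, hst, rfl⟩ := hz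
  refine ⟨?_, ?_, ?_⟩
  · simp only [Prod.smul_mk, smul_eq_mul, Prod.mk_add_mk]
    rw [← add_mul, hst, one_mul]
  · simp only [Prod.smul_mk, smul_eq_mul, Prod.mk_add_mk]
    have : s = 1 - t := by linarith
    subst this
    nlinarith
  · simp only [Prod.smul_mk, smul_eq_mul, Prod.mk_add_mk]
    have : t = 1 - s := by linarith
    subst this
    nlinarith

variable {C : ℝ × ℝ → ℝ × ℝ → ℝ × ℝ → ℝ × ℝ → Prop} {L : List Room} {p : Label → ℝ × ℝ}

theorem pos0 (h : LDraw C L p) {c j : ℕ} (hu : Used L (c, j, 0)) :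
    ∃ Y : ℝ, p (c, j, 0) = (30 * (c : ℝ), Y) ∧ 480 * (j : ℝ) < Y ∧ Y < 480 * (j : ℝ) + 240 := by
  have h1 := h.place _ hu
  simp only [segA, segB, npt] at h1
  push_cast at h1
  obtain ⟨h2, h3, h4⟩ := mem_openSegment_vert (by linarith) h1
  exact ⟨_, Prod.ext h2 rfl, h3, h4⟩

theorem pos1 (h : LDraw C L p) {c j : ℕ} (hu : Used L (c, j, 1)) :
    ∃ Y : ℝ, p (c, j, 1) = (30 * (c : ℝ) + 30, Y) ∧ 480 * (j : ℝ) + 240 < Y ∧
      Y < 480 * (j : ℝ) + 480 := by
  have h1 := h.place _ hu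
  simp only [segA, segB, npt] at h1
  push_cast at h1
  obtain ⟨h2, h3, h4⟩ := mem_openSegment_vert (by linarith) h1
  exact ⟨_, Prod.ext h2 rfl, h3, h4⟩

theorem pos2 (h : LDraw C L p) {c j : ℕ} (hu : Used L (c, j, 2)) :
    ∃ Y : ℝ, p (c, j, 2) = (30 * (c : ℝ) + 30, Y) ∧ 480 * (j : ℝ) + 390 < Y ∧
      Y < 480 * (j : ℝ) + 450 := by
  have h1 := h.place _ hu
  simp only [segA, segB, npt] at h1
  push_cast at h1
  obtain ⟨h2, h3, h4⟩ := mem_openSegment_vert (by linarith) h1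
  exact ⟨_, Prod.ext h2 rfl, h3, h4⟩

theorem pos3 (h : LDraw C L p) {c j : ℕ} (hu : Used L (c, j, 3)) :
    ∃ X : ℝ, p (c, j, 3) = (X, 480 * (j : ℝ) + 360) ∧ 30 * (c : ℝ) + 30 < X ∧
      X < 30 * (c : ℝ) + 60 := by
  have h1 := h.place _ hu
  simp only [segA, segB, npt] at h1
  push_cast at h1
  obtain ⟨h2, h3, h4⟩ := mem_openSegment_horiz (by linarith) h1
  exact ⟨_, Prod.ext rfl h2, h3, h4⟩

theorem pos4 (h : LDraw C L p) {c j : ℕ} (hu : Used L (c, j, 4)) :
    ∃ Y : ℝ, p (c, j, 4) = (30 * (c : ℝ) + 60, Y) ∧ 480 * (j : ℝ) + 120 < Y ∧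
      Y < 480 * (j : ℝ) + 360 := by
  have h1 := h.place _ hu
  simp only [segA, segB, npt] at h1
  push_cast at h1
  obtain ⟨h2, h3, h4⟩ := mem_openSegment_vert (by linarith) h1
  exact ⟨_, Prod.ext h2 rfl, h3, h4⟩

/-- the points of a segment, parametrised by the abscissa -/
theorem mem_seg {x1 y1 x2 y2 x : ℝ} (h12 : x1 < x2) (h1 : x1 ≤ x) (h2 : x ≤ x2) :
    (x, y1 + (y2 - y1) / (x2 - x1) * (x - x1)) ∈ segment ℝ ((x1, y1) : ℝ × ℝ) (x2, y2) := by
  have hd : 0 < x2 - x1 := by linarith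
  refine ⟨1 - (x - x1) / (x2 - x1), (x - x1) / (x2 - x1), ?_, ?_, by ring, ?_⟩
  · rw [sub_nonneg, div_le_one hd]; linarith
  · exact div_nonneg (by linarith) hd.le
  · simp only [Prod.smul_mk, smul_eq_mul, Prod.mk_add_mk, Prod.mk.injEq]
    constructor
    · field_simp; ring
    · field_simp; ring

/-- the points of an open segment, parametrised by the abscissa -/
theorem mem_oseg {x1 y1 x2 y2 x : ℝ} (h1 : x1 < x) (h2 : x < x2) :
    (x, y1 + (y2 - y1) / (x2 - x1) * (x - x1)) ∈ openSegment ℝ ((x1, y1) : ℝ × ℝ) (x2, y2) := by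
  have hd : 0 < x2 - x1 := by linarith
  refine ⟨1 - (x - x1) / (x2 - x1), (x - x1) / (x2 - x1), ?_, ?_, by ring, ?_⟩
  · rw [sub_pos, div_lt_one hd]; linarith
  · exact div_pos (by linarith) hd
  · simp only [Prod.smul_mk, smul_eq_mul, Prod.mk_add_mk, Prod.mk.injEq]
    constructor
    · field_simp; ring
    · field_simp; ring

theorem mem_vert {x a b y : ℝ} (h1 : a < y) (h2 : y < b) :
    (x, y) ∈ openSegment ℝ ((x, a) : ℝ × ℝ) (x, b) := by
  have hd : 0 < b - a := by linarith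
  refine ⟨1 - (y - a) / (b - a), (y - a) / (b - a), ?_, ?_, by ring, ?_⟩
  · rw [sub_pos, div_lt_one hd]; linarith
  · exact div_pos (by linarith) hd
  · simp only [Prod.smul_mk, smul_eq_mul, Prod.mk_add_mk, Prod.mk.injEq]
    constructor
    · ring
    · field_simp; ring

/-- a vertical obstacle crossed at an inner point is crossed properly -/
theorem properlyCross {x1 y1 x2 y2 x a b : ℝ} (h1 : x1 < x) (h2 : x < x2)
    (ha : a < y1 + (y2 - y1) / (x2 - x1) * (x - x1))
    (hb : y1 + (y2 - y1) / (x2 - x1) * (x - x1) < b) :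
    ProperlyCross (x1, y1) (x2, y2) (x, a) (x, b) := by
  refine ⟨⟨_, mem_oseg h1 h2, mem_vert ha hb⟩, ?_⟩
  intro hc
  have hc' : Collinear ℝ ({(x1, y1), (x, a), (x, b)} : Set (ℝ × ℝ)) := by
    refine hc.subset ?_
    intro z hz
    simp only [Set.mem_insert_iff, Set.mem_singleton_iff] at hz ⊢
    tauto
  rw [collinear_iff_of_mem (p₀ := ((x, a) : ℝ × ℝ)) (by simp)] at hc'
  obtain ⟨v, hv⟩ := hc'
  obtain ⟨r, hr⟩ := hv (x, b) (by simp)
  obtain ⟨s, hs⟩ := hv (x1, y1) (by simp)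
  have e1 : x = r * v.1 + x := by simpa using congrArg Prod.fst hr
  have e2 : b = r * v.2 + a := by simpa using congrArg Prod.snd hr
  have e3 : x1 = s * v.1 + x := by simpa using congrArg Prod.fst hs
  have hr0 : r ≠ 0 := by
    rintro rfl
    have : b = a := by simpa using e2
    linarith
  have hv1 : v.1 = 0 := by
    have : r * v.1 = 0 := by linarith
    rcases mul_eq_zero.1 this with h | h
    · exact absurd h hr0
    · exact h
  rw [hv1] at e3
  linarith

/-- two segments whose order changes between `xa` and `xb` have a common point -/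
theorem meet {x1 y1 x2 y2 x1' y1' x2' y2' xa xb : ℝ} (h12 : x1 < x2) (h12' : x1' < x2')
    (hab : xa ≤ xb) (h1 : x1 ≤ xa) (h1' : x1' ≤ xa) (h2 : xb ≤ x2) (h2' : xb ≤ x2')
    (ha : y1 + (y2 - y1) / (x2 - x1) * (xa - x1) ≤ y1' + (y2' - y1') / (x2' - x1') * (xa - x1'))
    (hb : y1' + (y2' - y1') / (x2' - x1') * (xb - x1') ≤ y1 + (y2 - y1) / (x2 - x1) * (xb - x1)) :
    ∃ z ∈ segment ℝ ((x1, y1) : ℝ × ℝ) (x2, y2), z ∈ segment ℝ ((x1', y1') : ℝ × ℝ) (x2', y2') := by
  set m := (y2 - y1) / (x2 - x1) with hm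
  set m' := (y2' - y1') / (x2' - x1') with hm'
  have hcont : ContinuousOn (fun x : ℝ => (y1' + m' * (x - x1')) - (y1 + m * (x - x1)))
      (Set.Icc xa xb) := by fun_prop
  have h0 : (0 : ℝ) ∈ Set.Icc ((fun x : ℝ => (y1' + m' * (x - x1')) - (y1 + m * (x - x1))) xb)
      ((fun x : ℝ => (y1' + m' * (x - x1')) - (y1 + m * (x - x1))) xa) := by
    constructor
    · simp only; linarith
    · simp only; linarith
  obtain ⟨x, hx, hx0⟩ := intermediate_value_Icc' hab hcont h0
  refine ⟨(x, y1 + m * (x - x1)), mem_seg h12 (h1.trans hx.1) (hx.2.trans h2), ?_⟩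
  have : y1 + m * (x - x1) = y1' + m' * (x - x1') := by
    simp only at hx0; linarith
  rw [this]
  exact mem_seg h12' (h1'.trans hx.1) (hx.2.trans h2')

theorem mem_allEdges {r : Room} (hr : r ∈ L) {e : Label × Label} (he : e ∈ r.edges) :
    e ∈ allEdges L := List.mem_flatMap.2 ⟨r, hr, he⟩

theorem mem_allObst {r : Room} (hr : r ∈ L) {o : ℕ × ℕ × ℕ} (ho : o ∈ r.obst) :
    o ∈ allObst L := List.mem_flatMap.2 ⟨r, hr, ho⟩

theorem used_left {u v : Label} (h : (u, v) ∈ allEdges L) : Used L u := ⟨_, h, Or.inl rfl⟩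

theorem used_right {u v : Label} (h : (u, v) ∈ allEdges L) : Used L v := ⟨_, h, Or.inr rfl⟩

/-- no obstacle is crossed in a drawing: the height of the edge at the abscissa of the obstacle
is not between its ends -/
theorem no_cross (h : LDraw ProperlyCross L p) {u v : Label} (he : (u, v) ∈ allEdges L)
    {o : ℕ × ℕ × ℕ} (ho : o ∈ allObst L) {x1 y1 x2 y2 : ℝ} (hu : p u = (x1, y1))
    (hv : p v = (x2, y2)) (h1 : x1 < o.1) (h2 : (o.1 : ℝ) < x2)
    (ha : (o.2.1 : ℝ) < y1 + (y2 - y1) / (x2 - x1) * (o.1 - x1)) :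
    (o.2.2 : ℝ) ≤ y1 + (y2 - y1) / (x2 - x1) * (o.1 - x1) := by
  by_contra hb
  push Not at hb
  have := h.obst _ he _ ho
  simp only [hu, hv, npt] at this
  exact this (properlyCross h1 h2 ha hb)

/-- the other side -/
theorem no_cross' (h : LDraw ProperlyCross L p) {u v : Label} (he : (u, v) ∈ allEdges L)
    {o : ℕ × ℕ × ℕ} (ho : o ∈ allObst L) {x1 y1 x2 y2 : ℝ} (hu : p u = (x1, y1))
    (hv : p v = (x2, y2)) (h1 : x1 < o.1) (h2 : (o.1 : ℝ) < x2)
    (hb : y1 + (y2 - y1) / (x2 - x1) * (o.1 - x1) < (o.2.2 : ℝ)) :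
    y1 + (y2 - y1) / (x2 - x1) * (o.1 - x1) ≤ (o.2.1 : ℝ) := by
  by_contra ha
  push Not at ha
  have := h.obst _ he _ ho
  simp only [hu, hv, npt] at this
  exact this (properlyCross h1 h2 ha hb)

/-- a simple edge with a half-door obstacle in the middle -/
theorem wk_of_edge (h : LDraw ProperlyCross L p) {c j c' j' : ℕ} {s : Bool} (hcc : c < c')
    (he : ((c, j, 0), (c', j', 0)) ∈ allEdges L) {o : ℕ × ℕ × ℕ}
    (ho : o ∈ allObst L) (ho1 : 2 * o.1 = 30 * (c + c'))
    (ho2 : o.2.1 = 240 * (j + j') + Room.off s)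
    (ho3 : o.2.2 = 240 * (j + j') + Room.off s + 120) :
    Room.Wk s (val p c j + val p c' j') := by
  obtain ⟨Y, hY, hY1, hY2⟩ := pos0 h (used_left he)
  obtain ⟨Z, hZ, hZ1, hZ2⟩ := pos0 h (used_right he)
  have hc : (c : ℝ) < c' := by exact_mod_cast hcc
  have e1 : (o.1 : ℝ) = 15 * (c + c') := by
    have : (2 : ℝ) * (o.1 : ℝ) = 30 * (c + c') := by exact_mod_cast ho1
    linarith
  have e2 : (o.2.1 : ℝ) = 240 * (j + j') + Room.off s := by exact_mod_cast ho2
  have e3 : (o.2.2 : ℝ) = 240 * (j + j') + Room.off s + 120 := by exact_mod_cast ho3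
  have hh : Y + (Z - Y) / (30 * (c' : ℝ) - 30 * (c : ℝ)) * ((o.1 : ℝ) - 30 * (c : ℝ))
      = (Y + Z) / 2 := by
    rw [e1]
    have : (c' : ℝ) - c ≠ 0 := by intro h; linarith
    field_simp
    ring
  have h1 := no_cross h he ho hY hZ (by rw [e1]; linarith) (by rw [e1]; linarith)
  have h2 := no_cross' h he ho hY hZ (by rw [e1]; linarith) (by rw [e1]; linarith)
  rw [hh, e2, e3] at h1 h2
  unfold Room.Wk val
  rw [hY, hZ]
  cases s with
  | false =>
    simp only [Bool.false_eq_true, if_false]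
    simp only [Room.off, cond_false, Nat.cast_zero] at h1 h2
    have := h1 (by linarith)
    linarith
  | true =>
    simp only [if_true]
    simp only [Room.off, cond_true, Nat.cast_ofNat] at h1 h2
    have := h2 (by linarith)
    linarith

theorem tee_weak (h : LDraw ProperlyCross L p) {c j P : ℕ} (hr : Room.tee c j P ∈ L) :
    (P : ℝ) / 80 - 7 / 2 < val p c j + val p c (j + 1) + val p (c + 2) j := by
  have he1 : ((c, j, 0), (c, j, 1)) ∈ allEdges L := mem_allEdges hr (by simp [Room.edges])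
  have he2 : ((c, j + 1, 0), (c + 2, j, 0)) ∈ allEdges L := mem_allEdges hr (by simp [Room.edges])
  have ho : (30 * c + 20, 480 * j, 480 * j + P) ∈ allObst L := mem_allObst hr (by simp [Room.obst])
  obtain ⟨Y, hY, hY1, hY2⟩ := pos0 h (used_left he1)
  obtain ⟨S, hS, hS1, hS2⟩ := pos1 h (used_right he1)
  obtain ⟨Z, hZ, hZ1, hZ2⟩ := pos0 h (used_left he2)
  obtain ⟨W, hW, hW1, hW2⟩ := pos0 h (used_right he2)
  push_cast at hZ1 hZ2 hW
  -- the two edges do not meet
  have hlt : S < (Z + W) / 2 := by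
    by_contra hc
    push Not at hc
    obtain ⟨z, hz1, hz2⟩ := meet (x1 := 30 * (c : ℝ)) (y1 := Y) (x2 := 30 * (c : ℝ) + 30) (y2 := S)
      (x1' := 30 * (c : ℝ)) (y1' := Z) (x2' := 30 * ((c : ℝ) + 2)) (y2' := W)
      (xa := 30 * (c : ℝ)) (xb := 30 * (c : ℝ) + 30)
      (by linarith) (by linarith) (by linarith) le_rfl le_rfl le_rfl (by linarith)
      (by rw [sub_self, mul_zero, mul_zero]; linarith)
      (by
        have a1 : (30 * (c : ℝ) + 30 - 30 * (c : ℝ)) = 30 := by ring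
        have a2 : (30 * ((c : ℝ) + 2) - 30 * (c : ℝ)) = 60 := by ring
        rw [a1, a2]; linarith)
    rw [← hY, ← hS] at hz1
    rw [← hZ, ← hW] at hz2
    obtain ⟨w, hw1, hw2, -⟩ := h.edge _ he1 _ he2 (by simp) z hz1 hz2
    rcases hw1 with rfl | rfl <;> simp at hw2
  have h1 := no_cross h he1 ho hY hS (by push_cast; linarith) (by push_cast; linarith)
  push_cast at h1
  have a1 : Y + (S - Y) / (30 * (c : ℝ) + 30 - 30 * (c : ℝ)) * (30 * (c : ℝ) + 20 - 30 * (c : ℝ))
      = Y / 3 + 2 * S / 3 := by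
    have : (30 * (c : ℝ) + 30 - 30 * (c : ℝ)) = 30 := by ring
    rw [this]; ring
  rw [a1] at h1
  have h2 := h1 (by linarith)
  unfold val
  rw [hY, hZ, hW]
  push_cast
  linarith

theorem mul_weak (h : LDraw ProperlyCross L p) {c j : ℕ} (hr : Room.mul c j ∈ L) :
    1 + val p c (j + 1) < (1 - val p c j) * (1 - val p c (j + 2)) := by
  have he1 : ((c, j, 0), (c, j, 3)) ∈ allEdges L := mem_allEdges hr (by simp [Room.edges])
  have he2 : ((c, j + 1, 0), (c, j, 4)) ∈ allEdges L := mem_allEdges hr (by simp [Room.edges])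
  have he3 : ((c, j + 2, 0), (c, j, 2)) ∈ allEdges L := mem_allEdges hr (by simp [Room.edges])
  have ho1 : (30 * c + 30, 480 * j + 300, 480 * j + 360) ∈ allObst L :=
    mem_allObst hr (by simp [Room.obst])
  have ho2 : (30 * c + 24, 480 * j + 552, 480 * j + 600) ∈ allObst L :=
    mem_allObst hr (by simp [Room.obst])
  obtain ⟨Q, hQ, hQ1, hQ2⟩ := pos0 h (used_left he1)
  obtain ⟨X, hX, hX1, hX2⟩ := pos3 h (used_right he1)
  obtain ⟨P, hP, hP1, hP2⟩ := pos0 h (used_left he2)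
  obtain ⟨W, hW, hW1, hW2⟩ := pos4 h (used_right he2)
  obtain ⟨R, hR, hR1, hR2⟩ := pos0 h (used_left he3)
  obtain ⟨Z, hZ, hZ1, hZ2⟩ := pos2 h (used_right he3)
  push_cast at hP1 hP2 hR1 hR2
  -- values
  obtain ⟨a, ha⟩ : ∃ a : ℝ, Q = 480 * j + 120 + 240 * a := ⟨(Q - 480 * j - 120) / 240, by ring⟩
  obtain ⟨b, hb⟩ : ∃ b : ℝ, P = 480 * (j + 1) + 120 + 240 * b :=
    ⟨(P - 480 * (j + 1) - 120) / 240, by ring⟩
  obtain ⟨d, hd⟩ : ∃ d : ℝ, R = 480 * (j + 2) + 120 + 240 * d :=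
    ⟨(R - 480 * (j + 2) - 120) / 240, by ring⟩
  obtain ⟨x, hx⟩ : ∃ x : ℝ, X = 30 * c + 30 * x := ⟨(X - 30 * c) / 30, by ring⟩
  obtain ⟨w, hw⟩ : ∃ w : ℝ, W = 480 * j + 360 - 240 * w := ⟨(480 * j + 360 - W) / 240, by ring⟩
  obtain ⟨z, hz⟩ : ∃ z : ℝ, Z = 480 * j + 360 + 240 * z := ⟨(Z - 480 * j - 360) / 240, by ring⟩
  subst ha hb hd hx hw hz
  have va : val p c j = a := by unfold val; rw [hQ]; ring
  have vb : val p c (j + 1) = b := by unfold val; rw [hP]; push_cast; ring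
  have vd : val p c (j + 2) = d := by unfold val; rw [hR]; push_cast; ring
  rw [va, vb, vd]
  have x1 : 1 < x := by linarith
  have x2 : x < 2 := by linarith
  have xne : x ≠ 0 := by intro h; linarith
  have A1 : -(1 / 2) < a := by linarith
  have A2 : a < 1 / 2 := by linarith
  have B1 : -(1 / 2) < b := by linarith
  have B2 : b < 1 / 2 := by linarith
  have D1 : -(1 / 2) < d := by linarith
  have D2 : d < 1 / 2 := by linarith
  have W1 : 0 < w := by linarith
  have W2 : w < 1 := by linarith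
  have Z1 : 1 / 8 < z := by linarith
  have Z2 : z < 3 / 8 := by linarith
  have i1 : x * (1 / x) = 1 := by field_simp
  have i2 : 1 / x < 1 := by rw [div_lt_one (by linarith)]; exact x1
  have i3 : 0 < 1 / x := by positivity
  set y := 1 / x with hy
  -- first obstacle
  have h1 := no_cross' h he1 ho1 hQ hX (by push_cast; linarith) (by push_cast; linarith)
  push_cast at h1
  have E1 : 480 * (j : ℝ) + 120 + 240 * a + (480 * (j : ℝ) + 360 - (480 * (j : ℝ) + 120 + 240 * a))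
      / (30 * (c : ℝ) + 30 * x - 30 * (c : ℝ)) * (30 * (c : ℝ) + 30 - 30 * (c : ℝ))
      = 480 * j + 360 - 240 * ((1 - a) * (1 - y)) := by
    have : (30 * (c : ℝ) + 30 * x - 30 * (c : ℝ)) = 30 * x := by ring
    rw [this, hy]
    field_simp
    ring
  rw [E1] at h1
  have k1 : 1 / 4 ≤ (1 - a) * (1 - y) := by
    have : 0 < (1 - a) * (1 - y) := mul_pos (by linarith) (by linarith)
    have := h1 (by linarith)
    linarith
  -- second obstacle
  have h2 := no_cross' h he3 ho2 hR hZ (by push_cast; linarith) (by push_cast; linarith)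
  push_cast at h2
  have E2 : 480 * ((j : ℝ) + 2) + 120 + 240 * d + (480 * (j : ℝ) + 360 + 240 * z
      - (480 * ((j : ℝ) + 2) + 120 + 240 * d)) / (30 * (c : ℝ) + 30 - 30 * (c : ℝ))
      * (30 * (c : ℝ) + 24 - 30 * (c : ℝ)) = 480 * j + 360 + 48 * (3 + d) + 192 * z := by
    have : (30 * (c : ℝ) + 30 - 30 * (c : ℝ)) = 30 := by ring
    rw [this]
    ring
  rw [E2] at h2
  have k2 : z ≤ (1 - d) / 4 := by
    have := h2 (by linarith)
    linarith
  -- the edge `pw` passes above `v'`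
  have k3 : 0 < (1 + b) - (1 + b + w) * x / 2 := by
    by_contra hc
    push Not at hc
    obtain ⟨t, ht1, ht2⟩ := meet (x1 := 30 * (c : ℝ)) (y1 := 480 * (j : ℝ) + 120 + 240 * a)
      (x2 := 30 * (c : ℝ) + 30 * x) (y2 := 480 * (j : ℝ) + 360)
      (x1' := 30 * (c : ℝ)) (y1' := 480 * ((j : ℝ) + 1) + 120 + 240 * b)
      (x2' := 30 * (c : ℝ) + 60) (y2' := 480 * (j : ℝ) + 360 - 240 * w)
      (xa := 30 * (c : ℝ)) (xb := 30 * (c : ℝ) + 30 * x)
      (by linarith) (by linarith) (by linarith) le_rfl le_rfl le_rfl (by linarith)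
      (by rw [sub_self, mul_zero, mul_zero]; linarith)
      (by
        have a1 : (30 * (c : ℝ) + 30 * x - 30 * (c : ℝ)) = 30 * x := by ring
        have a2 : (30 * (c : ℝ) + 60 - 30 * (c : ℝ)) = 60 := by ring
        rw [a1, a2, div_mul_cancel₀ _ (by positivity)]
        linarith)
    rw [← hQ, ← hX] at ht1
    rw [← hW] at ht2
    rw [show ((30 * (c : ℝ), 480 * ((j : ℝ) + 1) + 120 + 240 * b) : ℝ × ℝ) = p (c, j + 1, 0) from
      hP.symm] at ht2
    obtain ⟨s, hs1, hs2, -⟩ := h.edge _ he1 _ he2 (by simp) t ht1 ht2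
    rcases hs1 with rfl | rfl <;> simp at hs2
  -- the edge `rz` ends above `pw`
  have k4 : (1 + b) - (1 + b + w) / 2 < z := by
    by_contra hc
    push Not at hc
    obtain ⟨t, ht1, ht2⟩ := meet (x1' := 30 * (c : ℝ)) (y1' := 480 * ((j : ℝ) + 2) + 120 + 240 * d)
      (x2' := 30 * (c : ℝ) + 30) (y2' := 480 * (j : ℝ) + 360 + 240 * z)
      (x1 := 30 * (c : ℝ)) (y1 := 480 * ((j : ℝ) + 1) + 120 + 240 * b)
      (x2 := 30 * (c : ℝ) + 60) (y2 := 480 * (j : ℝ) + 360 - 240 * w)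
      (xa := 30 * (c : ℝ)) (xb := 30 * (c : ℝ) + 30)
      (by linarith) (by linarith) (by linarith) le_rfl le_rfl (by linarith) le_rfl
      (by rw [sub_self, mul_zero, mul_zero]; linarith)
      (by
        have a1 : (30 * (c : ℝ) + 30 - 30 * (c : ℝ)) = 30 := by ring
        have a2 : (30 * (c : ℝ) + 60 - 30 * (c : ℝ)) = 60 := by ring
        rw [a1, a2]
        linarith)
    rw [← hW] at ht1
    rw [show ((30 * (c : ℝ), 480 * ((j : ℝ) + 1) + 120 + 240 * b) : ℝ × ℝ) = p (c, j + 1, 0) from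
      hP.symm] at ht1
    rw [← hZ] at ht2
    rw [show ((30 * (c : ℝ), 480 * ((j : ℝ) + 2) + 120 + 240 * d) : ℝ × ℝ) = p (c, j + 2, 0) from
      hR.symm] at ht2
    obtain ⟨s, hs1, hs2, -⟩ := h.edge _ he2 _ he3 (by simp) t ht1 ht2
    rcases hs1 with rfl | rfl <;> simp at hs2
  -- conclusion
  have k5 : (1 + b) * (1 - y) < z := by
    have e1 : (1 + b + w) / 2 < (1 + b) * y := by
      have : (1 + b + w) * x / 2 * y < (1 + b) * y := by
        apply mul_lt_mul_of_pos_right _ i3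
        linarith
      have e2 : (1 + b + w) * x / 2 * y = (1 + b + w) / 2 := by
        rw [show (1 + b + w) * x / 2 * y = (1 + b + w) / 2 * (x * y) by ring, i1, mul_one]
      linarith
    linarith
  have k6 : (1 + b) * (1 - y) < (1 - d) / 4 := lt_of_lt_of_le k5 k2
  have k7 : (1 + b) * (1 / 4) ≤ (1 + b) * ((1 - a) * (1 - y)) :=
    mul_le_mul_of_nonneg_left k1 (by linarith)
  have k8 : (1 - a) * ((1 + b) * (1 - y)) < (1 - a) * ((1 - d) / 4) :=
    mul_lt_mul_of_pos_left k6 (by linarith)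
  nlinarith

end G1

/-- G1a -/
theorem weak_of_draw {L : List Room} {p : Label → ℝ × ℝ} (h : LDraw ProperlyCross L p) :
    ∀ r ∈ L, r.Weak (val p) := by
  intro r hr
  cases r with
  | pin c j s =>
    refine G1.wk_of_edge h (o := (30 * c + 15, 480 * j + Room.off s, 480 * j + Room.off s + 120))
      (by omega) (G1.mem_allEdges hr (by simp [Room.edges]))
      (G1.mem_allObst hr (by simp [Room.obst])) ?_ ?_ ?_
    · simp only; ring
    · simp only; ring
    · simp only; ring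
  | lpin c j s =>
    refine G1.wk_of_edge h (o := (30 * c + 30, 480 * j + Room.off s, 480 * j + Room.off s + 120))
      (by omega) (G1.mem_allEdges hr (by simp [Room.edges]))
      (G1.mem_allObst hr (by simp [Room.obst])) ?_ ?_ ?_
    · simp only; ring
    · simp only; ring
    · simp only; ring
  | fork c j s t =>
    constructor
    · refine G1.wk_of_edge h (o := (30 * c + 15, 480 * j + Room.off s, 480 * j + Room.off s + 120))
        (by omega) (G1.mem_allEdges hr (by simp [Room.edges]))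
        (G1.mem_allObst hr (by simp [Room.obst])) ?_ ?_ ?_
      · simp only; ring
      · simp only; ring
      · simp only; ring
    · refine G1.wk_of_edge h
        (o := (30 * c + 15, 480 * j + 240 + Room.off t, 480 * j + 240 + Room.off t + 120))
        (by omega) (G1.mem_allEdges hr (by simp [Room.edges]))
        (G1.mem_allObst hr (by simp [Room.obst])) ?_ ?_ ?_
      · simp only; ring
      · simp only; ring
      · simp only; ring
  | tee c j P => exact G1.tee_weak h hr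
  | mul c j => exact G1.mul_weak h hr

/-- G1b -/
theorem val_bound {C : ℝ × ℝ → ℝ × ℝ → ℝ × ℝ → ℝ × ℝ → Prop} {L : List Room} {p : Label → ℝ × ℝ}
    (h : LDraw C L p) (c j : ℕ) (hu : Used L (c, j, 0)) : |val p c j| < 1 / 2 := by
  obtain ⟨Y, hY, h1, h2⟩ := G1.pos0 h hu
  unfold val
  rw [hY, abs_lt]
  constructor
  · simp only; linarith
  · simp only; linarith

end Pool.Agent.SegDraw
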