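import Pool.Agent.Lib.MP_431574_lc.Code

/-!
# Geometry, completeness: values satisfying the strong conditions give a drawing
-/

namespace Pool.Agent.SegDraw

namespace G2

theorem mem_seg {P Q x : ℝ × ℝ} (h : x ∈ segment ℝ P Q) : ∃ t : ℝ, 0 ≤ t ∧ t ≤ 1 ∧
    x.1 = P.1 + t * (Q.1 - P.1) ∧ x.2 = P.2 + t * (Q.2 - P.2) := by
  obtain ⟨a, b, ha, hb, hab, rfl⟩ := h
  refine ⟨b, hb, by linarith, ?_, ?_⟩
  · have : a = 1 - b := by linarith
    subst this
    simp only [Prod.fst_add, Prod.smul_fst, smul_eq_mul]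
    ring
  · have : a = 1 - b := by linarith
    subst this
    simp only [Prod.snd_add, Prod.smul_snd, smul_eq_mul]
    ring

theorem mem_vert {X a b y : ℝ} (h1 : a < y) (h2 : y < b) :
    ((X, y) : ℝ × ℝ) ∈ openSegment ℝ (X, a) (X, b) := by
  have h : 0 < b - a := by linarith
  refine ⟨(b - y) / (b - a), (y - a) / (b - a), by apply div_pos <;> linarith,
    by apply div_pos <;> linarith, by field_simp; ring, ?_⟩
  ext
  · simp only [Prod.fst_add, Prod.smul_fst, smul_eq_mul]
    field_simp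
    ring
  · simp only [Prod.snd_add, Prod.smul_snd, smul_eq_mul]
    field_simp
    ring

theorem mem_horiz {Y a b x : ℝ} (h1 : a < x) (h2 : x < b) :
    ((x, Y) : ℝ × ℝ) ∈ openSegment ℝ (a, Y) (b, Y) := by
  have h : 0 < b - a := by linarith
  refine ⟨(b - x) / (b - a), (x - a) / (b - a), by apply div_pos <;> linarith,
    by apply div_pos <;> linarith, by field_simp; ring, ?_⟩
  ext
  · simp only [Prod.fst_add, Prod.smul_fst, smul_eq_mul]
    field_simp
    ring
  · simp only [Prod.snd_add, Prod.smul_snd, smul_eq_mul]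
    field_simp
    ring

theorem cc_pos {A B t : ℝ} (hA : 0 < A) (hB : 0 < B) (h0 : 0 ≤ t) (h1 : t ≤ 1) :
    0 < A + t * (B - A) := by
  rcases eq_or_lt_of_le h0 with h | h
  · rw [← h]; simpa using hA
  · have := mul_pos h hB
    have := mul_nonneg (sub_nonneg.2 h1) hA.le
    nlinarith

/-- the point of a door with value `y` -/
noncomputable def dpt (c j : ℕ) (y : ℝ) : ℝ × ℝ := (30 * c, 480 * j + 120 + 240 * y)

theorem dpt_mem {c j : ℕ} {y : ℝ} (h : |y| < 1 / 2) :
    dpt c j y ∈ openSegment ℝ (npt (segA (c, j, 0))) (npt (segB (c, j, 0))) := by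
  rw [abs_lt] at h
  have e1 : npt (segA (c, j, 0)) = ((30 * c : ℝ), (480 * j : ℝ)) := by
    simp [npt, segA]
  have e2 : npt (segB (c, j, 0)) = ((30 * c : ℝ), (480 * j + 240 : ℝ)) := by
    simp [npt, segB]
  rw [e1, e2]
  exact mem_vert (by linarith [h.1]) (by linarith [h.2])

/-- The local conditions of a room. -/
structure Loc (obs : Bool) (r : Room) (p : Label → ℝ × ℝ) : Prop where
  place : ∀ e ∈ r.edges, p e.1 ∈ openSegment ℝ (npt (segA e.1)) (npt (segB e.1)) ∧
    p e.2 ∈ openSegment ℝ (npt (segA e.2)) (npt (segB e.2))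
  inj : ∀ e ∈ r.edges, ∀ e' ∈ r.edges, (p e.1 = p e'.1 → e.1 = e'.1) ∧
    (p e.1 = p e'.2 → e.1 = e'.2) ∧ (p e.2 = p e'.2 → e.2 = e'.2)
  edge : ∀ e ∈ r.edges, ∀ e' ∈ r.edges, e ≠ e' →
    ∀ x ∈ segment ℝ (p e.1) (p e.2), x ∈ segment ℝ (p e'.1) (p e'.2) →
      ∃ w, (w = e.1 ∨ w = e.2) ∧ (w = e'.1 ∨ w = e'.2) ∧ x = p w
  obst : obs = true → ∀ e ∈ r.edges, ∀ o ∈ r.obst,
    ¬ Meet (p e.1) (p e.2) (npt (o.1, o.2.1)) (npt (o.1, o.2.2))
  box : ∀ e ∈ r.edges, (∃ i, e.1 = (r.col, r.lane + i, 0)) ∧ (p e.1).1 = 30 * r.col ∧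
    (p e.1).1 < (p e.2).1 ∧ (p e.2).1 ≤ 30 * (r.col + r.width) ∧
    ((p e.2).1 = 30 * (r.col + r.width) → ∃ i, e.2 = (r.col + r.width, r.lane + i, 0)) ∧
    480 * r.lane < (p e.1).2 ∧ (p e.1).2 < 480 * (r.lane + r.lanes) - 240 ∧
    480 * r.lane < (p e.2).2 ∧ (p e.2).2 < 480 * (r.lane + r.lanes) - 240
  obox : obs = true → ∀ o ∈ r.obst, 30 * r.col < o.1 ∧ o.1 < 30 * (r.col + r.width) ∧
    480 * r.lane ≤ o.2.1 ∧ o.2.1 ≤ o.2.2 ∧ o.2.2 + 240 ≤ 480 * (r.lane + r.lanes)

theorem door_inj {c j c' j' : ℕ} {y y' : ℝ} (h : |y| < 1 / 2) (h' : |y'| < 1 / 2)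
    (e : dpt c j y = dpt c' j' y') : c = c' ∧ j = j' := by
  rw [abs_lt] at h h'
  have e1 : (30 * c : ℝ) = 30 * c' := congrArg Prod.fst e
  have e2 : (480 * j + 120 + 240 * y : ℝ) = 480 * j' + 120 + 240 * y' := congrArg Prod.snd e
  constructor
  · have : (c : ℝ) = c' := by linarith
    exact_mod_cast this
  · by_contra hne
    rcases Nat.lt_or_gt_of_ne hne with hlt | hlt
    · have : (j : ℝ) + 1 ≤ j' := by exact_mod_cast hlt
      linarith [h.1, h.2, h'.1, h'.2]
    · have : (j' : ℝ) + 1 ≤ j := by exact_mod_cast hlt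
      linarith [h.1, h.2, h'.1, h'.2]

section glue

variable {L : List Room} {v : ℕ → ℕ → ℝ} {obs : Bool} {p : Label → ℝ × ℝ}

theorem seg_box {r : Room} (hl : Loc obs r p) {e : Label × Label} (he : e ∈ r.edges)
    {x : ℝ × ℝ} (hx : x ∈ segment ℝ (p e.1) (p e.2)) :
    30 * (r.col : ℝ) ≤ x.1 ∧ x.1 ≤ 30 * (r.col + r.width) ∧ 480 * (r.lane : ℝ) < x.2 ∧
      x.2 < 480 * (r.lane + r.lanes) - 240 ∧ (x.1 ≤ 30 * (r.col : ℝ) → x = p e.1) ∧
      (30 * ((r.col : ℝ) + r.width) ≤ x.1 → x = p e.2 ∧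
        ∃ i, e.2 = (r.col + r.width, r.lane + i, 0)) := by
  obtain ⟨t, t0, t1, ht1, ht2⟩ := mem_seg hx
  obtain ⟨_, b2, b3, b4, b5, b6, b7, b8, b9⟩ := hl.box e he
  have hd : 0 < (p e.2).1 - (p e.1).1 := by linarith
  refine ⟨?_, ?_, ?_, ?_, ?_, ?_⟩
  · rw [ht1, ← b2]; nlinarith
  · rw [ht1]; nlinarith
  · rw [ht2]
    have := cc_pos (sub_pos.2 b6) (sub_pos.2 b8) t0 t1
    linarith
  · rw [ht2]
    have := cc_pos (sub_pos.2 b7) (sub_pos.2 b9) t0 t1
    linarith
  · intro h
    have : t = 0 := by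
      by_contra hne
      have : 0 < t := lt_of_le_of_ne t0 (Ne.symm hne)
      have := mul_pos this hd
      linarith
    subst this
    ext
    · rw [ht1]; ring
    · rw [ht2]; ring
  · intro h
    have ht : t = 1 := by
      by_contra hne
      have : 0 < 1 - t := by
        have := lt_of_le_of_ne t1 hne
        linarith
      have := mul_pos this hd
      nlinarith
    subst ht
    refine ⟨?_, b5 (by linarith)⟩
    ext
    · rw [ht1]; ring
    · rw [ht2]; ring

theorem glue (hS : ∀ r ∈ L, ∀ r' ∈ L, r ≠ r' → Sep r r') (hv : ∀ c j, |v c j| < 1 / 2)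
    (hd : ∀ c j, p (c, j, 0) = dpt c j (v c j)) (hL : ∀ r ∈ L, Loc obs r p)
    (C : ℝ × ℝ → ℝ × ℝ → ℝ × ℝ → ℝ × ℝ → Prop)
    (hC : (obs = true ∧ ∀ u v a b, C u v a b → Meet u v a b) ∨ ∀ u v a b, ¬ C u v a b) :
    LDraw C L p := by
  have mem_edges : ∀ e ∈ allEdges L, ∃ r ∈ L, e ∈ r.edges := by
    intro e he
    simpa [allEdges] using he
  have mem_obst : ∀ o ∈ allObst L, ∃ r ∈ L, o ∈ r.obst := by
    intro o ho
    simpa [allObst] using ho
  -- edges
  have hedge : ∀ e ∈ allEdges L, ∀ e' ∈ allEdges L, e ≠ e' →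
      ∀ x ∈ segment ℝ (p e.1) (p e.2), x ∈ segment ℝ (p e'.1) (p e'.2) →
      ∃ w, (w = e.1 ∨ w = e.2) ∧ (w = e'.1 ∨ w = e'.2) ∧ x = p w := by
    intro e he e' he' hne x hx hx'
    obtain ⟨r, hr, her⟩ := mem_edges e he
    obtain ⟨r', hr', her'⟩ := mem_edges e' he'
    by_cases hrr : r = r'
    · subst hrr
      exact (hL r hr).edge e her e' her' hne x hx hx'
    · obtain ⟨a1, a2, a3, a4, a5, a6⟩ := seg_box (hL r hr) her hx
      obtain ⟨c1, c2, c3, c4, c5, c6⟩ := seg_box (hL r' hr') her' hx'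
      rcases hS r hr r' hr' hrr with h | h | h | h
      · have h' : (r.col : ℝ) + r.width ≤ r'.col := by exact_mod_cast h
        obtain ⟨d1, i, d2⟩ := a6 (by linarith)
        have d3 := c5 (by linarith)
        obtain ⟨⟨i', d4⟩, _⟩ := (hL r' hr').box e' her'
        have d5 : p e.2 = p e'.1 := d1.symm.trans d3
        rw [d2, d4, hd, hd] at d5
        obtain ⟨d6, d7⟩ := door_inj (hv _ _) (hv _ _) d5
        refine ⟨e.2, Or.inr rfl, Or.inl ?_, d1⟩
        rw [d2, d4, d6, d7]
      · have h' : (r'.col : ℝ) + r'.width ≤ r.col := by exact_mod_cast h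
        obtain ⟨d1, i, d2⟩ := c6 (by linarith)
        have d3 := a5 (by linarith)
        obtain ⟨⟨i', d4⟩, _⟩ := (hL r hr).box e her
        have d5 : p e'.2 = p e.1 := d1.symm.trans d3
        rw [d2, d4, hd, hd] at d5
        obtain ⟨d6, d7⟩ := door_inj (hv _ _) (hv _ _) d5
        refine ⟨e'.2, Or.inl ?_, Or.inr rfl, d1⟩
        rw [d2, d4, d6, d7]
      · exfalso
        have h' : (r.lane : ℝ) + r.lanes ≤ r'.lane := by exact_mod_cast h
        linarith
      · exfalso
        have h' : (r'.lane : ℝ) + r'.lanes ≤ r.lane := by exact_mod_cast h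
        linarith
  have hused : ∀ u, Used L u → ∃ r ∈ L, ∃ e ∈ r.edges, e ∈ allEdges L ∧ (u = e.1 ∨ u = e.2) := by
    rintro u ⟨e, he, hu⟩
    obtain ⟨r, hr, her⟩ := mem_edges e he
    exact ⟨r, hr, e, her, he, hu⟩
  have hend : ∀ (e : Label × Label) (u : Label), (u = e.1 ∨ u = e.2) →
      p u ∈ segment ℝ (p e.1) (p e.2) := by
    rintro e u (rfl | rfl)
    · exact left_mem_segment _ _ _
    · exact right_mem_segment _ _ _
  -- injectivity inside a room
  have hloc : ∀ r ∈ L, ∀ e ∈ r.edges, ∀ e' ∈ r.edges, ∀ u u', (u = e.1 ∨ u = e.2) →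
      (u' = e'.1 ∨ u' = e'.2) → p u = p u' → u = u' := by
    intro r hr e he e' he' u u' hu hu' h
    obtain ⟨i1, i2, i3⟩ := (hL r hr).inj e he e' he'
    obtain ⟨j1, j2, j3⟩ := (hL r hr).inj e' he' e he
    rcases hu with rfl | rfl <;> rcases hu' with rfl | rfl
    · exact i1 h
    · exact i2 h
    · exact (j2 h.symm).symm
    · exact i3 h
  have hinj : ∀ u u', Used L u → Used L u' → p u = p u' → u = u' := by
    intro u u' hu hu' h
    obtain ⟨r, hr, e, her, he, hue⟩ := hused u hu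
    obtain ⟨r', hr', e', her', he', hue'⟩ := hused u' hu'
    by_cases hee : e = e'
    · subst hee
      exact hloc r hr e her e her u u' hue hue' h
    · have hx := hend e u hue
      have hx' := hend e' u' hue'
      rw [← h] at hx'
      obtain ⟨w, hw1, hw2, hw3⟩ := hedge e he e' he' hee _ hx hx'
      have q1 := hloc r hr e her e her u w hue hw1 hw3
      have q2 := hloc r' hr' e' her' e' her' u' w hue' hw2 (h ▸ hw3)
      rw [q1, q2]
  refine ⟨?_, hinj, ?_, hedge, ?_⟩
  · intro u hu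
    obtain ⟨r, hr, e, her, he, hue⟩ := hused u hu
    have := (hL r hr).place e her
    rcases hue with rfl | rfl
    · exact this.1
    · exact this.2
  · intro e he w hw h1 h2 hmem
    obtain ⟨r', hr', e', her', he', hwe⟩ := hused w hw
    have hne : e ≠ e' := by
      rintro rfl
      rcases hwe with rfl | rfl
      · exact h1 rfl
      · exact h2 rfl
    obtain ⟨z, hz1, hz2, hz3⟩ := hedge e he e' he' hne _ hmem (hend e' w hwe)
    have hzu : Used L z := ⟨e, he, hz1⟩
    have := hinj w z hw hzu hz3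
    subst this
    rcases hz1 with rfl | rfl
    · exact h1 rfl
    · exact h2 rfl
  · intro e he o ho hc
    rcases hC with ⟨hobs, hC⟩ | hC
    swap
    · exact hC _ _ _ _ hc
    have hm := hC _ _ _ _ hc
    obtain ⟨r, hr, her⟩ := mem_edges e he
    obtain ⟨r', hr', hor⟩ := mem_obst o ho
    by_cases hrr : r = r'
    · subst hrr
      exact (hL r hr).obst hobs e her o hor hm
    · obtain ⟨x, hx, hx'⟩ := hm
      obtain ⟨a1, a2, a3, a4, a5, a6⟩ := seg_box (hL r hr) her hx
      obtain ⟨o1, o2, o3, o4, o5⟩ := (hL r' hr').obox hobs o hor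
      obtain ⟨t, t0, t1, ht1, ht2⟩ := mem_seg hx'
      simp only [npt] at ht1 ht2
      have o1' : 30 * (r'.col : ℝ) < o.1 := by exact_mod_cast o1
      have o2' : (o.1 : ℝ) < 30 * (r'.col + r'.width) := by exact_mod_cast o2
      have o3' : 480 * (r'.lane : ℝ) ≤ o.2.1 := by exact_mod_cast o3
      have o4' : (o.2.1 : ℝ) ≤ o.2.2 := by exact_mod_cast o4
      have o5' : (o.2.2 : ℝ) + 240 ≤ 480 * (r'.lane + r'.lanes) := by exact_mod_cast o5
      have hx1 : x.1 = o.1 := by rw [ht1]; ring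
      have hx2 : (o.2.1 : ℝ) ≤ x.2 := by rw [ht2]; nlinarith
      have hx3 : x.2 ≤ (o.2.2 : ℝ) := by rw [ht2]; nlinarith
      rcases hS r hr r' hr' hrr with h | h | h | h
      · have h' : (r.col : ℝ) + r.width ≤ r'.col := by exact_mod_cast h
        linarith
      · have h' : (r'.col : ℝ) + r'.width ≤ r.col := by exact_mod_cast h
        linarith
      · have h' : (r.lane : ℝ) + r.lanes ≤ r'.lane := by exact_mod_cast h
        linarith
      · have h' : (r'.lane : ℝ) + r'.lanes ≤ r.lane := by exact_mod_cast h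
        linarith

end glue

/-! ### Local lemmas -/

theorem off_false : Room.off false = 0 := rfl
theorem off_true : Room.off true = 120 := rfl

theorem no_meet_pin {c w j j' X a b : ℕ} {y y' : ℝ} {s : Bool} (hw : 0 < w)
    (hX : 2 * X = 60 * c + 30 * w) (ha : a = 240 * (j + j') + Room.off s) (hb : b = a + 120)
    (h : Room.St s (y + y')) :
    ¬ Meet (dpt c j y) (dpt (c + w) j' y') (npt (X, a)) (npt (X, b)) := by
  rintro ⟨x, hx, hx'⟩
  obtain ⟨t, t0, t1, ht1, ht2⟩ := mem_seg hx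
  obtain ⟨t', t0', t1', ht1', ht2'⟩ := mem_seg hx'
  simp only [npt, dpt] at ht1 ht2 ht1' ht2'
  have hX' : 2 * (X : ℝ) = 60 * c + 30 * w := by exact_mod_cast hX
  have ha' : (a : ℝ) = 240 * (j + j') + Room.off s := by exact_mod_cast ha
  have hb' : (b : ℝ) = a + 120 := by exact_mod_cast hb
  have hw' : (0 : ℝ) < w := by exact_mod_cast hw
  push_cast at ht1
  have ht : t = 1 / 2 := by
    have h1 : x.1 = X := by rw [ht1']; ring
    have h2 : t * (30 * w) = 15 * w := by
      rw [h1] at ht1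
      linear_combination (-1) * ht1 + (1 / 2) * hX'
    have h3 : (t - 1 / 2) * (30 * (w : ℝ)) = 0 := by linear_combination h2
    rcases mul_eq_zero.1 h3 with h4 | h4
    · linarith
    · exfalso; linarith
  subst ht
  cases s
  · simp only [Room.St, Bool.false_eq_true, if_false] at h
    rw [off_false] at ha'
    push_cast at ha'
    have : x.2 ≤ a + 120 := by rw [ht2', hb']; nlinarith
    rw [ht2] at this
    linarith
  · simp only [Room.St, if_true] at h
    rw [off_true] at ha'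
    push_cast at ha'
    have : (a : ℝ) ≤ x.2 := by rw [ht2', hb']; nlinarith
    rw [ht2] at this
    linarith

section loc

variable {v : ℕ → ℕ → ℝ} {obs : Bool} {p : Label → ℝ × ℝ}

theorem loc_pin (hv : ∀ c j, |v c j| < 1 / 2) (hd : ∀ c j, p (c, j, 0) = dpt c j (v c j))
    (c j : ℕ) (s : Bool) (h : obs = true → (Room.pin c j s).Strong v) :
    Loc obs (Room.pin c j s) p := by
  have h1 := abs_lt.1 (hv c j)
  have h2 := abs_lt.1 (hv (c + 1) j)
  refine ⟨?_, ?_, ?_, ?_, ?_, ?_⟩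
  · simp only [Room.edges, List.mem_cons, List.not_mem_nil, or_false]
    rintro e rfl
    rw [hd, hd]
    exact ⟨dpt_mem (hv _ _), dpt_mem (hv _ _)⟩
  · simp only [Room.edges, List.mem_cons, List.not_mem_nil, or_false]
    rintro e rfl e' rfl
    refine ⟨fun _ => rfl, fun h => ?_, fun _ => rfl⟩
    rw [hd, hd] at h
    have := (door_inj (hv _ _) (hv _ _) h).1
    omega
  · simp only [Room.edges, List.mem_cons, List.not_mem_nil, or_false]
    rintro e rfl e' rfl hne
    exact absurd rfl hne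
  · intro hobs
    simp only [Room.edges, Room.obst, List.mem_cons, List.not_mem_nil, or_false]
    rintro e rfl o rfl
    simp only [hd]
    exact no_meet_pin (j := j) (j' := j) one_pos (by ring) (by ring) rfl (h hobs)
  · simp only [Room.edges, List.mem_cons, List.not_mem_nil, or_false]
    rintro e rfl
    simp only [hd, dpt, Room.col, Room.lane, Room.width, Room.lanes]
    push_cast
    exact ⟨⟨0, rfl⟩, trivial, by linarith, le_rfl, fun _ => ⟨0, rfl⟩, by linarith [h1.1],
      by linarith [h1.2], by linarith [h2.1], by linarith [h2.2]⟩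
  · intro hobs
    simp only [Room.obst, List.mem_cons, List.not_mem_nil, or_false]
    rintro o rfl
    simp only [Room.col, Room.lane, Room.width, Room.lanes]
    cases s
    · rw [off_false]; omega
    · rw [off_true]; omega

theorem loc_lpin (hv : ∀ c j, |v c j| < 1 / 2) (hd : ∀ c j, p (c, j, 0) = dpt c j (v c j))
    (c j : ℕ) (s : Bool) (h : obs = true → (Room.lpin c j s).Strong v) :
    Loc obs (Room.lpin c j s) p := by
  have h1 := abs_lt.1 (hv c j)
  have h2 := abs_lt.1 (hv (c + 2) j)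
  refine ⟨?_, ?_, ?_, ?_, ?_, ?_⟩
  · simp only [Room.edges, List.mem_cons, List.not_mem_nil, or_false]
    rintro e rfl
    rw [hd, hd]
    exact ⟨dpt_mem (hv _ _), dpt_mem (hv _ _)⟩
  · simp only [Room.edges, List.mem_cons, List.not_mem_nil, or_false]
    rintro e rfl e' rfl
    refine ⟨fun _ => rfl, fun h => ?_, fun _ => rfl⟩
    rw [hd, hd] at h
    have := (door_inj (hv _ _) (hv _ _) h).1
    omega
  · simp only [Room.edges, List.mem_cons, List.not_mem_nil, or_false]
    rintro e rfl e' rfl hne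
    exact absurd rfl hne
  · intro hobs
    simp only [Room.edges, Room.obst, List.mem_cons, List.not_mem_nil, or_false]
    rintro e rfl o rfl
    simp only [hd]
    exact no_meet_pin (j := j) (j' := j) two_pos (by ring) (by ring) rfl (h hobs)
  · simp only [Room.edges, List.mem_cons, List.not_mem_nil, or_false]
    rintro e rfl
    simp only [hd, dpt, Room.col, Room.lane, Room.width, Room.lanes]
    push_cast
    exact ⟨⟨0, rfl⟩, trivial, by linarith, le_rfl, fun _ => ⟨0, rfl⟩, by linarith [h1.1],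
      by linarith [h1.2], by linarith [h2.1], by linarith [h2.2]⟩
  · intro hobs
    simp only [Room.obst, List.mem_cons, List.not_mem_nil, or_false]
    rintro o rfl
    simp only [Room.col, Room.lane, Room.width, Room.lanes]
    cases s
    · rw [off_false]; omega
    · rw [off_true]; omega

theorem loc_fork (hv : ∀ c j, |v c j| < 1 / 2) (hd : ∀ c j, p (c, j, 0) = dpt c j (v c j))
    (c j : ℕ) (s t : Bool) (h : obs = true → (Room.fork c j s t).Strong v) :
    Loc obs (Room.fork c j s t) p := by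
  have h1 := abs_lt.1 (hv c j)
  have h2 := abs_lt.1 (hv (c + 1) j)
  have h3 := abs_lt.1 (hv (c + 1) (j + 1))
  refine ⟨?_, ?_, ?_, ?_, ?_, ?_⟩
  · simp only [Room.edges, List.mem_cons, List.not_mem_nil, or_false]
    rintro e (rfl | rfl)
    · simp only [hd]
      exact ⟨dpt_mem (hv _ _), dpt_mem (hv _ _)⟩
    · simp only [hd]
      exact ⟨dpt_mem (hv _ _), dpt_mem (hv _ _)⟩
  · simp only [Room.edges, List.mem_cons, List.not_mem_nil, or_false]
    have key : ∀ c j c' j' : ℕ, p (c, j, 0) = p (c', j', 0) →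
        ((c, j, 0) : Label) = (c', j', 0) := by
      intro c j c' j' h
      rw [hd, hd] at h
      obtain ⟨e1, e2⟩ := door_inj (hv _ _) (hv _ _) h
      rw [e1, e2]
    rintro e (rfl | rfl) e' (rfl | rfl) <;>
      exact ⟨key _ _ _ _, key _ _ _ _, key _ _ _ _⟩
  · simp only [Room.edges, List.mem_cons, List.not_mem_nil, or_false]
    have key : ∀ x ∈ segment ℝ (p (c, j, 0)) (p (c + 1, j, 0)),
        x ∈ segment ℝ (p (c, j, 0)) (p (c + 1, j + 1, 0)) → x = p (c, j, 0) := by
      intro x hx hx'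
      obtain ⟨t, t0, t1, ht1, ht2⟩ := mem_seg hx
      obtain ⟨t', t0', t1', ht1', ht2'⟩ := mem_seg hx'
      simp only [hd, dpt] at ht1 ht2 ht1' ht2' ⊢
      push_cast at ht1 ht2 ht1' ht2'
      have e1 : t = t' := by linarith
      subst e1
      have e2 : t * (480 + 240 * v (c + 1) (j + 1) - 240 * v (c + 1) j) = 0 := by linarith
      have e3 : t = 0 := by
        rcases mul_eq_zero.1 e2 with h | h
        · exact h
        · exfalso; linarith [h2.1, h2.2, h3.1, h3.2]
      subst e3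
      ext
      · simpa using ht1
      · simpa using ht2
    rintro e (rfl | rfl) e' (rfl | rfl) hne x hx hx'
    · exact absurd rfl hne
    · exact ⟨_, Or.inl rfl, Or.inl rfl, key x hx hx'⟩
    · exact ⟨_, Or.inl rfl, Or.inl rfl, key x hx' hx⟩
    · exact absurd rfl hne
  · intro hobs
    obtain ⟨hs, ht⟩ := h hobs
    have upper : ∀ x ∈ segment ℝ (p (c, j, 0)) (p (c + 1, j + 1, 0)), x.1 = 30 * c + 15 →
        480 * (j : ℝ) + 240 < x.2 ∧ x.2 < 480 * j + 480 := by
      intro x hx hx1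
      obtain ⟨t, t0, t1, ht1, ht2⟩ := mem_seg hx
      simp only [hd, dpt] at ht1 ht2
      push_cast at ht1 ht2
      have e1 : t = 1 / 2 := by linarith
      subst e1
      rw [ht2]
      constructor <;> linarith [h1.1, h1.2, h3.1, h3.2]
    have lower : ∀ x ∈ segment ℝ (p (c, j, 0)) (p (c + 1, j, 0)), x.1 = 30 * c + 15 →
        480 * (j : ℝ) < x.2 ∧ x.2 < 480 * j + 240 := by
      intro x hx hx1
      obtain ⟨t, t0, t1, ht1, ht2⟩ := mem_seg hx
      simp only [hd, dpt] at ht1 ht2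
      push_cast at ht1 ht2
      have e1 : t = 1 / 2 := by linarith
      subst e1
      rw [ht2]
      constructor <;> linarith [h1.1, h1.2, h2.1, h2.2]
    simp only [Room.edges, Room.obst, List.mem_cons, List.not_mem_nil, or_false]
    rintro e (rfl | rfl) o (rfl | rfl)
    · simp only [hd]
      exact no_meet_pin (j := j) (j' := j) one_pos (by ring) (by ring) rfl hs
    · rintro ⟨x, hx, hx'⟩
      obtain ⟨t', t0', t1', ht1', ht2'⟩ := mem_seg hx'
      simp only [npt] at ht1' ht2'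
      push_cast at ht1' ht2'
      have := lower x hx (by rw [ht1']; ring)
      have h4 : (0 : ℝ) ≤ Room.off t := Nat.cast_nonneg _
      have h5 : 480 * (j : ℝ) + 240 ≤ x.2 := by rw [ht2']; nlinarith
      linarith [this.2]
    · rintro ⟨x, hx, hx'⟩
      obtain ⟨t', t0', t1', ht1', ht2'⟩ := mem_seg hx'
      simp only [npt] at ht1' ht2'
      push_cast at ht1' ht2'
      have := upper x hx (by rw [ht1']; ring)
      have h4 : (Room.off s : ℝ) ≤ 120 := by
        cases s
        · rw [off_false]; norm_num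
        · rw [off_true]; norm_num
      have h5 : x.2 ≤ 480 * (j : ℝ) + 240 := by rw [ht2']; nlinarith
      linarith [this.1]
    · simp only [hd]
      exact no_meet_pin (j := j) (j' := j + 1) one_pos (by ring) (by ring) rfl ht
  · simp only [Room.edges, List.mem_cons, List.not_mem_nil, or_false]
    rintro e (rfl | rfl)
    · simp only [hd, dpt, Room.col, Room.lane, Room.width, Room.lanes]
      push_cast
      exact ⟨⟨0, rfl⟩, trivial, by linarith, le_rfl, fun _ => ⟨0, rfl⟩, by linarith [h1.1],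
        by linarith [h1.2], by linarith [h2.1], by linarith [h2.2]⟩
    · simp only [hd, dpt, Room.col, Room.lane, Room.width, Room.lanes]
      push_cast
      exact ⟨⟨0, rfl⟩, trivial, by linarith, le_rfl, fun _ => ⟨1, rfl⟩, by linarith [h1.1],
        by linarith [h1.2], by linarith [h3.1], by linarith [h3.2]⟩
  · intro hobs
    simp only [Room.obst, List.mem_cons, List.not_mem_nil, or_false]
    rintro o (rfl | rfl) <;> simp only [Room.col, Room.lane, Room.width, Room.lanes]
    · cases s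
      · rw [off_false]; omega
      · rw [off_true]; omega
    · cases t
      · rw [off_false]; omega
      · rw [off_true]; omega

theorem loc_tee (hv : ∀ c j, |v c j| < 1 / 2) (hd : ∀ c j, p (c, j, 0) = dpt c j (v c j))
    (c j P : ℕ) {σ : ℝ} (s0 : 0 < σ) (s1 : σ < 1) (s2 : 2 * σ < v c (j + 1) + v (c + 2) j + 1)
    (hp : p (c, j, 1) = ((30 * (c : ℝ) + 30, 480 * (j : ℝ) + 240 + 240 * σ) : ℝ × ℝ))
    (h : obs = true → P ≤ 720 ∧ (P : ℝ) / 80 - 5 / 2 < v c j + 2 * σ ∧
      (P : ℝ) / 80 - 11 / 2 < 2 * v c (j + 1) + v (c + 2) j) :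
    Loc obs (Room.tee c j P) p := by
  have h1 := abs_lt.1 (hv c j)
  have h2 := abs_lt.1 (hv c (j + 1))
  have h3 := abs_lt.1 (hv (c + 2) j)
  have hin : p (c, j, 1) ∈ openSegment ℝ (npt (segA (c, j, 1))) (npt (segB (c, j, 1))) := by
    have e1 : npt (segA (c, j, 1)) = ((30 * c + 30 : ℝ), (480 * j + 240 : ℝ)) := by
      simp [npt, segA]
    have e2 : npt (segB (c, j, 1)) = ((30 * c + 30 : ℝ), (480 * j + 480 : ℝ)) := by
      simp [npt, segB]
    rw [e1, e2, hp]
    exact mem_vert (by linarith) (by linarith)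
  have hdis : ∀ x ∈ segment ℝ (p (c, j, 0)) (p (c, j, 1)),
      x ∈ segment ℝ (p (c, j + 1, 0)) (p (c + 2, j, 0)) → False := by
    intro x hx hx'
    obtain ⟨t, t0, t1, ht1, ht2⟩ := mem_seg hx
    obtain ⟨t', t0', t1', ht1', ht2'⟩ := mem_seg hx'
    simp only [hd, hp, dpt] at ht1 ht2 ht1' ht2'
    push_cast at ht1 ht2 ht1' ht2'
    have e1 : t' = t / 2 := by linarith
    subst e1
    have := cc_pos (A := 480 + 240 * v c (j + 1) - 240 * v c j)
      (B := 120 * (v c (j + 1) + v (c + 2) j + 1 - 2 * σ)) (by linarith) (by linarith) t0 t1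
    linarith
  refine ⟨?_, ?_, ?_, ?_, ?_, ?_⟩
  · simp only [Room.edges, List.mem_cons, List.not_mem_nil, or_false]
    rintro e (rfl | rfl)
    · refine ⟨?_, hin⟩
      simp only [hd]
      exact dpt_mem (hv _ _)
    · simp only [hd]
      exact ⟨dpt_mem (hv _ _), dpt_mem (hv _ _)⟩
  · simp only [Room.edges, List.mem_cons, List.not_mem_nil, or_false]
    have key : ∀ c j c' j' : ℕ, p (c, j, 0) = p (c', j', 0) →
        ((c, j, 0) : Label) = (c', j', 0) := by
      intro c j c' j' h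
      rw [hd, hd] at h
      obtain ⟨e1, e2⟩ := door_inj (hv _ _) (hv _ _) h
      rw [e1, e2]
    have key2 : ∀ j', p (c, j', 0) ≠ p (c, j, 1) := by
      intro j' h
      have := congrArg Prod.fst h
      simp [hd, hp, dpt] at this
    have key3 : ∀ j', p (c + 2, j', 0) ≠ p (c, j, 1) := by
      intro j' h
      have := congrArg Prod.fst h
      simp only [hd, hp, dpt] at this
      push_cast at this
      linarith
    rintro e (rfl | rfl) e' (rfl | rfl)
    · exact ⟨fun _ => rfl, fun h => absurd h (key2 _), fun _ => rfl⟩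
    · exact ⟨key _ _ _ _, key _ _ _ _, fun h => absurd h.symm (key3 _)⟩
    · exact ⟨key _ _ _ _, fun h => absurd h (key2 _), fun h => absurd h (key3 _)⟩
    · exact ⟨fun _ => rfl, key _ _ _ _, fun _ => rfl⟩
  · simp only [Room.edges, List.mem_cons, List.not_mem_nil, or_false]
    rintro e (rfl | rfl) e' (rfl | rfl) hne x hx hx'
    · exact absurd rfl hne
    · exact (hdis x hx hx').elim
    · exact (hdis x hx' hx).elim
    · exact absurd rfl hne
  · intro hobs
    obtain ⟨g1, g2, g3⟩ := h hobs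
    have g1' : (P : ℝ) ≤ 720 := by exact_mod_cast g1
    have g0' : (0 : ℝ) ≤ P := Nat.cast_nonneg _
    simp only [Room.edges, Room.obst, List.mem_cons, List.not_mem_nil, or_false]
    rintro e (rfl | rfl) o rfl ⟨x, hx, hx'⟩
    · obtain ⟨t, t0, t1, ht1, ht2⟩ := mem_seg hx
      obtain ⟨t', t0', t1', ht1', ht2'⟩ := mem_seg hx'
      simp only [hd, hp, dpt, npt] at ht1 ht2 ht1' ht2'
      push_cast at ht1 ht2 ht1' ht2'
      have e1 : t = 2 / 3 := by linarith
      subst e1
      have : x.2 ≤ 480 * j + P := by rw [ht2']; nlinarith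
      linarith
    · obtain ⟨t, t0, t1, ht1, ht2⟩ := mem_seg hx
      obtain ⟨t', t0', t1', ht1', ht2'⟩ := mem_seg hx'
      simp only [hd, dpt, npt] at ht1 ht2 ht1' ht2'
      push_cast at ht1 ht2 ht1' ht2'
      have e1 : t = 1 / 3 := by linarith
      subst e1
      have : x.2 ≤ 480 * j + P := by rw [ht2']; nlinarith
      linarith
  · simp only [Room.edges, List.mem_cons, List.not_mem_nil, or_false]
    rintro e (rfl | rfl)
    · simp only [hd, hp, dpt, Room.col, Room.lane, Room.width, Room.lanes]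
      push_cast
      exact ⟨⟨0, rfl⟩, trivial, by linarith, by linarith, fun h => by linarith,
        by linarith [h1.1], by linarith [h1.2], by linarith, by linarith⟩
    · simp only [hd, hp, dpt, Room.col, Room.lane, Room.width, Room.lanes]
      push_cast
      exact ⟨⟨1, rfl⟩, trivial, by linarith, le_rfl, fun _ => ⟨0, rfl⟩,
        by linarith [h2.1], by linarith [h2.2], by linarith [h3.1], by linarith [h3.2]⟩
  · intro hobs
    obtain ⟨g1, g2, g3⟩ := h hobs
    simp only [Room.obst, List.mem_cons, List.not_mem_nil, or_false]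
    rintro o rfl
    simp only [Room.col, Room.lane, Room.width, Room.lanes]
    omega

theorem loc_mul (hv : ∀ c j, |v c j| < 1 / 2) (hd : ∀ c j, p (c, j, 0) = dpt c j (v c j))
    (c j : ℕ) {zb wb y : ℝ} (z0 : 1 / 8 < zb) (z1 : zb < 3 / 8) (w0 : -1 < wb) (w1 : wb < 0)
    (y0 : 1 < y) (y1 : y < 2) (hz : (1 + v c (j + 1) + wb) / 2 < zb)
    (hr : 0 < 1 + v c (j + 1) + (wb - (1 + v c (j + 1))) * y / 2)
    (hp2 : p (c, j, 2) = ((30 * (c : ℝ) + 30, 480 * (j : ℝ) + 360 + 240 * zb) : ℝ × ℝ))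
    (hp3 : p (c, j, 3) = ((30 * (c : ℝ) + 30 * y, 480 * (j : ℝ) + 360) : ℝ × ℝ))
    (hp4 : p (c, j, 4) = ((30 * (c : ℝ) + 60, 480 * (j : ℝ) + 360 + 240 * wb) : ℝ × ℝ))
    (h : obs = true → (1 - v c j) * (1 / y - 1) < -(1 / 4) ∧ 4 * zb < 1 - v c (j + 2) ∧
      v c (j + 1) < 1 / 8) :
    Loc obs (Room.mul c j) p := by
  have h0 := abs_lt.1 (hv c j)
  have h1 := abs_lt.1 (hv c (j + 1))
  have h2 := abs_lt.1 (hv c (j + 2))
  have hin2 : p (c, j, 2) ∈ openSegment ℝ (npt (segA (c, j, 2))) (npt (segB (c, j, 2))) := by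
    have e1 : npt (segA (c, j, 2)) = ((30 * c + 30 : ℝ), (480 * j + 390 : ℝ)) := by
      simp [npt, segA]
    have e2 : npt (segB (c, j, 2)) = ((30 * c + 30 : ℝ), (480 * j + 450 : ℝ)) := by
      simp [npt, segB]
    rw [e1, e2, hp2]
    exact mem_vert (by linarith) (by linarith)
  have hin3 : p (c, j, 3) ∈ openSegment ℝ (npt (segA (c, j, 3))) (npt (segB (c, j, 3))) := by
    have e1 : npt (segA (c, j, 3)) = ((30 * c + 30 : ℝ), (480 * j + 360 : ℝ)) := by
      simp [npt, segA]
    have e2 : npt (segB (c, j, 3)) = ((30 * c + 60 : ℝ), (480 * j + 360 : ℝ)) := by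
      simp [npt, segB]
    rw [e1, e2, hp3]
    exact mem_horiz (by linarith) (by linarith)
  have hin4 : p (c, j, 4) ∈ openSegment ℝ (npt (segA (c, j, 4))) (npt (segB (c, j, 4))) := by
    have e1 : npt (segA (c, j, 4)) = ((30 * c + 60 : ℝ), (480 * j + 120 : ℝ)) := by
      simp [npt, segA]
    have e2 : npt (segB (c, j, 4)) = ((30 * c + 60 : ℝ), (480 * j + 360 : ℝ)) := by
      simp [npt, segB]
    rw [e1, e2, hp4]
    exact mem_vert (by linarith) (by linarith)
  -- coordinates of the points of the three edges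
  have q3 : ∀ x ∈ segment ℝ (p (c, j, 0)) (p (c, j, 3)), ∃ t : ℝ, 0 ≤ t ∧ t ≤ 1 ∧
      x.1 = 30 * c + 30 * (y * t) ∧ x.2 = 480 * j + 360 - 240 * ((1 - v c j) * (1 - t)) := by
    intro x hx
    obtain ⟨t, t0, t1, ht1, ht2⟩ := mem_seg hx
    simp only [hd, hp3, dpt] at ht1 ht2
    exact ⟨t, t0, t1, by rw [ht1]; ring, by rw [ht2]; ring⟩
  have q4 : ∀ x ∈ segment ℝ (p (c, j + 1, 0)) (p (c, j, 4)), ∃ t : ℝ, 0 ≤ t ∧ t ≤ 1 ∧
      x.1 = 30 * c + 60 * t ∧ x.2 = 480 * j + 360 + 240 * (1 + v c (j + 1) +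
        t * (wb - (1 + v c (j + 1)))) := by
    intro x hx
    obtain ⟨t, t0, t1, ht1, ht2⟩ := mem_seg hx
    simp only [hd, hp4, dpt] at ht1 ht2
    push_cast at ht1 ht2
    exact ⟨t, t0, t1, by rw [ht1]; ring, by rw [ht2]; ring⟩
  have q2 : ∀ x ∈ segment ℝ (p (c, j + 2, 0)) (p (c, j, 2)), ∃ t : ℝ, 0 ≤ t ∧ t ≤ 1 ∧
      x.1 = 30 * c + 30 * t ∧ x.2 = 480 * j + 360 + 240 * (3 + v c (j + 2) +
        t * (zb - (3 + v c (j + 2)))) := by
    intro x hx
    obtain ⟨t, t0, t1, ht1, ht2⟩ := mem_seg hx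
    simp only [hd, hp2, dpt] at ht1 ht2
    push_cast at ht1 ht2
    exact ⟨t, t0, t1, by rw [ht1]; ring, by rw [ht2]; ring⟩
  have d34 : ∀ x ∈ segment ℝ (p (c, j, 0)) (p (c, j, 3)),
      x ∈ segment ℝ (p (c, j + 1, 0)) (p (c, j, 4)) → False := by
    intro x hx hx'
    obtain ⟨t, t0, t1, a1, a2⟩ := q3 x hx
    obtain ⟨t', t0', t1', b1, b2⟩ := q4 x hx'
    have e1 : t' = y * t / 2 := by linarith
    subst e1
    have := cc_pos (A := 1 + v c (j + 1) + (1 - v c j))
      (B := 1 + v c (j + 1) + (wb - (1 + v c (j + 1))) * y / 2) (by linarith) hr t0 t1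
    nlinarith
  have d32 : ∀ x ∈ segment ℝ (p (c, j, 0)) (p (c, j, 3)),
      x ∈ segment ℝ (p (c, j + 2, 0)) (p (c, j, 2)) → False := by
    intro x hx hx'
    obtain ⟨t, t0, t1, a1, a2⟩ := q3 x hx
    obtain ⟨t', t0', t1', b1, b2⟩ := q2 x hx'
    have := cc_pos (A := 3 + v c (j + 2)) (B := zb) (by linarith) (by linarith) t0' t1'
    have : 0 ≤ (1 - v c j) * (1 - t) := mul_nonneg (by linarith) (by linarith)
    linarith
  have d42 : ∀ x ∈ segment ℝ (p (c, j + 1, 0)) (p (c, j, 4)),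
      x ∈ segment ℝ (p (c, j + 2, 0)) (p (c, j, 2)) → False := by
    intro x hx hx'
    obtain ⟨t, t0, t1, a1, a2⟩ := q4 x hx
    obtain ⟨t', t0', t1', b1, b2⟩ := q2 x hx'
    have e1 : t = t' / 2 := by linarith
    subst e1
    have := cc_pos (A := 3 + v c (j + 2) - (1 + v c (j + 1)))
      (B := zb - (1 + v c (j + 1) + wb) / 2) (by linarith) (by linarith) t0' t1'
    linarith
  refine ⟨?_, ?_, ?_, ?_, ?_, ?_⟩
  · simp only [Room.edges, List.mem_cons, List.not_mem_nil, or_false]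
    rintro e (rfl | rfl | rfl)
    · refine ⟨?_, hin3⟩
      simp only [hd]
      exact dpt_mem (hv _ _)
    · refine ⟨?_, hin4⟩
      simp only [hd]
      exact dpt_mem (hv _ _)
    · refine ⟨?_, hin2⟩
      simp only [hd]
      exact dpt_mem (hv _ _)
  · simp only [Room.edges, List.mem_cons, List.not_mem_nil, or_false]
    have key : ∀ c j c' j' : ℕ, p (c, j, 0) = p (c', j', 0) →
        ((c, j, 0) : Label) = (c', j', 0) := by
      intro c j c' j' h
      rw [hd, hd] at h
      obtain ⟨e1, e2⟩ := door_inj (hv _ _) (hv _ _) h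
      rw [e1, e2]
    have k2 : ∀ j', p (c, j', 0) ≠ p (c, j, 2) := by
      intro j' h
      have := congrArg Prod.fst h
      simp [hd, hp2, dpt] at this
    have k3 : ∀ j', p (c, j', 0) ≠ p (c, j, 3) := by
      intro j' h
      have := congrArg Prod.fst h
      simp only [hd, hp3, dpt] at this
      linarith
    have k4 : ∀ j', p (c, j', 0) ≠ p (c, j, 4) := by
      intro j' h
      have := congrArg Prod.fst h
      simp [hd, hp4, dpt] at this
    have k23 : p (c, j, 2) ≠ p (c, j, 3) := by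
      intro h
      have := congrArg Prod.fst h
      simp only [hp2, hp3] at this
      linarith
    have k24 : p (c, j, 2) ≠ p (c, j, 4) := by
      intro h
      have := congrArg Prod.fst h
      simp only [hp2, hp4] at this
      linarith
    have k34 : p (c, j, 3) ≠ p (c, j, 4) := by
      intro h
      have := congrArg Prod.fst h
      simp only [hp3, hp4] at this
      linarith
    rintro e (rfl | rfl | rfl) e' (rfl | rfl | rfl)
    · exact ⟨fun _ => rfl, fun h => absurd h (k3 _), fun _ => rfl⟩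
    · exact ⟨key _ _ _ _, fun h => absurd h (k4 _), fun h => absurd h k34⟩
    · exact ⟨key _ _ _ _, fun h => absurd h (k2 _), fun h => absurd h.symm k23⟩
    · exact ⟨key _ _ _ _, fun h => absurd h (k3 _), fun h => absurd h.symm k34⟩
    · exact ⟨fun _ => rfl, fun h => absurd h (k4 _), fun _ => rfl⟩
    · exact ⟨key _ _ _ _, fun h => absurd h (k2 _), fun h => absurd h.symm k24⟩
    · exact ⟨key _ _ _ _, fun h => absurd h (k3 _), fun h => absurd h k23⟩
    · exact ⟨key _ _ _ _, fun h => absurd h (k4 _), fun h => absurd h k24⟩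
    · exact ⟨fun _ => rfl, fun h => absurd h (k2 _), fun _ => rfl⟩
  · simp only [Room.edges, List.mem_cons, List.not_mem_nil, or_false]
    rintro e (rfl | rfl | rfl) e' (rfl | rfl | rfl) hne x hx hx'
    · exact absurd rfl hne
    · exact (d34 x hx hx').elim
    · exact (d32 x hx hx').elim
    · exact (d34 x hx' hx).elim
    · exact absurd rfl hne
    · exact (d42 x hx hx').elim
    · exact (d32 x hx' hx).elim
    · exact (d42 x hx' hx).elim
    · exact absurd rfl hne
  · intro hobs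
    obtain ⟨g1, g2, g3⟩ := h hobs
    have hy : 0 < y := by linarith
    simp only [Room.edges, Room.obst, List.mem_cons, List.not_mem_nil, or_false]
    rintro e (rfl | rfl | rfl) o (rfl | rfl) ⟨x, hx, hx'⟩ <;>
      obtain ⟨t', t0', t1', ht1', ht2'⟩ := mem_seg hx' <;>
      simp only [npt] at ht1' ht2' <;> push_cast at ht1' ht2'
    · obtain ⟨t, t0, t1, a1, a2⟩ := q3 x hx
      have e1 : t = 1 / y := by
        rw [eq_div_iff hy.ne']
        linarith
      rw [e1] at a2
      have e2 : 480 * (j : ℝ) + 300 ≤ x.2 := by rw [ht2']; linarith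
      have e3 : (1 - v c j) * (1 - 1 / y) = - ((1 - v c j) * (1 / y - 1)) := by ring
      rw [e3] at a2
      linarith
    · obtain ⟨t, t0, t1, a1, a2⟩ := q3 x hx
      have : 0 ≤ (1 - v c j) * (1 - t) := mul_nonneg (by linarith) (by linarith)
      have e2 : 480 * (j : ℝ) + 552 ≤ x.2 := by rw [ht2']; linarith
      linarith
    · obtain ⟨t, t0, t1, a1, a2⟩ := q4 x hx
      have e1 : t = 1 / 2 := by linarith
      subst e1
      have e2 : x.2 ≤ 480 * (j : ℝ) + 360 := by rw [ht2']; linarith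
      have e3 : 0 < 1 + v c (j + 1) + wb := by nlinarith
      linarith
    · obtain ⟨t, t0, t1, a1, a2⟩ := q4 x hx
      have e1 : t = 2 / 5 := by linarith
      subst e1
      have e2 : 480 * (j : ℝ) + 552 ≤ x.2 := by rw [ht2']; linarith
      linarith
    · obtain ⟨t, t0, t1, a1, a2⟩ := q2 x hx
      have e1 : t = 1 := by linarith
      subst e1
      have e2 : x.2 ≤ 480 * (j : ℝ) + 360 := by rw [ht2']; linarith
      linarith
    · obtain ⟨t, t0, t1, a1, a2⟩ := q2 x hx
      have e1 : t = 4 / 5 := by linarith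
      subst e1
      have e2 : 480 * (j : ℝ) + 552 ≤ x.2 := by rw [ht2']; linarith
      linarith
  · simp only [Room.edges, List.mem_cons, List.not_mem_nil, or_false]
    rintro e (rfl | rfl | rfl)
    · simp only [hd, hp3, dpt, Room.col, Room.lane, Room.width, Room.lanes]
      push_cast
      exact ⟨⟨0, rfl⟩, trivial, by linarith, by linarith, fun h => by linarith,
        by linarith, by linarith, by linarith, by linarith⟩
    · simp only [hd, hp4, dpt, Room.col, Room.lane, Room.width, Room.lanes]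
      push_cast
      exact ⟨⟨1, rfl⟩, trivial, by linarith, by linarith, fun h => by linarith,
        by linarith, by linarith, by linarith, by linarith⟩
    · simp only [hd, hp2, dpt, Room.col, Room.lane, Room.width, Room.lanes]
      push_cast
      exact ⟨⟨2, rfl⟩, trivial, by linarith, by linarith, fun h => by linarith,
        by linarith, by linarith, by linarith, by linarith⟩
  · intro hobs
    simp only [Room.obst, List.mem_cons, List.not_mem_nil, or_false]
    rintro o (rfl | rfl) <;> simp only [Room.col, Room.lane, Room.width, Room.lanes] <;> omega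

end loc

/-! ### Choices of the inner points -/

theorem choose_tee {P v0 v1 v2 : ℝ} (h0 : |v0| < 1 / 2) (h : P / 80 - 7 / 2 < v0 + v1 + v2)
    (hP : 280 ≤ P) (h1 : P / 80 - 9 / 2 < v0) :
    ∃ σ : ℝ, 0 < σ ∧ σ < 1 ∧ 2 * σ < v1 + v2 + 1 ∧ P ≤ 720 ∧ P / 80 - 5 / 2 < v0 + 2 * σ := by
  rw [abs_lt] at h0
  have hlt : (P / 80 - 5 / 2 - v0) / 2 < min ((v1 + v2 + 1) / 2) 1 := by
    rw [lt_min_iff]
    constructor <;> linarith
  obtain ⟨σ, s1, s2⟩ := exists_between hlt
  rw [lt_min_iff] at s2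
  exact ⟨σ, by linarith [h0.2], s2.2, by linarith [s2.1], by linarith [h0.2], by linarith⟩

theorem choose_mul {v0 v1 v2 : ℝ} (h0 : |v0| < 1 / 8) (h1 : |v1| < 1 / 8) (h2 : |v2| < 1 / 8)
    (h : 1 + v1 < (1 - v0) * (1 - v2)) :
    ∃ zb wb y : ℝ, 1 / 8 < zb ∧ zb < 3 / 8 ∧ -1 < wb ∧ wb < 0 ∧ 1 < y ∧ y < 2 ∧
      (1 + v1 + wb) / 2 < zb ∧ 0 < 1 + v1 + (wb - (1 + v1)) * y / 2 ∧
      (1 - v0) * (1 / y - 1) < -(1 / 4) ∧ 4 * zb < 1 - v2 ∧ v1 < 1 / 8 := by
  rw [abs_lt] at h0 h1 h2
  have hQ : 0 < 1 - v0 := by linarith [h0.2]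
  have hx : 0 < 1 + v1 := by linarith [h1.1]
  -- lower bound for `r`
  have hlow : (1 + v1) / (4 * (1 - v0)) < (1 - v2) / 4 := by
    rw [div_lt_div_iff₀ (by linarith) (by norm_num)]
    nlinarith
  obtain ⟨r, r1, r2⟩ := exists_between hlow
  have r3 : 1 + v1 < r * (4 * (1 - v0)) := by
    rwa [div_lt_iff₀ (by linarith)] at r1
  have r4 : 7 / 36 < r := by
    by_contra hc
    push Not at hc
    nlinarith [h0.1, h1.1]
  have r5 : r < 9 / 32 := by linarith [h2.1]
  obtain ⟨zb, z1, z2⟩ := exists_between r2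
  have hy : (1 - v0) / (1 - v0 - 1 / 4) < (1 + v1) / (1 + v1 - r) := by
    rw [div_lt_div_iff₀ (by linarith [h0.2]) (by linarith [h1.1])]
    nlinarith
  obtain ⟨y, y1, y2⟩ := exists_between hy
  rw [div_lt_iff₀ (by linarith [h0.2])] at y1
  rw [lt_div_iff₀ (by linarith [h1.1])] at y2
  have y3 : 1 < y := by
    by_contra hc
    push Not at hc
    nlinarith [h0.2]
  have y4 : y < 2 := by
    by_contra hc
    push Not at hc
    nlinarith [h1.1]
  refine ⟨zb, 2 * r - (1 + v1), y, by linarith, by linarith [h2.1], by linarith [h1.2],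
    by linarith [h1.1], y3, y4, by linarith, by nlinarith, ?_, by linarith, h1.2⟩
  have hy0 : 0 < y := by linarith
  have e : (1 - v0) * (1 / y - 1) = (1 - v0 - y * (1 - v0)) / y := by
    field_simp
  rw [e, div_lt_iff₀ hy0]
  linarith

/-- the position given by the values and the parameters of the inner points -/
noncomputable def pos (v σ zb wb y : ℕ → ℕ → ℝ) : Label → ℝ × ℝ
  | (c, j, 0) => dpt c j (v c j)
  | (c, j, 1) => ((30 * (c : ℝ) + 30, 480 * (j : ℝ) + 240 + 240 * σ c j) : ℝ × ℝ)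
  | (c, j, 2) => ((30 * (c : ℝ) + 30, 480 * (j : ℝ) + 360 + 240 * zb c j) : ℝ × ℝ)
  | (c, j, 3) => ((30 * (c : ℝ) + 30 * y c j, 480 * (j : ℝ) + 360) : ℝ × ℝ)
  | (c, j, _) => ((30 * (c : ℝ) + 60, 480 * (j : ℝ) + 360 + 240 * wb c j) : ℝ × ℝ)

theorem sep_forall {L : List Room} (hL : L.Pairwise Sep) :
    ∀ r ∈ L, ∀ r' ∈ L, r ≠ r' → Sep r r' := by
  intro r hr r' hr' hne
  have : Std.Symm Sep := ⟨?_⟩
  · exact hL.forall hr hr' hne
  intro a b h
  rcases h with h | h | h | h
  · exact Or.inr (Or.inl h)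
  · exact Or.inl h
  · exact Or.inr (Or.inr (Or.inr h))
  · exact Or.inr (Or.inr (Or.inl h))

end G2

open G2

/-- G2, G3 -/
theorem draw_of_values {L : List Room} (hL : L.Pairwise Sep) {v : ℕ → ℕ → ℝ}
    (hv : ∀ c j, |v c j| < 1 / 2) (hs : ∀ r ∈ L, r.Strong v) : ∃ p, LDraw Meet L p := by
  have hS := sep_forall hL
  have htee : ∀ c j, ∃ σ : ℝ, ∀ P : ℕ, Room.tee c j P ∈ L → 0 < σ ∧ σ < 1 ∧
      2 * σ < v c (j + 1) + v (c + 2) j + 1 ∧ P ≤ 720 ∧ (P : ℝ) / 80 - 5 / 2 < v c j + 2 * σ := by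
    intro c j
    by_cases h : ∃ P, Room.tee c j P ∈ L
    · obtain ⟨P, hP⟩ := h
      obtain ⟨g1, g2, g3, g4⟩ := hs _ hP
      obtain ⟨σ, s1, s2, s3, s4, s5⟩ := choose_tee (hv c j) g1 (by exact_mod_cast g2) g3
      refine ⟨σ, fun P' hP' => ?_⟩
      have : P' = P := by
        by_contra hne
        have := hS _ hP' _ hP (by simpa using hne)
        simp only [Sep, Room.col, Room.lane, Room.width, Room.lanes] at this
        omega
      subst this
      exact ⟨s1, s2, s3, by exact_mod_cast s4, s5⟩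
    · push Not at h
      exact ⟨0, fun P hP => absurd hP (h P)⟩
  have hmul : ∀ c j, ∃ zb wb y : ℝ, Room.mul c j ∈ L → 1 / 8 < zb ∧ zb < 3 / 8 ∧ -1 < wb ∧
      wb < 0 ∧ 1 < y ∧ y < 2 ∧
      (1 + v c (j + 1) + wb) / 2 < zb ∧ 0 < 1 + v c (j + 1) + (wb - (1 + v c (j + 1))) * y / 2 ∧
      (1 - v c j) * (1 / y - 1) < -(1 / 4) ∧ 4 * zb < 1 - v c (j + 2) ∧ v c (j + 1) < 1 / 8 := by
    intro c j
    by_cases h : Room.mul c j ∈ L
    · obtain ⟨g1, g2, g3, g4⟩ := hs _ h
      obtain ⟨zb, wb, y, hh⟩ := choose_mul g2 g3 g4 g1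
      exact ⟨zb, wb, y, fun _ => hh⟩
    · exact ⟨0, 0, 0, fun hh => absurd hh h⟩
  choose σ hσ using htee
  choose zb wb y hz using hmul
  refine ⟨pos v σ zb wb y, glue (obs := true) hS hv (fun _ _ => rfl) ?_ Meet
    (Or.inl ⟨rfl, fun _ _ _ _ h => h⟩)⟩
  intro r hr
  cases r with
  | pin c j s => exact loc_pin hv (fun _ _ => rfl) c j s (fun _ => hs _ hr)
  | lpin c j s => exact loc_lpin hv (fun _ _ => rfl) c j s (fun _ => hs _ hr)
  | fork c j s t => exact loc_fork hv (fun _ _ => rfl) c j s t (fun _ => hs _ hr)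
  | tee c j P =>
    obtain ⟨s1, s2, s3, s4, s5⟩ := hσ c j P hr
    exact loc_tee hv (fun _ _ => rfl) c j P s1 s2 s3 rfl
      (fun _ => ⟨s4, s5, (hs _ hr).2.2.2⟩)
  | mul c j =>
    obtain ⟨a1, a2, a3, a4, a5, a6, a7, a8, a9, a10, a11⟩ := hz c j hr
    exact loc_mul hv (fun _ _ => rfl) c j a1 a2 a3 a4 a5 a6 a7 a8 rfl rfl rfl
      (fun _ => ⟨a9, a10, a11⟩)

/-- G4 (obstacles forgotten) -/
theorem draw_free {L : List Room} (hL : L.Pairwise Sep) :
    ∃ p, LDraw (fun _ _ _ _ => False) L p := by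
  have hS := sep_forall hL
  have hv : ∀ c j : ℕ, |(fun _ _ => (0 : ℝ) : ℕ → ℕ → ℝ) c j| < 1 / 2 := by
    intro c j
    norm_num
  refine ⟨pos (fun _ _ => 0) (fun _ _ => 1 / 4) (fun _ _ => 5 / 16) (fun _ _ => -(1 / 2))
    (fun _ _ => 7 / 6), glue (obs := false) hS hv (fun _ _ => rfl) ?_ _
    (Or.inr fun _ _ _ _ h => h)⟩
  intro r hr
  cases r with
  | pin c j s => exact loc_pin hv (fun _ _ => rfl) c j s (fun h => by simp at h)
  | lpin c j s => exact loc_lpin hv (fun _ _ => rfl) c j s (fun h => by simp at h)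
  | fork c j s t => exact loc_fork hv (fun _ _ => rfl) c j s t (fun h => by simp at h)
  | tee c j P =>
    exact loc_tee hv (fun _ _ => rfl) c j P (by norm_num) (by norm_num) (by norm_num) rfl
      (fun h => by simp at h)
  | mul c j =>
    exact loc_mul hv (fun _ _ => rfl) c j (by norm_num) (by norm_num) (by norm_num)
      (by norm_num) (by norm_num) (by norm_num) (by norm_num) (by norm_num) rfl rfl rfl
      (fun h => by simp at h)

end Pool.Agent.SegDraw
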