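import Pool.Agent.Lib.MP_431574_lc.Code

/-!
# G5: the instance of a list of rooms
-/

open N68a2faeb N793a5b8e N487b59b3

namespace Pool.Agent.SegDraw

namespace G5

/-- label in the box -/
def InBox (B : ℕ) (u : Label) : Prop := u.1 < B ∧ u.2.1 < B ∧ u.2.2 < 5

/-- the label with a given number -/
def lab (B v : ℕ) : Label := (v / 5 / B, v / 5 % B, v % 5)

theorem idx_lt {B : ℕ} {u : Label} (h : InBox B u) : idx B u < B * B * 5 := by
  obtain ⟨h1, h2, h3⟩ := h
  unfold idx
  have : u.1 * B + u.2.1 < B * B := by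
    calc u.1 * B + u.2.1 < u.1 * B + B := by omega
      _ = (u.1 + 1) * B := by ring
      _ ≤ B * B := Nat.mul_le_mul_right _ h1
  omega

theorem lab_idx {B : ℕ} {u : Label} (h : InBox B u) : lab B (idx B u) = u := by
  obtain ⟨c, j, k⟩ := u
  obtain ⟨h1, h2, h3⟩ := h
  simp only at h1 h2 h3
  unfold lab idx
  have e1 : ((c * B + j) * 5 + k) / 5 = c * B + j := by omega
  have e4 : ((c * B + j) * 5 + k) % 5 = k := by omega
  have e2 : (c * B + j) / B = c := by
    rw [mul_comm, Nat.mul_add_div (by omega), Nat.div_eq_of_lt h2, add_zero]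
  have e3 : (c * B + j) % B = j := by
    rw [mul_comm, Nat.mul_add_mod, Nat.mod_eq_of_lt h2]
  simp only [e1, e2, e3, e4]

theorem idx_lab {B v : ℕ} : idx B (lab B v) = v := by
  unfold lab idx
  simp only
  have h := Nat.div_add_mod (v / 5) B
  rw [mul_comm] at h
  rw [h]
  omega

theorem lab_inBox {B v : ℕ} (h : v < B * B * 5) : InBox B (lab B v) := by
  have hB : 0 < B := by
    rcases Nat.eq_zero_or_pos B with h0 | h0
    · subst h0; omega
    · exact h0
  refine ⟨?_, Nat.mod_lt _ hB, Nat.mod_lt _ (by norm_num)⟩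
  exact Nat.div_lt_of_lt_mul (by omega)

theorem idx_inj {B : ℕ} {u u' : Label} (h : InBox B u) (h' : InBox B u') (he : idx B u = idx B u') :
    u = u' := by
  rw [← lab_idx h, ← lab_idx h', he]

theorem box_lt {L : List Room} {r : Room} (h : r ∈ L) : r.col + r.lane + 4 < boxOf L := by
  unfold boxOf
  have := List.le_sum_of_mem (List.mem_map_of_mem (f := fun r : Room => r.col + r.lane + 4) h)
  omega

theorem width_facts (r : Room) : 0 < r.width ∧ r.width ≤ 3 ∧ 0 < r.lanes ∧ r.lanes ≤ 3 := by
  cases r <;> simp [Room.width, Room.lanes]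

theorem edge_left {r : Room} {e : Label × Label} (h : e ∈ r.edges) :
    e.1.1 = r.col ∧ r.lane ≤ e.1.2.1 ∧ e.1.2.1 < r.lane + r.lanes ∧ e.1.2.2 = 0 := by
  cases r with
  | pin c j s =>
    simp only [Room.edges, List.mem_cons, List.not_mem_nil, or_false] at h
    subst h
    simp [Room.col, Room.lane, Room.lanes]
  | lpin c j s =>
    simp only [Room.edges, List.mem_cons, List.not_mem_nil, or_false] at h
    subst h
    simp [Room.col, Room.lane, Room.lanes]
  | fork c j s t =>
    simp only [Room.edges, List.mem_cons, List.not_mem_nil, or_false] at h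
    rcases h with rfl | rfl <;> simp [Room.col, Room.lane, Room.lanes]
  | tee c j P =>
    simp only [Room.edges, List.mem_cons, List.not_mem_nil, or_false] at h
    rcases h with rfl | rfl <;> simp [Room.col, Room.lane, Room.lanes]
  | mul c j =>
    simp only [Room.edges, List.mem_cons, List.not_mem_nil, or_false] at h
    rcases h with rfl | rfl | rfl <;> simp [Room.col, Room.lane, Room.lanes]

theorem edge_right {r : Room} {e : Label × Label} (h : e ∈ r.edges) :
    (e.2.2.2 = 0 ∧ e.2.1 = r.col + r.width ∧ r.lane ≤ e.2.2.1 ∧ e.2.2.1 < r.lane + r.lanes) ∨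
    (0 < e.2.2.2 ∧ e.2.2.2 < 5 ∧ e.2.1 = r.col ∧ e.2.2.1 = r.lane) := by
  cases r with
  | pin c j s =>
    simp only [Room.edges, List.mem_cons, List.not_mem_nil, or_false] at h
    subst h
    simp [Room.col, Room.lane, Room.lanes, Room.width]
  | lpin c j s =>
    simp only [Room.edges, List.mem_cons, List.not_mem_nil, or_false] at h
    subst h
    simp [Room.col, Room.lane, Room.lanes, Room.width]
  | fork c j s t =>
    simp only [Room.edges, List.mem_cons, List.not_mem_nil, or_false] at h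
    rcases h with rfl | rfl <;> simp [Room.col, Room.lane, Room.lanes, Room.width]
  | tee c j P =>
    simp only [Room.edges, List.mem_cons, List.not_mem_nil, or_false] at h
    rcases h with rfl | rfl <;> simp [Room.col, Room.lane, Room.lanes, Room.width]
  | mul c j =>
    simp only [Room.edges, List.mem_cons, List.not_mem_nil, or_false] at h
    rcases h with rfl | rfl | rfl <;> simp [Room.col, Room.lane, Room.lanes, Room.width]

/-- rank of a label -/
def rank (u : Label) : ℕ := if u.2.2 = 0 then 2 * u.1 else 2 * u.1 + 1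

theorem rank_lt' {r : Room} {e : Label × Label} (h : e ∈ r.edges) : rank e.1 < rank e.2 := by
  have h1 := edge_left h
  have h2 := edge_right h
  have h3 := width_facts r
  unfold rank
  rw [if_pos h1.2.2.2]
  rcases h2 with h2 | h2
  · rw [if_pos h2.1]; omega
  · rw [if_neg (by omega)]; omega

theorem edge_same {r : Room} {e e' : Label × Label} (h : e ∈ r.edges) (h' : e' ∈ r.edges)
    (he : e.2 = e'.2) : e = e' := by
  cases r with
  | pin c j s =>
    simp only [Room.edges, List.mem_cons, List.not_mem_nil, or_false] at h h'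
    rw [h, h']
  | lpin c j s =>
    simp only [Room.edges, List.mem_cons, List.not_mem_nil, or_false] at h h'
    rw [h, h']
  | fork c j s t =>
    simp only [Room.edges, List.mem_cons, List.not_mem_nil, or_false] at h h'
    rcases h with rfl | rfl <;> rcases h' with rfl | rfl <;> simp at he ⊢
  | tee c j P =>
    simp only [Room.edges, List.mem_cons, List.not_mem_nil, or_false] at h h'
    rcases h with rfl | rfl <;> rcases h' with rfl | rfl <;> simp at he ⊢
  | mul c j =>
    simp only [Room.edges, List.mem_cons, List.not_mem_nil, or_false] at h h'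
    rcases h with rfl | rfl | rfl <;> rcases h' with rfl | rfl | rfl <;> simp at he ⊢

theorem sep_symm {r r' : Room} (h : Sep r r') : Sep r' r := by
  unfold Sep at *
  omega

theorem sep_of_ne {L : List Room} (hL : L.Pairwise Sep) {r r' : Room} (hr : r ∈ L) (hr' : r' ∈ L)
    (hne : r ≠ r') : Sep r r' := by
  have : Std.Symm Sep := ⟨fun _ _ h => sep_symm h⟩
  exact hL.forall hr hr' hne

theorem mem_allEdges {L : List Room} {e : Label × Label} :
    e ∈ allEdges L ↔ ∃ r ∈ L, e ∈ r.edges := by
  simp [allEdges, List.mem_flatMap]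

theorem edge_unique {L : List Room} (hL : L.Pairwise Sep) {e e' : Label × Label}
    (h : e ∈ allEdges L) (h' : e' ∈ allEdges L) (he : e.2 = e'.2) : e = e' := by
  obtain ⟨r, hr, h1⟩ := mem_allEdges.1 h
  obtain ⟨r', hr', h1'⟩ := mem_allEdges.1 h'
  by_cases hne : r = r'
  · subst hne
    exact edge_same h1 h1' he
  · exfalso
    have hs := sep_of_ne hL hr hr' hne
    have h2 := edge_right h1
    have h2' := edge_right h1'
    have h3 := width_facts r
    have h3' := width_facts r'
    rw [he] at h2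
    unfold Sep at hs
    omega

theorem rank_lt {L : List Room} {e : Label × Label} (h : e ∈ allEdges L) :
    rank e.1 < rank e.2 := by
  obtain ⟨r, hr, h1⟩ := mem_allEdges.1 h
  exact rank_lt' h1

theorem edge_box {L : List Room} {e : Label × Label} (h : e ∈ allEdges L) :
    InBox (boxOf L) e.1 ∧ InBox (boxOf L) e.2 := by
  obtain ⟨r, hr, h1⟩ := mem_allEdges.1 h
  have h2 := box_lt hr
  have h3 := width_facts r
  have h4 := edge_left h1
  have h5 := edge_right h1
  unfold InBox
  refine ⟨⟨?_, ?_, ?_⟩, ?_, ?_, ?_⟩ <;> omega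

theorem used_box {L : List Room} {u : Label} (h : Used L u) : InBox (boxOf L) u := by
  obtain ⟨e, he, rfl | rfl⟩ := h
  · exact (edge_box he).1
  · exact (edge_box he).2

theorem usedB_iff {L : List Room} {u : Label} : usedB L u = true ↔ Used L u := by
  unfold usedB Used
  simp only [List.any_eq_true, Bool.or_eq_true, decide_eq_true_eq]

theorem mem_edgeList {L : List Room} {a b : ℕ} : (a, b) ∈ edgeList L ↔
    ∃ e ∈ allEdges L, idx (boxOf L) e.1 = a ∧ idx (boxOf L) e.2 = b := by
  unfold edgeList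
  simp only [List.mem_map, Prod.mk.injEq]

/-- the graph -/
def gr (L : List Room) : SimpleGraph (Fin (vnum L)) where
  Adj i j := ((i : ℕ), (j : ℕ)) ∈ edgeList L ∨ ((j : ℕ), (i : ℕ)) ∈ edgeList L
  symm := ⟨fun i j h => h.symm⟩
  loopless := by
    have : ∀ i : Fin (vnum L), ¬ (((i : ℕ), (i : ℕ)) ∈ edgeList L ∨
        ((i : ℕ), (i : ℕ)) ∈ edgeList L) := by
      intro i h
      rw [or_self, mem_edgeList] at h
      obtain ⟨e, he, h1, h2⟩ := h
      have := idx_inj (edge_box he).1 (edge_box he).2 (h1.trans h2.symm)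
      have h3 := rank_lt he
      rw [this] at h3
      exact lt_irrefl _ h3
    exact ⟨fun i h => this i h⟩

theorem gr_adj {L : List Room} {i j : Fin (vnum L)} (h : (gr L).Adj i j) :
    ∃ e ∈ allEdges L, (lab (boxOf L) i = e.1 ∧ lab (boxOf L) j = e.2) ∨
      (lab (boxOf L) i = e.2 ∧ lab (boxOf L) j = e.1) := by
  rcases h with h | h
  · obtain ⟨e, he, h1, h2⟩ := mem_edgeList.1 h
    refine ⟨e, he, Or.inl ⟨?_, ?_⟩⟩
    · rw [← h1, lab_idx (edge_box he).1]
    · rw [← h2, lab_idx (edge_box he).2]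
  · obtain ⟨e, he, h1, h2⟩ := mem_edgeList.1 h
    refine ⟨e, he, Or.inr ⟨?_, ?_⟩⟩
    · rw [← h2, lab_idx (edge_box he).2]
    · rw [← h1, lab_idx (edge_box he).1]

theorem lab_inj {L : List Room} {i j : Fin (vnum L)}
    (h : lab (boxOf L) i = lab (boxOf L) j) : i = j := by
  apply Fin.ext
  rw [← idx_lab (B := boxOf L) (v := i), h, idx_lab]

/-- a graph with ranks, in which every vertex has at most one neighbour of smaller rank, is a
forest -/
theorem acyclic_of_rank {V : Type} [DecidableEq V] (G : SimpleGraph V) (rk : V → ℕ)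
    (h1 : ∀ u v, G.Adj u v → rk u ≠ rk v)
    (h2 : ∀ u v w, G.Adj u w → G.Adj v w → rk u < rk w → rk v < rk w → u = v) :
    G.IsAcyclic := by
  intro v c hc
  obtain ⟨w, hw, hmax⟩ := (c.support.toFinset).exists_max_image rk
    ⟨v, by simp⟩
  rw [List.mem_toFinset] at hw
  have hc' := hc.rotate hw
  set d := c.rotate w hw with hd
  have hnn : ¬ d.Nil := hc'.not_nil
  have hsub : ∀ x ∈ d.support, rk x ≤ rk w := by
    intro x hx
    apply hmax
    rw [List.mem_toFinset]
    rw [hd] at hx
    exact (c.mem_support_rotate_iff w hw).1 hx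
  have ha1 : G.Adj w d.snd := d.adj_snd hnn
  have ha2 : G.Adj d.penultimate w := d.adj_penultimate hnn
  have hs1 : rk d.snd ≤ rk w := hsub _ (d.getVert_mem_support 1)
  have hs2 : rk d.penultimate ≤ rk w := hsub _ (d.getVert_mem_support (d.length - 1))
  have hl1 : rk d.snd < rk w := lt_of_le_of_ne hs1 (h1 _ _ ha1.symm)
  have hl2 : rk d.penultimate < rk w := lt_of_le_of_ne hs2 (h1 _ _ ha2)
  exact hc'.snd_ne_penultimate (h2 _ _ _ ha1.symm ha2 hl1 hl2)

theorem gr_acyclic {L : List Room} (hL : L.Pairwise Sep) : (gr L).IsAcyclic := by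
  apply acyclic_of_rank (gr L) (fun i => rank (lab (boxOf L) i))
  · intro u v h
    obtain ⟨e, he, ⟨h1, h2⟩ | ⟨h1, h2⟩⟩ := gr_adj h
    · have := rank_lt he
      simp only [h1, h2]
      omega
    · have := rank_lt he
      simp only [h1, h2]
      omega
  · intro u v w hu hv hru hrv
    obtain ⟨e, he, ⟨h1, h2⟩ | ⟨h1, h2⟩⟩ := gr_adj hu
    · obtain ⟨e', he', ⟨h1', h2'⟩ | ⟨h1', h2'⟩⟩ := gr_adj hv
      · have := edge_unique hL he he' (h2.symm.trans h2')
        subst this
        exact lab_inj (h1.trans h1'.symm)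
      · exfalso
        have := rank_lt he'
        rw [h1', h2'] at hrv
        omega
    · exfalso
      have := rank_lt he
      rw [h1, h2] at hru
      omega

theorem qpt_inj {a b : ℕ × ℕ} (h : qpt a = qpt b) : a = b := by
  unfold qpt at h
  rw [Prod.mk.injEq] at h
  exact Prod.ext (by exact_mod_cast h.1) (by exact_mod_cast h.2)

theorem pt_qpt (a : ℕ × ℕ) : pt (qpt a) = npt a := by
  unfold pt qpt npt
  simp

theorem segA_ne_segB (u : Label) : segA u ≠ segB u := by
  obtain ⟨c, j, k⟩ := u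
  rcases k with _ | _ | _ | _ | k
  · simp [segA, segB]
  · simp [segA, segB]
  · simp [segA, segB]
  · simp [segA, segB]
  · simp [segA, segB]

theorem segOf_used {L : List Room} {u : Label} (h : Used L u) :
    segOf L u = (false, qpt (segA u), qpt (segB u)) := by
  unfold segOf
  rw [usedB_iff.2 h]
  rfl

theorem segOf_unused {L : List Room} {u : Label} (h : ¬ Used L u) :
    segOf L u = (false, qpt (30 * boxOf L + 100 + idx (boxOf L) u, 0),
    qpt (30 * boxOf L + 100 + idx (boxOf L) u, 1)) := by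
  unfold segOf
  have : usedB L u = false := by
    rw [← Bool.not_eq_true, usedB_iff]
    exact h
  rw [this]
  rfl

/-- the instance -/
noncomputable def inst (L : List Room) (hP : ∀ r ∈ L, ∀ o ∈ r.obst, o.2.1 ≠ o.2.2) :
    Inst (vnum L) where
  G := gr L
  place v := segOf L (lab (boxOf L) v)
  obs := obsList L
  place_ne := by
    intro v
    by_cases h : Used L (lab (boxOf L) v)
    · rw [segOf_used h]
      intro h1
      exact segA_ne_segB _ (qpt_inj h1)
    · rw [segOf_unused h]
      intro h1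
      have := qpt_inj h1
      simp at this
  obs_ne := by
    intro o ho
    unfold obsList at ho
    rw [List.mem_map] at ho
    obtain ⟨o', ho', rfl⟩ := ho
    intro h1
    have h2 := qpt_inj h1
    simp only [Prod.mk.injEq, true_and] at h2
    unfold allObst at ho'
    rw [List.mem_flatMap] at ho'
    obtain ⟨r, hr, hor⟩ := ho'
    exact hP r hr o' hor h2

theorem flat_range {α : Type} (a b : ℕ) (hb : 0 < b) (g : ℕ → ℕ → α) :
    (List.range a).flatMap (fun i => (List.range b).map (fun k => g i k)) =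
      (List.range (a * b)).map (fun v => g (v / b) (v % b)) := by
  induction a with
  | zero => simp
  | succ a ih =>
    rw [List.range_succ, List.flatMap_append, ih, Nat.succ_mul, List.range_add, List.map_append]
    congr 1
    simp only [List.flatMap_cons, List.flatMap_nil, List.append_nil, List.map_map]
    apply List.map_congr_left
    intro k hk
    rw [List.mem_range] at hk
    simp only [Function.comp]
    have e1 : (a * b + k) / b = a := by
      rw [mul_comm, Nat.mul_add_div hb, Nat.div_eq_of_lt hk, add_zero]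
    have e2 : (a * b + k) % b = k := by
      rw [mul_comm, Nat.mul_add_mod, Nat.mod_eq_of_lt hk]
    rw [e1, e2]

theorem lab_eq (B v : ℕ) : lab B v = (v / (B * 5), v % (B * 5) / 5, v % (B * 5) % 5) := by
  unfold lab
  have e2 : v / (B * 5) = v / 5 / B := by
    rw [mul_comm, Nat.div_div_eq_div_mul]
  have e3 : v % (B * 5) / 5 = v / 5 % B := by
    rw [mul_comm, Nat.mod_mul_right_div_self]
  have e4 : v % (B * 5) % 5 = v % 5 := by
    rw [mul_comm, Nat.mod_mul_right_mod]
  rw [e2, e3, e4]

theorem placeList_eq (L : List Room) :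
    placeList L = List.ofFn (fun v : Fin (vnum L) => segOf L (lab (boxOf L) v)) := by
  have hB : 0 < boxOf L := by unfold boxOf; omega
  have e1 : placeList L = (List.range (boxOf L)).flatMap (fun c =>
      (List.range (boxOf L * 5)).map (fun v => segOf L (c, v / 5, v % 5))) := by
    unfold placeList
    congr 1
    funext c
    exact flat_range (boxOf L) 5 (by norm_num) (fun j k => segOf L (c, j, k))
  rw [e1, flat_range (boxOf L) (boxOf L * 5) (by omega)
    (fun c v => segOf L (c, v / 5, v % 5))]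
  rw [List.ofFn_eq_map, ← List.map_coe_finRange_eq_range]
  rw [List.map_map]
  have hv : boxOf L * (boxOf L * 5) = vnum L := by unfold vnum; ring
  rw [show vnum L = boxOf L * (boxOf L * 5) from hv.symm]
  apply List.map_congr_left
  intro v _
  simp only [Function.comp]
  rw [lab_eq]

theorem inst_isCode (L : List Room) (hP : ∀ r ∈ L, ∀ o ∈ r.obst, o.2.1 ≠ o.2.2) :
    (inst L hP).IsCode (codeOf L) := by
  refine ⟨edgeList L, ⟨?_, fun i j => Iff.rfl⟩, ?_⟩
  · intro e he
    obtain ⟨e', he', h1, h2⟩ := mem_edgeList.1 (show (e.1, e.2) ∈ edgeList L from he)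
    rw [← h1, ← h2]
    exact ⟨idx_lt (edge_box he').1, idx_lt (edge_box he').2⟩
  · unfold codeOf
    rw [placeList_eq]
    rfl

theorem mem_open_carrier {x : ℝ × ℝ} {a b : ℕ × ℕ} :
    x ∈ carrier (false, qpt a, qpt b) ↔ x ∈ openSegment ℝ (npt a) (npt b) := by
  unfold carrier
  rw [if_neg (by simp)]
  simp only [pt_qpt]

/-- every drawing of the instance gives a drawing of the rooms -/
theorem ldraw_of_drawable {L : List Room} (hP : ∀ r ∈ L, ∀ o ∈ r.obst, o.2.1 ≠ o.2.2)
    {C : ℝ × ℝ → ℝ × ℝ → ℝ × ℝ → ℝ × ℝ → Prop} (h : (inst L hP).Drawable C) :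
    ∃ p, LDraw C L p := by
  obtain ⟨q, hq, hpl, hob⟩ := h
  classical
  let p : Label → ℝ × ℝ := fun u =>
    if h : idx (boxOf L) u < vnum L then q ⟨idx (boxOf L) u, h⟩ else 0
  have hp : ∀ u (hu : InBox (boxOf L) u), p u = q ⟨idx (boxOf L) u, idx_lt hu⟩ := by
    intro u hu
    exact dif_pos (idx_lt hu)
  have hadj : ∀ e (he : e ∈ allEdges L), (gr L).Adj ⟨idx (boxOf L) e.1, idx_lt (edge_box he).1⟩
      ⟨idx (boxOf L) e.2, idx_lt (edge_box he).2⟩ := by
    intro e he
    exact Or.inl (mem_edgeList.2 ⟨e, he, rfl, rfl⟩)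
  have hne : ∀ u u' (hu : InBox (boxOf L) u) (hu' : InBox (boxOf L) u'), u ≠ u' →
      (⟨idx (boxOf L) u, idx_lt hu⟩ : Fin (vnum L)) ≠ ⟨idx (boxOf L) u', idx_lt hu'⟩ := by
    intro u u' hu hu' hne h
    exact hne (idx_inj hu hu' (by simpa using h))
  refine ⟨p, ?_, ?_, ?_, ?_, ?_⟩
  · intro u hu
    have hb := used_box hu
    rw [hp u hb]
    have h1 := hpl ⟨idx (boxOf L) u, idx_lt hb⟩
    have h2 : (inst L hP).place ⟨idx (boxOf L) u, idx_lt hb⟩ =
        (false, qpt (segA u), qpt (segB u)) := by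
      show segOf L (lab (boxOf L) (idx (boxOf L) u)) = _
      rw [lab_idx hb, segOf_used hu]
    rw [h2] at h1
    exact mem_open_carrier.1 h1
  · intro u u' hu hu' he
    have hb := used_box hu
    have hb' := used_box hu'
    rw [hp u hb, hp u' hb'] at he
    by_contra hcon
    exact hne u u' hb hb' hcon (hq.inj he)
  · intro e he w hw h1 h2
    have hb := used_box hw
    rw [hp w hb, hp e.1 (edge_box he).1, hp e.2 (edge_box he).2]
    exact hq.vertex _ _ _ (hadj e he) (hne _ _ hb (edge_box he).1 h1)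
      (hne _ _ hb (edge_box he).2 h2)
  · intro e he e' he' hee x hx hx'
    rw [hp e.1 (edge_box he).1, hp e.2 (edge_box he).2] at hx
    rw [hp e'.1 (edge_box he').1, hp e'.2 (edge_box he').2] at hx'
    have hs : s((⟨idx (boxOf L) e.1, idx_lt (edge_box he).1⟩ : Fin (vnum L)),
        (⟨idx (boxOf L) e.2, idx_lt (edge_box he).2⟩ : Fin (vnum L))) ≠
        s((⟨idx (boxOf L) e'.1, idx_lt (edge_box he').1⟩ : Fin (vnum L)),
        (⟨idx (boxOf L) e'.2, idx_lt (edge_box he').2⟩ : Fin (vnum L))) := by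
      intro h
      rw [Sym2.eq_iff] at h
      rcases h with ⟨h1, h2⟩ | ⟨h1, h2⟩
      · refine hee (Prod.ext ?_ ?_)
        · by_contra hcon
          exact hne _ _ (edge_box he).1 (edge_box he').1 hcon h1
        · by_contra hcon
          exact hne _ _ (edge_box he).2 (edge_box he').2 hcon h2
      · have e1 : e.1 = e'.2 := by
          by_contra hcon
          exact hne _ _ (edge_box he).1 (edge_box he').2 hcon h1
        have e2 : e.2 = e'.1 := by
          by_contra hcon
          exact hne _ _ (edge_box he).2 (edge_box he').1 hcon h2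
        have r1 := rank_lt he
        have r2 := rank_lt he'
        rw [e1, e2] at r1
        omega
    obtain ⟨w, hw1, hw2, hxw⟩ := hq.edge _ _ _ _ (hadj e he) (hadj e' he') hs x hx hx'
    have key : ∀ u (hu : InBox (boxOf L) u), w = ⟨idx (boxOf L) u, idx_lt hu⟩ →
        lab (boxOf L) w = u := by
      intro u hu h
      rw [h]
      exact lab_idx hu
    refine ⟨lab (boxOf L) w, ?_, ?_, ?_⟩
    · rcases hw1 with h | h
      · exact Or.inl (key _ (edge_box he).1 h)
      · exact Or.inr (key _ (edge_box he).2 h)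
    · rcases hw2 with h | h
      · exact Or.inl (key _ (edge_box he').1 h)
      · exact Or.inr (key _ (edge_box he').2 h)
    · rw [hxw, hp _ (lab_inBox w.2)]
      congr 1
      exact Fin.ext (idx_lab).symm
  · intro e he o ho hC
    rw [hp e.1 (edge_box he).1, hp e.2 (edge_box he).2] at hC
    have hmem : (qpt (o.1, o.2.1), qpt (o.1, o.2.2)) ∈ (inst L hP).obs := by
      show _ ∈ obsList L
      exact List.mem_map.2 ⟨o, ho, rfl⟩
    have h1 := hob _ _ (hadj e he) _ hmem
    rw [pt_qpt, pt_qpt] at h1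
    exact h1 hC

section Extend

variable {L : List Room} {C₀ : ℝ × ℝ → ℝ × ℝ → ℝ × ℝ → ℝ × ℝ → Prop} {p : Label → ℝ × ℝ}

open Classical in
/-- the extension of a drawing of the rooms to all vertices -/
noncomputable def extend (L : List Room) (p : Label → ℝ × ℝ) (v : Fin (vnum L)) : ℝ × ℝ :=
  if Used L (lab (boxOf L) v) then p (lab (boxOf L) v)
  else (30 * (boxOf L : ℝ) + 100 + ((v : ℕ) : ℝ), 1 / 2)

theorem extend_used {v : Fin (vnum L)} (h : Used L (lab (boxOf L) v)) :
    extend L p v = p (lab (boxOf L) v) := if_pos h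

theorem extend_unused {v : Fin (vnum L)} (h : ¬ Used L (lab (boxOf L) v)) :
    extend L p v = (30 * (boxOf L : ℝ) + 100 + ((v : ℕ) : ℝ), 1 / 2) := if_neg h

theorem seg_x_le (u : Label) : ((segA u).1 : ℝ) ≤ 30 * u.1 + 60 ∧
    ((segB u).1 : ℝ) ≤ 30 * u.1 + 60 := by
  obtain ⟨c, j, k⟩ := u
  rcases k with _ | _ | _ | _ | k <;> simp [segA, segB] <;> norm_num

theorem used_x (h : LDraw C₀ L p) {u : Label} (hu : Used L u) :
    (p u).1 < 30 * boxOf L + 100 := by
  have h1 := h.place u hu
  have h2 := used_box hu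
  obtain ⟨s, t, hs, ht, hst, hx⟩ := h1
  have h3 := seg_x_le u
  rw [← hx]
  simp only [npt, Prod.fst_add, Prod.smul_fst, smul_eq_mul]
  have h4 : (u.1 : ℝ) + 1 ≤ boxOf L := by exact_mod_cast h2.1
  nlinarith [mul_le_mul_of_nonneg_left h3.1 hs.le, mul_le_mul_of_nonneg_left h3.2 ht.le]

theorem extend_inj (h : LDraw C₀ L p) : Function.Injective (extend L p) := by
  intro v w hvw
  by_cases hv : Used L (lab (boxOf L) v) <;> by_cases hw : Used L (lab (boxOf L) w)
  · rw [extend_used hv, extend_used hw] at hvw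
    exact lab_inj (h.inj _ _ hv hw hvw)
  · exfalso
    rw [extend_used hv, extend_unused hw] at hvw
    have h1 := used_x h hv
    rw [hvw] at h1
    simp only at h1
    have : (0 : ℝ) ≤ (w : ℕ) := Nat.cast_nonneg _
    linarith
  · exfalso
    rw [extend_unused hv, extend_used hw] at hvw
    have h1 := used_x h hw
    rw [← hvw] at h1
    simp only at h1
    have : (0 : ℝ) ≤ (v : ℕ) := Nat.cast_nonneg _
    linarith
  · rw [extend_unused hv, extend_unused hw] at hvw
    rw [Prod.mk.injEq] at hvw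
    have h1 : ((v : ℕ) : ℝ) = (w : ℕ) := by linarith [hvw.1]
    exact Fin.ext (by exact_mod_cast h1)

theorem used_left {e : Label × Label} (he : e ∈ allEdges L) : Used L e.1 := ⟨e, he, Or.inl rfl⟩

theorem used_right {e : Label × Label} (he : e ∈ allEdges L) : Used L e.2 := ⟨e, he, Or.inr rfl⟩

/-- the two ends of an edge in the extension -/
theorem extend_adj {i j : Fin (vnum L)} (h : (gr L).Adj i j) :
    ∃ e ∈ allEdges L, (lab (boxOf L) i = e.1 ∧ lab (boxOf L) j = e.2 ∧
        extend L p i = p e.1 ∧ extend L p j = p e.2) ∨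
      (lab (boxOf L) i = e.2 ∧ lab (boxOf L) j = e.1 ∧
        extend L p i = p e.2 ∧ extend L p j = p e.1) := by
  obtain ⟨e, he, ⟨h1, h2⟩ | ⟨h1, h2⟩⟩ := gr_adj h
  · refine ⟨e, he, Or.inl ⟨h1, h2, ?_, ?_⟩⟩
    · rw [extend_used (by rw [h1]; exact used_left he), h1]
    · rw [extend_used (by rw [h2]; exact used_right he), h2]
  · refine ⟨e, he, Or.inr ⟨h1, h2, ?_, ?_⟩⟩
    · rw [extend_used (by rw [h1]; exact used_right he), h1]
    · rw [extend_used (by rw [h2]; exact used_left he), h2]

/-- the segments of adjacent vertices -/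
theorem extend_seg {i j : Fin (vnum L)} (h : (gr L).Adj i j) :
    ∃ e ∈ allEdges L, segment ℝ (extend L p i) (extend L p j) = segment ℝ (p e.1) (p e.2) ∧
      s(lab (boxOf L) i, lab (boxOf L) j) = s(e.1, e.2) := by
  obtain ⟨e, he, ⟨h1, h2, h3, h4⟩ | ⟨h1, h2, h3, h4⟩⟩ := extend_adj (p := p) h
  · exact ⟨e, he, by rw [h3, h4], by rw [h1, h2]⟩
  · exact ⟨e, he, by rw [h3, h4, segment_symm], by rw [h1, h2, Sym2.eq_swap]⟩

theorem seg_x (h : LDraw C₀ L p) {e : Label × Label} (he : e ∈ allEdges L) {x : ℝ × ℝ}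
    (hx : x ∈ segment ℝ (p e.1) (p e.2)) : x.1 < 30 * boxOf L + 100 := by
  obtain ⟨s, t, hs, ht, hst, rfl⟩ := hx
  have h1 := used_x h (used_left he)
  have h2 := used_x h (used_right he)
  simp only [Prod.fst_add, Prod.smul_fst, smul_eq_mul]
  have h3 : s * (p e.1).1 ≤ s * (30 * boxOf L + 100) := mul_le_mul_of_nonneg_left h1.le hs
  have h4 : t * (p e.2).1 ≤ t * (30 * boxOf L + 100) := mul_le_mul_of_nonneg_left h2.le ht
  rcases hs.lt_or_eq with hs' | hs'
  · have h5 : s * (p e.1).1 < s * (30 * boxOf L + 100) := mul_lt_mul_of_pos_left h1 hs'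
    have h6 : s * (30 * (boxOf L : ℝ) + 100) + t * (30 * boxOf L + 100) =
        30 * boxOf L + 100 := by rw [← add_mul, hst, one_mul]
    linarith
  · have ht1 : t = 1 := by linarith
    rw [← hs', ht1]
    linarith

theorem lab_surj {u : Label} (hu : InBox (boxOf L) u) :
    ∃ v : Fin (vnum L), lab (boxOf L) v = u :=
  ⟨⟨idx (boxOf L) u, idx_lt hu⟩, lab_idx hu⟩

theorem planar_extend (h : LDraw C₀ L p) : IsPlanarDrawing (gr L) (extend L p) := by
  refine ⟨extend_inj h, ?_, ?_⟩
  · intro u v w huv hwu hwv hw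
    obtain ⟨e, he, hseg, hs⟩ := extend_seg (p := p) huv
    rw [hseg] at hw
    by_cases hu : Used L (lab (boxOf L) w)
    · rw [extend_used hu] at hw
      have hl : lab (boxOf L) w ≠ lab (boxOf L) u := fun h => hwu (lab_inj h)
      have hr : lab (boxOf L) w ≠ lab (boxOf L) v := fun h => hwv (lab_inj h)
      rw [Sym2.eq_iff] at hs
      rcases hs with ⟨h1, h2⟩ | ⟨h1, h2⟩
      · exact h.vertex e he _ hu (h1 ▸ hl) (h2 ▸ hr) hw
      · exact h.vertex e he _ hu (h2 ▸ hr) (h1 ▸ hl) hw
    · have h1 := seg_x h he hw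
      rw [extend_unused hu] at h1
      simp only at h1
      have : (0 : ℝ) ≤ (w : ℕ) := Nat.cast_nonneg _
      linarith
  · intro u v u' v' huv huv' hne x hx hx'
    obtain ⟨e, he, hseg, hs⟩ := extend_seg (p := p) huv
    obtain ⟨e', he', hseg', hs'⟩ := extend_seg (p := p) huv'
    rw [hseg] at hx
    rw [hseg'] at hx'
    have hee : e ≠ e' := by
      rintro rfl
      apply hne
      rw [← hs'] at hs
      rw [Sym2.eq_iff] at hs ⊢
      rcases hs with ⟨h1, h2⟩ | ⟨h1, h2⟩
      · exact Or.inl ⟨lab_inj h1, lab_inj h2⟩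
      · exact Or.inr ⟨lab_inj h1, lab_inj h2⟩
    obtain ⟨w, hw1, hw2, hxw⟩ := h.edge e he e' he' hee x hx hx'
    have hwb : InBox (boxOf L) w := by
      rcases hw1 with rfl | rfl
      · exact (edge_box he).1
      · exact (edge_box he).2
    have hwu : Used L w := by
      rcases hw1 with rfl | rfl
      · exact used_left he
      · exact used_right he
    obtain ⟨w', rfl⟩ := lab_surj hwb
    have m1 : lab (boxOf L) w' ∈ s(lab (boxOf L) u, lab (boxOf L) v) := by
      rw [hs, Sym2.mem_iff]; exact hw1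
    have m2 : lab (boxOf L) w' ∈ s(lab (boxOf L) u', lab (boxOf L) v') := by
      rw [hs', Sym2.mem_iff]; exact hw2
    rw [Sym2.mem_iff] at m1 m2
    refine ⟨w', ?_, ?_, ?_⟩
    · rcases m1 with h1 | h1
      · exact Or.inl (lab_inj h1)
      · exact Or.inr (lab_inj h1)
    · rcases m2 with h1 | h1
      · exact Or.inl (lab_inj h1)
      · exact Or.inr (lab_inj h1)
    · rw [hxw, extend_used hwu]

theorem place_extend (h : LDraw C₀ L p) (v : Fin (vnum L)) :
    extend L p v ∈ carrier (segOf L (lab (boxOf L) v)) := by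
  by_cases hu : Used L (lab (boxOf L) v)
  · rw [extend_used hu, segOf_used hu, mem_open_carrier]
    exact h.place _ hu
  · rw [extend_unused hu, segOf_unused hu, mem_open_carrier, idx_lab]
    refine ⟨1 / 2, 1 / 2, by norm_num, by norm_num, by norm_num, ?_⟩
    simp only [npt, Prod.smul_mk, Prod.mk_add_mk, smul_eq_mul]
    refine Prod.ext ?_ ?_
    · push_cast
      ring
    · push_cast
      ring

theorem meet_symm {u v a b : ℝ × ℝ} (h : Meet u v a b) : Meet v u a b := by
  unfold Meet at *
  rwa [segment_symm]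

theorem drawable_extend (hP : ∀ r ∈ L, ∀ o ∈ r.obst, o.2.1 ≠ o.2.2) (h : LDraw Meet L p)
    {C : ℝ × ℝ → ℝ × ℝ → ℝ × ℝ → ℝ × ℝ → Prop} (hC : ∀ u v a b, C u v a b → Meet u v a b) :
    (inst L hP).Drawable C := by
  refine ⟨extend L p, planar_extend h, place_extend h, ?_⟩
  intro u v huv o ho hc
  have ho' : o ∈ obsList L := ho
  unfold obsList at ho'
  rw [List.mem_map] at ho'
  obtain ⟨o', ho', rfl⟩ := ho'
  have hm := hC _ _ _ _ hc
  simp only [pt_qpt] at hm
  obtain ⟨e, he, ⟨h1, h2, h3, h4⟩ | ⟨h1, h2, h3, h4⟩⟩ := extend_adj (p := p) huv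
  · rw [h3, h4] at hm
    exact h.obst e he o' ho' hm
  · rw [h3, h4] at hm
    exact h.obst e he o' ho' (meet_symm hm)

end Extend

end G5

/-- G5 -/
theorem exists_inst {L : List Room} (hL : L.Pairwise Sep)
    (hP : ∀ r ∈ L, ∀ o ∈ r.obst, o.2.1 ≠ o.2.2) :
    ∃ I : Inst (vnum L), I.IsCode (codeOf L) ∧ I.G.IsAcyclic ∧
      ((∃ p, LDraw (fun _ _ _ _ => False) L p) → IsPlanar I.G) ∧
      (∀ C, I.Drawable C → ∃ p, LDraw C L p) ∧
      ((∃ p, LDraw Meet L p) → ∀ C : ℝ × ℝ → ℝ × ℝ → ℝ × ℝ → ℝ × ℝ → Prop,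
        (∀ u v a b, C u v a b → Meet u v a b) → I.Drawable C) := by
  refine ⟨G5.inst L hP, G5.inst_isCode L hP, G5.gr_acyclic hL, ?_, ?_, ?_⟩
  · rintro ⟨p, hp⟩
    exact ⟨G5.extend L p, G5.planar_extend hp⟩
  · intro C h
    exact G5.ldraw_of_drawable hP h
  · rintro ⟨p, hp⟩ C hC
    exact G5.drawable_extend hP hp hC

end Pool.Agent.SegDraw
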