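import Pool.Agent.Lib.MP_431574_lc.Code

/-!
# MP_431574_lc: G6 (the code determines the instance)
-/

open N68a2faeb N793a5b8e N487b59b3

namespace Pool.Agent.SegDraw

/-- G6: the code determines the instance -/
theorem inst_unique {n n' : ℕ} (I : Inst n) (I' : Inst n') {s : List Bool} (h : I.IsCode s)
    (h' : I'.IsCode s) : n = n' ∧ HEq I I' := by
  obtain ⟨E, hE, hs⟩ := h
  obtain ⟨E', hE', hs'⟩ := h'
  have h1 := bitEncode_injective (hs.symm.trans hs')
  simp only [Prod.mk.injEq] at h1
  obtain ⟨hn, hEE, hp, ho⟩ := h1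
  subst hn
  subst hEE
  refine ⟨rfl, ?_⟩
  obtain ⟨G, place, obs, p1, p2⟩ := I
  obtain ⟨G', place', obs', p1', p2'⟩ := I'
  simp only at hE hE' hp ho
  have hp' : place = place' := List.ofFn_injective hp
  subst hp' ho
  have hG : G = G' := by
    ext i j
    rw [hE.2 i j, hE'.2 i j]
  subst hG
  rfl

end Pool.Agent.SegDraw
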