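import Pool.Agent.Lib.MP_431574_lc.Code

/-!
# N1: the rooms of a layout are pairwise separated, obstacles are nondegenerate
-/

namespace Pool.Agent.SegDraw

namespace N1

instance : DecidableRel Sep := fun r r' => by unfold Sep; infer_instance

/-- translation of a room -/
def shift (c j : ℕ) : Room → Room
  | .pin a b s => .pin (c + a) (j + b) s
  | .lpin a b s => .lpin (c + a) (j + b) s
  | .fork a b s t => .fork (c + a) (j + b) s t
  | .tee a b P => .tee (c + a) (j + b) P
  | .mul a b => .mul (c + a) (j + b)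

theorem col_shift (c j : ℕ) (r : Room) : (shift c j r).col = c + r.col := by cases r <;> rfl
theorem lane_shift (c j : ℕ) (r : Room) : (shift c j r).lane = j + r.lane := by cases r <;> rfl
theorem width_shift (c j : ℕ) (r : Room) : (shift c j r).width = r.width := by cases r <;> rfl
theorem lanes_shift (c j : ℕ) (r : Room) : (shift c j r).lanes = r.lanes := by cases r <;> rfl

theorem sep_shift (c j : ℕ) {r r' : Room} (h : Sep r r') : Sep (shift c j r) (shift c j r') := by
  unfold Sep at h ⊢
  simp only [col_shift, lane_shift, width_shift, lanes_shift]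
  omega

/-- the room lies in the given rectangle -/
def Bd (c1 c2 l1 l2 : ℕ) (r : Room) : Prop :=
  c1 ≤ r.col ∧ r.col + r.width ≤ c2 ∧ l1 ≤ r.lane ∧ r.lane + r.lanes ≤ l2

instance (c1 c2 l1 l2 : ℕ) : DecidablePred (Bd c1 c2 l1 l2) := fun r => by
  unfold Bd; infer_instance

theorem bd_shift (c j : ℕ) {c1 c2 l1 l2 : ℕ} {r : Room} (h : Bd c1 c2 l1 l2 r) :
    Bd (c + c1) (c + c2) (j + l1) (j + l2) (shift c j r) := by
  unfold Bd at h ⊢
  simp only [col_shift, lane_shift, width_shift, lanes_shift]
  omega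

theorem sep_lane {c1 c2 l1 l2 c1' c2' l1' l2' : ℕ} {r r' : Room} (h : Bd c1 c2 l1 l2 r)
    (h' : Bd c1' c2' l1' l2' r') (hl : l2 ≤ l1' ∨ l2' ≤ l1) : Sep r r' := by
  unfold Bd at h h'
  unfold Sep
  omega

theorem sep_col {c1 c2 l1 l2 c1' c2' l1' l2' : ℕ} {r r' : Room} (h : Bd c1 c2 l1 l2 r)
    (h' : Bd c1' c2' l1' l2' r') (hl : c2 ≤ c1' ∨ c2' ≤ c1) : Sep r r' := by
  unfold Bd at h h'
  unfold Sep
  omega

theorem swap_eq (c b : ℕ) : swapRooms c b = (swapRooms 0 0).map (shift c b) := rfl
theorem copy_eq (c b : ℕ) : copyRooms c b = (copyRooms 0 0).map (shift c b) := rfl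
theorem lin_eq (c b P : ℕ) : linRooms c b P = (linRooms 0 0 P).map (shift c b) := rfl
theorem mul_eq (c b : ℕ) : mulRooms c b = (mulRooms 0 0).map (shift c b) := rfl

theorem swap_sep (c b : ℕ) : (swapRooms c b).Pairwise Sep := by
  rw [swap_eq, List.pairwise_map]
  exact List.Pairwise.imp (fun h => sep_shift c b h) (by decide : (swapRooms 0 0).Pairwise Sep)

theorem swap_bd (c b : ℕ) : ∀ r ∈ swapRooms c b, Bd c (c + 8) b (b + 4) r := by
  rw [swap_eq]
  intro r hr
  obtain ⟨r', hr', rfl⟩ := List.mem_map.1 hr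
  exact bd_shift c b ((by decide : ∀ r ∈ swapRooms 0 0, Bd 0 8 0 4 r) r' hr')

theorem copy_sep (c b : ℕ) : (copyRooms c b).Pairwise Sep := by
  rw [copy_eq, List.pairwise_map]
  exact List.Pairwise.imp (fun h => sep_shift c b h) (by decide : (copyRooms 0 0).Pairwise Sep)

theorem copy_bd (c b : ℕ) : ∀ r ∈ copyRooms c b, Bd c (c + 2) b (b + 3) r := by
  rw [copy_eq]
  intro r hr
  obtain ⟨r', hr', rfl⟩ := List.mem_map.1 hr
  exact bd_shift c b ((by decide : ∀ r ∈ copyRooms 0 0, Bd 0 2 0 3 r) r' hr')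

/-- forget the parameter of a tee -/
def noP : Room → Room
  | .tee a b _ => .tee a b 0
  | r => r

theorem sep_noP {r r' : Room} (h : Sep (noP r) (noP r')) : Sep r r' := by
  cases r <;> cases r' <;> exact h

theorem bd_noP {c1 c2 l1 l2 : ℕ} {r : Room} (h : Bd c1 c2 l1 l2 (noP r)) : Bd c1 c2 l1 l2 r := by
  cases r <;> exact h

theorem lin_noP (P : ℕ) : (linRooms 0 0 P).map noP = (linRooms 0 0 0).map noP := rfl

theorem lin_sep (c b P : ℕ) : (linRooms c b P).Pairwise Sep := by
  rw [lin_eq, List.pairwise_map]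
  have h : ((linRooms 0 0 P).map noP).Pairwise Sep := by
    rw [lin_noP]; decide
  rw [List.pairwise_map] at h
  exact h.imp (fun h => sep_shift c b (sep_noP h))

theorem lin_bd (c b P : ℕ) : ∀ r ∈ linRooms c b P, Bd c (c + 8) b (b + 5) r := by
  rw [lin_eq]
  intro r hr
  obtain ⟨r', hr', rfl⟩ := List.mem_map.1 hr
  have h : ∀ r ∈ (linRooms 0 0 P).map noP, Bd 0 8 0 5 r := by
    rw [lin_noP]; decide
  exact bd_shift c b (bd_noP (h _ (List.mem_map_of_mem hr')))

theorem mul_sep (c b : ℕ) : (mulRooms c b).Pairwise Sep := by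
  rw [mul_eq, List.pairwise_map]
  exact List.Pairwise.imp (fun h => sep_shift c b h) (by decide : (mulRooms 0 0).Pairwise Sep)

theorem mul_bd (c b : ℕ) : ∀ r ∈ mulRooms c b, Bd c (c + 8) b (b + 5) r := by
  rw [mul_eq]
  intro r hr
  obtain ⟨r', hr', rfl⟩ := List.mem_map.1 hr
  exact bd_shift c b ((by decide : ∀ r ∈ mulRooms 0 0, Bd 0 8 0 5 r) r' hr')

theorem gate_sep (kind c b : ℕ) : (gateRooms kind c b).Pairwise Sep := by
  unfold gateRooms
  split_ifs
  · exact lin_sep _ _ _
  · exact lin_sep _ _ _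
  · exact lin_sep _ _ _
  · exact mul_sep _ _

theorem gate_bd (kind c b : ℕ) : ∀ r ∈ gateRooms kind c b, Bd c (c + 8) b (b + 5) r := by
  unfold gateRooms
  split_ifs
  · exact lin_bd _ _ _
  · exact lin_bd _ _ _
  · exact lin_bd _ _ _
  · exact mul_bd _ _

theorem pins_sep (k t0 j : ℕ) : (pins k t0 j).Pairwise Sep := by
  rw [pins, List.pairwise_map]
  refine List.pairwise_lt_range.imp (fun {a b} hab => ?_)
  left
  show 8 * k + t0 + a + 1 ≤ 8 * k + t0 + b
  omega

theorem pins_bd (k t0 j : ℕ) : ∀ r ∈ pins k t0 j, Bd (8 * k + t0) (8 * k + 8) j (j + 1) r := by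
  intro r hr
  obtain ⟨t, ht, rfl⟩ := List.mem_map.1 hr
  have := List.mem_range.1 ht
  refine ⟨?_, ?_, le_rfl, le_rfl⟩
  · show 8 * k + t0 ≤ 8 * k + t0 + t
    omega
  · show 8 * k + t0 + t + 1 ≤ 8 * k + 8
    omega

theorem wires_sep (k : ℕ) {l : List ℕ} (hl : l.Pairwise (· < ·)) : (wires k l).Pairwise Sep := by
  rw [wires, List.pairwise_flatMap]
  refine ⟨fun i _ => pins_sep _ _ _, hl.imp (fun {a b} hab x hx y hy => ?_)⟩
  exact sep_lane (pins_bd _ _ _ x hx) (pins_bd _ _ _ y hy) (by omega)

theorem wires_bd {k : ℕ} {l : List ℕ} {l1 l2 : ℕ} (hl : ∀ i ∈ l, l1 ≤ 2 * i ∧ 2 * i + 1 ≤ l2) :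
    ∀ r ∈ wires k l, Bd (8 * k) (8 * k + 8) l1 l2 r := by
  intro r hr
  obtain ⟨i, hi, hr⟩ := List.mem_flatMap.1 hr
  have h1 := pins_bd _ _ _ r hr
  have h2 := hl i hi
  unfold Bd at h1 ⊢
  omega

theorem range_shift_lt (a m : ℕ) :
    ((List.range m).map (fun t => a + 2 + t)).Pairwise (· < ·) := by
  rw [List.pairwise_map]
  exact List.pairwise_lt_range.imp (fun {x y} hxy => by omega)

theorem block_sep (n k : ℕ) (o : Op) : (blockRooms n k o).Pairwise Sep := by
  rcases o with i | i | kind
  · rw [blockRooms, List.pairwise_append, List.pairwise_append]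
    have b1 := swap_bd (8 * k) (2 * i)
    have b2 : ∀ r ∈ wires k (List.range i), Bd (8 * k) (8 * k + 8) 0 (2 * i) r :=
      wires_bd fun l hl => by have := List.mem_range.1 hl; omega
    have b3 : ∀ r ∈ wires k ((List.range (2 * n + 3 - (i + 2))).map (fun t => i + 2 + t)),
        Bd (8 * k) (8 * k + 8) (2 * i + 4) (4 * n + 4 * i + 40) r :=
      wires_bd fun l hl => by
        obtain ⟨t, ht, rfl⟩ := List.mem_map.1 hl
        have := List.mem_range.1 ht
        omega
    refine ⟨⟨swap_sep _ _, wires_sep _ List.pairwise_lt_range, fun x hx y hy => ?_⟩,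
      wires_sep _ (range_shift_lt _ _), fun x hx y hy => ?_⟩
    · exact sep_lane (b1 x hx) (b2 y hy) (by omega)
    · rcases List.mem_append.1 hx with hx | hx
      · exact sep_lane (b1 x hx) (b3 y hy) (by omega)
      · exact sep_lane (b2 x hx) (b3 y hy) (by omega)
  · rw [blockRooms, List.pairwise_append, List.pairwise_append, List.pairwise_append,
      List.pairwise_append]
    have b1 := copy_bd (8 * k) (2 * i)
    have c1 := pins_bd k 2 (2 * i)
    have c2 := pins_bd k 2 (2 * i + 2)
    have b2 : ∀ r ∈ wires k (List.range i), Bd (8 * k) (8 * k + 8) 0 (2 * i) r :=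
      wires_bd fun l hl => by have := List.mem_range.1 hl; omega
    have b3 : ∀ r ∈ wires k ((List.range (2 * n + 3 - (i + 2))).map (fun t => i + 2 + t)),
        Bd (8 * k) (8 * k + 8) (2 * i + 4) (4 * n + 4 * i + 40) r :=
      wires_bd fun l hl => by
        obtain ⟨t, ht, rfl⟩ := List.mem_map.1 hl
        have := List.mem_range.1 ht
        omega
    refine ⟨⟨⟨⟨copy_sep _ _, pins_sep _ _ _, fun x hx y hy => ?_⟩, pins_sep _ _ _,
      fun x hx y hy => ?_⟩, wires_sep _ List.pairwise_lt_range, fun x hx y hy => ?_⟩,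
      wires_sep _ (range_shift_lt _ _), fun x hx y hy => ?_⟩
    · exact sep_col (b1 x hx) (c1 y hy) (by omega)
    · rcases List.mem_append.1 hx with hx | hx
      · exact sep_col (b1 x hx) (c2 y hy) (by omega)
      · exact sep_lane (c1 x hx) (c2 y hy) (by omega)
    · rcases List.mem_append.1 hx with hx | hx
      · rcases List.mem_append.1 hx with hx | hx
        · exact sep_lane (b1 x hx) (b2 y hy) (by omega)
        · exact sep_lane (c1 x hx) (b2 y hy) (by omega)
      · exact sep_lane (c2 x hx) (b2 y hy) (by omega)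
    · rcases List.mem_append.1 hx with hx | hx
      · rcases List.mem_append.1 hx with hx | hx
        · rcases List.mem_append.1 hx with hx | hx
          · exact sep_lane (b1 x hx) (b3 y hy) (by omega)
          · exact sep_lane (c1 x hx) (b3 y hy) (by omega)
        · exact sep_lane (c2 x hx) (b3 y hy) (by omega)
      · exact sep_lane (b2 x hx) (b3 y hy) (by omega)
  · rw [blockRooms, List.pairwise_append]
    refine ⟨gate_sep _ _ _, wires_sep _ List.pairwise_lt_range, fun x hx y hy => ?_⟩
    have b2 : ∀ r ∈ wires k (List.range (2 * n)), Bd (8 * k) (8 * k + 8) 0 (4 * n) r :=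
      wires_bd fun l hl => by have := List.mem_range.1 hl; omega
    exact sep_lane (gate_bd _ _ _ x hx) (b2 y hy) (by omega)

theorem block_col (n k : ℕ) (o : Op) : ∀ r ∈ blockRooms n k o,
    8 * k ≤ r.col ∧ r.col + r.width ≤ 8 * k + 8 := by
  have hw : ∀ l, ∀ r ∈ wires k l, 8 * k ≤ r.col ∧ r.col + r.width ≤ 8 * k + 8 := by
    intro l r hr
    obtain ⟨i, hi, hr⟩ := List.mem_flatMap.1 hr
    have h1 := pins_bd _ _ _ r hr
    unfold Bd at h1
    omega
  intro r hr
  rcases o with i | i | kind
  · rw [blockRooms, List.mem_append, List.mem_append] at hr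
    rcases hr with (hr | hr) | hr
    · have := swap_bd _ _ r hr
      unfold Bd at this
      omega
    · exact hw _ r hr
    · exact hw _ r hr
  · rw [blockRooms, List.mem_append, List.mem_append, List.mem_append, List.mem_append] at hr
    rcases hr with (((hr | hr) | hr) | hr) | hr
    · have := copy_bd _ _ r hr
      unfold Bd at this
      omega
    · have := pins_bd _ _ _ r hr
      unfold Bd at this
      omega
    · have := pins_bd _ _ _ r hr
      unfold Bd at this
      omega
    · exact hw _ r hr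
    · exact hw _ r hr
  · rw [blockRooms, List.mem_append] at hr
    rcases hr with hr | hr
    · have := gate_bd _ _ _ r hr
      unfold Bd at this
      omega
    · exact hw _ r hr

/-- the first four rooms of a source -/
def src4 (b : ℕ) : List Room :=
  [.fork 0 b true false, .pin 1 b false, .fork 1 (b + 1) true true, .lpin 2 (b + 2) false]

theorem src4_eq (b : ℕ) : src4 b = (src4 0).map (shift 0 b) := rfl

theorem src4_sep (b : ℕ) : (src4 b).Pairwise Sep := by
  rw [src4_eq, List.pairwise_map]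
  exact List.Pairwise.imp (fun h => sep_shift 0 b h) (by decide : (src4 0).Pairwise Sep)

theorem srcRooms_eq (i : ℕ) : srcRooms i = src4 (4 * i) ++ pins 0 2 (4 * i) ++
    pins 0 4 (4 * i + 2) := rfl

theorem src_sep (i : ℕ) : (srcRooms i).Pairwise Sep := by
  rw [srcRooms_eq, List.pairwise_append, List.pairwise_append]
  have c1 := pins_bd 0 2 (4 * i)
  have c2 := pins_bd 0 4 (4 * i + 2)
  have q0 : Bd 0 2 (4 * i) (4 * i + 2) (.fork 0 (4 * i) true false) := by
    simp only [Bd, Room.col, Room.lane, Room.width, Room.lanes]; omega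
  have q1 : Bd 0 2 (4 * i) (4 * i + 3) (.pin 1 (4 * i) false) := by
    simp only [Bd, Room.col, Room.lane, Room.width, Room.lanes]; omega
  have q2 : Bd 0 2 (4 * i) (4 * i + 3) (.fork 1 (4 * i + 1) true true) := by
    simp only [Bd, Room.col, Room.lane, Room.width, Room.lanes]; omega
  have q3 : Bd 2 4 (4 * i + 2) (4 * i + 3) (.lpin 2 (4 * i + 2) false) := by
    simp only [Bd, Room.col, Room.lane, Room.width, Room.lanes]; omega
  refine ⟨⟨src4_sep _, pins_sep _ _ _, fun x hx y hy => ?_⟩, pins_sep _ _ _,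
    fun x hx y hy => ?_⟩
  · simp only [src4, List.mem_cons, List.not_mem_nil, or_false] at hx
    rcases hx with rfl | rfl | rfl | rfl
    · exact sep_col q0 (c1 y hy) (by omega)
    · exact sep_col q1 (c1 y hy) (by omega)
    · exact sep_col q2 (c1 y hy) (by omega)
    · exact sep_lane q3 (c1 y hy) (by omega)
  · rcases List.mem_append.1 hx with hx | hx
    · simp only [src4, List.mem_cons, List.not_mem_nil, or_false] at hx
      rcases hx with rfl | rfl | rfl | rfl
      · exact sep_col q0 (c2 y hy) (by omega)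
      · exact sep_col q1 (c2 y hy) (by omega)
      · exact sep_col q2 (c2 y hy) (by omega)
      · exact sep_col q3 (c2 y hy) (by omega)
    · exact sep_lane (c1 x hx) (c2 y hy) (by omega)

theorem src_bd (i : ℕ) : ∀ r ∈ srcRooms i, Bd 0 8 (4 * i) (4 * i + 3) r := by
  intro r hr
  rw [srcRooms_eq, List.mem_append, List.mem_append] at hr
  rcases hr with (hr | hr) | hr
  · simp only [src4, List.mem_cons, List.not_mem_nil, or_false] at hr
    rcases hr with rfl | rfl | rfl | rfl <;>
      (simp only [Bd, Room.col, Room.lane, Room.width, Room.lanes]; omega)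
  · have := pins_bd _ _ _ r hr
    unfold Bd at this ⊢
    omega
  · have := pins_bd _ _ _ r hr
    unfold Bd at this ⊢
    omega

/-- nondegenerate obstacles -/
def Ob (r : Room) : Prop := ∀ o ∈ r.obst, o.2.1 ≠ o.2.2

theorem ob_pin (c j : ℕ) (s : Bool) : Ob (.pin c j s) := by
  intro o ho
  simp only [Room.obst, List.mem_singleton] at ho
  subst ho
  show 480 * j + Room.off s ≠ 480 * j + Room.off s + 120
  omega

theorem ob_lpin (c j : ℕ) (s : Bool) : Ob (.lpin c j s) := by
  intro o ho
  simp only [Room.obst, List.mem_singleton] at ho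
  subst ho
  show 480 * j + Room.off s ≠ 480 * j + Room.off s + 120
  omega

theorem ob_fork (c j : ℕ) (s t : Bool) : Ob (.fork c j s t) := by
  intro o ho
  simp only [Room.obst, List.mem_cons, List.not_mem_nil, or_false] at ho
  rcases ho with rfl | rfl
  · show 480 * j + Room.off s ≠ 480 * j + Room.off s + 120
    omega
  · show 480 * j + 240 + Room.off t ≠ 480 * j + 240 + Room.off t + 120
    omega

theorem ob_tee (c j : ℕ) {P : ℕ} (hP : 0 < P) : Ob (.tee c j P) := by
  intro o ho
  simp only [Room.obst, List.mem_singleton] at ho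
  subst ho
  show 480 * j ≠ 480 * j + P
  omega

theorem ob_mul (c j : ℕ) : Ob (.mul c j) := by
  intro o ho
  simp only [Room.obst, List.mem_cons, List.not_mem_nil, or_false] at ho
  rcases ho with rfl | rfl
  · show 480 * j + 300 ≠ 480 * j + 360
    omega
  · show 480 * j + 552 ≠ 480 * j + 600
    omega

theorem ob_pins (k t0 j : ℕ) : ∀ r ∈ pins k t0 j, Ob r := by
  intro r hr
  obtain ⟨t, -, rfl⟩ := List.mem_map.1 hr
  exact ob_pin _ _ _

theorem ob_wires (k : ℕ) (l : List ℕ) : ∀ r ∈ wires k l, Ob r := by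
  intro r hr
  obtain ⟨i, -, hr⟩ := List.mem_flatMap.1 hr
  exact ob_pins _ _ _ r hr

theorem ob_swap (c b : ℕ) : ∀ r ∈ swapRooms c b, Ob r := by
  intro r hr
  simp only [swapRooms, List.mem_cons, List.not_mem_nil, or_false] at hr
  rcases hr with rfl | rfl | rfl | rfl | rfl | rfl | rfl | rfl | rfl | rfl | rfl | rfl | rfl | rfl |
    rfl | rfl <;>
    first
      | exact ob_pin _ _ _
      | exact ob_fork _ _ _ _
      | exact ob_tee _ _ (by norm_num)

theorem ob_copy (c b : ℕ) : ∀ r ∈ copyRooms c b, Ob r := by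
  intro r hr
  simp only [copyRooms, List.mem_cons, List.not_mem_nil, or_false] at hr
  rcases hr with rfl | rfl | rfl <;>
    first
      | exact ob_pin _ _ _
      | exact ob_fork _ _ _ _

theorem ob_lin (c b : ℕ) {P : ℕ} (hP : 0 < P) : ∀ r ∈ linRooms c b P, Ob r := by
  intro r hr
  simp only [linRooms, List.mem_cons, List.not_mem_nil, or_false] at hr
  rcases hr with rfl | rfl | rfl | rfl | rfl | rfl | rfl | rfl | rfl | rfl | rfl | rfl <;>
    first
      | exact ob_pin _ _ _
      | exact ob_lpin _ _ _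
      | exact ob_fork _ _ _ _
      | exact ob_tee _ _ hP
      | exact ob_tee _ _ (by omega)

theorem ob_mulR (c b : ℕ) : ∀ r ∈ mulRooms c b, Ob r := by
  intro r hr
  simp only [mulRooms, List.mem_cons, List.not_mem_nil, or_false] at hr
  rcases hr with rfl | rfl | rfl | rfl | rfl | rfl | rfl <;>
    first
      | exact ob_pin _ _ _
      | exact ob_fork _ _ _ _
      | exact ob_mul _ _

theorem ob_block (n k : ℕ) (o : Op) : ∀ r ∈ blockRooms n k o, Ob r := by
  intro r hr
  rcases o with i | i | kind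
  · rw [blockRooms, List.mem_append, List.mem_append] at hr
    rcases hr with (hr | hr) | hr
    · exact ob_swap _ _ r hr
    · exact ob_wires _ _ r hr
    · exact ob_wires _ _ r hr
  · rw [blockRooms, List.mem_append, List.mem_append, List.mem_append, List.mem_append] at hr
    rcases hr with (((hr | hr) | hr) | hr) | hr
    · exact ob_copy _ _ r hr
    · exact ob_pins _ _ _ r hr
    · exact ob_pins _ _ _ r hr
    · exact ob_wires _ _ r hr
    · exact ob_wires _ _ r hr
  · rw [blockRooms, List.mem_append] at hr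
    rcases hr with hr | hr
    · unfold gateRooms at hr
      split_ifs at hr
      · exact ob_lin _ _ (by norm_num) r hr
      · exact ob_lin _ _ (by norm_num) r hr
      · exact ob_lin _ _ (by norm_num) r hr
      · exact ob_mulR _ _ r hr
    · exact ob_wires _ _ r hr

theorem ob_src (i : ℕ) : ∀ r ∈ srcRooms i, Ob r := by
  intro r hr
  rw [srcRooms_eq, List.mem_append, List.mem_append] at hr
  rcases hr with (hr | hr) | hr
  · simp only [src4, List.mem_cons, List.not_mem_nil, or_false] at hr
    rcases hr with rfl | rfl | rfl | rfl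
    · exact ob_fork _ _ _ _
    · exact ob_pin _ _ _
    · exact ob_fork _ _ _ _
    · exact ob_lpin _ _ _
  · exact ob_pins _ _ _ r hr
  · exact ob_pins _ _ _ r hr

theorem zipIdx_lt {α : Type} (l : List α) (k : ℕ) :
    (l.zipIdx k).Pairwise (fun a b => a.2 < b.2) := by
  induction l generalizing k with
  | nil => exact List.Pairwise.nil
  | cons a l ih =>
    rw [List.zipIdx_cons, List.pairwise_cons]
    refine ⟨fun q hq => ?_, ih _⟩
    have := List.le_snd_of_mem_zipIdx hq
    show k < q.2
    omega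

end N1

/-- N1 -/
theorem layout_sep (n : ℕ) (gs : List Gate) (h : InRange (2 * n) gs) :
    (layout n gs).Pairwise Sep := by
  rw [layout, progRooms, List.pairwise_append, List.pairwise_flatMap, List.pairwise_flatMap]
  refine ⟨⟨fun i _ => N1.src_sep i, ?_⟩, ⟨fun q _ => N1.block_sep _ _ _, ?_⟩, ?_⟩
  · refine List.pairwise_lt_range.imp (fun {a b} hab x hx y hy => ?_)
    exact N1.sep_lane (N1.src_bd a x hx) (N1.src_bd b y hy) (by omega)
  · refine (N1.zipIdx_lt _ 0).imp (fun {a b} hab x hx y hy => ?_)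
    have h1 := N1.block_col _ _ _ x hx
    have h2 := N1.block_col _ _ _ y hy
    unfold Sep
    omega
  · intro x hx y hy
    obtain ⟨i, -, hx⟩ := List.mem_flatMap.1 hx
    obtain ⟨q, -, hy⟩ := List.mem_flatMap.1 hy
    have h1 := N1.src_bd i x hx
    have h2 := N1.block_col _ _ _ y hy
    unfold N1.Bd at h1
    unfold Sep
    omega

/-- N1' -/
theorem layout_obst (n : ℕ) (gs : List Gate) :
    ∀ r ∈ layout n gs, ∀ o ∈ r.obst, o.2.1 ≠ o.2.2 := by
  intro r hr
  rw [layout, progRooms, List.mem_append] at hr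
  rcases hr with hr | hr
  · obtain ⟨i, -, hr⟩ := List.mem_flatMap.1 hr
    exact N1.ob_src i r hr
  · obtain ⟨q, -, hr⟩ := List.mem_flatMap.1 hr
    exact N1.ob_block _ _ _ r hr

end Pool.Agent.SegDraw
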