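import Pool.Agent.Lib.MP_431574_lc.Code

/-!
# N4: network completeness with explicit values
-/

namespace Pool.Agent.SegDraw

namespace N4

/-- value of an optional literal -/
noncomputable def oval (x : ℕ → ℝ) : Option ℕ → ℝ
  | none => 0
  | some l => litVal x l

/-- effect of an operation on the labels of the wires -/
def step (n : ℕ) : Op → (ℕ → Option ℕ) → ℕ → Option ℕ
  | .swap i, lab => fun l => if l = i then lab (i + 1) else if l = i + 1 then lab i else lab l
  | .copy i, lab => fun l => if l = i + 1 then lab i else lab l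
  | .gate _, lab => fun l => if l < 2 * n then lab l else none

/-- effect of a program -/
def run (n : ℕ) : List Op → (ℕ → Option ℕ) → ℕ → Option ℕ
  | [], lab => lab
  | o :: ops, lab => run n ops (step n o lab)

/-- initial labels -/
def init (n : ℕ) : ℕ → Option ℕ := fun l => if l < 2 * n then some l else none

/-- values on a plain wire and on odd lanes -/
noncomputable def wireVal (H : ℕ → ℝ) (e : ℝ) (t j : ℕ) : ℝ :=
  if j % 2 = 0 then (-1) ^ t * (H (j / 2) + t * e) else if t = 0 then 1 / 2 - e else 0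

/-- values in a swap block -/
def swapVal (a B e : ℝ) : ℕ → ℕ → ℝ
  | 1, 0 => -a + e
  | 1, 1 => -a - e
  | 1, 2 => -B - e
  | 1, 3 => -B + e
  | 2, 0 => a - 2 * e
  | 2, 3 => B - 2 * e
  | 3, 0 => -a + 3 * e
  | 3, 3 => -B + 3 * e
  | 3, 1 => a + B + 3 * e
  | 4, 0 => a - 4 * e
  | 4, 3 => B - 4 * e
  | 4, 1 => -a - B - 4 * e
  | 4, 2 => -a - B - 4 * e
  | 6, 0 => B + 9 * e
  | 6, 2 => a + 9 * e
  | 7, 0 => -B - 10 * e
  | 7, 2 => -a - 10 * e
  | _, _ => 0

theorem swap_strong {v : ℕ → ℕ → ℝ} {c b : ℕ} {a B e : ℝ} (he : 0 < e) (he' : e ≤ 1 / 1000)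
    (ha : |a| ≤ 1 / 8) (hB : |B| ≤ 1 / 8) (h00 : v c b = a) (h02 : v c (b + 2) = B)
    (h : ∀ t s, 1 ≤ t → t < 8 → s < 4 → v (c + t) (b + s) = swapVal a B e t s)
    (h80 : B + 10 * e < v (c + 8) b) (h82 : a + 10 * e < v (c + 8) (b + 2)) :
    ∀ r ∈ swapRooms c b, r.Strong v := by
  have h10 : v (c + 1) b = -a + e := h 1 0 (by norm_num) (by norm_num) (by norm_num)
  have h11 : v (c + 1) (b + 1) = -a - e := h 1 1 (by norm_num) (by norm_num) (by norm_num)
  have h12 : v (c + 1) (b + 2) = -B - e := h 1 2 (by norm_num) (by norm_num) (by norm_num)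
  have h13 : v (c + 1) (b + 3) = -B + e := h 1 3 (by norm_num) (by norm_num) (by norm_num)
  have h20 : v (c + 2) b = a - 2 * e := h 2 0 (by norm_num) (by norm_num) (by norm_num)
  have h23 : v (c + 2) (b + 3) = B - 2 * e := h 2 3 (by norm_num) (by norm_num) (by norm_num)
  have h30 : v (c + 3) b = -a + 3 * e := h 3 0 (by norm_num) (by norm_num) (by norm_num)
  have h33 : v (c + 3) (b + 3) = -B + 3 * e := h 3 3 (by norm_num) (by norm_num) (by norm_num)
  have h31 : v (c + 3) (b + 1) = a + B + 3 * e := h 3 1 (by norm_num) (by norm_num) (by norm_num)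
  have h40 : v (c + 4) b = a - 4 * e := h 4 0 (by norm_num) (by norm_num) (by norm_num)
  have h43 : v (c + 4) (b + 3) = B - 4 * e := h 4 3 (by norm_num) (by norm_num) (by norm_num)
  have h41 : v (c + 4) (b + 1) = -a - B - 4 * e := h 4 1 (by norm_num) (by norm_num) (by norm_num)
  have h42 : v (c + 4) (b + 2) = -a - B - 4 * e := h 4 2 (by norm_num) (by norm_num) (by norm_num)
  have h60 : v (c + 6) b = B + 9 * e := h 6 0 (by norm_num) (by norm_num) (by norm_num)
  have h62 : v (c + 6) (b + 2) = a + 9 * e := h 6 2 (by norm_num) (by norm_num) (by norm_num)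
  have h70 : v (c + 7) b = -B - 10 * e := h 7 0 (by norm_num) (by norm_num) (by norm_num)
  have h72 : v (c + 7) (b + 2) = -a - 10 * e := h 7 2 (by norm_num) (by norm_num) (by norm_num)
  rw [abs_le] at ha hB
  intro r hr
  simp only [swapRooms, List.mem_cons, List.not_mem_nil, or_false] at hr
  rcases hr with rfl | rfl | rfl | rfl | rfl | rfl | rfl | rfl | rfl | rfl | rfl | rfl | rfl | rfl |
    rfl | rfl
  all_goals
    simp only [Room.Strong, Room.St, Nat.add_assoc, Nat.reduceAdd, Bool.false_eq_true, if_false,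
      if_true, h00, h02, h10, h11, h12, h13, h20, h23, h30, h33, h31, h40, h43, h41, h42, h60, h62,
      h70, h72]
  all_goals (repeat' apply And.intro)
  all_goals linarith

/-- values in a copy block -/
noncomputable def copyVal (a e : ℝ) (t s : ℕ) : ℝ :=
  if s = 1 then (if t = 1 then -a - e else if t = 2 then a + 2 * e else 0)
  else if s = 2 ∧ t = 1 then 0
  else (-1) ^ t * (a + t * e)

/-- values in a linear gate -/
def linVal (p q r e : ℝ) : ℕ → ℕ → ℝ
  | 1, 0 => -p - e
  | 1, 1 => -p - e
  | 1, 2 => -q - e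
  | 2, 4 => -r - e
  | 3, 4 => r + 2 * e
  | 3, 1 => p + q + 3 * e
  | 4, 1 => -p - q - 4 * e
  | 4, 2 => -p - q - 4 * e
  | 4, 4 => -r - 3 * e
  | 5, 2 => p + q + 5 * e
  | 5, 3 => p + q + 5 * e
  | 5, 4 => r + 4 * e
  | 6, 3 => -p - q - 6 * e
  | 6, 4 => -r - 5 * e
  | _, _ => 0

/-- values in a multiplication gate -/
def mulVal (p q r e : ℝ) : ℕ → ℕ → ℝ
  | 1, 0 => -p - e
  | 1, 1 => -p - e
  | 1, 2 => -q - e
  | 1, 3 => -q - e
  | 1, 4 => -r - e
  | 2, 1 => p + 2 * e
  | 2, 2 => p + 2 * e
  | 2, 3 => q + 2 * e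
  | 2, 4 => r + 2 * e
  | _, _ => 0

/-- values in the block `0` -/
def srcVal (X e : ℝ) : ℕ → ℕ → ℝ
  | 0, 0 => X
  | 1, 0 => -X - e
  | 1, 1 => -X + e
  | 2, 0 => X + 2 * e
  | 2, 1 => X - 2 * e
  | 2, 2 => X - 2 * e
  | 3, 0 => -X - 3 * e
  | 4, 0 => X + 4 * e
  | 4, 2 => -X + 3 * e
  | 5, 0 => -X - 5 * e
  | 5, 2 => X - 4 * e
  | 6, 0 => X + 6 * e
  | 6, 2 => -X + 5 * e
  | 7, 0 => -X - 7 * e
  | 7, 2 => X - 6 * e
  | _, _ => 0

theorem pins_strong {v : ℕ → ℕ → ℝ} {k t0 j : ℕ} {a e : ℝ} (he : 0 < e)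
    (h : ∀ t, t0 ≤ t → t < 8 → v (8 * k + t) j = (-1) ^ t * (a + t * e))
    (h8 : a + 7 * e < v (8 * k + 8) j) : ∀ r ∈ pins k t0 j, r.Strong v := by
  intro r hr
  simp only [pins, List.mem_map, List.mem_range] at hr
  obtain ⟨t, ht, rfl⟩ := hr
  have ht8 : t0 + t < 8 := by omega
  have h1 := h (t0 + t) (by omega) ht8
  rw [← Nat.add_assoc] at h1
  simp only [Room.Strong]
  rw [h1]
  by_cases h7 : t0 + t = 7
  · have h2 : 8 * k + t0 + t + 1 = 8 * k + 8 := by omega
    rw [h2, h7]
    have h3 : (7 % 2 = 0) = False := by norm_num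
    simp only [Room.St, h3, decide_false, Bool.false_eq_true, if_false]
    push_cast
    norm_num
    linarith
  · have h2 := h (t0 + t + 1) (by omega) (by omega)
    have h3 : 8 * k + (t0 + t + 1) = 8 * k + t0 + t + 1 := by omega
    rw [h3] at h2
    rw [h2]
    generalize t0 + t = s
    rcases Nat.even_or_odd s with hs | hs
    · have h4 : s % 2 = 0 := Nat.even_iff.1 hs
      simp only [Room.St, h4, decide_true, if_true]
      rw [pow_succ, hs.neg_one_pow]
      push_cast
      linarith
    · have h4 : ¬ (s % 2 = 0) := by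
        have := Nat.odd_iff.1 hs
        omega
      simp only [Room.St, h4, decide_false, Bool.false_eq_true, if_false]
      rw [pow_succ, hs.neg_one_pow]
      push_cast
      linarith

theorem copy_strong {v : ℕ → ℕ → ℝ} {k b : ℕ} {a e : ℝ} (he : 0 < e)
    (h00 : v (8 * k) b = a)
    (h : ∀ t s, 1 ≤ t → t < 8 → s < 3 → v (8 * k + t) (b + s) = copyVal a e t s)
    (h80 : a + 7 * e < v (8 * k + 8) b) (h82 : a + 7 * e < v (8 * k + 8) (b + 2)) :
    ∀ r ∈ copyRooms (8 * k) b ++ pins k 2 b ++ pins k 2 (b + 2), r.Strong v := by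
  have h10 : v (8 * k + 1) b = -a - e := by
    have := h 1 0 (by norm_num) (by norm_num) (by norm_num)
    simp only [copyVal] at this
    norm_num at this
    linarith
  have h11 : v (8 * k + 1) (b + 1) = -a - e := by
    have := h 1 1 (by norm_num) (by norm_num) (by norm_num)
    simp only [copyVal] at this
    norm_num at this
    linarith
  have h20 : v (8 * k + 2) b = a + 2 * e := by
    have := h 2 0 (by norm_num) (by norm_num) (by norm_num)
    simp only [copyVal] at this
    norm_num at this
    linarith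
  have h21 : v (8 * k + 2) (b + 1) = a + 2 * e := by
    have := h 2 1 (by norm_num) (by norm_num) (by norm_num)
    simp only [copyVal] at this
    norm_num at this
    linarith
  have h22 : v (8 * k + 2) (b + 2) = a + 2 * e := by
    have := h 2 2 (by norm_num) (by norm_num) (by norm_num)
    simp only [copyVal] at this
    norm_num at this
    linarith
  intro r hr
  rw [List.mem_append, List.mem_append] at hr
  rcases hr with (hr | hr) | hr
  · simp only [copyRooms, List.mem_cons, List.not_mem_nil, or_false] at hr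
    rcases hr with rfl | rfl | rfl
    all_goals
      simp only [Room.Strong, Room.St, Nat.add_assoc, Nat.reduceAdd, Bool.false_eq_true, if_false,
        if_true, h00, h10, h11, h20, h21, h22]
    all_goals (repeat' apply And.intro)
    all_goals linarith
  · refine pins_strong he (a := a) (fun t ht ht8 => ?_) h80 r hr
    have := h t 0 (by omega) ht8 (by norm_num)
    simpa [copyVal] using this
  · refine pins_strong he (a := a) (fun t ht ht8 => ?_) h82 r hr
    have := h t 2 (by omega) ht8 (by norm_num)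
    have ht1 : t ≠ 1 := by omega
    simpa [copyVal, ht1] using this

theorem lin_strong {v : ℕ → ℕ → ℝ} {c b P : ℕ} {p q r e : ℝ} (he : 0 < e) (he' : e ≤ 1 / 1000)
    (hp : |p| ≤ 1 / 8) (hq : |q| ≤ 1 / 8) (hr : |r| ≤ 1 / 8) (h00 : v c b = p)
    (h02 : v c (b + 2) = q) (h04 : v c (b + 4) = r)
    (h : ∀ t s, 1 ≤ t → t < 8 → s < 5 → v (c + t) (b + s) = linVal p q r e t s)
    (h83 : v (c + 8) (b + 3) = 1 / 2 - e) (hP : 315 ≤ P) (hP' : P ≤ 325)
    (hPr : p + q + r + 12 * e < 4 - (P : ℝ) / 80) :
    ∀ r ∈ linRooms c b P, r.Strong v := by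
  have h10 : v (c + 1) b = -p - e := h 1 0 (by norm_num) (by norm_num) (by norm_num)
  have h11 : v (c + 1) (b + 1) = -p - e := h 1 1 (by norm_num) (by norm_num) (by norm_num)
  have h12 : v (c + 1) (b + 2) = -q - e := h 1 2 (by norm_num) (by norm_num) (by norm_num)
  have h24 : v (c + 2) (b + 4) = -r - e := h 2 4 (by norm_num) (by norm_num) (by norm_num)
  have h34 : v (c + 3) (b + 4) = r + 2 * e := h 3 4 (by norm_num) (by norm_num) (by norm_num)
  have h31 : v (c + 3) (b + 1) = p + q + 3 * e := h 3 1 (by norm_num) (by norm_num) (by norm_num)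
  have h41 : v (c + 4) (b + 1) = -p - q - 4 * e := h 4 1 (by norm_num) (by norm_num) (by norm_num)
  have h42 : v (c + 4) (b + 2) = -p - q - 4 * e := h 4 2 (by norm_num) (by norm_num) (by norm_num)
  have h44 : v (c + 4) (b + 4) = -r - 3 * e := h 4 4 (by norm_num) (by norm_num) (by norm_num)
  have h52 : v (c + 5) (b + 2) = p + q + 5 * e := h 5 2 (by norm_num) (by norm_num) (by norm_num)
  have h53 : v (c + 5) (b + 3) = p + q + 5 * e := h 5 3 (by norm_num) (by norm_num) (by norm_num)
  have h54 : v (c + 5) (b + 4) = r + 4 * e := h 5 4 (by norm_num) (by norm_num) (by norm_num)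
  have h63 : v (c + 6) (b + 3) = -p - q - 6 * e := h 6 3 (by norm_num) (by norm_num) (by norm_num)
  have h64 : v (c + 6) (b + 4) = -r - 5 * e := h 6 4 (by norm_num) (by norm_num) (by norm_num)
  rw [abs_le] at hp hq hr
  have hPc : (315 : ℝ) ≤ P := by exact_mod_cast hP
  have hPc' : (P : ℝ) ≤ 325 := by exact_mod_cast hP'
  intro r hr
  simp only [linRooms, List.mem_cons, List.not_mem_nil, or_false] at hr
  rcases hr with rfl | rfl | rfl | rfl | rfl | rfl | rfl | rfl | rfl | rfl | rfl | rfl
  all_goals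
    simp only [Room.Strong, Room.St, Nat.add_assoc, Nat.reduceAdd, Bool.false_eq_true, if_false,
      if_true, h00, h02, h04, h10, h11, h12, h24, h34, h31, h41, h42, h44, h52, h53, h54, h63, h64,
      h83]
  all_goals (repeat' apply And.intro)
  all_goals linarith

theorem mul_strong {v : ℕ → ℕ → ℝ} {c b : ℕ} {p q r e : ℝ} (he : 0 < e)
    (hp : |p + 2 * e| < 1 / 8) (hq : |q + 2 * e| < 1 / 8) (hr : |r + 2 * e| < 1 / 8)
    (h00 : v c b = p) (h02 : v c (b + 2) = q) (h04 : v c (b + 4) = r)
    (h : ∀ t s, 1 ≤ t → t < 8 → s < 5 → v (c + t) (b + s) = mulVal p q r e t s)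
    (hm : 1 + (q + 2 * e) < (1 - (p + 2 * e)) * (1 - (r + 2 * e))) :
    ∀ r ∈ mulRooms c b, r.Strong v := by
  have h10 : v (c + 1) b = -p - e := h 1 0 (by norm_num) (by norm_num) (by norm_num)
  have h11 : v (c + 1) (b + 1) = -p - e := h 1 1 (by norm_num) (by norm_num) (by norm_num)
  have h12 : v (c + 1) (b + 2) = -q - e := h 1 2 (by norm_num) (by norm_num) (by norm_num)
  have h13 : v (c + 1) (b + 3) = -q - e := h 1 3 (by norm_num) (by norm_num) (by norm_num)
  have h14 : v (c + 1) (b + 4) = -r - e := h 1 4 (by norm_num) (by norm_num) (by norm_num)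
  have h21 : v (c + 2) (b + 1) = p + 2 * e := h 2 1 (by norm_num) (by norm_num) (by norm_num)
  have h22 : v (c + 2) (b + 2) = p + 2 * e := h 2 2 (by norm_num) (by norm_num) (by norm_num)
  have h23 : v (c + 2) (b + 3) = q + 2 * e := h 2 3 (by norm_num) (by norm_num) (by norm_num)
  have h24 : v (c + 2) (b + 4) = r + 2 * e := h 2 4 (by norm_num) (by norm_num) (by norm_num)
  intro r hr
  simp only [mulRooms, List.mem_cons, List.not_mem_nil, or_false] at hr
  rcases hr with rfl | rfl | rfl | rfl | rfl | rfl | rfl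
  all_goals
    simp only [Room.Strong, Room.St, Nat.add_assoc, Nat.reduceAdd, Bool.false_eq_true, if_false,
      if_true, h00, h02, h04, h10, h11, h12, h13, h14, h21, h22, h23, h24]
  · exact ⟨by linarith, by linarith⟩
  · exact ⟨by linarith, by linarith⟩
  · linarith
  · exact ⟨by linarith, by linarith⟩
  · linarith
  · linarith
  · exact ⟨hm, hp, hq, hr⟩

theorem src_strong {v : ℕ → ℕ → ℝ} {i : ℕ} {X e : ℝ} (he : 0 < e)
    (h : ∀ t s, t < 8 → s < 4 → v t (4 * i + s) = srcVal X e t s)
    (h80 : X + 7 * e < v 8 (4 * i)) (h82 : -X + 7 * e < v 8 (4 * i + 2)) :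
    ∀ r ∈ srcRooms i, r.Strong v := by
  have h00 : v 0 (4 * i) = X := h 0 0 (by norm_num) (by norm_num)
  have h10 : v 1 (4 * i) = -X - e := h 1 0 (by norm_num) (by norm_num)
  have h11 : v 1 (4 * i + 1) = -X + e := h 1 1 (by norm_num) (by norm_num)
  have h20 : v 2 (4 * i) = X + 2 * e := h 2 0 (by norm_num) (by norm_num)
  have h21 : v 2 (4 * i + 1) = X - 2 * e := h 2 1 (by norm_num) (by norm_num)
  have h22 : v 2 (4 * i + 2) = X - 2 * e := h 2 2 (by norm_num) (by norm_num)
  have h30 : v 3 (4 * i) = -X - 3 * e := h 3 0 (by norm_num) (by norm_num)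
  have h40 : v 4 (4 * i) = X + 4 * e := h 4 0 (by norm_num) (by norm_num)
  have h42 : v 4 (4 * i + 2) = -X + 3 * e := h 4 2 (by norm_num) (by norm_num)
  have h50 : v 5 (4 * i) = -X - 5 * e := h 5 0 (by norm_num) (by norm_num)
  have h52 : v 5 (4 * i + 2) = X - 4 * e := h 5 2 (by norm_num) (by norm_num)
  have h60 : v 6 (4 * i) = X + 6 * e := h 6 0 (by norm_num) (by norm_num)
  have h62 : v 6 (4 * i + 2) = -X + 5 * e := h 6 2 (by norm_num) (by norm_num)
  have h70 : v 7 (4 * i) = -X - 7 * e := h 7 0 (by norm_num) (by norm_num)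
  have h72 : v 7 (4 * i + 2) = X - 6 * e := h 7 2 (by norm_num) (by norm_num)
  intro r hr
  rw [srcRooms, List.mem_append, List.mem_append] at hr
  rcases hr with (hr | hr) | hr
  · simp only [List.mem_cons, List.not_mem_nil, or_false] at hr
    rcases hr with rfl | rfl | rfl | rfl
    all_goals
      simp only [Room.Strong, Room.St, Nat.add_assoc, Nat.reduceAdd, Bool.false_eq_true, if_false,
        if_true, h00, h10, h11, h20, h21, h22, h42]
    all_goals (repeat' apply And.intro)
    all_goals linarith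
  · refine pins_strong he (a := X) (fun t ht ht8 => ?_) (by simpa using h80) r hr
    rw [Nat.mul_zero, Nat.zero_add]
    interval_cases t
    · rw [h20]; norm_num
    · rw [h30]; norm_num; ring
    · rw [h40]; norm_num
    · rw [h50]; norm_num; ring
    · rw [h60]; norm_num
    · rw [h70]; norm_num; ring
  · refine pins_strong he (a := -X - e) (fun t ht ht8 => ?_)
      (by simp only [Nat.mul_zero, Nat.zero_add]; linarith) r hr
    rw [Nat.mul_zero, Nat.zero_add]
    interval_cases t
    · rw [h42]; norm_num; ring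
    · rw [h52]; norm_num; ring
    · rw [h62]; norm_num; ring
    · rw [h72]; norm_num; ring

/-! ### labels -/

theorem run_append (n : ℕ) (a b : List Op) (lab : ℕ → Option ℕ) :
    run n (a ++ b) lab = run n b (run n a lab) := by
  induction a generalizing lab with
  | nil => rfl
  | cons o a ih => exact ih _

/-- the gates of the program find their arguments on the upper wires -/
def Good (n : ℕ) (gs : List Gate) : List Op → (ℕ → Option ℕ) → Prop
  | [], _ => True
  | o :: ops, lab => (∀ kind, o = .gate kind → ∃ g ∈ gs, g.1 = kind ∧ lab (2 * n) = some g.2.1 ∧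
      lab (2 * n + 1) = some g.2.2.1 ∧ lab (2 * n + 2) = some g.2.2.2) ∧
      Good n gs ops (step n o lab)

theorem Good.append {n : ℕ} {gs : List Gate} {a b : List Op} {lab : ℕ → Option ℕ}
    (h1 : Good n gs a lab) (h2 : Good n gs b (run n a lab)) : Good n gs (a ++ b) lab := by
  induction a generalizing lab with
  | nil => exact h2
  | cons o a ih => exact ⟨h1.1, ih h1.2 h2⟩

theorem Good.get {n : ℕ} {gs : List Gate} {ops : List Op} {lab : ℕ → Option ℕ}
    (h : Good n gs ops lab) {k kind : ℕ} (hk : ops[k]? = some (.gate kind)) :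
    ∃ g ∈ gs, g.1 = kind ∧ run n (ops.take k) lab (2 * n) = some g.2.1 ∧
      run n (ops.take k) lab (2 * n + 1) = some g.2.2.1 ∧
      run n (ops.take k) lab (2 * n + 2) = some g.2.2.2 := by
  induction ops generalizing lab k with
  | nil => simp at hk
  | cons o ops ih =>
    cases k with
    | zero =>
      simp only [List.getElem?_cons_zero, Option.some.injEq] at hk
      exact h.1 kind hk
    | succ k =>
      rw [List.getElem?_cons_succ] at hk
      exact ih h.2 hk

theorem good_of_noGate {n : ℕ} {gs : List Gate} {ops : List Op}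
    (h : ∀ o ∈ ops, ∀ kind, o ≠ .gate kind) (lab : ℕ → Option ℕ) : Good n gs ops lab := by
  induction ops generalizing lab with
  | nil => trivial
  | cons o ops ih =>
    exact ⟨fun kind ho => absurd ho (h o List.mem_cons_self kind),
      ih (fun o' ho' => h o' (List.mem_cons_of_mem _ ho')) _⟩

theorem run_down (n T : ℕ) (lab : ℕ → Option ℕ) (d : ℕ) (hd : d ≤ T) :
    run n ((List.range d).map (fun d => Op.swap (T - 1 - d))) lab =
      fun l => if l = T - d then lab T else if T - d < l ∧ l ≤ T then lab (l - 1) else lab l := by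
  induction d with
  | zero =>
    funext l
    simp only [List.range_zero, List.map_nil, run, Nat.sub_zero]
    by_cases h1 : l = T
    · rw [if_pos h1, h1]
    · rw [if_neg h1, if_neg (by omega)]
  | succ d ih =>
    rw [List.range_succ, List.map_append, run_append, ih (by omega)]
    funext l
    simp only [List.map_cons, List.map_nil, run, step]
    have e1 : T - 1 - d + 1 = T - d := by omega
    rw [e1]
    by_cases h1 : l = T - 1 - d
    · rw [if_pos h1, if_pos rfl, if_pos (by omega)]
    · rw [if_neg h1]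
      by_cases h2 : l = T - d
      · rw [if_pos h2, if_neg (by omega : ¬ T - 1 - d = T - d), if_neg (by omega),
          if_neg (by omega : ¬ l = T - (d + 1)), if_pos (by omega)]
        congr 1
        omega
      · rw [if_neg h2, if_neg h2, if_neg (by omega : ¬ l = T - (d + 1))]
        by_cases h3 : T - d < l ∧ l ≤ T
        · rw [if_pos h3, if_pos (by omega)]
        · rw [if_neg h3, if_neg (by omega)]

theorem run_up (n b : ℕ) (lab : ℕ → Option ℕ) (d : ℕ) :
    run n ((List.range d).map (fun d => Op.swap (b + 1 + d))) lab =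
      fun l => if l = b + 1 + d then lab (b + 1) else
        if b + 1 ≤ l ∧ l < b + 1 + d then lab (l + 1) else lab l := by
  induction d with
  | zero =>
    funext l
    simp only [List.range_zero, List.map_nil, run, Nat.add_zero]
    by_cases h1 : l = b + 1
    · rw [if_pos h1, h1]
    · rw [if_neg h1, if_neg (by omega)]
  | succ d ih =>
    rw [List.range_succ, List.map_append, run_append, ih]
    funext l
    simp only [List.map_cons, List.map_nil, run, step]
    by_cases h1 : l = b + 1 + d
    · rw [if_pos h1, if_neg (by omega), if_neg (by omega), if_neg (by omega), if_pos (by omega), h1]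
    · rw [if_neg h1]
      by_cases h2 : l = b + 1 + d + 1
      · rw [if_pos h2, if_pos trivial, if_pos (by omega)]
      · rw [if_neg h2, if_neg h1, if_neg (by omega : ¬ l = b + 1 + (d + 1))]
        by_cases h3 : b + 1 ≤ l ∧ l < b + 1 + d
        · rw [if_pos h3, if_pos (by omega)]
        · rw [if_neg h3, if_neg (by omega)]

theorem run_fetch (n : ℕ) {b T : ℕ} (hb : b < T) (lab : ℕ → Option ℕ) :
    run n (fetch b T) lab = Function.update lab T (lab b) := by
  rw [fetch, run_append, run_append, run_down n T lab (T - 1 - b) (by omega)]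
  simp only [run]
  rw [run_up]
  funext l
  simp only [step, Function.update_apply]
  have e1 : T - (T - 1 - b) = b + 1 := by omega
  have e2 : b + 1 + (T - 1 - b) = T := by omega
  rw [e1, e2]
  by_cases h1 : l = T
  · rw [if_pos h1, if_pos trivial, if_neg (by omega : ¬ b = b + 1), if_neg (by omega), if_pos h1]
  · rw [if_neg h1, if_neg h1]
    by_cases h2 : b + 1 ≤ l ∧ l < T
    · rw [if_pos h2, if_neg (by omega), if_neg (by omega), if_pos (by omega)]
      rfl
    · rw [if_neg h2]
      by_cases h3 : l = b + 1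
      · omega
      · rw [if_neg h3, if_neg h3, if_neg (by omega)]

theorem noGate_fetch (b T : ℕ) : ∀ o ∈ fetch b T, ∀ kind, o ≠ .gate kind := by
  intro o ho kind
  simp only [fetch, List.mem_append, List.mem_map, List.mem_singleton] at ho
  rcases ho with (⟨d, -, rfl⟩ | rfl) | ⟨d, -, rfl⟩ <;> simp

theorem good_gateProg {n : ℕ} {gs : List Gate} {g : Gate} (hg : g ∈ gs) (h1 : g.2.1 < 2 * n)
    (h2 : g.2.2.1 < 2 * n) (h3 : g.2.2.2 < 2 * n) {lab : ℕ → Option ℕ}
    (hl : ∀ l < 2 * n, lab l = some l) : Good n gs (gateProg n g) lab ∧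
      ∀ l < 2 * n, run n (gateProg n g) lab l = some l := by
  have r1 := run_fetch n (b := g.2.2.2) (T := 2 * n + 2) (by omega) lab
  set lab1 := Function.update lab (2 * n + 2) (lab g.2.2.2) with hlab1
  have r2 := run_fetch n (b := g.2.2.1) (T := 2 * n + 1) (by omega) lab1
  set lab2 := Function.update lab1 (2 * n + 1) (lab1 g.2.2.1) with hlab2
  have r3 := run_fetch n (b := g.2.1) (T := 2 * n) (by omega) lab2
  set lab3 := Function.update lab2 (2 * n) (lab2 g.2.1) with hlab3
  have e1 : ∀ l < 2 * n, lab1 l = some l := fun l hl' => by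
    rw [hlab1, Function.update_of_ne (by omega), hl l hl']
  have e2 : ∀ l < 2 * n, lab2 l = some l := fun l hl' => by
    rw [hlab2, Function.update_of_ne (by omega), e1 l hl']
  have e3 : ∀ l < 2 * n, lab3 l = some l := fun l hl' => by
    rw [hlab3, Function.update_of_ne (by omega), e2 l hl']
  have hrun : run n (fetch g.2.2.2 (2 * n + 2) ++ fetch g.2.2.1 (2 * n + 1) ++
      fetch g.2.1 (2 * n)) lab = lab3 := by
    rw [run_append, run_append, r1, r2, r3]
  constructor
  · rw [gateProg]
    refine Good.append (good_of_noGate ?_ _) ?_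
    · intro o ho
      simp only [List.mem_append] at ho
      rcases ho with (ho | ho) | ho
      · exact noGate_fetch _ _ o ho
      · exact noGate_fetch _ _ o ho
      · exact noGate_fetch _ _ o ho
    · rw [hrun]
      refine ⟨fun kind hk => ⟨g, hg, ?_, ?_, ?_, ?_⟩, trivial⟩
      · simpa using hk
      · rw [hlab3, Function.update_self, e2 _ h1]
      · rw [hlab3, Function.update_of_ne (by omega), hlab2, Function.update_self, e1 _ h2]
      · rw [hlab3, Function.update_of_ne (by omega), hlab2, Function.update_of_ne (by omega),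
          hlab1, Function.update_self, hl _ h3]
  · intro l hl'
    rw [gateProg, run_append, hrun]
    simp only [run, step]
    rw [if_pos hl', e3 l hl']

theorem good_prog {n : ℕ} {gs : List Gate} (h : InRange (2 * n) gs) (gs' : List Gate)
    (hs : ∀ g ∈ gs', g ∈ gs) {lab : ℕ → Option ℕ} (hl : ∀ l < 2 * n, lab l = some l) :
    Good n gs (prog n gs') lab := by
  induction gs' generalizing lab with
  | nil => trivial
  | cons g gs' ih =>
    obtain ⟨h1, h2, h3⟩ := h g (hs g List.mem_cons_self)
    obtain ⟨k1, k2⟩ := good_gateProg (hs g List.mem_cons_self) h1 h2 h3 hl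
    rw [prog, List.flatMap_cons]
    exact Good.append k1 (ih (fun g' hg' => hs g' (List.mem_cons_of_mem _ hg')) k2)

theorem good_init {n : ℕ} {gs : List Gate} (h : InRange (2 * n) gs) :
    Good n gs (prog n gs) (init n) :=
  good_prog h gs (fun _ h => h) (fun l hl => by rw [init, if_pos hl])

/-! ### margins -/

theorem litVal_le {x : ℕ → ℝ} (hx : ∀ i, |x i| ≤ 7 / 64) (l : ℕ) : |litVal x l| ≤ 7 / 64 := by
  unfold litVal
  split_ifs
  · exact hx _
  · rw [abs_neg]; exact hx _

theorem oval_le {x : ℕ → ℝ} (hx : ∀ i, |x i| ≤ 7 / 64) (o : Option ℕ) : |oval x o| ≤ 7 / 64 := by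
  cases o with
  | none => simp only [oval, abs_zero]; norm_num
  | some l => exact litVal_le hx l

theorem gateRel_anti {kind : ℕ} {a b c a' b' c' : ℝ} (ha : a' ≤ a) (hb : b' ≤ b) (hc : c' ≤ c)
    (ha1 : a ≤ 1) (hc1 : c ≤ 1) (h : gateRel kind a b c) : gateRel kind a' b' c' := by
  unfold gateRel at h ⊢
  split_ifs at h ⊢
  · linarith
  · linarith
  · linarith
  · have h1 : (1 - a) * (1 - c) ≤ (1 - a') * (1 - c') :=
      mul_le_mul (by linarith) (by linarith) (by linarith) (by linarith)
    linarith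

theorem margin_one {kind : ℕ} {a b c : ℝ} (ha : |a| ≤ 7 / 64) (hc : |c| ≤ 7 / 64)
    (h : gateRel kind a b c) :
    ∃ δ > 0, δ ≤ 1 / 64 ∧ gateRel kind (a + δ) (b + δ) (c + δ) := by
  rw [abs_le] at ha hc
  unfold gateRel at h ⊢
  split_ifs at h ⊢
  · have h1 := min_le_left (-(a + b + c) / 6) (1 / 64)
    exact ⟨min (-(a + b + c) / 6) (1 / 64), lt_min (by linarith) (by norm_num),
      min_le_right _ _, by linarith⟩
  · have h1 := min_le_left ((1 / 16 - (a + b + c)) / 6) (1 / 64)
    exact ⟨min ((1 / 16 - (a + b + c)) / 6) (1 / 64), lt_min (by linarith) (by norm_num),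
      min_le_right _ _, by linarith⟩
  · have h1 := min_le_left ((-(1 / 16) - (a + b + c)) / 6) (1 / 64)
    exact ⟨min ((-(1 / 16) - (a + b + c)) / 6) (1 / 64), lt_min (by linarith) (by norm_num),
      min_le_right _ _, by linarith⟩
  · have h1 := min_le_left (((1 - a) * (1 - c) - (1 + b)) / 8) (1 / 64)
    have h2 : 0 < min (((1 - a) * (1 - c) - (1 + b)) / 8) (1 / 64) :=
      lt_min (by linarith) (by norm_num)
    refine ⟨min (((1 - a) * (1 - c) - (1 + b)) / 8) (1 / 64), h2, min_le_right _ _, ?_⟩
    generalize min (((1 - a) * (1 - c) - (1 + b)) / 8) (1 / 64) = δ at h1 h2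
    have h3 : (1 - (a + δ)) * (1 - (c + δ)) = (1 - a) * (1 - c) - δ * (2 - a - c) + δ * δ := by
      ring
    have h4 : δ * (2 - a - c) ≤ δ * 3 := mul_le_mul_of_nonneg_left (by linarith) h2.le
    have h5 : 0 < δ * δ := mul_pos h2 h2
    rw [h3]
    linarith

theorem margin {x : ℕ → ℝ} (hx : ∀ i, |x i| ≤ 7 / 64) (gs : List Gate)
    (hg : ∀ g ∈ gs, gateOK x g) : ∃ δ > 0, δ ≤ 1 / 64 ∧ ∀ g ∈ gs,
      gateRel g.1 (litVal x g.2.1 + δ) (litVal x g.2.2.1 + δ) (litVal x g.2.2.2 + δ) := by
  induction gs with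
  | nil => exact ⟨1 / 64, by norm_num, le_rfl, by simp⟩
  | cons g gs ih =>
    obtain ⟨δ1, h1, h2, h3⟩ := ih (fun g' hg' => hg g' (List.mem_cons_of_mem _ hg'))
    obtain ⟨δ2, k1, k3, k2⟩ := margin_one (litVal_le hx g.2.1) (litVal_le hx g.2.2.2)
      (hg g List.mem_cons_self)
    have ha := fun l => (abs_le.1 (litVal_le hx l)).2
    refine ⟨min δ1 δ2, lt_min h1 k1, (min_le_left _ _).trans h2, ?_⟩
    have m1 := min_le_left δ1 δ2
    have m2 := min_le_right δ1 δ2
    intro g' hg'
    rcases List.mem_cons.1 hg' with rfl | hg'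
    · exact gateRel_anti (by linarith) (by linarith) (by linarith)
        (by linarith [ha g'.2.1]) (by linarith [ha g'.2.2.2]) k2
    · exact gateRel_anti (by linarith) (by linarith) (by linarith)
        (by linarith [ha g'.2.1]) (by linarith [ha g'.2.2.2]) (h3 g' hg')

/-! ### the global values -/

/-- the values in the block of an operation -/
noncomputable def blockVal (n : ℕ) (o : Option Op) (H : ℕ → ℝ) (e : ℝ) (t j : ℕ) : ℝ :=
  match o with
  | none => wireVal H e t j
  | some (.swap i) => if t = 0 ∨ j < 2 * i ∨ 2 * i + 3 < j then wireVal H e t j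
      else swapVal (H i) (H (i + 1)) e t (j - 2 * i)
  | some (.copy i) => if t = 0 ∨ j < 2 * i ∨ 2 * i + 2 < j then wireVal H e t j
      else copyVal (H i) e t (j - 2 * i)
  | some (.gate kind) => if t = 0 ∨ j < 4 * n ∨ 4 * n + 4 < j then wireVal H e t j
      else if kind < 3 then linVal (H (2 * n)) (H (2 * n + 1)) (H (2 * n + 2)) e t (j - 4 * n)
      else mulVal (H (2 * n)) (H (2 * n + 1)) (H (2 * n + 2)) e t (j - 4 * n)

theorem blockVal_zero (n : ℕ) (o : Option Op) (H : ℕ → ℝ) (e : ℝ) (j : ℕ) :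
    blockVal n o H e 0 j = wireVal H e 0 j := by
  rcases o with _ | (i | i | kind)
  · rfl
  · simp only [blockVal, true_or, if_true]
  · simp only [blockVal, true_or, if_true]
  · simp only [blockVal, true_or, if_true]

theorem wireVal_even (H : ℕ → ℝ) (e : ℝ) (t l : ℕ) :
    wireVal H e t (2 * l) = (-1) ^ t * (H l + t * e) := by
  unfold wireVal
  rw [if_pos (by omega), Nat.mul_div_cancel_left _ (by norm_num)]

theorem wireVal_zero (H : ℕ → ℝ) (e : ℝ) (l : ℕ) : wireVal H e 0 (2 * l) = H l := by
  rw [wireVal_even]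
  simp

theorem wireVal_odd (H : ℕ → ℝ) (e : ℝ) {j : ℕ} (hj : j % 2 = 1) :
    wireVal H e 0 j = 1 / 2 - e := by
  unfold wireVal
  rw [if_neg (by omega), if_pos rfl]

theorem abs_neg_one_pow_mul (t : ℕ) (y : ℝ) : |(-1) ^ t * y| = |y| := by
  rw [abs_mul, abs_pow, abs_neg, abs_one, one_pow, one_mul]

theorem wireVal_lt {H : ℕ → ℝ} {e : ℝ} (he : 0 < e) (he' : e ≤ 1 / 1000)
    (hH : ∀ l, |H l| ≤ 1 / 8) {t : ℕ} (ht : t < 8) (j : ℕ) : |wireVal H e t j| < 1 / 2 := by
  unfold wireVal
  split_ifs
  · rw [abs_neg_one_pow_mul]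
    have h1 := abs_le.1 (hH (j / 2))
    have h2 : (t : ℝ) ≤ 7 := by exact_mod_cast Nat.le_of_lt_succ ht
    have h3 : 0 ≤ (t : ℝ) * e := by positivity
    have h4 : (t : ℝ) * e ≤ 7 * e := mul_le_mul_of_nonneg_right h2 he.le
    rw [abs_lt]
    constructor <;> linarith
  · rw [abs_lt]
    constructor <;> linarith
  · norm_num

theorem blockVal_lt {n : ℕ} {o : Option Op} {H : ℕ → ℝ} {e : ℝ} (he : 0 < e) (he' : e ≤ 1 / 1000)
    (hH : ∀ l, |H l| ≤ 1 / 8) {t : ℕ} (ht : t < 8) (j : ℕ) : |blockVal n o H e t j| < 1 / 2 := by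
  have hw := wireVal_lt he he' hH ht j
  have hH' := fun l => abs_le.1 (hH l)
  rcases o with _ | (i | i | kind)
  · exact hw
  · simp only [blockVal]
    split_ifs
    · exact hw
    · obtain ⟨h1, h2⟩ := hH' i
      obtain ⟨h3, h4⟩ := hH' (i + 1)
      generalize j - 2 * i = s
      unfold swapVal
      split <;> (rw [abs_lt]; constructor <;> linarith)
  · simp only [blockVal]
    split_ifs
    · exact hw
    · obtain ⟨h1, h2⟩ := hH' i
      generalize j - 2 * i = s
      have h5 : (t : ℝ) ≤ 7 := by exact_mod_cast Nat.le_of_lt_succ ht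
      have h3 : 0 ≤ (t : ℝ) * e := by positivity
      have h4 : (t : ℝ) * e ≤ 7 * e := mul_le_mul_of_nonneg_right h5 he.le
      unfold copyVal
      split_ifs
      · rw [abs_lt]; constructor <;> linarith
      · rw [abs_lt]; constructor <;> linarith
      · norm_num
      · norm_num
      · rw [abs_neg_one_pow_mul, abs_lt]; constructor <;> linarith
  · simp only [blockVal]
    obtain ⟨h1, h2⟩ := hH' (2 * n)
    obtain ⟨h3, h4⟩ := hH' (2 * n + 1)
    obtain ⟨h5, h6⟩ := hH' (2 * n + 2)
    split_ifs
    · exact hw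
    · generalize j - 4 * n = s
      unfold linVal
      split <;> (rw [abs_lt]; constructor <;> linarith)
    · generalize j - 4 * n = s
      unfold mulVal
      split <;> (rw [abs_lt]; constructor <;> linarith)

theorem srcVal_lt {X e : ℝ} (he : 0 < e) (he' : e ≤ 1 / 1000) (hX : |X| ≤ 7 / 64) (t s : ℕ) :
    |srcVal X e t s| < 1 / 2 := by
  obtain ⟨h1, h2⟩ := abs_le.1 hX
  unfold srcVal
  split <;> (rw [abs_lt]; constructor <;> linarith)

/-- labels before the block `k ≥ 1` -/
def labs (n : ℕ) (ops : List Op) (k : ℕ) : ℕ → Option ℕ := run n (ops.take (k - 1)) (init n)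

/-- heights of the wires at the beginning of the block `k` -/
noncomputable def HH (n : ℕ) (ops : List Op) (x : ℕ → ℝ) (e : ℝ) (k l : ℕ) : ℝ :=
  oval x (labs n ops k l) + 16 * k * e

/-- all values -/
noncomputable def vv (n : ℕ) (ops : List Op) (x : ℕ → ℝ) (e : ℝ) (c j : ℕ) : ℝ :=
  if c / 8 = 0 then srcVal (x (j / 4)) e c (j % 4)
  else if c / 8 ≤ ops.length + 1 then
    blockVal n ops[c / 8 - 1]? (HH n ops x e (c / 8)) e (c % 8) j
  else 0

theorem vv_src (n : ℕ) (ops : List Op) (x : ℕ → ℝ) (e : ℝ) {t s i : ℕ} (ht : t < 8) (hs : s < 4) :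
    vv n ops x e t (4 * i + s) = srcVal (x i) e t s := by
  unfold vv
  rw [if_pos (by omega)]
  congr 2
  · omega
  · omega

theorem vv_block (n : ℕ) (ops : List Op) (x : ℕ → ℝ) (e : ℝ) {k t : ℕ} (hk : k ≤ ops.length)
    (ht : t < 8) (j : ℕ) :
    vv n ops x e (8 * (k + 1) + t) j = blockVal n ops[k]? (HH n ops x e (k + 1)) e t j := by
  unfold vv
  have h1 : (8 * (k + 1) + t) / 8 = k + 1 := by omega
  have h2 : (8 * (k + 1) + t) % 8 = t := by omega
  rw [h1, h2, if_neg (by omega), if_pos (by omega), Nat.add_sub_cancel]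

theorem vv_start (n : ℕ) (ops : List Op) (x : ℕ → ℝ) (e : ℝ) {k : ℕ} (hk : k ≤ ops.length)
    (j : ℕ) : vv n ops x e (8 * (k + 1)) j = wireVal (HH n ops x e (k + 1)) e 0 j := by
  have := vv_block n ops x e hk (t := 0) (by norm_num) j
  rw [Nat.add_zero, blockVal_zero] at this
  exact this

theorem labs_succ {n : ℕ} {ops : List Op} {k : ℕ} {o : Op} (h : ops[k]? = some o) :
    labs n ops (k + 2) = step n o (labs n ops (k + 1)) := by
  unfold labs
  have h1 : k + 2 - 1 = k + 1 := by omega
  rw [h1, Nat.add_sub_cancel, List.take_add_one, h, run_append]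
  rfl

theorem wires_strong {v H : ℕ → ℕ → ℝ} {k : ℕ} {e : ℝ} (he : 0 < e) (ls : List ℕ)
    (h : ∀ l ∈ ls, (∀ t < 8, v (8 * k + t) (2 * l) = (-1) ^ t * (H k l + t * e)) ∧
      H k l + 7 * e < v (8 * k + 8) (2 * l)) : ∀ r ∈ wires k ls, r.Strong v := by
  intro r hr
  rw [wires, List.mem_flatMap] at hr
  obtain ⟨l, hl, hr⟩ := hr
  exact pins_strong he (a := H k l) (fun t _ ht => (h l hl).1 t ht) (h l hl).2 r hr

theorem block_strong {n : ℕ} {gs : List Gate} {x : ℕ → ℝ} {e δ : ℝ} (he : 0 < e)
    (he' : e ≤ 1 / 1000) (ops : List Op) (hgood : Good n gs ops (init n))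
    (hδ : 16 * (ops.length + 3) * e ≤ δ) (hδ' : δ ≤ 1 / 64)
    (hx : ∀ i, |x i| ≤ 7 / 64) (hg : ∀ g ∈ gs,
      gateRel g.1 (litVal x g.2.1 + δ) (litVal x g.2.2.1 + δ) (litVal x g.2.2.2 + δ))
    {k : ℕ} {o : Op} (ho : ops[k]? = some o) :
    ∀ r ∈ blockRooms n (k + 1) o, r.Strong (vv n ops x e) := by
  have hkl : k < ops.length := by
    by_contra hcon
    rw [List.getElem?_eq_none (by omega)] at ho
    exact Option.some_ne_none o ho.symm
  have hkR : (k : ℝ) + 1 ≤ ops.length := by exact_mod_cast hkl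
  have hke : 16 * ((k : ℝ) + 4) * e ≤ δ := by
    refine le_trans ?_ hδ
    apply mul_le_mul_of_nonneg_right _ he.le
    linarith
  have hk0 : (0 : ℝ) ≤ k := Nat.cast_nonneg k
  have hke0 : 0 ≤ (k : ℝ) * e := by positivity
  set H := HH n ops x e with hH
  have hHdef : ∀ l, H (k + 1) l = oval x (labs n ops (k + 1) l) + 16 * ((k : ℝ) + 1) * e := by
    intro l
    rw [hH, HH]
    push_cast
    ring
  have hHle : ∀ l, |H (k + 1) l| ≤ 1 / 8 := by
    intro l
    rw [hHdef]
    have h1 := abs_le.1 (oval_le hx (labs n ops (k + 1) l))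
    rw [abs_le]
    constructor <;> linarith
  have hHn : ∀ l, H (k + 2) l = oval x (step n o (labs n ops (k + 1)) l) + 16 * ((k : ℝ) + 2) * e := by
    intro l
    rw [hH, HH, labs_succ ho]
    push_cast
    ring
  have hb : ∀ t < 8, ∀ j, vv n ops x e (8 * (k + 1) + t) j =
      blockVal n (some o) (H (k + 1)) e t j := fun t ht j => by
    rw [vv_block n ops x e hkl.le ht j, ho]
  have hs : ∀ j, vv n ops x e (8 * (k + 1)) j = wireVal (H (k + 1)) e 0 j := fun j =>
    vv_start n ops x e hkl.le j
  have hn : ∀ j, vv n ops x e (8 * (k + 1) + 8) j = wireVal (H (k + 2)) e 0 j := fun j => by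
    have := vv_start n ops x e (k := k + 1) hkl j
    rwa [show 8 * (k + 1 + 1) = 8 * (k + 1) + 8 by ring] at this
  have hsame : ∀ l, step n o (labs n ops (k + 1)) l = labs n ops (k + 1) l →
      H (k + 1) l + 7 * e < vv n ops x e (8 * (k + 1) + 8) (2 * l) := by
    intro l hl
    rw [hn, wireVal_zero, hHn, hl, hHdef]
    linarith
  rcases o with i | i | kind
  · -- swap
    intro r hr
    have hwire : ∀ l, l ≠ i → l ≠ i + 1 →
        (∀ t < 8, vv n ops x e (8 * (k + 1) + t) (2 * l) = (-1) ^ t * (H (k + 1) l + t * e)) ∧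
        H (k + 1) l + 7 * e < vv n ops x e (8 * (k + 1) + 8) (2 * l) := by
      intro l h1 h2
      constructor
      · intro t ht
        rw [hb t ht]
        simp only [blockVal]
        rw [if_pos (by omega), wireVal_even]
      · apply hsame
        simp only [step]
        rw [if_neg h1, if_neg h2]
    rw [blockRooms, List.mem_append, List.mem_append] at hr
    rcases hr with (hr | hr) | hr
    · refine swap_strong (a := H (k + 1) i) (B := H (k + 1) (i + 1)) he he' (hHle _) (hHle _)
        ?_ ?_ ?_ ?_ ?_ r hr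
      · rw [hs, wireVal_zero]
      · rw [hs, show 2 * i + 2 = 2 * (i + 1) by ring, wireVal_zero]
      · intro t s ht ht8 hs4
        rw [hb t ht8]
        simp only [blockVal]
        rw [if_neg (by omega), Nat.add_sub_cancel_left]
      · rw [hn, wireVal_zero, hHn, hHdef]
        simp only [step, if_true]
        linarith
      · rw [hn, show 2 * i + 2 = 2 * (i + 1) by ring, wireVal_zero, hHn, hHdef]
        simp only [step]
        rw [if_neg (by omega), if_pos trivial]
        linarith
    · refine wires_strong he _ (fun l hl => hwire l ?_ ?_) r hr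
      · have := List.mem_range.1 hl; omega
      · have := List.mem_range.1 hl; omega
    · refine wires_strong he _ (fun l hl => hwire l ?_ ?_) r hr
      · obtain ⟨t, -, rfl⟩ := List.mem_map.1 hl; omega
      · obtain ⟨t, -, rfl⟩ := List.mem_map.1 hl; omega
  · -- copy
    intro r hr
    have hwire : ∀ l, l ≠ i → l ≠ i + 1 →
        (∀ t < 8, vv n ops x e (8 * (k + 1) + t) (2 * l) = (-1) ^ t * (H (k + 1) l + t * e)) ∧
        H (k + 1) l + 7 * e < vv n ops x e (8 * (k + 1) + 8) (2 * l) := by
      intro l h1 h2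
      constructor
      · intro t ht
        rw [hb t ht]
        simp only [blockVal]
        rw [if_pos (by omega), wireVal_even]
      · apply hsame
        simp only [step]
        rw [if_neg h2]
    rw [blockRooms, List.mem_append, List.mem_append] at hr
    rcases hr with (hr | hr) | hr
    · refine copy_strong (a := H (k + 1) i) he ?_ ?_ ?_ ?_ r hr
      · rw [hs, wireVal_zero]
      · intro t s ht ht8 hs4
        rw [hb t ht8]
        simp only [blockVal]
        rw [if_neg (by omega), Nat.add_sub_cancel_left]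
      · apply hsame
        simp only [step]
        rw [if_neg (by omega)]
      · rw [hn, show 2 * i + 2 = 2 * (i + 1) by ring, wireVal_zero, hHn, hHdef]
        simp only [step, if_true]
        linarith
    · refine wires_strong he _ (fun l hl => hwire l ?_ ?_) r hr
      · have := List.mem_range.1 hl; omega
      · have := List.mem_range.1 hl; omega
    · refine wires_strong he _ (fun l hl => hwire l ?_ ?_) r hr
      · obtain ⟨t, -, rfl⟩ := List.mem_map.1 hl; omega
      · obtain ⟨t, -, rfl⟩ := List.mem_map.1 hl; omega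
  · -- gate
    intro r hr
    obtain ⟨g, hgs, hgk, l0, l1, l2⟩ := hgood.get ho
    have hlab : labs n ops (k + 1) = run n (ops.take k) (init n) := rfl
    rw [← hlab] at l0 l1 l2
    have p0 : H (k + 1) (2 * n) = litVal x g.2.1 + 16 * ((k : ℝ) + 1) * e := by
      rw [hHdef, l0]; rfl
    have p1 : H (k + 1) (2 * n + 1) = litVal x g.2.2.1 + 16 * ((k : ℝ) + 1) * e := by
      rw [hHdef, l1]; rfl
    have p2 : H (k + 1) (2 * n + 2) = litVal x g.2.2.2 + 16 * ((k : ℝ) + 1) * e := by
      rw [hHdef, l2]; rfl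
    have b0 := abs_le.1 (litVal_le hx g.2.1)
    have b1 := abs_le.1 (litVal_le hx g.2.2.1)
    have b2 := abs_le.1 (litVal_le hx g.2.2.2)
    have hrel := hg g hgs
    have e00 : vv n ops x e (8 * (k + 1)) (4 * n) = H (k + 1) (2 * n) := by
      rw [hs, show 4 * n = 2 * (2 * n) by ring, wireVal_zero]
    have e02 : vv n ops x e (8 * (k + 1)) (4 * n + 2) = H (k + 1) (2 * n + 1) := by
      rw [hs, show 4 * n + 2 = 2 * (2 * n + 1) by ring, wireVal_zero]
    have e04 : vv n ops x e (8 * (k + 1)) (4 * n + 4) = H (k + 1) (2 * n + 2) := by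
      rw [hs, show 4 * n + 4 = 2 * (2 * n + 2) by ring, wireVal_zero]
    have e83 : vv n ops x e (8 * (k + 1) + 8) (4 * n + 3) = 1 / 2 - e := by
      rw [hn, wireVal_odd _ _ (by omega)]
    rw [blockRooms, List.mem_append] at hr
    rcases hr with hr | hr
    · have hlin : kind < 3 → ∀ t s, 1 ≤ t → t < 8 → s < 5 →
          vv n ops x e (8 * (k + 1) + t) (4 * n + s) =
            linVal (H (k + 1) (2 * n)) (H (k + 1) (2 * n + 1)) (H (k + 1) (2 * n + 2)) e t s := by
        intro hk3 t s ht ht8 hs5
        rw [hb t ht8]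
        simp only [blockVal]
        rw [if_neg (by omega), if_pos hk3, Nat.add_sub_cancel_left]
      have hmul : ¬ kind < 3 → ∀ t s, 1 ≤ t → t < 8 → s < 5 →
          vv n ops x e (8 * (k + 1) + t) (4 * n + s) =
            mulVal (H (k + 1) (2 * n)) (H (k + 1) (2 * n + 1)) (H (k + 1) (2 * n + 2)) e t s := by
        intro hk3 t s ht ht8 hs5
        rw [hb t ht8]
        simp only [blockVal]
        rw [if_neg (by omega), if_neg hk3, Nat.add_sub_cancel_left]
      unfold gateRooms at hr
      rw [hgk] at hrel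
      unfold gateRel at hrel
      split_ifs at hr hrel with h0 h1 h2
      · refine lin_strong he he' (hHle _) (hHle _) (hHle _) e00 e02 e04 (hlin (by omega)) e83
          (by norm_num) (by norm_num) ?_ r hr
        rw [p0, p1, p2]
        push_cast
        linarith
      · refine lin_strong he he' (hHle _) (hHle _) (hHle _) e00 e02 e04 (hlin (by omega)) e83
          (by norm_num) (by norm_num) ?_ r hr
        rw [p0, p1, p2]
        push_cast
        linarith
      · refine lin_strong he he' (hHle _) (hHle _) (hHle _) e00 e02 e04 (hlin (by omega)) e83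
          (by norm_num) (by norm_num) ?_ r hr
        rw [p0, p1, p2]
        push_cast
        linarith
      · refine mul_strong (p := H (k + 1) (2 * n)) (q := H (k + 1) (2 * n + 1))
          (r := H (k + 1) (2 * n + 2)) he ?_ ?_ ?_ e00 e02 e04 (hmul (by omega)) ?_ r hr
        · rw [p0, abs_lt]; constructor <;> linarith
        · rw [p1, abs_lt]; constructor <;> linarith
        · rw [p2, abs_lt]; constructor <;> linarith
        · rw [p0, p1, p2]
          have m1 : (1 - (litVal x g.2.1 + δ)) * (1 - (litVal x g.2.2.2 + δ)) ≤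
              (1 - (litVal x g.2.1 + 16 * ((k : ℝ) + 1) * e + 2 * e)) *
                (1 - (litVal x g.2.2.2 + 16 * ((k : ℝ) + 1) * e + 2 * e)) :=
            mul_le_mul (by linarith) (by linarith) (by linarith) (by linarith)
          linarith
    · refine wires_strong (H := H) he _ (fun l hl => ?_) r hr
      have hl' := List.mem_range.1 hl
      constructor
      · intro t ht
        rw [hb t ht]
        simp only [blockVal]
        rw [if_pos (by omega), wireVal_even]
      · apply hsame
        simp only [step]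
        rw [if_pos hl']

end N4

/-- N4 -/
theorem layout_complete (n : ℕ) (gs : List Gate) (h : InRange (2 * n) gs) {x : ℕ → ℝ}
    (hx : ∀ i, |x i| ≤ 7 / 64) (hg : ∀ g ∈ gs, gateOK x g) :
    ∃ v : ℕ → ℕ → ℝ, (∀ c j, |v c j| < 1 / 2) ∧ ∀ r ∈ layout n gs, r.Strong v := by
  obtain ⟨δ, hδ, hδ', hrel⟩ := N4.margin hx gs hg
  set ops := prog n gs with hops
  have hL : (0 : ℝ) ≤ ops.length := Nat.cast_nonneg _
  set e := δ / (16 * (ops.length + 3)) with he
  have he0 : 0 < e := by positivity
  have heδ : 16 * ((ops.length : ℝ) + 3) * e = δ := by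
    rw [he]; field_simp
  have hLe : 0 ≤ (ops.length : ℝ) * e := by positivity
  have he1 : e ≤ 1 / 1000 := by linarith
  have hH : ∀ k ≤ ops.length + 1, ∀ l, |N4.HH n ops x e k l| ≤ 1 / 8 := by
    intro k hk l
    unfold N4.HH
    have h1 := abs_le.1 (N4.oval_le hx (N4.labs n ops k l))
    have h2 : (k : ℝ) ≤ ops.length + 1 := by exact_mod_cast hk
    have h3 : 0 ≤ (k : ℝ) * e := by positivity
    have h4 : (k : ℝ) * e ≤ (ops.length + 1) * e := mul_le_mul_of_nonneg_right h2 he0.le
    rw [abs_le]
    constructor <;> linarith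
  refine ⟨N4.vv n ops x e, fun c j => ?_, fun r hr => ?_⟩
  · unfold N4.vv
    split_ifs with h1 h2
    · exact N4.srcVal_lt he0 he1 (hx _) _ _
    · exact N4.blockVal_lt he0 he1 (hH _ h2) (Nat.mod_lt _ (by norm_num)) _
    · norm_num
  · rw [layout, progRooms, List.mem_append, ← hops] at hr
    rcases hr with hr | hr
    · rw [List.mem_flatMap] at hr
      obtain ⟨i, hi, hr⟩ := hr
      have hi' : i < n := List.mem_range.1 hi
      refine N4.src_strong (X := x i) he0 (fun t s ht hs => N4.vv_src n ops x e ht hs) ?_ ?_ r hr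
      · have h1 := N4.vv_start n ops x e (k := 0) (Nat.zero_le _) (4 * i)
        rw [show 8 * (0 + 1) = 8 by norm_num] at h1
        rw [h1, show 4 * i = 2 * (2 * i) by ring, N4.wireVal_zero]
        unfold N4.HH N4.labs
        simp only [Nat.zero_add, Nat.sub_self, List.take_zero, N4.run, N4.init]
        rw [if_pos (by omega)]
        simp only [N4.oval, litVal]
        rw [if_pos (by omega), Nat.mul_div_cancel_left _ (by norm_num)]
        push_cast
        linarith
      · have h1 := N4.vv_start n ops x e (k := 0) (Nat.zero_le _) (4 * i + 2)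
        rw [show 8 * (0 + 1) = 8 by norm_num] at h1
        rw [h1, show 4 * i + 2 = 2 * (2 * i + 1) by ring, N4.wireVal_zero]
        unfold N4.HH N4.labs
        simp only [Nat.zero_add, Nat.sub_self, List.take_zero, N4.run, N4.init]
        rw [if_pos (by omega)]
        simp only [N4.oval, litVal]
        rw [if_neg (by omega), show (2 * i + 1) / 2 = i by omega]
        push_cast
        linarith
    · rw [List.mem_flatMap] at hr
      obtain ⟨⟨o, k⟩, hq, hr⟩ := hr
      have ho : ops[k]? = some o := by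
        rw [List.mem_zipIdx_iff_getElem?] at hq
        exact hq
      exact N4.block_strong he0 he1 ops (N4.good_init h) heδ.le hδ' hx hrel ho r hr

end Pool.Agent.SegDraw
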