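import Pool.Agent.Lib.MP_431574_lc.Code
import Pool.Agent.Lib.MP_1ce42f_lc.OfTM2

/-!
# P1: `rawSys` is computed in polynomial time
-/

open N68a2faeb N793a5b8e N487b59b3

namespace Pool.Agent.SegDraw

open Pool.Agent.MSR Pool.Agent.MSR.En

namespace P1

variable {α β : Type} [En α] [En β]

/-! ### Equality tests -/

/-- one step of the comparison of two lists -/
def eqStep (c : List Bool × Bool) (b : Bool) : List Bool × Bool :=
  (c.1.tail, c.2 && (bif b then c.1.headD false else !(c.1.headD true)))

lemma eq_foldl (l : List Bool) : ∀ (m : List Bool) (o : Bool),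
    ((l.foldl eqStep (m, o)).2 && (l.foldl eqStep (m, o)).1.isEmpty) = (o && decide (l = m)) := by
  induction l with
  | nil =>
    intro m o
    cases m <;> simp
  | cons b l ih =>
    intro m o
    rw [List.foldl_cons]
    cases m with
    | nil =>
      have : eqStep (([] : List Bool), o) b = ([], false) := by
        cases b <;> simp [eqStep]
      rw [this, ih]
      simp
    | cons x m =>
      have : eqStep (x :: m, o) b = (m, o && (x == b)) := by
        cases b <;> cases x <;> simp [eqStep]
      rw [this, ih]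
      cases o <;> cases b <;> cases x <;> simp

theorem PT_eqStep : PT (fun p : (List Bool × List Bool) × (List Bool × Bool) × Bool =>
    eqStep p.2.1 p.2.2) := by
  unfold eqStep
  fun_prop

instance : EqPT (List Bool) where
  eq := by
    have h1 : PT (fun p : List Bool × List Bool => p.1.foldl eqStep (p.2, true)) := by
      refine PT.foldl_add (g := fun _ c b => eqStep c b) (PT.fst PT.id')
        (PT.pair (PT.snd PT.id') (PT.const true)) PT_eqStep ⟨fun _ => 0, PB.const 0, ?_⟩
      rintro a ⟨c, o⟩ b _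
      unfold eqStep
      rw [sz_pair, sz_pair, sz_bool, sz_bool]
      have : sz c.tail ≤ sz c := by
        rw [← List.drop_one]
        exact sz_drop_le _ _
      simp only
      omega
    have h2 : PT (fun p : List Bool × List Bool => (p.1.foldl eqStep (p.2, true)).2 &&
        (p.1.foldl eqStep (p.2, true)).1.isEmpty) :=
      PT.and (PT.snd h1) (PT.isEmpty (PT.fst h1))
    exact h2.of_eq fun p => by rw [eq_foldl]; simp

@[fun_prop]
theorem PT_beqL {f g : α → List Bool} (hf : PT f) (hg : PT g) : PT (fun a => f a == g a) :=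
  (PT.eq hf hg).of_eq fun a => by
    rw [Bool.eq_iff_iff]
    simp

@[fun_prop]
theorem PT_beqB {f g : α → Bool} (hf : PT f) (hg : PT g) : PT (fun a => f a == g a) := by
  have : PT (fun a => bif f a then g a else !(g a)) := by fun_prop
  exact this.of_eq fun a => by cases f a <;> cases g a <;> rfl

@[fun_prop]
theorem PT_beqN {f g : α → ℕ} (hf : PT f) (hg : PT g) : PT (fun a => f a == g a) :=
  (PT.eq hf hg).of_eq fun a => by
    rw [Bool.eq_iff_iff]
    simp

/-! ### Validity and tags -/

@[fun_prop]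
theorem PT_canon {l : α → List Bool} (hl : PT l) : PT (fun a => canon (l a)) := by
  have : PT (fun a => (l a).isEmpty || (l a).reverse.headD false) := by fun_prop
  refine this.of_eq fun a => ?_
  unfold canon
  congr 1
  rw [List.headD_eq_head?_getD, List.head?_reverse]
  cases (l a).getLast? with
  | none => rfl
  | some b => cases b <;> rfl

@[fun_prop]
theorem PT_encodeNat {f : α → ℕ} (hf : PT f) : PT (fun a => Computability.encodeNat (f a)) :=
  PT.encodeNat hf

theorem PT_rvalid {t : α → RTok} (ht : PT t) : PT (fun a => rvalid (t a)) := by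
  unfold rvalid
  have h1 : PT (fun a => (List.range 8).any
      (fun k => (t a).1 == Computability.encodeNat (k + 2))) := by
    apply PT.any (PT.const _)
    have ht' : PT (fun q : α × ℕ => t q.1) := ht.comp (PT.fst PT.id')
    exact PT_beqL (PT.fst ht') (PT.encodeNat (PT.succ (PT.succ (PT.snd PT.id'))))
  have h2 : PT (fun a => ((t a).1 == Computability.encodeNat 0 && canon (t a).2.1 &&
      canon (t a).2.2 && ((t a).2.1.isEmpty || (t a).2.2.isEmpty))) := by
    fun_prop
  have h3 : PT (fun a => ((t a).1 == Computability.encodeNat 1 && canon (t a).2.1 &&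
      (t a).2.2.isEmpty)) := by
    fun_prop
  have h4 : PT (fun a => (t a).2.1.isEmpty) := by fun_prop
  have h5 : PT (fun a => (t a).2.2.isEmpty) := by fun_prop
  exact PT.or (PT.or h2 h3) (PT.and (PT.and h1 h4) h5)

theorem PT_rtag {t : α → RTok} (ht : PT t) : PT (fun a => rtag (t a)) := by
  unfold rtag
  apply PT.headD _ (PT.const 10)
  apply PT.filter (PT.const _)
  have ht' : PT (fun q : α × ℕ => t q.1) := ht.comp (PT.fst PT.id')
  exact PT_beqL (PT.fst ht') (PT.encodeNat (PT.snd PT.id'))

lemma rtag_le (t : RTok) : rtag t ≤ 10 := by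
  unfold rtag
  cases h : (List.range 10).filter (fun k => t.1 == Computability.encodeNat k) with
  | nil => simp
  | cons k l =>
    have : k ∈ (List.range 10).filter (fun k => t.1 == Computability.encodeNat k) := by
      rw [h]
      exact List.mem_cons_self
    have := List.mem_range.1 (List.mem_filter.1 this).1
    simp only [List.headD_cons]
    omega

/-! ### The stack machine -/

theorem PT_mstep {i : α → ℕ} {t : α → RTok} {s : α → MState} (hi : PT i) (ht : PT t)
    (hs : PT s) : PT (fun a => mstep (i a) (t a) (s a)) := by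
  have hk := PT_rtag ht
  have h1 : PT (fun a => decide (rtag (t a) < 2)) := PT.ltb hk (PT.const 2)
  have h2 : PT (fun a => decide (rtag (t a) = 7)) := PT.eq hk (PT.const 7)
  have h3 : PT (fun a => decide (rtag (t a) < 10)) := PT.ltb hk (PT.const 10)
  have h4 : PT (fun a => decide (8 ≤ rtag (t a))) := PT.leb (PT.const 8) hk
  have h5 : PT (fun a => decide (4 ≤ rtag (t a))) := PT.leb (PT.const 4) hk
  have h6 : PT (fun a => decide (1 ≤ (s a).2.1.length)) :=
    PT.leb (PT.const 1) (PT.length (PT.fst (PT.snd hs)))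
  have h7 : PT (fun a => decide (2 ≤ (s a).2.1.length)) :=
    PT.leb (PT.const 2) (PT.length (PT.fst (PT.snd hs)))
  have hs1 : PT (fun a => (s a).2.1.headD (false, 0)) := by fun_prop
  have hs2 : PT (fun a => (s a).2.1.tail.headD (false, 0)) := by fun_prop
  have hst : PT (fun a => (s a).2.1) := by fun_prop
  have hrc : PT (fun a => (s a).2.2) := by fun_prop
  have hfl : PT (fun a => (s a).1) := by fun_prop
  have hd : PT (fun a => ((t a).2.1, (t a).2.2)) := by fun_prop
  unfold mstep
  apply PT.ite h1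
  · exact PT.pair hfl (PT.pair (PT.cons (PT.pair (PT.const false) hi) hst)
      (PT.cons (PT.pair hi (PT.pair hk (PT.pair (PT.const 0) (PT.pair (PT.const 0) hd)))) hrc))
  apply PT.ite h2
  · exact PT.pair (PT.and (PT.and hfl h6) (PT.fst hs1))
      (PT.pair (PT.cons (PT.pair (PT.const true) hi) (PT.tail hst))
        (PT.cons (PT.pair hi (PT.pair hk (PT.pair (PT.snd hs1) (PT.pair (PT.const 0) hd)))) hrc))
  · exact PT.pair (PT.and (PT.and (PT.and (PT.and hfl h7) h3) (PT_beqB (PT.fst hs1) h4))
        (PT_beqB (PT.fst hs2) h4))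
      (PT.pair (PT.cons (PT.pair h5 hi) (PT.tail (PT.tail hst)))
        (PT.cons (PT.pair hi (PT.pair hk (PT.pair (PT.snd hs1) (PT.pair (PT.snd hs2) hd)))) hrc))

/-- the step as a step of a fold -/
def fstep (s : MState) (p : RTok × ℕ) : MState := mstep p.2 p.1 s

lemma mrun_eq (T : List RTok) : ∀ a, mrun a T = ((T.zipIdx a).reverse.foldl fstep (true, [], [])) := by
  induction T with
  | nil => intro a; rfl
  | cons t T ih =>
    intro a
    rw [mrun, ih, List.zipIdx_cons, List.reverse_cons, List.foldl_append]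
    rfl

/-- bounds for the states of the machine -/
structure Inv (N S k : ℕ) (s : MState) : Prop where
  len : s.2.1.length ≤ k
  pos : ∀ x ∈ s.2.1, x.2 ≤ N
  rlen : s.2.2.length ≤ k
  recB : ∀ r ∈ s.2.2, sz r ≤ 6 * N + 3 * S + 25

lemma headD_le {N : ℕ} {l : List (Bool × ℕ)} (h : ∀ x ∈ l, x.2 ≤ N) :
    (l.headD (false, 0)).2 ≤ N := by
  cases l with
  | nil => simp
  | cons x l => exact h x List.mem_cons_self

lemma sz_rec {N S i k p q : ℕ} {u v : List Bool} (hi : i ≤ N) (hk : k ≤ 10) (hp : p ≤ N)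
    (hq : q ≤ N) (hu : sz u ≤ S) (hv : sz v ≤ S) :
    sz ((i, k, p, q, u, v) : Rec) ≤ 6 * N + 3 * S + 25 := by
  rw [sz_pair, sz_pair, sz_pair, sz_pair, sz_pair, sz_nat, sz_nat, sz_nat, sz_nat]
  omega

lemma Inv.step {N S k : ℕ} {s : MState} (h : Inv N S k s) {p : RTok × ℕ} (hp : p.2 ≤ N)
    (h1 : sz p.1.2.1 ≤ S) (h2 : sz p.1.2.2 ≤ S) : Inv N S (k + 1) (fstep s p) := by
  obtain ⟨hl, hpos, hrl, hrec⟩ := h
  have e1 : (s.2.1.headD (false, 0)).2 ≤ N := headD_le hpos
  have e2 : (s.2.1.tail.headD (false, 0)).2 ≤ N :=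
    headD_le fun x hx => hpos x (List.mem_of_mem_tail hx)
  unfold fstep mstep
  dsimp only
  split_ifs with c1 c2
  · refine ⟨?_, ?_, ?_, ?_⟩
    · simpa using hl
    · simp only [List.mem_cons, forall_eq_or_imp]
      exact ⟨hp, hpos⟩
    · simpa using hrl
    · simp only [List.mem_cons, forall_eq_or_imp]
      exact ⟨sz_rec hp (rtag_le _) (Nat.zero_le _) (Nat.zero_le _) h1 h2, hrec⟩
  · refine ⟨?_, ?_, ?_, ?_⟩
    · simp only [List.length_cons, List.length_tail]
      omega
    · simp only [List.mem_cons, forall_eq_or_imp]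
      exact ⟨hp, fun x hx => hpos x (List.mem_of_mem_tail hx)⟩
    · simpa using hrl
    · simp only [List.mem_cons, forall_eq_or_imp]
      exact ⟨sz_rec hp (rtag_le _) e1 (Nat.zero_le _) h1 h2, hrec⟩
  · refine ⟨?_, ?_, ?_, ?_⟩
    · simp only [List.length_cons, List.length_tail]
      omega
    · simp only [List.mem_cons, forall_eq_or_imp]
      exact ⟨hp, fun x hx => hpos x (List.mem_of_mem_tail (List.mem_of_mem_tail hx))⟩
    · simpa using hrl
    · simp only [List.mem_cons, forall_eq_or_imp]
      exact ⟨sz_rec hp (rtag_le _) e1 e2 h1 h2, hrec⟩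

lemma inv_foldl {N S : ℕ} (l : List (RTok × ℕ)) : ∀ (k : ℕ) (s : MState), Inv N S k s →
    (∀ p ∈ l, p.2 ≤ N ∧ sz p.1.2.1 ≤ S ∧ sz p.1.2.2 ≤ S) →
    Inv N S (k + l.length) (l.foldl fstep s) := by
  induction l with
  | nil => intro k s h _; exact h
  | cons p l ih =>
    intro k s h hl
    obtain ⟨h1, h2, h3⟩ := hl p List.mem_cons_self
    have := ih (k + 1) _ (h.step h1 h2 h3) fun q hq => hl q (List.mem_cons_of_mem _ hq)
    rw [List.foldl_cons, List.length_cons]
    have e : k + (l.length + 1) = k + 1 + l.length := by omega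
    rw [e]
    exact this

lemma Inv.size {N S k : ℕ} {s : MState} (h : Inv N S k s) :
    sz s ≤ 4 + 2 * (k * (2 * (3 + N) + 1)) + k * (2 * (6 * N + 3 * S + 25) + 1) := by
  have h1 : sz s.2.1 ≤ k * (2 * (3 + N) + 1) := by
    refine (OfTM2.sz_list_le (B := 3 + N) ?_).trans (Nat.mul_le_mul_right _ h.len)
    rintro ⟨b, i⟩ hx
    rw [sz_pair, sz_bool, sz_nat]
    have := h.pos _ hx
    simp only at this
    omega
  have h2 : sz s.2.2 ≤ k * (2 * (6 * N + 3 * S + 25) + 1) :=
    (OfTM2.sz_list_le h.recB).trans (Nat.mul_le_mul_right _ h.rlen)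
  have h3 : sz s = 2 * 1 + 1 + (2 * sz s.2.1 + 1 + sz s.2.2) := by
    obtain ⟨s1, s2, s3⟩ := s
    rw [sz_pair, sz_pair, sz_bool]
  omega

theorem PT_mrun {T : α → List RTok} (hT : PT T) : PT (fun a => mrun 0 (T a)) := by
  obtain ⟨e, he⟩ := hT.bound
  have h1 : PT (fun a => ((T a).zipIdx).reverse.foldl fstep (true, [], [])) := by
    refine PT.foldl (g := fun _ s p => fstep s p) (PT.reverse (PT.zipIdx hT)) (PT.const _) ?_
      ⟨fun n => 4 + 2 * ((n + 2) ^ e * (2 * (3 + (n + 2) ^ e) + 1)) +
        (n + 2) ^ e * (2 * (6 * (n + 2) ^ e + 3 * (n + 2) ^ e + 25) + 1), ?_, ?_⟩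
    · exact PT_mstep (PT.snd (PT.snd (PT.snd PT.id'))) (PT.fst (PT.snd (PT.snd PT.id')))
        (PT.fst (PT.snd PT.id'))
    · have hX : PB (fun n => (n + 2) ^ e) := (PB.id.add (PB.const 2)).pow e
      exact ((PB.const 4).add ((PB.const 2).mul (hX.mul (((PB.const 2).mul
        ((PB.const 3).add hX)).add (PB.const 1))))).add
        (hX.mul (((PB.const 2).mul ((((PB.const 6).mul hX).add ((PB.const 3).mul hX)).add
          (PB.const 25))).add (PB.const 1)))
    · intro a k
      set X := (sz a + 2) ^ e with hX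
      have hlen : (T a).length ≤ X := (length_le_sz _).trans (he a)
      have hinv := inv_foldl (N := X) (S := X) (((T a).zipIdx).reverse.take k) 0 (true, [], [])
        ⟨by simp, by simp, by simp, by simp⟩ (by
          intro p hp
          have h2 : p ∈ (T a).zipIdx := List.mem_reverse.1 (List.mem_of_mem_take hp)
          have h3 := List.snd_lt_of_mem_zipIdx h2
          have h4 := sz_mem (List.fst_mem_of_mem_zipIdx h2)
          have h5 := he a
          have h6 : sz p.1 = 2 * sz p.1.1 + 1 + (2 * sz p.1.2.1 + 1 + sz p.1.2.2) := by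
            rw [← sz_pair, ← sz_pair]
          omega)
      have hk : 0 + (((T a).zipIdx).reverse.take k).length ≤ X := by
        rw [List.length_take, List.length_reverse, List.length_zipIdx]
        omega
      refine hinv.size.trans ?_
      have e1 := Nat.mul_le_mul_right (2 * (3 + X) + 1) hk
      have e2 := Nat.mul_le_mul_right (2 * (6 * X + 3 * X + 25) + 1) hk
      simp only [← hX]
      omega
  exact h1.of_eq fun a => mrun_eq _ _

theorem PT_accepts {T : α → List RTok} (hT : PT T) : PT (fun a => accepts (T a)) := by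
  have h1 : PT (fun a => !((T a).any (fun t => !(rvalid t)))) := by
    apply PT.not
    apply PT.any hT
    exact PT.not (PT_rvalid (PT.snd PT.id'))
  have h2 := PT_mrun hT
  have h3 : PT (fun a => bif ((mrun 0 (T a)).2.1.isEmpty) then false else
      ((mrun 0 (T a)).2.1.tail.isEmpty && ((mrun 0 (T a)).2.1.headD (false, 0)).1 &&
        MSR.isz ((mrun 0 (T a)).2.1.headD (false, 0)).2)) := by fun_prop
  refine (PT.and (PT.and h1 (PT.fst h2)) h3).of_eq fun a => ?_
  unfold accepts
  congr 1
  · congr 1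
    rw [List.not_any_eq_all_not]
    simp
  · generalize (mrun 0 (T a)).2.1 = l
    match l with
    | [] => rfl
    | [(b, i)] =>
      rw [Bool.eq_iff_iff]
      simp [MSR.isz]
    | _ :: _ :: _ =>
      rw [Bool.eq_iff_iff]
      simp

/-! ### The equations -/

@[fun_prop]
theorem PT_nv {M a k : α → ℕ} (hM : PT M) (ha : PT a) (hk : PT k) :
    PT (fun x => nv (M x) (a x) (k x)) := by
  unfold nv
  fun_prop

theorem PT_horner {M a o : α → ℕ} {l : α → List Bool} (hM : PT M) (ha : PT a) (ho : PT o)
    (hl : PT l) : PT (fun x => hornerCons (M x) (a x) (o x) (l x)) := by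
  unfold hornerCons
  apply PT.append
  · fun_prop
  · apply PT.flatMap (PT.zipIdx hl)
    have hM' : PT (fun p : α × (Bool × ℕ) => M p.1) := hM.comp (PT.fst PT.id')
    have ha' : PT (fun p : α × (Bool × ℕ) => a p.1) := ha.comp (PT.fst PT.id')
    have ho' : PT (fun p : α × (Bool × ℕ) => o p.1) := ho.comp (PT.fst PT.id')
    fun_prop

theorem PT_recCons : PT (fun p : ℕ × Rec => recCons p.1 p.2) := by
  have hM : PT (fun p : ℕ × Rec => p.1) := PT.fst PT.id'
  have hr : PT (fun p : ℕ × Rec => p.2) := PT.snd PT.id'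
  have hk : PT (fun p : ℕ × Rec => p.2.2.1) := by fun_prop
  have hc : ∀ j : ℕ, PT (fun p : ℕ × Rec => decide (p.2.2.1 = j)) := fun j =>
    PT.eq hk (PT.const j)
  unfold recCons
  apply PT.ite (hc 0)
  · exact PT.append (PT.append
      (PT_horner hM (PT.fst hr) (PT.const 4) (by fun_prop))
      (PT_horner hM (PT.fst hr) (PT.const 6) (by fun_prop))) (by fun_prop)
  apply PT.ite (hc 1)
  · exact PT.const _
  apply PT.ite (hc 2)
  · fun_prop
  apply PT.ite (hc 3)
  · fun_prop
  apply PT.ite (hc 4)
  · fun_prop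
  apply PT.ite (hc 5)
  · fun_prop
  apply PT.ite (hc 6)
  · fun_prop
  apply PT.ite (hc 7)
  · fun_prop
  apply PT.ite (hc 8)
  · fun_prop
  · fun_prop

theorem PT_varCons {M : α → ℕ} {R : α → List Rec} (hM : PT M) (hR : PT R) :
    PT (fun a => varCons (M a) (R a)) := by
  unfold varCons
  apply PT.flatMap hR
  apply PT.flatMap (hR.comp (PT.fst PT.id'))
  have hM' : PT (fun p : (α × Rec) × Rec => M p.1.1) := hM.comp (PT.fst (PT.fst PT.id'))
  have h1 : PT (fun p : (α × Rec) × Rec => (p.1.2.2.1 == 1 && p.2.2.1 == 1 &&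
      (p.1.2.2.2.2.2.1 == p.2.2.2.2.2.1))) := by fun_prop
  have h2 : PT (fun p : (α × Rec) × Rec =>
      ([(1, nv (M p.1.1) p.1.2.1 0, 0, nv (M p.1.1) p.2.1 0)] : List ECon)) := by fun_prop
  exact PT.cond h1 h2 (PT.const [])

end P1

/-- P1 -/
theorem PT_rawSys : PT (fun q : ℕ × List RTok => rawSys q.1 q.2) := by
  have hM : PT (fun q : ℕ × List RTok => q.1) := PT.fst PT.id'
  have hT : PT (fun q : ℕ × List RTok => q.2) := PT.snd PT.id'
  have hR : PT (fun q : ℕ × List RTok => (mrun 0 q.2).2.2) := PT.snd (PT.snd (P1.PT_mrun hT))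
  unfold rawSys
  apply PT.cond (P1.PT_accepts hT) _ (PT.const _)
  apply PT.append
  · apply PT.append
    · fun_prop
    · apply PT.flatMap hR
      have : PT (fun p : (ℕ × List RTok) × Rec => ((p.1.1, p.2) : ℕ × Rec)) := by fun_prop
      exact P1.PT_recCons.comp this
  · exact P1.PT_varCons hM hR

end Pool.Agent.SegDraw
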