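import Pool.Agent.Lib.MP_431574_lc.Systems
import Pool.Agent.Lib.MP_17a834_lc.Msr.Ops

/-!
# Row P2: the translation of systems is computable in polynomial time
-/

namespace Pool.Agent.SegDraw

open Pool.Agent.MSR

section

variable {α β γ : Type} [En α] [En β] [En γ]

/-- sums of lists -/
theorem PT_listSum {l : α → List β} {F : α → β → ℕ} (hl : PT l)
    (hF : PT (fun p : α × β => F p.1 p.2)) : PT (fun a => ((l a).map (F a)).sum) := by
  have : PT (fun a => ((l a).flatMap (fun b => List.range (F a b))).length) :=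
    PT.length (PT.flatMap hl (PT.range hF))
  refine this.of_eq (fun a => ?_)
  rw [List.length_flatMap]
  simp

/-- case distinction on a natural number -/
theorem PT_ite_eq {f : α → ℕ} {g h : α → β} (n : ℕ) (hf : PT f) (hg : PT g) (hh : PT h) :
    PT (fun a => if f a = n then g a else h a) := by
  have h1 : PT (fun a => MSR.leb (f a) n && MSR.leb n (f a)) := by fun_prop
  refine (PT.cond h1 hg hh).of_eq (fun a => ?_)
  unfold MSR.leb
  by_cases h2 : f a = n
  · simp [h2]
  · rw [if_neg h2]
    have : (decide (f a ≤ n) && decide (n ≤ f a)) = false := by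
      rw [Bool.and_eq_false_iff, decide_eq_false_iff_not, decide_eq_false_iff_not]
      omega
    rw [this]; rfl

end

theorem PT_idxBound {α : Type} [En α] {L : α → List (ℕ × ℕ × ℕ × ℕ)} (hL : PT L) :
    PT (fun a => idxBound (L a)) := by
  unfold idxBound
  refine PT.succ (PT_listSum (F := fun _ e => e.2.1 + e.2.2.1 + e.2.2.2) hL ?_)
  fun_prop

theorem PT_bnd {α : Type} [En α] {f g : α → ℕ} (hf : PT f) (hg : PT g) :
    PT (fun a => bnd (f a) (g a)) := by
  unfold bnd
  fun_prop

theorem PT_sq1 {α : Type} [En α] {L : α → List (ℕ × ℕ × ℕ × ℕ)} (hL : PT L) :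
    PT (fun a => sq1 (L a)) := by
  unfold sq1
  exact PT_bnd (PT_idxBound hL) (by fun_prop)

theorem PT_cSys {α : Type} [En α] {L : α → List ECon} (hL : PT L) : PT (fun a => cSys (L a)) := by
  have hN : PT (fun a => idxBound (L a)) := PT_idxBound hL
  have hM : PT (fun a => sq1 (L a)) := PT_sq1 hL
  unfold cSys
  refine PT.append (PT.append ?_ ?_) ?_
  · fun_prop
  · refine PT.map (F := fun a t => (2, idxBound (L a) + 1 + t, idxBound (L a) + 1 + t,
      idxBound (L a) + 2 + t)) (by fun_prop) ?_
    have h1 : PT (fun p : α × ℕ => idxBound (L p.1)) := hN.comp (by fun_prop)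
    fun_prop
  · refine PT.flatMap (F := fun a (q : ECon × ℕ) =>
      if q.1.1 = 0 then [(1, q.1.2.1, idxBound (L a), idxBound (L a) + 1 + sq1 (L a))]
      else if q.1.1 = 1 then [(1, q.1.2.1, q.1.2.2.1, q.1.2.2.2)]
      else [(2, q.1.2.1, q.1.2.2.1, idxBound (L a) + sq1 (L a) + 2 + q.2),
        (2, idxBound (L a) + 1 + sq1 (L a), q.1.2.2.2, idxBound (L a) + sq1 (L a) + 2 + q.2)])
      (by fun_prop) ?_
    have h1 : PT (fun p : α × (ECon × ℕ) => idxBound (L p.1)) := hN.comp (by fun_prop)
    have h2 : PT (fun p : α × (ECon × ℕ) => sq1 (L p.1)) := hM.comp (by fun_prop)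
    refine PT_ite_eq 0 (by fun_prop) (by fun_prop) (PT_ite_eq 1 (by fun_prop) (by fun_prop) ?_)
    fun_prop

theorem PT_conGates {α : Type} [En α] {τ a : α → ℕ} {e : α → CCon} (hτ : PT τ) (ha : PT a)
    (he : PT e) : PT (fun x => conGates (τ x) (a x) (e x)) := by
  unfold conGates pl ng
  refine PT_ite_eq 0 (by fun_prop) (by fun_prop) (PT_ite_eq 1 (by fun_prop) ?_ ?_)
  · fun_prop
  · fun_prop

theorem PT_chainGates {α : Type} [En α] {t a : α → ℕ} (ht : PT t) (ha : PT a) :
    PT (fun x => chainGates (t x) (a x)) := by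
  unfold chainGates pl ng
  fun_prop

theorem PT_gatesOf {α : Type} [En α] {n m : α → ℕ} {L : α → List CCon} (hn : PT n) (hm : PT m)
    (hL : PT L) : PT (fun x => gatesOf (n x) (m x) (L x)) := by
  unfold gatesOf
  refine PT.append (PT.append ?_ ?_) ?_
  · refine PT.flatMap (F := fun x (q : CCon × ℕ) =>
      conGates (n x + m x) (n x + m x + 1 + 6 * q.2) q.1) (by fun_prop) ?_
    have h1 : PT (fun p : α × (CCon × ℕ) => n p.1) := hn.comp (by fun_prop)
    have h2 : PT (fun p : α × (CCon × ℕ) => m p.1) := hm.comp (by fun_prop)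
    exact PT_conGates (by fun_prop) (by fun_prop) (by fun_prop)
  · refine PT.flatMap (F := fun x k =>
      chainGates (n x + k) (n x + m x + 1 + 6 * ((L x).length + k))) (by fun_prop) ?_
    have h1 : PT (fun p : α × ℕ => n p.1) := hn.comp (by fun_prop)
    have h2 : PT (fun p : α × ℕ => m p.1) := hm.comp (by fun_prop)
    have h3 : PT (fun p : α × ℕ => L p.1) := hL.comp (by fun_prop)
    exact PT_chainGates (by fun_prop) (by fun_prop)
  · unfold ng
    fun_prop

/-- P2 -/
theorem PT_strict : PT strict := by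
  have hL : PT (fun L : List ECon => L) := PT.id'
  have hc : PT (fun L : List ECon => cSys L) := PT_cSys hL
  have h1 : PT (fun L : List ECon => cNum L) := by
    unfold cNum
    have h2 := PT_idxBound hL
    have h3 := PT_sq1 hL
    fun_prop
  have h4 : PT (fun L : List ECon => sq2 (cNum L) (cSys L)) := by
    unfold sq2
    have h5 : PT (fun L : List ECon => bnd (2 * cNum L) (11 + (cSys L).length + cNum L)) :=
      PT_bnd (by fun_prop) (by fun_prop)
    fun_prop
  unfold strict
  refine PT.pair ?_ (PT_gatesOf h1 h4 hc)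
  unfold gNum
  fun_prop

end Pool.Agent.SegDraw
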