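import Pool.Agent.Lib.MP_431574_lc.Code
import Pool.Agent.Lib.MP_1ce42f_lc.OfTM2

/-!
# P3: the instance is computed in polynomial time
-/

open N68a2faeb N793a5b8e N487b59b3

namespace Pool.Agent.SegDraw

open Pool.Agent.MSR Pool.Agent.MSR.En

namespace P3

variable {α β γ : Type} [En α] [En β] [En γ]

/-! ## rooms -/

/-- tuples which code rooms -/
abbrev RC : Type := ℕ × ℕ × ℕ × ℕ × Bool × Bool

/-- rooms as tuples -/
def rc : Room → RC
  | .pin c j s => (0, c, j, 0, s, false)
  | .lpin c j s => (1, c, j, 0, s, false)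
  | .fork c j s t => (2, c, j, 0, s, t)
  | .tee c j P => (3, c, j, P, false, false)
  | .mul c j => (4, c, j, 0, false, false)

instance : En Room := ⟨fun r => enc (rc r)⟩

@[fun_prop]
theorem PT_rc {f : α → Room} (hf : PT f) : PT (fun a => rc (f a)) := hf

@[fun_prop]
theorem PT_pin {c j : α → ℕ} {s : α → Bool} (hc : PT c) (hj : PT j) (hs : PT s) :
    PT (fun a => Room.pin (c a) (j a) (s a)) := by
  have : PT (fun a => ((0, c a, j a, 0, s a, false) : RC)) := by fun_prop
  exact this

@[fun_prop]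
theorem PT_lpin {c j : α → ℕ} {s : α → Bool} (hc : PT c) (hj : PT j) (hs : PT s) :
    PT (fun a => Room.lpin (c a) (j a) (s a)) := by
  have : PT (fun a => ((1, c a, j a, 0, s a, false) : RC)) := by fun_prop
  exact this

@[fun_prop]
theorem PT_fork {c j : α → ℕ} {s t : α → Bool} (hc : PT c) (hj : PT j) (hs : PT s) (ht : PT t) :
    PT (fun a => Room.fork (c a) (j a) (s a) (t a)) := by
  have : PT (fun a => ((2, c a, j a, 0, s a, t a) : RC)) := by fun_prop
  exact this

@[fun_prop]
theorem PT_tee {c j P : α → ℕ} (hc : PT c) (hj : PT j) (hP : PT P) :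
    PT (fun a => Room.tee (c a) (j a) (P a)) := by
  have : PT (fun a => ((3, c a, j a, P a, false, false) : RC)) := by fun_prop
  exact this

@[fun_prop]
theorem PT_mul {c j : α → ℕ} (hc : PT c) (hj : PT j) :
    PT (fun a => Room.mul (c a) (j a)) := by
  have : PT (fun a => ((4, c a, j a, 0, false, false) : RC)) := by fun_prop
  exact this

/-- edges from the code -/
def edgesC (q : RC) : List (Label × Label) :=
  bif MSR.isz q.1 then [((q.2.1, q.2.2.1, 0), (q.2.1 + 1, q.2.2.1, 0))]
  else bif MSR.isz (q.1 - 1) then [((q.2.1, q.2.2.1, 0), (q.2.1 + 2, q.2.2.1, 0))]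
  else bif MSR.isz (q.1 - 2) then [((q.2.1, q.2.2.1, 0), (q.2.1 + 1, q.2.2.1, 0)),
    ((q.2.1, q.2.2.1, 0), (q.2.1 + 1, q.2.2.1 + 1, 0))]
  else bif MSR.isz (q.1 - 3) then [((q.2.1, q.2.2.1, 0), (q.2.1, q.2.2.1, 1)),
    ((q.2.1, q.2.2.1 + 1, 0), (q.2.1 + 2, q.2.2.1, 0))]
  else [((q.2.1, q.2.2.1, 0), (q.2.1, q.2.2.1, 3)),
    ((q.2.1, q.2.2.1 + 1, 0), (q.2.1, q.2.2.1, 4)),
    ((q.2.1, q.2.2.1 + 2, 0), (q.2.1, q.2.2.1, 2))]

theorem PT_edgesC : PT edgesC := by
  unfold edgesC
  fun_prop

@[fun_prop]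
theorem PT_edges {f : α → Room} (hf : PT f) : PT (fun a => (f a).edges) :=
  (PT_edgesC.comp (PT_rc hf)).of_eq (fun a => by cases f a <;> rfl)

@[fun_prop]
theorem PT_off {s : α → Bool} (hs : PT s) : PT (fun a => Room.off (s a)) := by
  unfold Room.off
  fun_prop

/-- obstacles from the code -/
def obstC (q : RC) : List (ℕ × ℕ × ℕ) :=
  bif MSR.isz q.1 then [(30 * q.2.1 + 15, 480 * q.2.2.1 + Room.off q.2.2.2.2.1,
    480 * q.2.2.1 + Room.off q.2.2.2.2.1 + 120)]
  else bif MSR.isz (q.1 - 1) then [(30 * q.2.1 + 30, 480 * q.2.2.1 + Room.off q.2.2.2.2.1,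
    480 * q.2.2.1 + Room.off q.2.2.2.2.1 + 120)]
  else bif MSR.isz (q.1 - 2) then [(30 * q.2.1 + 15, 480 * q.2.2.1 + Room.off q.2.2.2.2.1,
      480 * q.2.2.1 + Room.off q.2.2.2.2.1 + 120),
      (30 * q.2.1 + 15, 480 * q.2.2.1 + 240 + Room.off q.2.2.2.2.2,
        480 * q.2.2.1 + 240 + Room.off q.2.2.2.2.2 + 120)]
  else bif MSR.isz (q.1 - 3) then
    [(30 * q.2.1 + 20, 480 * q.2.2.1, 480 * q.2.2.1 + q.2.2.2.1)]
  else [(30 * q.2.1 + 30, 480 * q.2.2.1 + 300, 480 * q.2.2.1 + 360),
      (30 * q.2.1 + 24, 480 * q.2.2.1 + 552, 480 * q.2.2.1 + 600)]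

theorem PT_obstC : PT obstC := by
  unfold obstC
  fun_prop

@[fun_prop]
theorem PT_obst {f : α → Room} (hf : PT f) : PT (fun a => (f a).obst) :=
  (PT_obstC.comp (PT_rc hf)).of_eq (fun a => by cases f a <;> rfl)

@[fun_prop]
theorem PT_col {f : α → Room} (hf : PT f) : PT (fun a => (f a).col) := by
  have : PT (fun a => (rc (f a)).2.1) := by fun_prop
  exact this.of_eq (fun a => by cases f a <;> rfl)

@[fun_prop]
theorem PT_lane {f : α → Room} (hf : PT f) : PT (fun a => (f a).lane) := by
  have : PT (fun a => (rc (f a)).2.2.1) := by fun_prop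
  exact this.of_eq (fun a => by cases f a <;> rfl)

/-! ## operations -/

/-- operations as pairs -/
def oc : Op → ℕ × ℕ
  | .swap i => (0, i)
  | .copy i => (1, i)
  | .gate k => (2, k)

instance : En Op := ⟨fun o => enc (oc o)⟩

@[fun_prop]
theorem PT_oc {f : α → Op} (hf : PT f) : PT (fun a => oc (f a)) := hf

@[fun_prop]
theorem PT_swap {i : α → ℕ} (hi : PT i) : PT (fun a => Op.swap (i a)) := by
  have : PT (fun a => ((0, i a) : ℕ × ℕ)) := by fun_prop
  exact this

@[fun_prop]
theorem PT_copy {i : α → ℕ} (hi : PT i) : PT (fun a => Op.copy (i a)) := by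
  have : PT (fun a => ((1, i a) : ℕ × ℕ)) := by fun_prop
  exact this

@[fun_prop]
theorem PT_gate {i : α → ℕ} (hi : PT i) : PT (fun a => Op.gate (i a)) := by
  have : PT (fun a => ((2, i a) : ℕ × ℕ)) := by fun_prop
  exact this

/-! ## blocks -/

@[fun_prop]
theorem PT_pins0 {k j : α → ℕ} (hk : PT k) (hj : PT j) : PT (fun a => pins (k a) 0 (j a)) := by
  have : PT (fun a => [Room.pin (8 * k a + 0 + 0) (j a) true,
    Room.pin (8 * k a + 0 + 1) (j a) false, Room.pin (8 * k a + 0 + 2) (j a) true,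
    Room.pin (8 * k a + 0 + 3) (j a) false, Room.pin (8 * k a + 0 + 4) (j a) true,
    Room.pin (8 * k a + 0 + 5) (j a) false, Room.pin (8 * k a + 0 + 6) (j a) true,
    Room.pin (8 * k a + 0 + 7) (j a) false]) := by fun_prop
  exact this.of_eq (fun a => rfl)

@[fun_prop]
theorem PT_pins2 {k j : α → ℕ} (hk : PT k) (hj : PT j) : PT (fun a => pins (k a) 2 (j a)) := by
  have : PT (fun a => [Room.pin (8 * k a + 2 + 0) (j a) true,
    Room.pin (8 * k a + 2 + 1) (j a) false, Room.pin (8 * k a + 2 + 2) (j a) true,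
    Room.pin (8 * k a + 2 + 3) (j a) false, Room.pin (8 * k a + 2 + 4) (j a) true,
    Room.pin (8 * k a + 2 + 5) (j a) false]) := by fun_prop
  exact this.of_eq (fun a => rfl)

@[fun_prop]
theorem PT_pins4 {k j : α → ℕ} (hk : PT k) (hj : PT j) : PT (fun a => pins (k a) 4 (j a)) := by
  have : PT (fun a => [Room.pin (8 * k a + 4 + 0) (j a) true,
    Room.pin (8 * k a + 4 + 1) (j a) false, Room.pin (8 * k a + 4 + 2) (j a) true,
    Room.pin (8 * k a + 4 + 3) (j a) false]) := by fun_prop
  exact this.of_eq (fun a => rfl)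

@[fun_prop]
theorem PT_wires {k : α → ℕ} {l : α → List ℕ} (hk : PT k) (hl : PT l) :
    PT (fun a => wires (k a) (l a)) := by
  unfold wires
  apply PT.flatMap hl
  exact PT_pins0 (hk.comp (PT.fst PT.id')) (PT.mul (PT.const 2) (PT.snd PT.id'))

@[fun_prop]
theorem PT_swapRooms {c b : α → ℕ} (hc : PT c) (hb : PT b) :
    PT (fun a => swapRooms (c a) (b a)) := by
  unfold swapRooms
  fun_prop

@[fun_prop]
theorem PT_copyRooms {c b : α → ℕ} (hc : PT c) (hb : PT b) :
    PT (fun a => copyRooms (c a) (b a)) := by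
  unfold copyRooms
  fun_prop

@[fun_prop]
theorem PT_linRooms {c b P : α → ℕ} (hc : PT c) (hb : PT b) (hP : PT P) :
    PT (fun a => linRooms (c a) (b a) (P a)) := by
  unfold linRooms
  fun_prop

@[fun_prop]
theorem PT_mulRooms {c b : α → ℕ} (hc : PT c) (hb : PT b) :
    PT (fun a => mulRooms (c a) (b a)) := by
  unfold mulRooms
  fun_prop

@[fun_prop]
theorem PT_gateRooms {k c b : α → ℕ} (hk : PT k) (hc : PT c) (hb : PT b) :
    PT (fun a => gateRooms (k a) (c a) (b a)) := by
  unfold gateRooms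
  apply PT.ite (PT.eq hk (PT.const 0)) (by fun_prop)
  apply PT.ite (PT.eq hk (PT.const 1)) (by fun_prop)
  apply PT.ite (PT.eq hk (PT.const 2)) (by fun_prop)
  fun_prop

theorem PT_range' {n i : α → ℕ} (hn : PT n) (hi : PT i) :
    PT (fun a => (List.range (2 * n a + 3 - (i a + 2))).map (fun t => i a + 2 + t)) := by
  apply PT.map (by fun_prop)
  have : PT (fun p : α × ℕ => i p.1 + 2 + p.2) := by
    have := hi.comp (PT.fst (PT.id' (α := α × ℕ)))
    fun_prop
  exact this

@[fun_prop]
theorem PT_blockRooms {n k : α → ℕ} {o : α → Op} (hn : PT n) (hk : PT k) (ho : PT o) :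
    PT (fun a => blockRooms (n a) (k a) (o a)) := by
  have hi : PT (fun a => (oc (o a)).2) := by fun_prop
  have h1 : PT (fun a => swapRooms (8 * k a) (2 * (oc (o a)).2) ++
      wires (k a) (List.range (oc (o a)).2) ++
      wires (k a) ((List.range (2 * n a + 3 - ((oc (o a)).2 + 2))).map
        (fun t => (oc (o a)).2 + 2 + t))) := by
    exact PT.append (PT.append (PT_swapRooms (PT.mul (PT.const 8) hk) (PT.mul (PT.const 2) hi))
      (PT_wires hk (PT.range hi))) (PT_wires hk (PT_range' hn hi))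
  have h2 : PT (fun a => copyRooms (8 * k a) (2 * (oc (o a)).2) ++
      pins (k a) 2 (2 * (oc (o a)).2) ++ pins (k a) 2 (2 * (oc (o a)).2 + 2) ++
      wires (k a) (List.range (oc (o a)).2) ++
      wires (k a) ((List.range (2 * n a + 3 - ((oc (o a)).2 + 2))).map
        (fun t => (oc (o a)).2 + 2 + t))) := by
    exact PT.append (PT.append (PT.append (PT.append
      (PT_copyRooms (PT.mul (PT.const 8) hk) (PT.mul (PT.const 2) hi))
      (PT_pins2 hk (PT.mul (PT.const 2) hi)))
      (PT_pins2 hk (PT.add (PT.mul (PT.const 2) hi) (PT.const 2))))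
      (PT_wires hk (PT.range hi))) (PT_wires hk (PT_range' hn hi))
  have h3 : PT (fun a => gateRooms (oc (o a)).2 (8 * k a) (4 * n a) ++
      wires (k a) (List.range (2 * n a))) := by
    exact PT.append (PT_gateRooms hi (PT.mul (PT.const 8) hk) (PT.mul (PT.const 4) hn))
      (PT_wires hk (PT.range (PT.mul (PT.const 2) hn)))
  have h4 : PT (fun a => MSR.isz (oc (o a)).1) := by fun_prop
  have h5 : PT (fun a => MSR.isz ((oc (o a)).1 - 1)) := by fun_prop
  refine (PT.cond h4 h1 (PT.cond h5 h2 h3)).of_eq (fun a => ?_)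
  cases o a <;> rfl

@[fun_prop]
theorem PT_srcRooms {i : α → ℕ} (hi : PT i) : PT (fun a => srcRooms (i a)) := by
  unfold srcRooms
  fun_prop

@[fun_prop]
theorem PT_fetch {b T : α → ℕ} (hb : PT b) (hT : PT T) : PT (fun a => fetch (b a) (T a)) := by
  unfold fetch
  have hb' := hb.comp (PT.fst (PT.id' (α := α × ℕ)))
  have hT' := hT.comp (PT.fst (PT.id' (α := α × ℕ)))
  apply PT.append (PT.append _ _)
  · apply PT.map (by fun_prop)
    have : PT (fun p : α × ℕ => Op.swap (b p.1 + 1 + p.2)) := by fun_prop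
    exact this
  · apply PT.map (by fun_prop)
    have : PT (fun p : α × ℕ => Op.swap (T p.1 - 1 - p.2)) := by fun_prop
    exact this
  · fun_prop

@[fun_prop]
theorem PT_gateProg {n : α → ℕ} {g : α → Gate} (hn : PT n) (hg : PT g) :
    PT (fun a => gateProg (n a) (g a)) := by
  unfold gateProg
  fun_prop

@[fun_prop]
theorem PT_prog {n : α → ℕ} {g : α → List Gate} (hn : PT n) (hg : PT g) :
    PT (fun a => prog (n a) (g a)) := by
  unfold prog
  apply PT.flatMap hg
  exact PT_gateProg (hn.comp (PT.fst PT.id')) (PT.snd PT.id')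

@[fun_prop]
theorem PT_progRooms {n : α → ℕ} {o : α → List Op} (hn : PT n) (ho : PT o) :
    PT (fun a => progRooms (n a) (o a)) := by
  unfold progRooms
  apply PT.append
  · apply PT.flatMap (PT.range hn)
    exact PT_srcRooms (PT.snd PT.id')
  · apply PT.flatMap (PT.zipIdx ho)
    exact PT_blockRooms (hn.comp (PT.fst PT.id')) (PT.succ (PT.snd (PT.snd PT.id')))
      (PT.fst (PT.snd PT.id'))

theorem PT_layout : PT (fun q : ℕ × List Gate => layout q.1 q.2) := by
  unfold layout
  fun_prop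

/-! ## the code -/

@[fun_prop]
theorem PT_allEdges {L : α → List Room} (hL : PT L) : PT (fun a => allEdges (L a)) := by
  unfold allEdges
  apply PT.flatMap hL
  exact PT_edges (PT.snd PT.id')

@[fun_prop]
theorem PT_allObst {L : α → List Room} (hL : PT L) : PT (fun a => allObst (L a)) := by
  unfold allObst
  apply PT.flatMap hL
  exact PT_obst (PT.snd PT.id')

@[fun_prop]
theorem PT_boxOf {L : α → List Room} (hL : PT L) : PT (fun a => boxOf (L a)) := by
  have h1 : PT (fun a => (L a).flatMap (fun r => List.range (r.col + r.lane + 4))) := by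
    apply PT.flatMap hL
    have : PT (fun p : α × Room => List.range (p.2.col + p.2.lane + 4)) := by fun_prop
    exact this
  refine (PT.succ (PT.length h1)).of_eq (fun a => ?_)
  unfold boxOf
  rw [List.length_flatMap]
  simp

@[fun_prop]
theorem PT_idx {B : α → ℕ} {u : α → Label} (hB : PT B) (hu : PT u) :
    PT (fun a => idx (B a) (u a)) := by
  unfold idx
  fun_prop

@[fun_prop]
theorem PT_usedB {L : α → List Room} {u : α → Label} (hL : PT L) (hu : PT u) :
    PT (fun a => usedB (L a) (u a)) := by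
  unfold usedB
  apply PT.any (PT_allEdges hL)
  have hu' := hu.comp (PT.fst (PT.id' (α := α × (Label × Label))))
  apply PT.or
  · exact PT.eq hu' (PT.fst (PT.snd PT.id'))
  · exact PT.eq hu' (PT.snd (PT.snd PT.id'))

/-- `segA` and `segB` by case distinction -/
def segC (u : Label) : (ℕ × ℕ) × (ℕ × ℕ) :=
  bif MSR.isz u.2.2 then ((30 * u.1, 480 * u.2.1), (30 * u.1, 480 * u.2.1 + 240))
  else bif MSR.isz (u.2.2 - 1) then ((30 * u.1 + 30, 480 * u.2.1 + 240),
    (30 * u.1 + 30, 480 * u.2.1 + 480))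
  else bif MSR.isz (u.2.2 - 2) then ((30 * u.1 + 30, 480 * u.2.1 + 390),
    (30 * u.1 + 30, 480 * u.2.1 + 450))
  else bif MSR.isz (u.2.2 - 3) then ((30 * u.1 + 30, 480 * u.2.1 + 360),
    (30 * u.1 + 60, 480 * u.2.1 + 360))
  else ((30 * u.1 + 60, 480 * u.2.1 + 120), (30 * u.1 + 60, 480 * u.2.1 + 360))

@[fun_prop]
theorem PT_segC {u : α → Label} (hu : PT u) : PT (fun a => segC (u a)) := by
  unfold segC
  fun_prop

theorem segC_eq (u : Label) : segC u = (segA u, segB u) := by
  obtain ⟨c, j, k⟩ := u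
  rcases k with _ | _ | _ | _ | k <;> rfl

/-- the segments in natural coordinates -/
def segN (L : List Room) (u : Label) : (ℕ × ℕ) × (ℕ × ℕ) :=
  bif usedB L u then segC u
  else ((30 * boxOf L + 100 + idx (boxOf L) u, 0), (30 * boxOf L + 100 + idx (boxOf L) u, 1))

@[fun_prop]
theorem PT_segN {L : α → List Room} {u : α → Label} (hL : PT L) (hu : PT u) :
    PT (fun a => segN (L a) (u a)) := by
  unfold segN
  fun_prop

theorem segOf_eq (L : List Room) (u : Label) :
    segOf L u = (false, qpt (segN L u).1, qpt (segN L u).2) := by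
  unfold segOf segN
  cases usedB L u
  · rfl
  · simp only [cond_true, segC_eq]

/-- natural number in binary -/
def rn (m : ℕ) : Raw := ⟨Computability.encodeNat m⟩
/-- natural number as a rational number -/
def rq (m : ℕ) : (Raw × Raw) × Raw := ((rn m, ⟨[]⟩), ⟨[true]⟩)
/-- point with natural coordinates -/
def rp (a : ℕ × ℕ) : ((Raw × Raw) × Raw) × ((Raw × Raw) × Raw) := (rq a.1, rq a.2)

@[fun_prop]
theorem PT_rn {f : α → ℕ} (hf : PT f) : PT (fun a => rn (f a)) := by
  unfold rn
  exact PT.toRaw (PT.encodeNat hf)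

@[fun_prop]
theorem PT_rq {f : α → ℕ} (hf : PT f) : PT (fun a => rq (f a)) := by
  unfold rq
  exact PT.pair (PT.pair (PT_rn hf) (PT.const _)) (PT.const _)

@[fun_prop]
theorem PT_rp {f : α → ℕ × ℕ} (hf : PT f) : PT (fun a => rp (f a)) := by
  unfold rp
  exact PT.pair (PT_rq (PT.fst hf)) (PT_rq (PT.snd hf))

theorem enc_rn (m : ℕ) : enc (rn m) = bitEncode m := rfl

theorem enc_rq (m : ℕ) : enc (rq m) = bitEncode (m : ℚ) := by
  have e1 : bitEncode (m : ℚ) = bitEncode ((m : ℚ).num, (m : ℚ).den) := rfl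
  have e2 : bitEncode (m : ℤ) = bitEncode ((m : ℤ).toNat, (-(m : ℤ)).toNat) := rfl
  unfold rq rn
  rw [e1, Rat.num_natCast, Rat.den_natCast, bitEncode_pair]
  simp only
  rw [e2, Int.toNat_natCast, bitEncode_pair, enc_pair, enc_pair]
  have e3 : (-(m : ℤ)).toNat = 0 := by omega
  simp only [e3]
  rfl

theorem enc_rp (a : ℕ × ℕ) : enc (rp a) = bitEncode (qpt a) := by
  unfold rp qpt
  rw [enc_pair, bitEncode_pair, enc_rq, enc_rq]

theorem enc_map {δ ε ι : Type} [En δ] [N487b59b3 ε] (l : List ι) (f : ι → δ) (g : ι → ε)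
    (h : ∀ x, enc (f x) = bitEncode (g x)) : enc (l.map f) = bitEncode (l.map g) := by
  show ((List.map enc (l.map f)).map delimit).flatten =
    ((List.map bitEncode (l.map g)).map delimit).flatten
  congr 2
  rw [List.map_map, List.map_map]
  exact List.map_congr_left (fun x _ => h x)

/-- all labels -/
def labs (B : ℕ) : List Label :=
  (List.range B).flatMap (fun c => (List.range B).flatMap (fun j =>
    (List.range 5).map (fun k => (c, j, k))))

@[fun_prop]
theorem PT_labs {B : α → ℕ} (hB : PT B) : PT (fun a => labs (B a)) := by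
  unfold labs
  apply PT.flatMap (PT.range hB)
  have hB' := hB.comp (PT.fst (PT.id' (α := α × ℕ)))
  apply PT.flatMap (PT.range hB')
  apply PT.map (PT.const _)
  have : PT (fun p : ((α × ℕ) × ℕ) × ℕ => ((p.1.1.2, p.1.2, p.2) : Label)) := by fun_prop
  exact this

theorem placeList_eq (L : List Room) : placeList L = (labs (boxOf L)).map (segOf L) := by
  unfold placeList labs
  simp only [List.map_flatMap, List.map_map]
  rfl

/-- the value whose code is the code of the instance -/
def outV (L : List Room) : Raw × List (Raw × Raw) ×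
    List (Bool × (((Raw × Raw) × Raw) × ((Raw × Raw) × Raw)) ×
      (((Raw × Raw) × Raw) × ((Raw × Raw) × Raw))) ×
    List ((((Raw × Raw) × Raw) × ((Raw × Raw) × Raw)) ×
      (((Raw × Raw) × Raw) × ((Raw × Raw) × Raw))) :=
  (rn (boxOf L * boxOf L * 5),
    (allEdges L).map (fun e => (rn (idx (boxOf L) e.1), rn (idx (boxOf L) e.2))),
    (labs (boxOf L)).map (fun u => (false, rp (segN L u).1, rp (segN L u).2)),
    (allObst L).map (fun o => (rp (o.1, o.2.1), rp (o.1, o.2.2))))

theorem enc_outV (L : List Room) : enc (outV L) = codeOf L := by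
  unfold outV codeOf
  rw [enc_pair, enc_pair, enc_pair, bitEncode_pair, bitEncode_pair, bitEncode_pair]
  congr 1
  congr 1
  · congr 1
    exact enc_map _ _ _ (fun e => rfl)
  · congr 1
    · congr 1
      rw [placeList_eq]
      refine enc_map _ _ _ (fun u => ?_)
      rw [segOf_eq, enc_pair, enc_pair, bitEncode_pair, bitEncode_pair, enc_rp, enc_rp]
      rfl
    · refine enc_map _ _ _ (fun o => ?_)
      rw [enc_pair, bitEncode_pair, enc_rp, enc_rp]

theorem PT_outV : PT outV := by
  unfold outV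
  have hB : PT (fun L : List Room => boxOf L) := PT_boxOf PT.id'
  apply PT.pair (by fun_prop)
  apply PT.pair
  · apply PT.map (by fun_prop)
    have : PT (fun p : List Room × (Label × Label) =>
      (rn (idx (boxOf p.1) p.2.1), rn (idx (boxOf p.1) p.2.2))) := by fun_prop
    exact this
  apply PT.pair
  · apply PT.map (by fun_prop)
    have : PT (fun p : List Room × Label =>
      (false, rp (segN p.1 p.2).1, rp (segN p.1 p.2).2)) := by fun_prop
    exact this
  · apply PT.map (by fun_prop)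
    have : PT (fun p : List Room × (ℕ × ℕ × ℕ) =>
      (rp (p.2.1, p.2.2.1), rp (p.2.1, p.2.2.2))) := by fun_prop
    exact this

theorem PT_codeOf : PT codeOf := (PT.encString PT_outV).of_eq (fun L => (enc_outV L).symm)

end P3

/-- P3 -/
theorem PT_codeOf_layout : PT (fun q : ℕ × List Gate => codeOf (layout q.1 q.2)) :=
  P3.PT_codeOf.comp P3.PT_layout

end Pool.Agent.SegDraw
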