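import Pool.Agent.Lib.MP_431574_lc.A2
import Pool.Agent.Lib.MP_431574_lc.A3
import Pool.Agent.Lib.MP_431574_lc.A4
import Pool.Agent.Lib.MP_431574_lc.A5
import Pool.Agent.Lib.MP_431574_lc.F1
import Pool.Agent.Lib.MP_431574_lc.F2
import Pool.Agent.Lib.MP_431574_lc.F3
import Pool.Agent.Lib.MP_431574_lc.G1
import Pool.Agent.Lib.MP_431574_lc.G2
import Pool.Agent.Lib.MP_431574_lc.G5
import Pool.Agent.Lib.MP_431574_lc.G6
import Pool.Agent.Lib.MP_431574_lc.N1
import Pool.Agent.Lib.MP_431574_lc.N2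
import Pool.Agent.Lib.MP_431574_lc.N4
import Pool.Agent.Lib.MP_431574_lc.P1
import Pool.Agent.Lib.MP_431574_lc.P2
import Pool.Agent.Lib.MP_431574_lc.P3

/-!
# Segment drawing with obstacles: the assembly of the reduction
-/

open N68a2faeb N793a5b8e N487b59b3

namespace Pool.Agent.SegDraw

open Pool.Agent.MSR Pool.Agent.MSR.En


theorem rawSys_reject {M : ℕ} {T : List RTok} (h : accepts T = false) :
    ¬ ∃ V, ESat (rawSys M T) V := by
  rintro ⟨V, hV⟩
  unfold rawSys at hV
  rw [h] at hV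
  have h1 := hV (0, 0, 0, 0) (by simp)
  have h2 := hV (1, 0, 0, 0) (by simp)
  simp [eRes] at h1 h2
  rw [h2] at h1
  norm_num at h1

/-- the front end: a polynomial time translation of `ETR` into systems of equations -/
theorem front : ∃ f : List Bool → List ECon, PT f ∧
    ∀ s, ETR s = true ↔ ∃ V, ESat (f s) V := by
  obtain ⟨parse, hP, h1, h2, h3⟩ := exists_parse
  refine ⟨fun s => rawSys (4 * s.length + 20) (parse s), ?_, fun s => ?_⟩
  · have : PT (fun s : List Bool => (4 * s.length + 20, parse s)) := by fun_prop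
    exact PT_rawSys.comp this
  · have hE : ETR s = true ↔ ∃ φ : Fml, s = bitEncode φ.code ∧ ∃ x : ℕ → ℝ, φ.Holds x := by
      unfold ETR; classical exact decide_eq_true_iff
    rw [hE]
    constructor
    · rintro ⟨φ, rfl, hx⟩
      show ∃ V, ESat (rawSys _ (parse (bitEncode φ.code))) V
      rw [h1]
      rw [rawSys_iff φ]
      · exact hx
      · intro t ht
        have := h3 (bitEncode φ.code) t (by rw [h1]; exact ht)
        omega
    · intro hV
      have hacc : accepts (parse s) = true := by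
        by_contra hne
        exact rawSys_reject (by simpa using hne) hV
      obtain ⟨T, rfl⟩ := h2 s hacc
      rw [h1] at hacc
      obtain ⟨φ, rfl⟩ := (accepts_iff T).1 hacc
      refine ⟨φ, rfl, ?_⟩
      change ∃ V, ESat (rawSys _ (parse (bitEncode φ.code))) V at hV
      rw [h1] at hV
      rw [rawSys_iff φ] at hV
      · exact hV
      · intro t ht
        have := h3 (bitEncode φ.code) t (by rw [h1]; exact ht)
        omega

theorem strict_sound (L : List ECon) {x : ℕ → ℝ} (hx : ∀ i, |x i| < 1 / 2)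
    (h : ∀ g ∈ (strict L).2, gateOK x g) : ∃ V, ESat L V := by
  apply cSys_sound
  have h0 : ∀ g ∈ gatesOf (cNum L) (sq2 (cNum L) (cSys L)) (cSys L), gateOK x g := h
  have hr := cSys_inRange L
  generalize cNum L = n at h0 hr
  generalize cSys L = K at h0 hr ⊢
  have h1 := gates_sound n (sq2 n K) K hx h0
  apply exact_of_approx n K hr (fun i => (hx i).le)
  intro e he
  refine (h1 e he).trans ?_
  have h2 : sq2 n K = (bnd (2 * n) (11 + K.length + n) + K.length + 9) + 1 := by
    unfold sq2; omega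
  rw [h2]
  set b := bnd (2 * n) (11 + K.length + n) + K.length + 9 with hb
  have h3 : 4 ≤ 2 ^ b := by
    have : 2 ^ 2 ≤ 2 ^ b := Nat.pow_le_pow_right (by norm_num) (by omega)
    simpa using this
  have h4 : (1 / 2 : ℝ) ^ 2 ^ (b + 1) = (1 / 2) ^ 2 ^ b * (1 / 2) ^ 2 ^ b := by
    rw [pow_succ, mul_two, pow_add]
  have h5 : (1 / 2 : ℝ) ^ 2 ^ b ≤ (1 / 2) ^ 4 :=
    pow_le_pow_of_le_one (by norm_num) (by norm_num) h3
  have h6 : 0 < (1 / 2 : ℝ) ^ 2 ^ b := by positivity
  rw [h4]
  nlinarith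

theorem strict_complete (L : List ECon) (h : ∃ V, ESat L V) :
    ∃ y : ℕ → ℝ, (∀ i, |y i| ≤ 7 / 64) ∧ ∀ g ∈ (strict L).2, gateOK y g := by
  obtain ⟨x, hx, hb⟩ := cSys_complete L h
  exact gates_complete _ _ _ (cSys_inRange L) hb hx

/-- The instances produced by the reduction: the graph is a forest, the vertices live on open
vertical or horizontal segments, and the obstacles are vertical. -/
structure Inst.Simple {n : ℕ} (I : Inst n) : Prop where
  acyclic : I.G.IsAcyclic
  isOpen : ∀ v, (I.place v).1 = false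
  axis : ∀ v, (I.place v).2.1.1 = (I.place v).2.2.1 ∨ (I.place v).2.1.2 = (I.place v).2.2.2
  vertical : ∀ o ∈ I.obs, o.1.1 = o.2.1

theorem inst_simple {L : List Room} (hL : L.Pairwise Sep)
    (hP : ∀ r ∈ L, ∀ o ∈ r.obst, o.2.1 ≠ o.2.2) : (G5.inst L hP).Simple := by
  refine ⟨G5.gr_acyclic hL, ?_, ?_, ?_⟩
  · intro v
    show (segOf L (G5.lab (boxOf L) v)).1 = false
    by_cases h : Used L (G5.lab (boxOf L) v)
    · rw [G5.segOf_used h]
    · rw [G5.segOf_unused h]
  · intro v
    show (segOf L (G5.lab (boxOf L) v)).2.1.1 = (segOf L (G5.lab (boxOf L) v)).2.2.1 ∨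
      (segOf L (G5.lab (boxOf L) v)).2.1.2 = (segOf L (G5.lab (boxOf L) v)).2.2.2
    by_cases h : Used L (G5.lab (boxOf L) v)
    · rw [G5.segOf_used h]
      generalize G5.lab (boxOf L) v = u
      obtain ⟨c, j, k⟩ := u
      rcases k with _ | _ | _ | _ | k
      · exact Or.inl rfl
      · exact Or.inl rfl
      · exact Or.inl rfl
      · exact Or.inr rfl
      · exact Or.inl rfl
    · rw [G5.segOf_unused h]
      exact Or.inl rfl
  · intro o ho
    have ho' : o ∈ obsList L := ho
    unfold obsList at ho'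
    rw [List.mem_map] at ho'
    obtain ⟨o', _, rfl⟩ := ho'
    rfl

/-- the complete reduction -/
theorem reduction : ∃ f : List Bool → List Bool, IsPolyTime f ∧ ∀ s,
    ∃ (n : ℕ) (I : Inst n), I.IsCode (f s) ∧ I.Simple ∧ IsPlanar I.G ∧
      (ETR s = true → ∀ C, IsCrossingNotion C → I.Drawable C) ∧
      (∀ C, IsCrossingNotion C → I.Drawable C → ETR s = true) := by
  obtain ⟨f, hf, h1⟩ := front
  refine ⟨fun s => codeOf (layout (strict (f s)).1 (strict (f s)).2), ?_, fun s => ?_⟩
  · apply isPolyTime_of_PT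
    exact PT_codeOf_layout.comp (PT_strict.comp hf)
  · set L := f s with hL
    have hr : InRange (2 * (strict L).1) (strict L).2 :=
      gatesOf_inRange _ _ _ (cSys_inRange L)
    have hsep := layout_sep _ _ hr
    have hP := layout_obst (strict L).1 (strict L).2
    refine ⟨_, G5.inst _ hP, G5.inst_isCode _ hP, inst_simple hsep hP, ?_, ?_, ?_⟩
    · obtain ⟨p, hp⟩ := draw_free hsep
      exact ⟨_, G5.planar_extend hp⟩
    · intro he C hC
      obtain ⟨y, hy, hg⟩ := strict_complete L ((h1 s).1 he)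
      obtain ⟨v, hv, hs⟩ := layout_complete _ _ hr hy hg
      obtain ⟨p, hp⟩ := draw_of_values hsep hv hs
      exact G5.drawable_extend hP hp hC.2
    · intro C hC hD
      obtain ⟨p, hp⟩ := G5.ldraw_of_drawable hP hD
      have hp' : LDraw ProperlyCross (layout (strict L).1 (strict L).2) p :=
        ⟨hp.place, hp.inj, hp.vertex, hp.edge, fun e he o ho hc =>
          hp.obst e he o ho (hC.1 _ _ _ _ hc)⟩
      obtain ⟨x, hx, hg⟩ := layout_sound _ _ hr (fun c j => val_bound hp' c j) (weak_of_draw hp')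
      exact (h1 s).2 (strict_sound L hx hg)

open Classical in
/-- The segment drawing problem restricted to the instances that satisfy `Q` (for instance: whose
graph is a forest), for the crossing notion `C`. -/
noncomputable def segDrawOn (Q : ∀ n, Inst n → Prop)
    (C : ℝ × ℝ → ℝ × ℝ → ℝ × ℝ → ℝ × ℝ → Prop) : DecisionProblem :=
  fun s => decide (∃ (n : ℕ) (I : Inst n), I.IsCode s ∧ Q n I ∧ I.Drawable C)

/-- hardness -/
theorem hard_on (Q : ∀ n, Inst n → Prop) (hQ : ∀ n (I : Inst n), I.Simple → IsPlanar I.G → Q n I)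
    (C : ℝ × ℝ → ℝ × ℝ → ℝ × ℝ → ℝ × ℝ → Prop) (hC : IsCrossingNotion C) :
    ERHard (segDrawOn Q C) := by
  intro L hL
  obtain ⟨g, hg, hgL⟩ := hL
  obtain ⟨f, hf, h⟩ := reduction
  refine ⟨fun x => f (g x), Pool.Agent.OfTM2.isPolyTime_comp hf hg, fun x => ?_⟩
  rw [hgL]
  obtain ⟨n, I, i1, i2, i3, i4, i5⟩ := h (g x)
  rw [Bool.eq_iff_iff]
  have hS : segDrawOn Q C (f (g x)) = true ↔
      ∃ (n : ℕ) (I : Inst n), I.IsCode (f (g x)) ∧ Q n I ∧ I.Drawable C := by
    unfold segDrawOn; classical exact decide_eq_true_iff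
  rw [hS]
  constructor
  · intro he
    exact ⟨n, I, i1, hQ n I i2 i3, i4 he C hC⟩
  · rintro ⟨n', I', j1, j2, j3⟩
    obtain ⟨rfl, hI⟩ := inst_unique I I' i1 j1
    rw [heq_iff_eq] at hI
    subst hI
    exact i5 C hC j3

/-- hardness -/
theorem segDraw_hard (C : ℝ × ℝ → ℝ × ℝ → ℝ × ℝ → ℝ × ℝ → Prop) (hC : IsCrossingNotion C) :
    ERHard (segDraw C) :=
  hard_on (fun _ I => IsPlanar I.G) (fun _ _ _ h => h) C hC

end Pool.Agent.SegDraw
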