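import Pool.Agent.Lib.MP_431574_lc.Code

/-!
# N2: soundness of the layout
-/

namespace Pool.Agent.SegDraw

namespace N2

theorem wk_true {a : ℝ} : Room.Wk true a ↔ a ≤ 0 := by simp [Room.Wk]

theorem wk_false {a : ℝ} : Room.Wk false a ↔ 0 ≤ a := by simp [Room.Wk]

/-! ### The values of unused doors are irrelevant -/

open Classical in
/-- the values, with `0` for the unused doors -/
noncomputable def clean (L : List Room) (v : ℕ → ℕ → ℝ) (c j : ℕ) : ℝ :=
  if Used L (c, j, 0) then v c j else 0

theorem clean_used {L : List Room} {v : ℕ → ℕ → ℝ} {c j : ℕ} (h : Used L (c, j, 0)) :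
    clean L v c j = v c j := by
  unfold clean; rw [if_pos h]

theorem clean_lt {L : List Room} {v : ℕ → ℕ → ℝ}
    (hv : ∀ c j, Used L (c, j, 0) → |v c j| < 1 / 2) (c j : ℕ) : |clean L v c j| < 1 / 2 := by
  by_cases h : Used L (c, j, 0)
  · rw [clean_used h]; exact hv c j h
  · unfold clean; rw [if_neg h]; norm_num

theorem used_of {L : List Room} {r : Room} (hr : r ∈ L) {e : Label × Label} (he : e ∈ r.edges)
    {u : Label} (hu : u = e.1 ∨ u = e.2) : Used L u :=
  ⟨e, List.mem_flatMap.2 ⟨r, hr, he⟩, hu⟩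

theorem clean_weak {L : List Room} {v : ℕ → ℕ → ℝ} (hw : ∀ r ∈ L, r.Weak v) :
    ∀ r ∈ L, r.Weak (clean L v) := by
  intro r hr
  have h := hw r hr
  cases r with
  | pin c j s =>
    have h1 : Used L (c, j, 0) := used_of hr (e := ((c, j, 0), (c + 1, j, 0)))
      (by simp [Room.edges]) (Or.inl rfl)
    have h2 : Used L (c + 1, j, 0) := used_of hr (e := ((c, j, 0), (c + 1, j, 0)))
      (by simp [Room.edges]) (Or.inr rfl)
    simpa only [Room.Weak, clean_used h1, clean_used h2] using h
  | lpin c j s =>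
    have h1 : Used L (c, j, 0) := used_of hr (e := ((c, j, 0), (c + 2, j, 0)))
      (by simp [Room.edges]) (Or.inl rfl)
    have h2 : Used L (c + 2, j, 0) := used_of hr (e := ((c, j, 0), (c + 2, j, 0)))
      (by simp [Room.edges]) (Or.inr rfl)
    simpa only [Room.Weak, clean_used h1, clean_used h2] using h
  | fork c j s t =>
    have h1 : Used L (c, j, 0) := used_of hr (e := ((c, j, 0), (c + 1, j, 0)))
      (by simp [Room.edges]) (Or.inl rfl)
    have h2 : Used L (c + 1, j, 0) := used_of hr (e := ((c, j, 0), (c + 1, j, 0)))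
      (by simp [Room.edges]) (Or.inr rfl)
    have h3 : Used L (c + 1, j + 1, 0) := used_of hr (e := ((c, j, 0), (c + 1, j + 1, 0)))
      (by simp [Room.edges]) (Or.inr rfl)
    simpa only [Room.Weak, clean_used h1, clean_used h2, clean_used h3] using h
  | tee c j P =>
    have h1 : Used L (c, j, 0) := used_of hr (e := ((c, j, 0), (c, j, 1)))
      (by simp [Room.edges]) (Or.inl rfl)
    have h2 : Used L (c, j + 1, 0) := used_of hr (e := ((c, j + 1, 0), (c + 2, j, 0)))
      (by simp [Room.edges]) (Or.inl rfl)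
    have h3 : Used L (c + 2, j, 0) := used_of hr (e := ((c, j + 1, 0), (c + 2, j, 0)))
      (by simp [Room.edges]) (Or.inr rfl)
    simpa only [Room.Weak, clean_used h1, clean_used h2, clean_used h3] using h
  | mul c j =>
    have h1 : Used L (c, j, 0) := used_of hr (e := ((c, j, 0), (c, j, 3)))
      (by simp [Room.edges]) (Or.inl rfl)
    have h2 : Used L (c, j + 1, 0) := used_of hr (e := ((c, j + 1, 0), (c, j, 4)))
      (by simp [Room.edges]) (Or.inl rfl)
    have h3 : Used L (c, j + 2, 0) := used_of hr (e := ((c, j + 2, 0), (c, j, 2)))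
      (by simp [Room.edges]) (Or.inl rfl)
    simpa only [Room.Weak, clean_used h1, clean_used h2, clean_used h3] using h

/-! ### One-step inequalities -/

variable {v : ℕ → ℕ → ℝ} {R : List Room}

theorem pinT (hR : ∀ r ∈ R, r.Weak v) {c j : ℕ} (h : Room.pin c j true ∈ R) :
    v c j + v (c + 1) j ≤ 0 := by
  have := hR _ h
  simpa only [Room.Weak, wk_true] using this

theorem pinF (hR : ∀ r ∈ R, r.Weak v) {c j : ℕ} (h : Room.pin c j false ∈ R) :
    0 ≤ v c j + v (c + 1) j := by
  have := hR _ h
  simpa only [Room.Weak, wk_false] using this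

theorem lpinT (hR : ∀ r ∈ R, r.Weak v) {c j : ℕ} (h : Room.lpin c j true ∈ R) :
    v c j + v (c + 2) j ≤ 0 := by
  have := hR _ h
  simpa only [Room.Weak, wk_true] using this

theorem lpinF (hR : ∀ r ∈ R, r.Weak v) {c j : ℕ} (h : Room.lpin c j false ∈ R) :
    0 ≤ v c j + v (c + 2) j := by
  have := hR _ h
  simpa only [Room.Weak, wk_false] using this

theorem forkTT (hR : ∀ r ∈ R, r.Weak v) {c j : ℕ} (h : Room.fork c j true true ∈ R) :
    v c j + v (c + 1) j ≤ 0 ∧ v c j + v (c + 1) (j + 1) ≤ 0 := by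
  have := hR _ h
  simpa only [Room.Weak, wk_true] using this

theorem forkTF (hR : ∀ r ∈ R, r.Weak v) {c j : ℕ} (h : Room.fork c j true false ∈ R) :
    v c j + v (c + 1) j ≤ 0 ∧ 0 ≤ v c j + v (c + 1) (j + 1) := by
  have := hR _ h
  simpa only [Room.Weak, wk_true, wk_false] using this

theorem forkFT (hR : ∀ r ∈ R, r.Weak v) {c j : ℕ} (h : Room.fork c j false true ∈ R) :
    0 ≤ v c j + v (c + 1) j ∧ v c j + v (c + 1) (j + 1) ≤ 0 := by
  have := hR _ h
  simpa only [Room.Weak, wk_true, wk_false] using this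

theorem forkFF (hR : ∀ r ∈ R, r.Weak v) {c j : ℕ} (h : Room.fork c j false false ∈ R) :
    0 ≤ v c j + v (c + 1) j ∧ 0 ≤ v c j + v (c + 1) (j + 1) := by
  have := hR _ h
  simpa only [Room.Weak, wk_false] using this

theorem teeW (hR : ∀ r ∈ R, r.Weak v) {c j P : ℕ} (h : Room.tee c j P ∈ R) :
    (P : ℝ) / 80 - 7 / 2 < v c j + v c (j + 1) + v (c + 2) j := hR _ h

theorem mulW (hR : ∀ r ∈ R, r.Weak v) {c j : ℕ} (h : Room.mul c j ∈ R) :
    1 + v c (j + 1) < (1 - v c j) * (1 - v c (j + 2)) := hR _ h

/-! ### Pins -/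

theorem mem_pins {k t₀ j t : ℕ} (h1 : t₀ ≤ t) (h2 : t < 8) :
    Room.pin (8 * k + t) j (decide (t % 2 = 0)) ∈ pins k t₀ j := by
  unfold pins
  rw [List.mem_map]
  refine ⟨t - t₀, by rw [List.mem_range]; omega, ?_⟩
  rw [show 8 * k + t₀ + (t - t₀) = 8 * k + t by omega, show t₀ + (t - t₀) = t by omega]

theorem pins_step {k t₀ j : ℕ} (hR : ∀ r ∈ pins k t₀ j, r.Weak v) {t : ℕ} (h1 : t₀ ≤ 2 * t)
    (h2 : t < 4) : v (8 * k + 2 * t) j ≤ v (8 * k + 2 * t + 2) j := by
  have e1 := mem_pins (k := k) (j := j) h1 (by omega)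
  have e2 := mem_pins (k := k) (j := j) (t₀ := t₀) (t := 2 * t + 1) (by omega) (by omega)
  rw [show decide (2 * t % 2 = 0) = true from decide_eq_true (by omega)] at e1
  rw [show decide ((2 * t + 1) % 2 = 0) = false from decide_eq_false (by omega)] at e2
  have f1 := pinT hR e1
  have f2 := pinF hR e2
  rw [← add_assoc] at f2
  rw [show 8 * k + 2 * t + 1 + 1 = 8 * k + 2 * t + 2 by ring] at f2
  linarith

theorem pins0 {k j : ℕ} (hR : ∀ r ∈ pins k 0 j, r.Weak v) : v (8 * k) j ≤ v (8 * k + 8) j := by
  have h0 := pins_step hR (t := 0) (by omega) (by omega)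
  have h1 := pins_step hR (t := 1) (by omega) (by omega)
  have h2 := pins_step hR (t := 2) (by omega) (by omega)
  have h3 := pins_step hR (t := 3) (by omega) (by omega)
  simp only [mul_zero, add_zero, mul_one] at h0 h1
  norm_num [add_assoc] at h0 h1 h2 h3
  linarith

theorem pins2 {k j : ℕ} (hR : ∀ r ∈ pins k 2 j, r.Weak v) :
    v (8 * k + 2) j ≤ v (8 * k + 8) j := by
  have h1 := pins_step hR (t := 1) (by omega) (by omega)
  have h2 := pins_step hR (t := 2) (by omega) (by omega)
  have h3 := pins_step hR (t := 3) (by omega) (by omega)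
  simp only [mul_one] at h1
  norm_num [add_assoc] at h1 h2 h3
  linarith

theorem pins4 {k j : ℕ} (hR : ∀ r ∈ pins k 4 j, r.Weak v) :
    v (8 * k + 4) j ≤ v (8 * k + 8) j := by
  have h2 := pins_step hR (t := 2) (by omega) (by omega)
  have h3 := pins_step hR (t := 3) (by omega) (by omega)
  norm_num [add_assoc] at h2 h3
  linarith

/-! ### Blocks -/

theorem swap_block {c b : ℕ} (hR : ∀ r ∈ swapRooms c b, r.Weak v) :
    v c (b + 2) ≤ v (c + 8) b ∧ v c b ≤ v (c + 8) (b + 2) := by
  have h1 := forkFT hR (c := c) (j := b) (by simp [swapRooms])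
  have h2 := forkTF hR (c := c) (j := b + 2) (by simp [swapRooms])
  have h3 := pinT hR (c := c + 1) (j := b) (by simp [swapRooms])
  have h4 := pinF hR (c := c + 2) (j := b) (by simp [swapRooms])
  have h5 := pinT hR (c := c + 3) (j := b) (by simp [swapRooms])
  have h6 := pinT hR (c := c + 1) (j := b + 3) (by simp [swapRooms])
  have h7 := pinF hR (c := c + 2) (j := b + 3) (by simp [swapRooms])
  have h8 := pinT hR (c := c + 3) (j := b + 3) (by simp [swapRooms])
  have h9 := teeW hR (c := c + 1) (j := b + 1) (P := 280) (by simp [swapRooms])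
  have h10 := forkTT hR (c := c + 3) (j := b + 1) (by simp [swapRooms])
  have h11 := teeW hR (c := c + 4) (j := b) (P := 280) (by simp [swapRooms])
  have h12 := teeW hR (c := c + 4) (j := b + 2) (P := 280) (by simp [swapRooms])
  have h13 := pinT hR (c := c + 6) (j := b) (by simp [swapRooms])
  have h14 := pinF hR (c := c + 7) (j := b) (by simp [swapRooms])
  have h15 := pinT hR (c := c + 6) (j := b + 2) (by simp [swapRooms])
  have h16 := pinF hR (c := c + 7) (j := b + 2) (by simp [swapRooms])
  norm_num [add_assoc] at h1 h2 h3 h4 h5 h6 h7 h8 h9 h10 h11 h12 h13 h14 h15 h16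
  constructor <;> linarith [h1.1, h1.2, h2.1, h2.2, h10.1, h10.2]

theorem copy_block {c b : ℕ} (hR : ∀ r ∈ copyRooms c b, r.Weak v) :
    v c b ≤ v (c + 2) b ∧ v c b ≤ v (c + 2) (b + 2) := by
  have h1 := forkTT hR (c := c) (j := b) (by simp [copyRooms])
  have h2 := pinF hR (c := c + 1) (j := b) (by simp [copyRooms])
  have h3 := forkFF hR (c := c + 1) (j := b + 1) (by simp [copyRooms])
  norm_num [add_assoc] at h1 h2 h3
  constructor <;> linarith [h1.1, h1.2, h3.1, h3.2]

theorem lin_block {c b P : ℕ} (hv : ∀ c j, |v c j| < 1 / 2)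
    (hR : ∀ r ∈ linRooms c b P, r.Weak v) :
    v c b + v c (b + 2) + v c (b + 4) < 4 - (P : ℝ) / 80 := by
  have h1 := forkTT hR (c := c) (j := b) (by simp [linRooms])
  have h2 := pinT hR (c := c) (j := b + 2) (by simp [linRooms])
  have h3 := teeW hR (c := c + 1) (j := b + 1) (P := 280) (by simp [linRooms])
  have h4 := lpinT hR (c := c) (j := b + 4) (by simp [linRooms])
  have h5 := pinF hR (c := c + 2) (j := b + 4) (by simp [linRooms])
  have h6 := forkTT hR (c := c + 3) (j := b + 1) (by simp [linRooms])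
  have h7 := pinT hR (c := c + 3) (j := b + 4) (by simp [linRooms])
  have h8 := forkFF hR (c := c + 4) (j := b + 2) (by simp [linRooms])
  have h9 := pinF hR (c := c + 4) (j := b + 4) (by simp [linRooms])
  have h10 := pinT hR (c := c + 5) (j := b + 3) (by simp [linRooms])
  have h11 := pinT hR (c := c + 5) (j := b + 4) (by simp [linRooms])
  have h12 := teeW hR (c := c + 6) (j := b + 3) (P := P) (by simp [linRooms])
  have h13 := (abs_lt.1 (hv (c + 8) (b + 3))).2
  norm_num [add_assoc] at h1 h2 h3 h4 h5 h6 h7 h8 h9 h10 h11 h12 h13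
  linarith [h1.1, h1.2, h6.1, h6.2, h8.1, h8.2]

theorem mul_block {c b : ℕ} (hv : ∀ c j, |v c j| < 1 / 2)
    (hR : ∀ r ∈ mulRooms c b, r.Weak v) :
    ∃ p q r : ℝ, v c b ≤ p ∧ v c (b + 2) ≤ q ∧ v c (b + 4) ≤ r ∧ p < 1 / 2 ∧ r < 1 / 2 ∧
      1 + q < (1 - p) * (1 - r) := by
  have h1 := forkTT hR (c := c) (j := b) (by simp [mulRooms])
  have h2 := forkTT hR (c := c) (j := b + 2) (by simp [mulRooms])
  have h3 := pinT hR (c := c) (j := b + 4) (by simp [mulRooms])
  have h4 := forkFF hR (c := c + 1) (j := b + 1) (by simp [mulRooms])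
  have h5 := pinF hR (c := c + 1) (j := b + 3) (by simp [mulRooms])
  have h6 := pinF hR (c := c + 1) (j := b + 4) (by simp [mulRooms])
  have h7 := mulW hR (c := c + 2) (j := b + 2) (by simp [mulRooms])
  norm_num [add_assoc] at h1 h2 h3 h4 h5 h6 h7
  refine ⟨v (c + 2) (b + 2), v (c + 2) (b + 3), v (c + 2) (b + 4), ?_, ?_, ?_,
    (abs_lt.1 (hv _ _)).2, (abs_lt.1 (hv _ _)).2, h7⟩
  · linarith [h1.2, h4.2]
  · linarith [h2.2]
  · linarith

theorem mul_anti {a b c p q r : ℝ} (ha : a ≤ p) (hb : b ≤ q) (hc : c ≤ r) (hp : p < 1 / 2)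
    (hr : r < 1 / 2) (h : 1 + q < (1 - p) * (1 - r)) : 1 + b < (1 - a) * (1 - c) := by
  have h1 : (1 - p) * (1 - r) ≤ (1 - a) * (1 - r) :=
    mul_le_mul_of_nonneg_right (by linarith) (by linarith)
  have h2 : (1 - a) * (1 - r) ≤ (1 - a) * (1 - c) :=
    mul_le_mul_of_nonneg_left (by linarith) (by linarith)
  linarith

theorem gate_block {kind c b : ℕ} (hv : ∀ c j, |v c j| < 1 / 2)
    (hR : ∀ r ∈ gateRooms kind c b, r.Weak v) {p q r : ℝ} (hp : p ≤ v c b)
    (hq : q ≤ v c (b + 2)) (hr : r ≤ v c (b + 4)) : gateRel kind p q r := by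
  unfold gateRel
  unfold gateRooms at hR
  by_cases h0 : kind = 0
  · rw [if_pos h0] at hR ⊢
    have := lin_block hv hR
    norm_num at this
    linarith
  rw [if_neg h0] at hR ⊢
  by_cases h1 : kind = 1
  · rw [if_pos h1] at hR ⊢
    have := lin_block hv hR
    norm_num at this ⊢
    linarith
  rw [if_neg h1] at hR ⊢
  by_cases h2 : kind = 2
  · rw [if_pos h2] at hR ⊢
    have := lin_block hv hR
    norm_num at this ⊢
    linarith
  rw [if_neg h2] at hR ⊢
  obtain ⟨p', q', r', h1, h2, h3, h4, h5, h6⟩ := mul_block hv hR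
  exact mul_anti (hp.trans h1) (hq.trans h2) (hr.trans h3) h4 h5 h6

theorem wires_le {k : ℕ} {l : List ℕ} (hR : ∀ r ∈ wires k l, r.Weak v) {i : ℕ} (hi : i ∈ l) :
    v (8 * k) (2 * i) ≤ v (8 * k + 8) (2 * i) :=
  pins0 fun r hr => hR r (List.mem_flatMap.2 ⟨i, hi, hr⟩)

theorem src_block {i : ℕ} (hR : ∀ r ∈ srcRooms i, r.Weak v) :
    v 0 (4 * i) ≤ v 8 (4 * i) ∧ - v 0 (4 * i) ≤ v 8 (4 * i + 2) := by
  have h1 := forkTF hR (c := 0) (j := 4 * i) (by simp [srcRooms])
  have h2 := pinF hR (c := 1) (j := 4 * i) (by simp [srcRooms])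
  have h3 := forkTT hR (c := 1) (j := 4 * i + 1) (by simp [srcRooms])
  have h4 := lpinF hR (c := 2) (j := 4 * i + 2) (by simp [srcRooms])
  have h5 : v (8 * 0 + 2) (4 * i) ≤ v (8 * 0 + 8) (4 * i) :=
    pins2 fun r hr => hR r (by simp only [srcRooms, List.mem_append]; tauto)
  have h6 : v (8 * 0 + 4) (4 * i + 2) ≤ v (8 * 0 + 8) (4 * i + 2) :=
    pins4 fun r hr => hR r (by simp only [srcRooms, List.mem_append]; tauto)
  norm_num [add_assoc] at h1 h2 h3 h4 h5 h6
  constructor <;> linarith [h1.1, h1.2, h3.1, h3.2]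

/-! ### Programs -/

/-- the rooms of the operations in the blocks `k, k + 1, ...` satisfy the weak conditions -/
def BW (n : ℕ) (v : ℕ → ℕ → ℝ) : ℕ → List Op → Prop
  | _, [] => True
  | k, o :: ops => (∀ r ∈ blockRooms n k o, r.Weak v) ∧ BW n v (k + 1) ops

theorem BW_append {n : ℕ} {A B : List Op} : ∀ {k : ℕ}, BW n v k (A ++ B) →
    BW n v k A ∧ BW n v (k + A.length) B := by
  induction A with
  | nil => intro k h; exact ⟨trivial, by simpa using h⟩
  | cons o A ih =>
    intro k h
    obtain ⟨h1, h2⟩ := h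
    obtain ⟨h3, h4⟩ := ih h2
    refine ⟨⟨h1, h3⟩, ?_⟩
    rw [List.length_cons, show k + (A.length + 1) = k + 1 + A.length by ring]
    exact h4

theorem BW_of_zipIdx {n : ℕ} {ops : List Op} : ∀ {m : ℕ},
    (∀ q ∈ ops.zipIdx m, ∀ r ∈ blockRooms n (q.2 + 1) q.1, r.Weak v) → BW n v (m + 1) ops := by
  induction ops with
  | nil => intro m _; trivial
  | cons o ops ih =>
    intro m h
    rw [List.zipIdx_cons] at h
    exact ⟨h (o, m) (List.mem_cons_self ..), ih fun q hq => h q (List.mem_cons_of_mem _ hq)⟩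

/-- the wires carry (at least) the values of their labels at the beginning of the block `k` -/
def Good (n : ℕ) (v : ℕ → ℕ → ℝ) (x : ℕ → ℝ) (k : ℕ) (lab : ℕ → Option ℕ) : Prop :=
  ∀ i < 2 * n + 3, ∀ l, lab i = some l → litVal x l ≤ v (8 * k) (2 * i)

/-- the operations transform the labels by `f` -/
def Trans (n : ℕ) (v : ℕ → ℕ → ℝ) (x : ℕ → ℝ) (ops : List Op)
    (f : (ℕ → Option ℕ) → (ℕ → Option ℕ)) : Prop :=
  ∀ k lab, BW n v k ops → Good n v x k lab → Good n v x (k + ops.length) (f lab)

theorem Trans.append {n : ℕ} {x : ℕ → ℝ} {A B : List Op}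
    {f g : (ℕ → Option ℕ) → (ℕ → Option ℕ)} (hA : Trans n v x A f) (hB : Trans n v x B g) :
    Trans n v x (A ++ B) (fun lab => g (f lab)) := by
  intro k lab h1 h2
  obtain ⟨h3, h4⟩ := BW_append h1
  rw [List.length_append, ← add_assoc]
  exact hB _ _ h4 (hA _ _ h3 h2)

theorem trans_swap {n : ℕ} {x : ℕ → ℝ} {i : ℕ} (hi : i + 1 < 2 * n + 3) :
    Trans n v x [Op.swap i] (fun lab j => if j = i then lab (i + 1) else if j = i + 1 then lab i
      else lab j) := by
  intro k lab h1 h2 j hj l hl
  have hR := h1.1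
  have hS : ∀ r ∈ swapRooms (8 * k) (2 * i), r.Weak v := fun r hr => hR r (by
    simp only [blockRooms, List.mem_append]; tauto)
  have hW1 : ∀ r ∈ wires k (List.range i), r.Weak v := fun r hr => hR r (by
    simp only [blockRooms, List.mem_append]; tauto)
  have hW2 : ∀ r ∈ wires k ((List.range (2 * n + 3 - (i + 2))).map (fun t => i + 2 + t)),
      r.Weak v := fun r hr => hR r (by
    simp only [blockRooms, List.mem_append]; tauto)
  obtain ⟨s1, s2⟩ := swap_block hS
  simp only [List.length_singleton]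
  rw [mul_add, mul_one]
  by_cases e1 : j = i
  · subst e1
    simp only [if_true] at hl
    exact (h2 (j + 1) hi l hl).trans (by rw [mul_add, mul_one]; exact s1)
  simp only [if_neg e1] at hl
  by_cases e2 : j = i + 1
  · subst e2
    simp only [if_true] at hl
    refine (h2 i (by omega) l hl).trans ?_
    rw [mul_add 2, mul_one]; exact s2
  simp only [if_neg e2] at hl
  refine (h2 j hj l hl).trans ?_
  rcases lt_or_gt_of_ne e1 with h | h
  · exact wires_le hW1 (List.mem_range.2 h)
  · refine wires_le hW2 (List.mem_map.2 ⟨j - (i + 2), List.mem_range.2 (by omega), by omega⟩)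

theorem trans_copy {n : ℕ} {x : ℕ → ℝ} {i : ℕ} (hi : i + 1 < 2 * n + 3) :
    Trans n v x [Op.copy i] (fun lab => Function.update lab (i + 1) (lab i)) := by
  intro k lab h1 h2 j hj l hl
  have hR := h1.1
  have hS : ∀ r ∈ copyRooms (8 * k) (2 * i), r.Weak v := fun r hr => hR r (by
    simp only [blockRooms, List.mem_append]; tauto)
  have hP1 : ∀ r ∈ pins k 2 (2 * i), r.Weak v := fun r hr => hR r (by
    simp only [blockRooms, List.mem_append]; tauto)
  have hP2 : ∀ r ∈ pins k 2 (2 * i + 2), r.Weak v := fun r hr => hR r (by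
    simp only [blockRooms, List.mem_append]; tauto)
  have hW1 : ∀ r ∈ wires k (List.range i), r.Weak v := fun r hr => hR r (by
    simp only [blockRooms, List.mem_append]; tauto)
  have hW2 : ∀ r ∈ wires k ((List.range (2 * n + 3 - (i + 2))).map (fun t => i + 2 + t)),
      r.Weak v := fun r hr => hR r (by
    simp only [blockRooms, List.mem_append]; tauto)
  obtain ⟨s1, s2⟩ := copy_block hS
  have p1 := pins2 hP1
  have p2 := pins2 hP2
  simp only [List.length_singleton]
  rw [mul_add, mul_one]
  simp only at hl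
  by_cases e2 : j = i + 1
  · subst e2
    rw [Function.update_self] at hl
    refine (h2 i (by omega) l hl).trans ?_
    rw [mul_add 2, mul_one]; exact s2.trans p2
  rw [Function.update_of_ne e2] at hl
  refine (h2 j hj l hl).trans ?_
  by_cases e1 : j = i
  · subst e1; exact s1.trans p1
  rcases lt_or_gt_of_ne e1 with h | h
  · exact wires_le hW1 (List.mem_range.2 h)
  · refine wires_le hW2 (List.mem_map.2 ⟨j - (i + 2), List.mem_range.2 (by omega), by omega⟩)

theorem fetch_one (b : ℕ) : fetch b (b + 1) = [Op.copy b] := by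
  simp [fetch]

theorem fetch_succ {b T : ℕ} (h : b < T) :
    fetch b (T + 1) = [Op.swap T] ++ fetch b T ++ [Op.swap T] := by
  obtain ⟨m, rfl⟩ : ∃ m, T = b + 1 + m := ⟨T - (b + 1), by omega⟩
  unfold fetch
  rw [show b + 1 + m + 1 - 1 - b = m + 1 by omega, show b + 1 + m - 1 - b = m by omega,
    show b + 1 + m + 1 - 1 = b + 1 + m by omega, show b + 1 + m - 1 = b + m by omega]
  conv_lhs => rw [List.range_succ_eq_map, List.map_cons, List.map_map]
  conv_lhs =>
    rw [← List.range_succ_eq_map, List.range_succ, List.map_append, List.map_singleton]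
  have : (List.range m).map ((fun d => Op.swap (b + 1 + m - d)) ∘ Nat.succ)
      = (List.range m).map (fun d => Op.swap (b + m - d)) := by
    apply List.map_congr_left
    intro d hd
    simp only [Function.comp]
    congr 1
    omega
  rw [this]
  simp

theorem trans_fetch {n : ℕ} {x : ℕ → ℝ} {b : ℕ} : ∀ T, b < T → T < 2 * n + 3 →
    Trans n v x (fetch b T) (fun lab => Function.update lab T (lab b)) := by
  intro T hT
  induction T, hT using Nat.le_induction with
  | base =>
    intro h
    rw [fetch_one]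
    exact trans_copy h
  | succ T hT ih =>
    intro h
    rw [fetch_succ hT]
    have h1 := (trans_swap (v := v) (x := x) h).append (ih (by omega))
    have h2 := h1.append (trans_swap (v := v) (x := x) h)
    intro k lab a1 a2
    have := h2 k lab a1 a2
    convert this using 1
    funext j
    have hb1 : b ≠ T := by omega
    have hb2 : b ≠ T + 1 := by omega
    simp only [Function.update_apply, if_neg hb1, if_neg hb2]
    by_cases e1 : j = T
    · subst e1
      simp
    · by_cases e2 : j = T + 1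
      · subst e2
        simp
      · simp [e1, e2]

theorem trans_gate {n : ℕ} {x : ℕ → ℝ} {kind : ℕ} :
    Trans n v x [Op.gate kind] (fun lab j => if j < 2 * n then lab j else none) := by
  intro k lab h1 h2 j hj l hl
  have hR := h1.1
  have hW1 : ∀ r ∈ wires k (List.range (2 * n)), r.Weak v := fun r hr => hR r (by
    simp only [blockRooms, List.mem_append]; tauto)
  simp only [List.length_singleton]
  rw [mul_add, mul_one]
  by_cases e : j < 2 * n
  · simp only [if_pos e] at hl
    exact (h2 j hj l hl).trans (wires_le hW1 (List.mem_range.2 e))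
  · simp only [if_neg e] at hl
    exact absurd hl (by simp)

theorem gate_holds {n : ℕ} {x : ℕ → ℝ} {kind : ℕ} (hv : ∀ c j, |v c j| < 1 / 2) {k : ℕ}
    {lab : ℕ → Option ℕ} (h1 : BW n v k [Op.gate kind]) (h2 : Good n v x k lab) {a b c : ℕ}
    (ha : lab (2 * n) = some a) (hb : lab (2 * n + 1) = some b) (hc : lab (2 * n + 2) = some c) :
    gateRel kind (litVal x a) (litVal x b) (litVal x c) := by
  have hR := h1.1
  have hG : ∀ r ∈ gateRooms kind (8 * k) (4 * n), r.Weak v := fun r hr => hR r (by
    simp only [blockRooms, List.mem_append]; tauto)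
  refine gate_block hv hG ?_ ?_ ?_
  · have := h2 _ (by omega) _ ha
    rwa [show 2 * (2 * n) = 4 * n by ring] at this
  · have := h2 _ (by omega) _ hb
    rwa [show 2 * (2 * n + 1) = 4 * n + 2 by ring] at this
  · have := h2 _ (by omega) _ hc
    rwa [show 2 * (2 * n + 2) = 4 * n + 4 by ring] at this

theorem prog_sound {n : ℕ} {x : ℕ → ℝ} (hv : ∀ c j, |v c j| < 1 / 2) :
    ∀ (gs : List Gate) (_ : InRange (2 * n) gs) (k : ℕ) (lab : ℕ → Option ℕ)
      (_ : ∀ i < 2 * n, lab i = some i), BW n v k (prog n gs) → Good n v x k lab →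
      ∀ g ∈ gs, gateOK x g := by
  intro gs
  induction gs with
  | nil => intro _ _ _ _ _ _ g hg; exact absurd hg (by simp)
  | cons g gs ih =>
    intro hr k lab hlab hB hG
    have hg := hr g (List.mem_cons_self ..)
    obtain ⟨ha, hb, hc⟩ := hg
    rw [show prog n (g :: gs) = gateProg n g ++ prog n gs by simp [prog]] at hB
    obtain ⟨hB1, hB2⟩ := BW_append hB
    unfold gateProg at hB1
    -- the three fetches
    have t1 := trans_fetch (v := v) (x := x) (n := n) (b := g.2.2.2) (2 * n + 2) (by omega)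
      (by omega)
    have t2 := trans_fetch (v := v) (x := x) (n := n) (b := g.2.2.1) (2 * n + 1) (by omega)
      (by omega)
    have t3 := trans_fetch (v := v) (x := x) (n := n) (b := g.2.1) (2 * n) (by omega)
      (by omega)
    have t := (t1.append t2).append t3
    obtain ⟨hB3, hB4⟩ := BW_append hB1
    have hG3 := t _ _ hB3 hG
    set lab3 := Function.update (Function.update (Function.update lab (2 * n + 2) (lab g.2.2.2))
      (2 * n + 1) ((Function.update lab (2 * n + 2) (lab g.2.2.2)) g.2.2.1)) (2 * n)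
      ((Function.update (Function.update lab (2 * n + 2) (lab g.2.2.2))
      (2 * n + 1) ((Function.update lab (2 * n + 2) (lab g.2.2.2)) g.2.2.1)) g.2.1) with hlab3
    have l0 : lab3 (2 * n) = some g.2.1 := by
      rw [hlab3, Function.update_self, Function.update_of_ne (by omega),
        Function.update_of_ne (by omega), hlab _ ha]
    have l1 : lab3 (2 * n + 1) = some g.2.2.1 := by
      rw [hlab3, Function.update_of_ne (by omega), Function.update_self,
        Function.update_of_ne (by omega), hlab _ hb]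
    have l2 : lab3 (2 * n + 2) = some g.2.2.2 := by
      rw [hlab3, Function.update_of_ne (by omega), Function.update_of_ne (by omega),
        Function.update_self, hlab _ hc]
    have l3 : ∀ i < 2 * n, lab3 i = some i := by
      intro i hi
      rw [hlab3, Function.update_of_ne (by omega), Function.update_of_ne (by omega),
        Function.update_of_ne (by omega), hlab _ hi]
    have hgate := gate_holds hv hB4 hG3 l0 l1 l2
    have hG4 := trans_gate _ _ hB4 hG3
    have hG5 : Good n v x (k + (gateProg n g).length)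
        (fun j => if j < 2 * n then lab3 j else none) := by
      have : k + (gateProg n g).length = k + (fetch g.2.2.2 (2 * n + 2)
          ++ fetch g.2.2.1 (2 * n + 1) ++ fetch g.2.1 (2 * n)).length
          + [Op.gate g.1].length := by
        unfold gateProg
        simp only [List.length_append]
        ring
      rw [this]
      exact hG4
    intro g' hg'
    rcases List.mem_cons.1 hg' with rfl | hg'
    · exact hgate
    · exact ih (fun e he => hr e (List.mem_cons_of_mem _ he)) _ _
        (fun i hi => by simp only [if_pos hi]; exact l3 i hi) hB2 hG5 g' hg'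

end N2

/-- N2, N3 -/
theorem layout_sound (n : ℕ) (gs : List Gate) (h : InRange (2 * n) gs) {v : ℕ → ℕ → ℝ}
    (hv : ∀ c j, Used (layout n gs) (c, j, 0) → |v c j| < 1 / 2)
    (hw : ∀ r ∈ layout n gs, r.Weak v) :
    ∃ x : ℕ → ℝ, (∀ i, |x i| < 1 / 2) ∧ ∀ g ∈ gs, gateOK x g := by
  have hv' := N2.clean_lt hv
  have hw' := N2.clean_weak hw
  set u := N2.clean (layout n gs) v with hu
  refine ⟨fun i => u 0 (4 * i), fun i => hv' _ _, ?_⟩
  have hB : N2.BW n u 1 (prog n gs) := by
    apply N2.BW_of_zipIdx (m := 0)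
    intro q hq r hr
    apply hw'
    unfold layout progRooms
    rw [List.mem_append]
    exact Or.inr (List.mem_flatMap.2 ⟨q, hq, hr⟩)
  have hS : ∀ i < n, ∀ r ∈ srcRooms i, r.Weak u := by
    intro i hi r hr
    apply hw'
    unfold layout progRooms
    rw [List.mem_append]
    exact Or.inl (List.mem_flatMap.2 ⟨i, List.mem_range.2 hi, hr⟩)
  refine N2.prog_sound hv' gs h 1 (fun i => if i < 2 * n then some i else none)
    (fun i hi => by simp only [if_pos hi]) hB ?_
  intro i _ l hl
  by_cases hi : i < 2 * n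
  · simp only [if_pos hi, Option.some.injEq] at hl
    subst hl
    obtain ⟨s1, s2⟩ := N2.src_block (hS (i / 2) (by omega))
    unfold litVal
    by_cases h2 : i % 2 = 0
    · rw [if_pos h2]
      have e : 4 * (i / 2) = 2 * i := by omega
      rw [e] at s1
      simp only [mul_one, e]
      exact s1
    · rw [if_neg h2]
      have e : 4 * (i / 2) + 2 = 2 * i := by omega
      rw [e] at s2
      simp only [mul_one]
      exact s2
  · simp only [if_neg hi] at hl
    exact absurd hl (by simp)

end Pool.Agent.SegDraw
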