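import Pool.Agent.Lib.MP_431574_lc.Defs

/-!
# Rooms: the local gadgets of the drawing, and drawings of a list of rooms

The plane is organised in columns (at `X = 30 c`) and lanes (the lane `j` meets the column `c` in
the door `{30 c} × (480 j, 480 j + 240)`).  A vertex with label `(c, j, 0)` lives on this door; its
*value* is `(Y - 480 j - 120) / 240 ∈ (-1/2, 1/2)`.
-/

namespace Pool.Agent.SegDraw

/-- Labels of vertices: `(c, j, 0)` is the vertex on the door of the lane `j` in the column `c`,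
`(c, j, k)` with `k > 0` are the inner vertices of the room based at `(c, j)`. -/
abbrev Label := ℕ × ℕ × ℕ

/-- First end of the segment of a label. -/
def segA : Label → ℕ × ℕ
  | (c, j, 0) => (30 * c, 480 * j)
  | (c, j, 1) => (30 * c + 30, 480 * j + 240)
  | (c, j, 2) => (30 * c + 30, 480 * j + 390)
  | (c, j, 3) => (30 * c + 30, 480 * j + 360)
  | (c, j, _) => (30 * c + 60, 480 * j + 120)

/-- Second end of the segment of a label. -/
def segB : Label → ℕ × ℕ
  | (c, j, 0) => (30 * c, 480 * j + 240)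
  | (c, j, 1) => (30 * c + 30, 480 * j + 480)
  | (c, j, 2) => (30 * c + 30, 480 * j + 450)
  | (c, j, 3) => (30 * c + 60, 480 * j + 360)
  | (c, j, _) => (30 * c + 60, 480 * j + 360)

/-- The point of the plane with natural coordinates. -/
def npt (a : ℕ × ℕ) : ℝ × ℝ := ((a.1 : ℝ), (a.2 : ℝ))

/-- The gadgets. In all cases `c` is the left column and `j` the lowest lane of the room.
A sign `false` means that the sum of the values at the two ends is `≥ 0`, a sign `true` that it is `≤ 0`. -/
inductive Room where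
  /-- edge from `(c, j)` to `(c + 1, j)` -/
  | pin (c j : ℕ) (s : Bool)
  /-- edge from `(c, j)` to `(c + 2, j)` -/
  | lpin (c j : ℕ) (s : Bool)
  /-- edges from `(c, j)` to `(c + 1, j)` (sign `s`) and to `(c + 1, j + 1)` (sign `t`) -/
  | fork (c j : ℕ) (s t : Bool)
  /-- `v (c, j) + v (c, j + 1) + v (c + 2, j) > P / 80 - 7 / 2` -/
  | tee (c j P : ℕ)
  /-- `1 + v (c, j + 1) < (1 - v (c, j)) * (1 - v (c, j + 2))` -/
  | mul (c j : ℕ)

namespace Room

/-- left column -/
def col : Room → ℕ
  | pin c _ _ => c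
  | lpin c _ _ => c
  | fork c _ _ _ => c
  | tee c _ _ => c
  | mul c _ => c

/-- lowest lane -/
def lane : Room → ℕ
  | pin _ j _ => j
  | lpin _ j _ => j
  | fork _ j _ _ => j
  | tee _ j _ => j
  | mul _ j => j

/-- width in columns -/
def width : Room → ℕ
  | pin _ _ _ => 1
  | lpin _ _ _ => 2
  | fork _ _ _ _ => 1
  | tee _ _ _ => 2
  | mul _ _ => 3

/-- number of lanes -/
def lanes : Room → ℕ
  | pin _ _ _ => 1
  | lpin _ _ _ => 1
  | fork _ _ _ _ => 2
  | tee _ _ _ => 2
  | mul _ _ => 3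

/-- the edges, oriented from left to right -/
def edges : Room → List (Label × Label)
  | pin c j _ => [((c, j, 0), (c + 1, j, 0))]
  | lpin c j _ => [((c, j, 0), (c + 2, j, 0))]
  | fork c j _ _ => [((c, j, 0), (c + 1, j, 0)), ((c, j, 0), (c + 1, j + 1, 0))]
  | tee c j _ => [((c, j, 0), (c, j, 1)), ((c, j + 1, 0), (c + 2, j, 0))]
  | mul c j => [((c, j, 0), (c, j, 3)), ((c, j + 1, 0), (c, j, 4)), ((c, j + 2, 0), (c, j, 2))]

/-- the number `0` or `120` given by a sign -/
def off (s : Bool) : ℕ := bif s then 120 else 0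

/-- the obstacles: vertical segments `(x, y₁, y₂)` from `(x, y₁)` to `(x, y₂)` -/
def obst : Room → List (ℕ × ℕ × ℕ)
  | pin c j s => [(30 * c + 15, 480 * j + off s, 480 * j + off s + 120)]
  | lpin c j s => [(30 * c + 30, 480 * j + off s, 480 * j + off s + 120)]
  | fork c j s t => [(30 * c + 15, 480 * j + off s, 480 * j + off s + 120),
      (30 * c + 15, 480 * j + 240 + off t, 480 * j + 240 + off t + 120)]
  | tee c j P => [(30 * c + 20, 480 * j, 480 * j + P)]
  | mul c j => [(30 * c + 30, 480 * j + 300, 480 * j + 360),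
      (30 * c + 24, 480 * j + 552, 480 * j + 600)]

/-- the weak sign condition on a real number -/
def Wk (s : Bool) (a : ℝ) : Prop := if s = true then a ≤ 0 else 0 ≤ a

/-- the strong sign condition on a real number -/
def St (s : Bool) (a : ℝ) : Prop := if s = true then a < 0 else 0 < a

/-- the condition on the values `v` which holds in every drawing -/
def Weak (v : ℕ → ℕ → ℝ) : Room → Prop
  | pin c j s => Wk s (v c j + v (c + 1) j)
  | lpin c j s => Wk s (v c j + v (c + 2) j)
  | fork c j s t => Wk s (v c j + v (c + 1) j) ∧ Wk t (v c j + v (c + 1) (j + 1))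
  | tee c j P => (P : ℝ) / 80 - 7 / 2 < v c j + v c (j + 1) + v (c + 2) j
  | mul c j => 1 + v c (j + 1) < (1 - v c j) * (1 - v c (j + 2))

/-- the condition on the values `v` which suffices for the existence of a drawing -/
def Strong (v : ℕ → ℕ → ℝ) : Room → Prop
  | pin c j s => St s (v c j + v (c + 1) j)
  | lpin c j s => St s (v c j + v (c + 2) j)
  | fork c j s t => St s (v c j + v (c + 1) j) ∧ St t (v c j + v (c + 1) (j + 1))
  | tee c j P => (P : ℝ) / 80 - 7 / 2 < v c j + v c (j + 1) + v (c + 2) j ∧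
      280 ≤ P ∧ (P : ℝ) / 80 - 9 / 2 < v c j ∧
      (P : ℝ) / 80 - 11 / 2 < 2 * v c (j + 1) + v (c + 2) j
  | mul c j => 1 + v c (j + 1) < (1 - v c j) * (1 - v c (j + 2)) ∧
      |v c j| < 1 / 8 ∧ |v c (j + 1)| < 1 / 8 ∧ |v c (j + 2)| < 1 / 8

end Room

/-- The rooms `r` and `r'` have disjoint interiors. -/
def Sep (r r' : Room) : Prop :=
  r.col + r.width ≤ r'.col ∨ r'.col + r'.width ≤ r.col ∨
    r.lane + r.lanes ≤ r'.lane ∨ r'.lane + r'.lanes ≤ r.lane

/-- all edges of a list of rooms -/
def allEdges (L : List Room) : List (Label × Label) := L.flatMap Room.edges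

/-- all obstacles of a list of rooms -/
def allObst (L : List Room) : List (ℕ × ℕ × ℕ) := L.flatMap Room.obst

/-- `u` is an end of some edge of the list of rooms -/
def Used (L : List Room) (u : Label) : Prop := ∃ e ∈ allEdges L, u = e.1 ∨ u = e.2

/-- A drawing of a list of rooms, for the crossing notion `C`. -/
structure LDraw (C : ℝ × ℝ → ℝ × ℝ → ℝ × ℝ → ℝ × ℝ → Prop) (L : List Room)
    (p : Label → ℝ × ℝ) : Prop where
  place : ∀ u, Used L u → p u ∈ openSegment ℝ (npt (segA u)) (npt (segB u))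
  inj : ∀ u u', Used L u → Used L u' → p u = p u' → u = u'
  vertex : ∀ e ∈ allEdges L, ∀ w, Used L w → w ≠ e.1 → w ≠ e.2 →
    p w ∉ segment ℝ (p e.1) (p e.2)
  edge : ∀ e ∈ allEdges L, ∀ e' ∈ allEdges L, e ≠ e' →
    ∀ x ∈ segment ℝ (p e.1) (p e.2), x ∈ segment ℝ (p e'.1) (p e'.2) →
      ∃ w, (w = e.1 ∨ w = e.2) ∧ (w = e'.1 ∨ w = e'.2) ∧ x = p w
  obst : ∀ e ∈ allEdges L, ∀ o ∈ allObst L,
    ¬ C (p e.1) (p e.2) (npt (o.1, o.2.1)) (npt (o.1, o.2.2))

/-- the value of a position on a door -/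
noncomputable def val (p : Label → ℝ × ℝ) (c j : ℕ) : ℝ := ((p (c, j, 0)).2 - 480 * j - 120) / 240

end Pool.Agent.SegDraw
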