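import Pool.Agent.Lib.MP_431574_lc.Blocks

/-!
# Systems of equations and their translations

* `ECon`: constraints `x_i = 1`, `x_i + x_j = x_k`, `x_i x_j = x_k` over the reals;
* `CCon`: constraints `x_i = 1 / 32`, `x_i + x_j = x_k`, `x_i x_j = x_k` (used for small reals);
* `cSys`: the translation of an `ECon` system into a `CCon` system;
* `gatesOf`: the translation of a `CCon` system into a gate system.
-/

namespace Pool.Agent.SegDraw

/-- `(0, i, _, _)`: `x_i = 1`; `(1, i, j, k)`: `x_i + x_j = x_k`; otherwise: `x_i x_j = x_k`. -/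
abbrev ECon := ℕ × ℕ × ℕ × ℕ

/-- the residual of a constraint -/
noncomputable def eRes (V : ℕ → ℝ) (e : ECon) : ℝ :=
  if e.1 = 0 then V e.2.1 - 1
  else if e.1 = 1 then V e.2.1 + V e.2.2.1 - V e.2.2.2
  else V e.2.1 * V e.2.2.1 - V e.2.2.2

/-- `V` solves the system -/
def ESat (L : List ECon) (V : ℕ → ℝ) : Prop := ∀ e ∈ L, eRes V e = 0

/-- `(0, i, _, _)`: `x_i = 1 / 32`; `(1, i, j, k)`: `x_i + x_j = x_k`; otherwise: `x_i x_j = x_k`. -/
abbrev CCon := ℕ × ℕ × ℕ × ℕ

/-- the residual of a constraint (with integer coefficients) -/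
noncomputable def cRes (x : ℕ → ℝ) (e : CCon) : ℝ :=
  if e.1 = 0 then 32 * x e.2.1 - 1
  else if e.1 = 1 then x e.2.1 + x e.2.2.1 - x e.2.2.2
  else x e.2.1 * x e.2.2.1 - x e.2.2.2

/-- `x` solves the system -/
def CSat (L : List CCon) (x : ℕ → ℝ) : Prop := ∀ e ∈ L, cRes x e = 0

/-- all indices of the system are `< n` -/
def InRange (n : ℕ) (L : List (ℕ × ℕ × ℕ × ℕ)) : Prop :=
  ∀ e ∈ L, e.2.1 < n ∧ e.2.2.1 < n ∧ e.2.2.2 < n

/-- the exponent in the bounds of real algebra -/
def bnd (N l : ℕ) : ℕ := 10 * (N + l + 1)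

open MvPolynomial in
/-- sum of the absolute values of the coefficients -/
noncomputable def l1 {N : ℕ} (g : MvPolynomial (Fin N) ℤ) : ℕ := g.support.sum (fun m => (g.coeff m).natAbs)

/-- the value at `(s, y)` of a polynomial in `y` with coefficients in `ℤ[s]` -/
noncomputable def aev2 (F : Polynomial (Polynomial ℤ)) (s y : ℝ) : ℝ :=
  F.eval₂ (Polynomial.eval₂RingHom (Int.castRingHom ℝ) s) y

/-- the sum of the absolute values of all coefficients of a polynomial over `ℤ[s]` -/
noncomputable def nrm (F : Polynomial (Polynomial ℤ)) : ℕ :=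
  F.support.sum (fun i => (F.coeff i).support.sum (fun j => ((F.coeff i).coeff j).natAbs))

/-- a bound for the indices of a system -/
def idxBound (L : List (ℕ × ℕ × ℕ × ℕ)) : ℕ :=
  (L.map (fun e => e.2.1 + e.2.2.1 + e.2.2.2)).sum + 1

/-- number of squarings used to define the scale -/
def sq1 (L : List ECon) : ℕ := bnd (idxBound L) (L.length + 4)

/-- The compact system of an `ECon` system. Variables, with `N = idxBound L`, `M = sq1 L`:
`i < N`: the scaled variable `c_M V_i`; `N`: zero; `N + 1 + t` for `t ≤ M`: `c_t = 32 ^ (- 2 ^ t)`;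
`N + M + 2 + e`: the auxiliary variable of the `e`-th constraint. -/
def cSys (L : List ECon) : List CCon :=
  let N := idxBound L
  let M := sq1 L
  [(0, N + 1, 0, 0), (1, N, N, N)] ++
  (List.range M).map (fun t => (2, N + 1 + t, N + 1 + t, N + 2 + t)) ++
  L.zipIdx.flatMap (fun q =>
    if q.1.1 = 0 then [(1, q.1.2.1, N, N + 1 + M)]
    else if q.1.1 = 1 then [(1, q.1.2.1, q.1.2.2.1, q.1.2.2.2)]
    else [(2, q.1.2.1, q.1.2.2.1, N + M + 2 + q.2), (2, N + 1 + M, q.1.2.2.2, N + M + 2 + q.2)])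

/-- number of variables of the compact system -/
def cNum (L : List ECon) : ℕ := idxBound L + sq1 L + 2 + L.length

/-- positive literal -/
def pl (i : ℕ) : ℕ := 2 * i
/-- negative literal -/
def ng (i : ℕ) : ℕ := 2 * i + 1

/-- Gates of a constraint; `τ` is the index of the tolerance and `a, ..., a + 5` are the indices of
auxiliary variables. -/
def conGates (τ a : ℕ) (e : CCon) : List Gate :=
  if e.1 = 0 then
    [(1, pl e.2.1, pl e.2.1, ng τ), (2, ng e.2.1, ng e.2.1, ng τ)]
  else if e.1 = 1 then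
    [(0, pl e.2.1, pl e.2.2.1, ng a), (0, pl a, ng e.2.2.2, ng τ),
     (0, ng e.2.1, ng e.2.2.1, ng (a + 1)), (0, pl (a + 1), pl e.2.2.2, ng τ)]
  else
    [ -- `x_k < x_i x_j + τ`
     (0, pl e.2.1, pl e.2.2.1, ng a), (0, pl e.2.2.2, ng τ, ng (a + 1)),
     (0, pl a, pl (a + 1), ng (a + 2)), (3, ng e.2.1, pl (a + 2), ng e.2.2.1),
     -- `- x_k < - x_i x_j + τ`
     (0, ng e.2.1, pl e.2.2.1, ng (a + 3)), (0, ng e.2.2.2, ng τ, ng (a + 4)),
     (0, pl (a + 3), pl (a + 4), ng (a + 5)), (3, pl e.2.1, pl (a + 5), ng e.2.2.1)]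

/-- Gates for `0 < t_k`, `t_{k+1} < t_k ^ 2`, where `t` is the index of `t_k`, `t + 1` the index of
`t_{k+1}` and `a`, `a + 1` are the indices of auxiliary variables. -/
def chainGates (t a : ℕ) : List Gate :=
  [(0, ng t, ng t, ng t), (0, pl t, pl t, ng a), (0, pl a, pl (t + 1), ng (a + 1)),
   (3, ng t, pl (a + 1), ng t)]

/-- The gate system of a `CCon` system on `n` variables: the tolerance is `t_m`, the last variable
of the chain `t_0, ..., t_m` which has the indices `n, ..., n + m`. -/
def gatesOf (n m : ℕ) (L : List CCon) : List Gate :=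
  L.zipIdx.flatMap (fun q => conGates (n + m) (n + m + 1 + 6 * q.2) q.1) ++
  (List.range m).flatMap (fun k => chainGates (n + k) (n + m + 1 + 6 * (L.length + k))) ++
  [(0, ng (n + m), ng (n + m), ng (n + m))]

/-- number of variables of the gate system -/
def gNum (n m : ℕ) (L : List CCon) : ℕ := n + m + 1 + 6 * (L.length + m)

/-- number of squarings used to define the tolerance -/
def sq2 (n : ℕ) (L : List CCon) : ℕ := bnd (2 * n) (11 + L.length + n) + L.length + 10

/-- the gate system of an `ECon` system: number of variables and gates -/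
def strict (L : List ECon) : ℕ × List Gate :=
  (gNum (cNum L) (sq2 (cNum L) (cSys L)) (cSys L),
   gatesOf (cNum L) (sq2 (cNum L) (cSys L)) (cSys L))

end Pool.Agent.SegDraw
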